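import Pool.Agent.Lib.MP_0d9445_pr.CR.Defs

/-! Dyadic geometry. -/

open MeasureTheory ProbabilityTheory Set Filter Topology
open scoped ENNReal NNReal

namespace Pool.Agent.Lib.MP_0d9445_pr.CR

theorem sc_pos (n : ℕ) : 0 < sc n := by
  unfold sc
  positivity

theorem sc_add (n m : ℕ) : sc (n + m) = sc n * (2 : ℝ)⁻¹ ^ m := by
  unfold sc
  rw [pow_add]

theorem sc_add_le (n m : ℕ) : sc (n + m) ≤ sc n := by
  rw [sc_add]
  exact mul_le_of_le_one_right (sc_pos n).le (pow_le_one₀ (by norm_num) (by norm_num))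

theorem Geo_floor_iff {s x : ℝ} (hs : 0 < s) (a : ℤ) :
    (s * a ≤ x ∧ x < s * (a + 1)) ↔ ⌊x / s⌋ = a := by
  rw [Int.floor_eq_iff, le_div_iff₀ hs, div_lt_iff₀ hs, mul_comm s, mul_comm s]

theorem mem_box_iff {n : ℕ} {v : ℤ × ℤ} {z : ℂ} : z ∈ box n v ↔ idx n z = v := by
  have h1 := Geo_floor_iff (x := z.re) (sc_pos n) v.1
  have h2 := Geo_floor_iff (x := z.im) (sc_pos n) v.2
  constructor
  · rintro ⟨a, b, c, d⟩
    exact Prod.ext (h1.1 ⟨a, b⟩) (h2.1 ⟨c, d⟩)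
  · intro h
    have e1 := h1.2 (congrArg Prod.fst h)
    have e2 := h2.2 (congrArg Prod.snd h)
    exact ⟨e1.1, e1.2, e2.1, e2.2⟩

theorem mem_box_idx (n : ℕ) (z : ℂ) : z ∈ box n (idx n z) := mem_box_iff.2 rfl

theorem ctr_mem_box (n : ℕ) (v : ℤ × ℤ) : ctr n v ∈ box n v := by
  have hs := sc_pos n
  refine ⟨?_, ?_, ?_, ?_⟩ <;> simp only [ctr] <;> linarith

theorem measurableSet_box (n : ℕ) (v : ℤ × ℤ) : MeasurableSet (box n v) := by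
  have e : box n v = Complex.re ⁻¹' Ico (sc n * v.1) (sc n * (v.1 + 1)) ∩
      Complex.im ⁻¹' Ico (sc n * v.2) (sc n * (v.2 + 1)) := by
    ext z
    simp only [box, mem_ofPred_eq, mem_inter_iff, mem_preimage, mem_Ico, and_assoc]
  rw [e]
  exact (Complex.measurable_re measurableSet_Ico).inter (Complex.measurable_im measurableSet_Ico)

theorem isOpen_osq (y : ℂ) (r : ℝ) : IsOpen (osq y r) :=
  (isOpen_lt (f := fun z : ℂ => |z.re - y.re|) (g := fun _ => r) (by fun_prop)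
    continuous_const).inter
  (isOpen_lt (f := fun z : ℂ => |z.im - y.im|) (g := fun _ => r) (by fun_prop) continuous_const)

theorem isClosed_csq (y : ℂ) (r : ℝ) : IsClosed (csq y r) :=
  (isClosed_le (f := fun z : ℂ => |z.re - y.re|) (g := fun _ => r) (by fun_prop)
    continuous_const).inter
  (isClosed_le (f := fun z : ℂ => |z.im - y.im|) (g := fun _ => r) (by fun_prop) continuous_const)

theorem box_subset_csq (n : ℕ) (v : ℤ × ℤ) : box n v ⊆ csq (ctr n v) (sc n / 2) := by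
  rintro z ⟨a, b, c, d⟩
  refine ⟨abs_le.2 ⟨?_, ?_⟩, abs_le.2 ⟨?_, ?_⟩⟩ <;> simp only [ctr] <;> linarith

theorem norm_sub_ctr_le {n : ℕ} {v : ℤ × ℤ} {z : ℂ} (h : z ∈ box n v) : ‖z - ctr n v‖ ≤ sc n := by
  obtain ⟨a, b⟩ := box_subset_csq n v h
  have := Complex.norm_le_abs_re_add_abs_im (z - ctr n v)
  rw [Complex.sub_re, Complex.sub_im] at this
  linarith

theorem reg_mono (n : ℕ) (v : ℤ × ℤ) {r r' : ℝ} (h : r ≤ r') : reg n v r ⊆ reg n v r' := by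
  rintro z ⟨a, b⟩
  have := mul_le_mul_of_nonneg_right h (sc_pos n).le
  exact ⟨a.trans_le this, b.trans_le this⟩

theorem reg_subset_ball (n : ℕ) (v : ℤ × ℤ) {r : ℝ} (h : r ≤ 32) :
    reg n v r ⊆ Metric.ball (ctr n v) (48 * sc n) := by
  intro z hz
  obtain ⟨a, b⟩ := reg_mono n v h hz
  have hs := sc_pos n
  rw [mem_ball_iff_norm]
  refine lt_of_pow_lt_pow_left₀ 2 (by positivity) ?_
  rw [Complex.sq_norm, Complex.normSq_apply, Complex.sub_re, Complex.sub_im]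
  have a' := abs_lt.1 a
  have b' := abs_lt.1 b
  nlinarith [mul_pos hs hs]

theorem mem_nbh {R : ℕ} {v w : ℤ × ℤ} :
    w ∈ nbh R v ↔ |w.1 - v.1| ≤ R ∧ |w.2 - v.2| ≤ R := by
  simp only [nbh, Finset.mem_product, Finset.mem_Icc, abs_le]
  omega

theorem mem_nbh_comm {R : ℕ} {v w : ℤ × ℤ} : w ∈ nbh R v ↔ v ∈ nbh R w := by
  rw [mem_nbh, mem_nbh, abs_sub_comm w.1, abs_sub_comm w.2]

theorem self_mem_nbh (R : ℕ) (v : ℤ × ℤ) : v ∈ nbh R v := by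
  rw [mem_nbh]
  simp

theorem nbh_mono {R R' : ℕ} (h : R ≤ R') (v : ℤ × ℤ) : nbh R v ⊆ nbh R' v := by
  intro w hw
  rw [mem_nbh] at hw ⊢
  have : (R : ℤ) ≤ R' := by exact_mod_cast h
  exact ⟨hw.1.trans this, hw.2.trans this⟩

theorem card_nbh (R : ℕ) (v : ℤ × ℤ) : (nbh R v).card = (2 * R + 1) ^ 2 := by
  have e : ∀ a : ℤ, (Finset.Icc (a - R) (a + R)).card = 2 * R + 1 := by
    intro a
    rw [Int.card_Icc]
    omega
  rw [nbh, Finset.card_product, e, e, sq]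

theorem card_kids (m : ℕ) (v : ℤ × ℤ) : (kids m v).card = 4 ^ m := by
  have e : ∀ a : ℤ, (Finset.Ico (2 ^ m * a) (2 ^ m * (a + 1))).card = 2 ^ m := by
    intro a
    rw [Int.card_Ico]
    have : (2 : ℤ) ^ m * (a + 1) - 2 ^ m * a = ((2 ^ m : ℕ) : ℤ) := by
      push_cast
      ring
    rw [this, Int.toNat_natCast]
  rw [kids, Finset.card_product, e, e, ← mul_pow]
  norm_num

theorem card_cov_le {d : ℕ} (hd : 1 ≤ d) (v : ℤ × ℤ) : (cov d v).card ≤ 16 * 4 ^ d := by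
  obtain ⟨k, rfl⟩ : ∃ k, d = k + 1 := ⟨d - 1, by omega⟩
  have e : ∀ a : ℤ, (Finset.Icc (2 ^ (k + 1) * a - 2 ^ (k + 1 - 1) - 1)
      (2 ^ (k + 1) * (a + 1) + 2 ^ (k + 1 - 1))).card ≤ 4 * 2 ^ (k + 1) := by
    intro a
    rw [Int.card_Icc]
    have : (2 : ℤ) ^ (k + 1) * (a + 1) + 2 ^ (k + 1 - 1) + 1 -
        (2 ^ (k + 1) * a - 2 ^ (k + 1 - 1) - 1) = ((4 * 2 ^ k + 2 : ℕ) : ℤ) := by
      rw [Nat.add_sub_cancel]
      push_cast
      ring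
    rw [this, Int.toNat_natCast]
    have := Nat.one_le_two_pow (n := k)
    rw [pow_succ]
    omega
  rw [cov, Finset.card_product]
  calc _ ≤ (4 * 2 ^ (k + 1)) * (4 * 2 ^ (k + 1)) := Nat.mul_le_mul (e _) (e _)
    _ = 16 * 4 ^ (k + 1) := by
      rw [show (4 : ℕ) ^ (k + 1) = 2 ^ (k + 1) * 2 ^ (k + 1) by rw [← mul_pow]; norm_num]
      ring

theorem kids_zero (v : ℤ × ℤ) : kids 0 v = {v} := by
  ext w
  simp only [kids, pow_zero, one_mul, Finset.mem_product, Finset.mem_Ico, Finset.mem_singleton,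
    Prod.ext_iff]
  omega

theorem Geo_floor_kids (n m : ℕ) (x : ℝ) (a : ℤ) :
    (2 ^ m * a ≤ ⌊x / sc (n + m)⌋ ∧ ⌊x / sc (n + m)⌋ < 2 ^ m * (a + 1)) ↔ ⌊x / sc n⌋ = a := by
  have hp : (0 : ℝ) < 2 ^ m := by positivity
  have e : x / sc (n + m) = 2 ^ m * (x / sc n) := by
    have := (sc_pos n).ne'
    rw [sc_add, inv_pow]
    field_simp
  rw [Int.le_floor, Int.floor_lt, Int.floor_eq_iff, e]
  push_cast
  rw [mul_le_mul_iff_right₀ hp, mul_lt_mul_iff_right₀ hp]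

theorem idx_mem_kids {n m : ℕ} {v : ℤ × ℤ} {z : ℂ} :
    idx (n + m) z ∈ kids m v ↔ idx n z = v := by
  simp only [kids, idx, Finset.mem_product, Finset.mem_Ico, Geo_floor_kids, Prod.ext_iff]

theorem box_subset_of_kids {n m : ℕ} {v w : ℤ × ℤ} (h : w ∈ kids m v) :
    box (n + m) w ⊆ box n v := by
  intro z hz
  rw [mem_box_iff] at hz ⊢
  exact idx_mem_kids.1 (hz ▸ h)

theorem idx_ctr_of_kids {n m : ℕ} {v w : ℤ × ℤ} (h : w ∈ kids m v) :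
    idx n (ctr (n + m) w) = v :=
  mem_box_iff.1 (box_subset_of_kids h (ctr_mem_box _ _))


theorem Geo_mem_kids {m : ℕ} {v w : ℤ × ℤ} : w ∈ kids m v ↔
    (2 ^ m * v.1 ≤ w.1 ∧ w.1 < 2 ^ m * (v.1 + 1)) ∧
      (2 ^ m * v.2 ≤ w.2 ∧ w.2 < 2 ^ m * (v.2 + 1)) := by
  simp only [kids, Finset.mem_product, Finset.mem_Ico]

theorem Geo_mem_cov {d : ℕ} {v w : ℤ × ℤ} : w ∈ cov d v ↔
    (2 ^ d * v.1 - 2 ^ (d - 1) - 1 ≤ w.1 ∧ w.1 ≤ 2 ^ d * (v.1 + 1) + 2 ^ (d - 1)) ∧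
      (2 ^ d * v.2 - 2 ^ (d - 1) - 1 ≤ w.2 ∧ w.2 ≤ 2 ^ d * (v.2 + 1) + 2 ^ (d - 1)) := by
  simp only [cov, Finset.mem_product, Finset.mem_Icc]

theorem Geo_div (k : ℕ) (x : ℤ) : 2 ^ k * (x / 2 ^ k) ≤ x ∧ x < 2 ^ k * (x / 2 ^ k + 1) := by
  have h : (0 : ℤ) < 2 ^ k := by positivity
  have h1 := Int.mul_ediv_add_emod x (2 ^ k)
  have h2 := Int.emod_nonneg x h.ne'
  have h3 := Int.emod_lt_of_pos x h
  constructor <;> linarith

theorem Geo_div_mem (k : ℕ) (w : ℤ × ℤ) : w ∈ kids k (w.1 / 2 ^ k, w.2 / 2 ^ k) :=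
  Geo_mem_kids.2 ⟨Geo_div k w.1, Geo_div k w.2⟩

theorem Geo_trans1 {m k : ℕ} {a q x : ℤ} (hq : 2 ^ m * a ≤ q ∧ q < 2 ^ m * (a + 1))
    (hx : 2 ^ k * q ≤ x ∧ x < 2 ^ k * (q + 1)) :
    2 ^ (m + k) * a ≤ x ∧ x < 2 ^ (m + k) * (a + 1) := by
  have h : (0 : ℤ) ≤ 2 ^ k := by positivity
  have h1 := mul_le_mul_of_nonneg_left hq.1 h
  have h2 := mul_le_mul_of_nonneg_left (Int.add_one_le_of_lt hq.2) h
  rw [pow_add]
  constructor <;> linarith [hx.1, hx.2]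

theorem Geo_div1 {m k : ℕ} {a x : ℤ} (hx : 2 ^ (m + k) * a ≤ x ∧ x < 2 ^ (m + k) * (a + 1)) :
    2 ^ m * a ≤ x / 2 ^ k ∧ x / 2 ^ k < 2 ^ m * (a + 1) := by
  have h : (0 : ℤ) < 2 ^ k := by positivity
  rw [pow_add] at hx
  rw [Int.le_ediv_iff_mul_le h, Int.ediv_lt_iff_lt_mul h]
  constructor <;> linarith [hx.1, hx.2]

theorem Geo_inv_pow (m : ℕ) : (2 : ℝ)⁻¹ ^ m * 2 ^ m = 1 := by
  rw [← mul_pow]
  norm_num

theorem Geo_inv_pow_le {k m : ℕ} (h : k ≤ m) : (2 : ℝ)⁻¹ ^ m ≤ (2 : ℝ)⁻¹ ^ k :=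
  pow_le_pow_of_le_one (by norm_num) (by norm_num) h

theorem Geo_ctr1 {n m : ℕ} {a x : ℤ} (hx : 2 ^ m * a ≤ x ∧ x < 2 ^ m * (a + 1)) :
    |sc (n + m) * (x + 1 / 2) - sc n * (a + 1 / 2)| ≤ sc n * ((1 - (2 : ℝ)⁻¹ ^ m) / 2) := by
  have hs := sc_pos n
  have ht : (0 : ℝ) < (2 : ℝ)⁻¹ ^ m := by positivity
  have h1 : (2 : ℝ) ^ m * a ≤ x := by exact_mod_cast hx.1
  have h2 : (x : ℝ) + 1 ≤ 2 ^ m * (a + 1) := by exact_mod_cast Int.add_one_le_of_lt hx.2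
  have h3 := mul_le_mul_of_nonneg_left h1 ht.le
  have h4 := mul_le_mul_of_nonneg_left h2 ht.le
  rw [← mul_assoc, Geo_inv_pow, one_mul] at h3 h4
  have e : sc (n + m) * (x + 1 / 2) - sc n * (a + 1 / 2) =
      sc n * ((2 : ℝ)⁻¹ ^ m * (x + 1 / 2) - (a + 1 / 2)) := by
    rw [sc_add]
    ring
  rw [e, abs_mul, abs_of_pos hs]
  refine mul_le_mul_of_nonneg_left (abs_le.2 ⟨?_, ?_⟩) hs.le <;> linarith

theorem Geo_cov1 {n d : ℕ} (hd : 1 ≤ d) {a x : ℤ}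
    (hx : 2 ^ d * a - 2 ^ (d - 1) - 1 ≤ x ∧ x ≤ 2 ^ d * (a + 1) + 2 ^ (d - 1)) :
    |sc (n + d) * (x + 1 / 2) - sc n * (a + 1 / 2)| ≤ sc n * (1 + (2 : ℝ)⁻¹ ^ d / 2) := by
  obtain ⟨e, rfl⟩ : ∃ e, d = e + 1 := ⟨d - 1, by omega⟩
  rw [Nat.add_sub_cancel] at hx
  have hs := sc_pos n
  have ht : (0 : ℝ) < (2 : ℝ)⁻¹ ^ (e + 1) := by positivity
  have h1 : (2 : ℝ) ^ (e + 1) * a - 2 ^ e - 1 ≤ x := by exact_mod_cast hx.1
  have h2 : (x : ℝ) ≤ 2 ^ (e + 1) * (a + 1) + 2 ^ e := by exact_mod_cast hx.2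
  have h3 := mul_le_mul_of_nonneg_left h1 ht.le
  have h4 := mul_le_mul_of_nonneg_left h2 ht.le
  have h5 := Geo_inv_pow (e + 1)
  have h6 : (2 : ℝ)⁻¹ ^ (e + 1) * 2 ^ e = 1 / 2 := by
    rw [pow_succ (2 : ℝ) e] at h5
    linarith
  have h7 : (2 : ℝ)⁻¹ ^ (e + 1) * (2 ^ (e + 1) * a - 2 ^ e - 1) =
      a - 1 / 2 - (2 : ℝ)⁻¹ ^ (e + 1) := by
    linear_combination (a : ℝ) * h5 - h6
  have h8 : (2 : ℝ)⁻¹ ^ (e + 1) * (2 ^ (e + 1) * (a + 1) + 2 ^ e) = a + 3 / 2 := by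
    linear_combination ((a : ℝ) + 1) * h5 + h6
  rw [h7] at h3
  rw [h8] at h4
  have e1 : sc (n + (e + 1)) * (x + 1 / 2) - sc n * (a + 1 / 2) =
      sc n * ((2 : ℝ)⁻¹ ^ (e + 1) * (x + 1 / 2) - (a + 1 / 2)) := by
    rw [sc_add]
    ring
  rw [e1, abs_mul, abs_of_pos hs]
  refine mul_le_mul_of_nonneg_left (abs_le.2 ⟨?_, ?_⟩) hs.le <;> linarith

theorem Geo_nbh1 {n R : ℕ} {a x : ℤ} (h : |x - a| ≤ R) :
    |sc n * (x + 1 / 2) - sc n * (a + 1 / 2)| ≤ sc n * R := by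
  have hs := sc_pos n
  have h1 : |(x : ℝ) - a| ≤ R := by exact_mod_cast h
  have e : sc n * (x + 1 / 2) - sc n * (a + 1 / 2) = sc n * ((x : ℝ) - a) := by ring
  rw [e, abs_mul, abs_of_pos hs]
  exact mul_le_mul_of_nonneg_left h1 hs.le

theorem Geo_norm_le {z : ℂ} {a : ℝ} (h1 : |z.re| ≤ a) (h2 : |z.im| ≤ a) : ‖z‖ ≤ 3 / 2 * a := by
  have ha : 0 ≤ a := (abs_nonneg _).trans h1
  have e : ‖z‖ ^ 2 = z.re ^ 2 + z.im ^ 2 := by
    rw [Complex.sq_norm, Complex.normSq_apply]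
    ring
  have h3 := sq_le_sq' (abs_le.1 h1).1 (abs_le.1 h1).2
  have h4 := sq_le_sq' (abs_le.1 h2).1 (abs_le.1 h2).2
  refine abs_le_of_sq_le_sq' ?_ (by positivity) |>.2
  nlinarith [sq_nonneg a]

theorem Geo_floor_cov {s x : ℝ} (hs : 0 < s) {a : ℤ} {d : ℕ} (hd : 1 ≤ d)
    (h : |x - s * (a + 1 / 2)| ≤ s) :
    2 ^ d * a - 2 ^ (d - 1) - 1 ≤ ⌊x / (s * (2 : ℝ)⁻¹ ^ d)⌋ ∧
      ⌊x / (s * (2 : ℝ)⁻¹ ^ d)⌋ ≤ 2 ^ d * (a + 1) + 2 ^ (d - 1) := by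
  obtain ⟨e, rfl⟩ : ∃ e, d = e + 1 := ⟨d - 1, by omega⟩
  rw [Nat.add_sub_cancel]
  have hT : (0 : ℝ) < 2 ^ e := by positivity
  have e1 : x / (s * (2 : ℝ)⁻¹ ^ (e + 1)) = x / s * (2 * 2 ^ e) := by
    rw [inv_pow, pow_succ]
    field_simp
  obtain ⟨h1, h2⟩ := abs_le.1 h
  have h3 : (a : ℝ) - 1 / 2 ≤ x / s := by
    rw [le_div_iff₀ hs]
    linarith
  have h4 : x / s ≤ (a : ℝ) + 3 / 2 := by
    rw [div_le_iff₀ hs]
    linarith
  have h5 := mul_le_mul_of_nonneg_right h3 (by positivity : (0 : ℝ) ≤ 2 * 2 ^ e)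
  have h6 := mul_le_mul_of_nonneg_right h4 (by positivity : (0 : ℝ) ≤ 2 * 2 ^ e)
  rw [e1]
  constructor
  · rw [Int.le_floor]
    push_cast
    rw [pow_succ]
    linarith
  · rw [Int.floor_le_iff]
    push_cast
    rw [pow_succ]
    linarith

theorem Geo_floor_nbh {s x x' : ℝ} (hs : 0 < s) {R : ℕ} (h : |x' - x| ≤ R * s) :
    |⌊x' / s⌋ - ⌊x / s⌋| ≤ R := by
  obtain ⟨h1, h2⟩ := abs_le.1 h
  have h3 : x' / s ≤ x / s + R := by
    rw [div_add' _ _ _ hs.ne', div_le_div_iff_of_pos_right hs]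
    linarith
  have h4 : x / s ≤ x' / s + R := by
    rw [div_add' _ _ _ hs.ne', div_le_div_iff_of_pos_right hs]
    linarith
  have h5 := Int.floor_mono h3
  have h6 := Int.floor_mono h4
  rw [Int.floor_add_natCast] at h5 h6
  exact abs_le.2 ⟨by linarith, by linarith⟩

theorem Geo_far1 {n R : ℕ} {a b : ℤ} (h : ¬ |b - a| ≤ R) {r x y : ℝ} (hr : 2 * r ≤ R + 1 / 2)
    (hx : |x - sc n * (a + 1 / 2)| < r * sc n) (hy : |y - sc n * (b + 1 / 2)| < r * sc n) :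
    sc n / 2 ≤ |x - y| := by
  have hs := sc_pos n
  have h1 : (R : ℤ) + 1 ≤ |b - a| := Int.add_one_le_of_lt (not_le.1 h)
  have h2 : (R : ℝ) + 1 ≤ |(b : ℝ) - a| := by exact_mod_cast h1
  have h3 := mul_le_mul_of_nonneg_right hr hs.le
  obtain ⟨x1, x2⟩ := abs_lt.1 hx
  obtain ⟨y1, y2⟩ := abs_lt.1 hy
  rcases le_abs.1 h2 with h4 | h4
  · have h5 := mul_le_mul_of_nonneg_right h4 hs.le
    exact le_abs.2 (Or.inr (by linarith))
  · have h5 := mul_le_mul_of_nonneg_right h4 hs.le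
    exact le_abs.2 (Or.inl (by linarith))

theorem disjoint_kids (m : ℕ) {v v' : ℤ × ℤ} (h : v ≠ v') : Disjoint (kids m v) (kids m v') :=
  Finset.disjoint_left.2 fun _ hw hw' =>
    h ((idx_ctr_of_kids (n := 0) hw).symm.trans (idx_ctr_of_kids (n := 0) hw'))

theorem Geo_kids_add (m k : ℕ) (v : ℤ × ℤ) : kids (m + k) v = (kids m v).biUnion (kids k) := by
  ext w
  rw [Finset.mem_biUnion]
  constructor
  · intro hw
    obtain ⟨h1, h2⟩ := Geo_mem_kids.1 hw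
    exact ⟨_, Geo_mem_kids.2 ⟨Geo_div1 h1, Geo_div1 h2⟩, Geo_div_mem k w⟩
  · rintro ⟨q, hq, hw⟩
    obtain ⟨h1, h2⟩ := Geo_mem_kids.1 hq
    obtain ⟨h3, h4⟩ := Geo_mem_kids.1 hw
    exact Geo_mem_kids.2 ⟨Geo_trans1 h1 h3, Geo_trans1 h2 h4⟩

theorem sum_kids_add {M : Type*} [AddCommMonoid M] (m k : ℕ) (v : ℤ × ℤ) (f : ℤ × ℤ → M) :
    ∑ w ∈ kids (m + k) v, f w = ∑ q ∈ kids m v, ∑ w ∈ kids k q, f w := by
  rw [Geo_kids_add]
  exact Finset.sum_biUnion fun _ _ _ _ h => disjoint_kids k h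

theorem sum_biUnion_kids {M : Type*} [AddCommMonoid M] (m : ℕ) (I : Finset (ℤ × ℤ))
    (f : ℤ × ℤ → M) : ∑ w ∈ I.biUnion (kids m), f w = ∑ q ∈ I, ∑ w ∈ kids m q, f w :=
  Finset.sum_biUnion fun _ _ _ _ h => disjoint_kids m h

theorem mem_kids_trans {m k : ℕ} {v q w : ℤ × ℤ} (hq : q ∈ kids m v) (hw : w ∈ kids k q) :
    w ∈ kids (m + k) v := by
  rw [Geo_kids_add]
  exact Finset.mem_biUnion.2 ⟨q, hq, hw⟩

theorem Geo_cov_div {d : ℕ} (hd : 1 ≤ d) {a x : ℤ}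
    (hx : 2 ^ d * a - 2 ^ (d - 1) - 1 ≤ x ∧ x ≤ 2 ^ d * (a + 1) + 2 ^ (d - 1)) :
    |x / 2 ^ d - a| ≤ ((1 : ℕ) : ℤ) := by
  obtain ⟨e, rfl⟩ : ∃ e, d = e + 1 := ⟨d - 1, by omega⟩
  rw [Nat.add_sub_cancel] at hx
  have h : (0 : ℤ) < 2 ^ (e + 1) := by positivity
  have h0 : (0 : ℤ) < 2 ^ e := by positivity
  have h1 : a - 1 ≤ x / 2 ^ (e + 1) := by
    rw [Int.le_ediv_iff_mul_le h]
    have := hx.1
    rw [pow_succ] at this ⊢
    linarith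
  have h2 : x / 2 ^ (e + 1) < a + 2 := by
    rw [Int.ediv_lt_iff_lt_mul h]
    have := hx.2
    rw [pow_succ] at this ⊢
    linarith
  rw [Nat.cast_one]
  exact abs_le.2 ⟨by omega, by omega⟩

theorem cov_subset (d : ℕ) (hd : 2 ≤ d) (v : ℤ × ℤ) : cov d v ⊆ (nbh 1 v).biUnion (kids d) := by
  intro w hw
  obtain ⟨h1, h2⟩ := Geo_mem_cov.1 hw
  have hd1 : 1 ≤ d := by omega
  have hp : ((w.1 / 2 ^ d, w.2 / 2 ^ d) : ℤ × ℤ) ∈ nbh 1 v := by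
    rw [mem_nbh]
    exact ⟨Geo_cov_div hd1 h1, Geo_cov_div hd1 h2⟩
  exact Finset.mem_biUnion.2 ⟨(w.1 / 2 ^ d, w.2 / 2 ^ d), hp, Geo_div_mem d w⟩

theorem kids_subset_cov (d : ℕ) (v : ℤ × ℤ) : kids d v ⊆ cov d v := by
  intro w hw
  obtain ⟨⟨h1, h2⟩, h3, h4⟩ := Geo_mem_kids.1 hw
  have h0 : (0 : ℤ) < 2 ^ (d - 1) := by positivity
  exact Geo_mem_cov.2 ⟨⟨by linarith, by linarith⟩, by linarith, by linarith⟩

theorem idx_mem_cov {n d : ℕ} (hd : 1 ≤ d) {v : ℤ × ℤ} {z : ℂ} (h : z ∈ csq (ctr n v) (sc n)) :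
    idx (n + d) z ∈ cov d v := by
  rw [Geo_mem_cov]
  simp only [idx, sc_add]
  exact ⟨Geo_floor_cov (sc_pos n) hd h.1, Geo_floor_cov (sc_pos n) hd h.2⟩

/-- a point at sup distance at most `R` sides from a point of the box is in a box of `nbh R` -/
theorem idx_mem_nbh {n R : ℕ} {z z' : ℂ} (h : z' ∈ csq z (R * sc n)) :
    idx n z' ∈ nbh R (idx n z) :=
  mem_nbh.2 ⟨Geo_floor_nbh (sc_pos n) h.1, Geo_floor_nbh (sc_pos n) h.2⟩

theorem Geo_abs_lt {x a b s t : ℝ} (h1 : |x - a| < s) (h2 : |a - b| ≤ t) : |x - b| < s + t :=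
  lt_of_le_of_lt (abs_sub_le x a b) (add_lt_add_of_lt_of_le h1 h2)

theorem reg_nbh_subset {n R : ℕ} {v q : ℤ × ℤ} (hq : q ∈ nbh R v) (r : ℝ) :
    reg n q r ⊆ reg n v (r + R) := by
  intro z hz
  obtain ⟨h1, h2⟩ := mem_nbh.1 hq
  exact ⟨(Geo_abs_lt hz.1 (Geo_nbh1 h1)).trans_eq (by ring),
    (Geo_abs_lt hz.2 (Geo_nbh1 h2)).trans_eq (by ring)⟩

theorem reg_kids_subset {n m : ℕ} {v w : ℤ × ℤ} (hw : w ∈ kids m v) {r r' : ℝ}
    (h : r * (2 : ℝ)⁻¹ ^ m + (1 - (2 : ℝ)⁻¹ ^ m) / 2 ≤ r') : reg (n + m) w r ⊆ reg n v r' := by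
  intro z hz
  obtain ⟨h1, h2⟩ := Geo_mem_kids.1 hw
  have h3 : r * sc (n + m) + sc n * ((1 - (2 : ℝ)⁻¹ ^ m) / 2) ≤ r' * sc n := by
    have := mul_le_mul_of_nonneg_right h (sc_pos n).le
    rw [sc_add]
    linarith
  exact ⟨(Geo_abs_lt hz.1 (Geo_ctr1 h1)).trans_le h3, (Geo_abs_lt hz.2 (Geo_ctr1 h2)).trans_le h3⟩

theorem reg_cov_subset {n d : ℕ} (hd : 7 ≤ d) {v w : ℤ × ℤ} (hw : w ∈ cov d v) :
    Metric.ball (ctr (n + d) w) (48 * sc (n + d)) ⊆ reg n v (3 / 2) := by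
  intro z hz
  obtain ⟨h1, h2⟩ := Geo_mem_cov.1 hw
  rw [mem_ball_iff_norm] at hz
  have hs := sc_pos n
  have ht := Geo_inv_pow_le hd
  have h3 : 48 * sc (n + d) + sc n * (1 + (2 : ℝ)⁻¹ ^ d / 2) ≤ 3 / 2 * sc n := by
    have := mul_le_mul_of_nonneg_left ht hs.le
    rw [sc_add]
    norm_num at this ⊢
    linarith
  have hre : |z.re - (ctr (n + d) w).re| < 48 * sc (n + d) :=
    (Complex.abs_re_le_norm (z - ctr (n + d) w)).trans_lt hz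
  have him : |z.im - (ctr (n + d) w).im| < 48 * sc (n + d) :=
    (Complex.abs_im_le_norm (z - ctr (n + d) w)).trans_lt hz
  exact ⟨(Geo_abs_lt hre (Geo_cov1 (by omega) h1)).trans_le h3,
    (Geo_abs_lt him (Geo_cov1 (by omega) h2)).trans_le h3⟩

theorem ann_subset (n : ℕ) (v : ℤ × ℤ) : ann n v ⊆ reg n v (9 / 2) := fun _ h => h.1

theorem Geo_ann1 {x y c s : ℝ} (hx : ¬ |x - c| ≤ 7 / 2 * s) (hy : |y - c| < 3 * s) :
    s / 2 ≤ |x - y| := by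
  have h1 := abs_sub_le x y c
  have h2 := not_le.1 hx
  linarith

theorem ann_far {n : ℕ} {v : ℤ × ℤ} {x y : ℂ} (hx : x ∈ ann n v) (hy : y ∈ reg n v 3) :
    sc n / 2 ≤ ‖x - y‖ := by
  rcases not_and_or.1 hx.2 with h | h
  · exact (Geo_ann1 h hy.1).trans (Complex.abs_re_le_norm (x - y))
  · exact (Geo_ann1 h hy.2).trans (Complex.abs_im_le_norm (x - y))

theorem reg_far {n R : ℕ} {v w : ℤ × ℤ} (h : w ∉ nbh R v) {r : ℝ} (hr : 2 * r ≤ R + 1 / 2)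
    {x y : ℂ} (hx : x ∈ reg n v r) (hy : y ∈ reg n w r) : sc n / 2 ≤ ‖x - y‖ := by
  rw [mem_nbh] at h
  rcases not_and_or.1 h with h | h
  · exact (Geo_far1 h hr hx.1 hy.1).trans (Complex.abs_re_le_norm (x - y))
  · exact (Geo_far1 h hr hx.2 hy.2).trans (Complex.abs_im_le_norm (x - y))

theorem sub_refl (n : ℕ) (y : ℂ) : Sub n y n y := by
  simp [Sub]

theorem Sub.trans {n n' n'' : ℕ} {y y' y'' : ℂ} (h : Sub n y n' y') (h' : Sub n' y' n'' y'') :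
    Sub n y n'' y'' := by
  unfold Sub at h h' ⊢
  have := norm_sub_le_norm_sub_add_norm_sub y'' y' y
  linarith

theorem Sub.ball_subset {n n' : ℕ} {y y' : ℂ} (h : Sub n y n' y') :
    Metric.ball y' (48 * sc n') ⊆ Metric.ball y (48 * sc n) := by
  unfold Sub at h
  refine Metric.ball_subset_ball' ?_
  rw [dist_eq_norm]
  linarith

theorem Sub.mem_ball {n n' : ℕ} {y y' : ℂ} (h : Sub n y n' y') :
    y' ∈ Metric.ball y (48 * sc n) := by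
  unfold Sub at h
  have := sc_pos n'
  rw [mem_ball_iff_norm]
  linarith

theorem Sub.eq_of_zero {n : ℕ} {y y' : ℂ} (h : Sub n y n y') : y' = y := by
  unfold Sub at h
  exact sub_eq_zero.1 (norm_le_zero_iff.1 (by linarith))

theorem sub_kids {n m : ℕ} {v w : ℤ × ℤ} (hw : w ∈ kids m v) :
    Sub n (ctr n v) (n + m) (ctr (n + m) w) := by
  obtain ⟨h1, h2⟩ := Geo_mem_kids.1 hw
  have h3 := Geo_norm_le (z := ctr (n + m) w - ctr n v) (Geo_ctr1 h1) (Geo_ctr1 h2)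
  have hs := sc_pos n
  have ht := Geo_inv_pow_le (Nat.zero_le m)
  have h4 := mul_le_mul_of_nonneg_left ht hs.le
  rw [pow_zero] at h4
  unfold Sub
  rw [sc_add n m]
  linarith

theorem sub_nbh_kids {n m R : ℕ} (hm : 4 ≤ m) (hR : R ≤ 25) {v w : ℤ × ℤ}
    (hw : w ∈ (nbh R v).biUnion (kids m)) : Sub n (ctr n v) (n + m) (ctr (n + m) w) := by
  obtain ⟨q, hq, hw⟩ := Finset.mem_biUnion.1 hw
  obtain ⟨h1, h2⟩ := Geo_mem_kids.1 hw
  obtain ⟨q1, q2⟩ := mem_nbh.1 hq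
  have h3 := Geo_norm_le (z := ctr (n + m) w - ctr n v)
    ((abs_sub_le _ _ _).trans (add_le_add (Geo_ctr1 h1) (Geo_nbh1 q1)))
    ((abs_sub_le _ _ _).trans (add_le_add (Geo_ctr1 h2) (Geo_nbh1 q2)))
  have hs := sc_pos n
  have ht := Geo_inv_pow_le hm
  have ht0 : (0 : ℝ) < (2 : ℝ)⁻¹ ^ m := by positivity
  have h4 := mul_le_mul_of_nonneg_left ht hs.le
  have h5 := mul_pos hs ht0
  have hR' : (R : ℝ) ≤ 25 := by exact_mod_cast hR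
  have h6 := mul_le_mul_of_nonneg_left hR' hs.le
  have h7 : (2 : ℝ)⁻¹ ^ 4 = 1 / 16 := by norm_num
  rw [h7] at h4
  unfold Sub
  rw [sc_add n m]
  linarith

theorem sub_cov {n d : ℕ} (hd : 4 ≤ d) {v w : ℤ × ℤ} (hw : w ∈ cov d v) :
    Sub n (ctr n v) (n + d) (ctr (n + d) w) := by
  obtain ⟨h1, h2⟩ := Geo_mem_cov.1 hw
  have h3 := Geo_norm_le (z := ctr (n + d) w - ctr n v) (Geo_cov1 (by omega) h1)
    (Geo_cov1 (by omega) h2)
  have hs := sc_pos n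
  have ht := Geo_inv_pow_le hd
  have h4 := mul_le_mul_of_nonneg_left ht hs.le
  have h7 : (2 : ℝ)⁻¹ ^ 4 = 1 / 16 := by norm_num
  rw [h7] at h4
  unfold Sub
  rw [sc_add n d]
  linarith

/-- finitely many points are eventually in different boxes -/
theorem eventually_injOn_idx {s : Set ℂ} (hs : s.Finite) (n : ℕ) {d : ℕ} (hd : 1 ≤ d) :
    ∀ᶠ k in atTop, InjOn (idx (n + k * d)) s := by
  have key : ∀ x ∈ s, ∀ y ∈ s, ∀ᶠ k in atTop,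
      idx (n + k * d) x = idx (n + k * d) y → x = y := by
    intro x _ y _
    by_cases hxy : x = y
    · exact Eventually.of_forall fun _ _ => hxy
    have hpos : 0 < ‖x - y‖ / 2 := half_pos (norm_pos_iff.2 (sub_ne_zero.2 hxy))
    have ht : Tendsto (fun k : ℕ => (2 : ℝ)⁻¹ ^ k) atTop (𝓝 0) :=
      tendsto_pow_atTop_nhds_zero_of_lt_one (by norm_num) (by norm_num)
    filter_upwards [ht.eventually (gt_mem_nhds hpos)] with k hk e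
    exfalso
    have h1 := norm_sub_ctr_le (mem_box_idx (n + k * d) x)
    have h2 := norm_sub_ctr_le (mem_box_idx (n + k * d) y)
    rw [← e, norm_sub_rev] at h2
    have h3 := norm_sub_le_norm_sub_add_norm_sub x (ctr (n + k * d) (idx (n + k * d) x)) y
    have h4 : sc (n + k * d) ≤ (2 : ℝ)⁻¹ ^ k :=
      Geo_inv_pow_le (le_add_left (Nat.le_mul_of_pos_right k hd))
    linarith
  have h := (eventually_all_finite hs).2 fun x hx => (eventually_all_finite hs).2 (key x hx)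
  exact h.mono fun k hk x hx y hy e => hk x hx y hy e

end Pool.Agent.Lib.MP_0d9445_pr.CR
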