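import Pool.Agent.Lib.MP_0d9445_pr.Engine
import Pool.Agent.Lib.MP_0d9445_pr.Cell.Vor
import Pool.Agent.Lib.MP_0d9445_pr.CR.Geo

/-! Blocked boxes separate the Voronoi cells. -/

open Set Filter Topology

namespace Pool.Agent.Lib.MP_0d9445_pr.CR

open Cell

variable {S : Set ℂ} {d : Met} {Y P : Set ℂ} {lam : ℝ} {n : ℕ} {v : ℤ × ℤ}

theorem D1_proj {u z : ℂ} {r : ℝ} (hz : z ∈ csq u r) : proj (u, r) z = z := by
  obtain ⟨h1, h2⟩ := hz
  rw [abs_le] at h1 h2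
  apply Complex.ext
  · show max (u.re - r) (min (u.re + r) z.re) = z.re
    rw [min_eq_right (by linarith), max_eq_right (by linarith)]
  · show max (u.im - r) (min (u.im + r) z.im) = z.im
    rw [min_eq_right (by linarith), max_eq_right (by linarith)]

theorem D1_closure (u : ℂ) (r : ℝ) : closure (osq u r) ⊆ csq u r :=
  closure_minimal (osq_subset_csq u r) (isClosed_csq u r)

theorem D1_exit (h : NearGeo S (Function.curry d)) {u : ℂ} {r : ℝ} (hS : csq u r ⊆ S) {w x : ℂ}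
    (hw : w ∈ osq u r) (hx : x ∈ S) (hx' : x ∉ osq u r) :
    ∃ z ∈ frontier (osq u r), d (w, z) + d (z, x) ≤ d (w, x) := by
  have hc : IsCompact (closure (osq u r) ∩ S) := by
    rw [inter_eq_left.2 ((D1_closure u r).trans hS)]
    exact (isCompact_csq u r).of_isClosed_subset isClosed_closure (D1_closure u r)
  obtain ⟨z, -, z2, z3, z4⟩ :=
    h.exit (isOpen_osq u r) hc (hS (osq_subset_csq u r hw)) hx hw hx'
  exact ⟨z, by rw [(isOpen_osq u r).frontier_eq]; exact ⟨z2, z3⟩, z4⟩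

/-- one blocking square -/
theorem D1_blk (h : NearGeo S (Function.curry d)) {u : ℂ} {r : ℝ} (hr : 0 < r)
    (hS : csq u r ⊆ S) (hl : 1 ≤ lam) (hB : blk lam u r d Y) {w x : ℂ} (hw : w ∈ csq u (r / 2))
    (hx : x ∈ S) (hx' : x ∉ osq u r) : ∃ y ∈ Y ∩ osq u r, d (w, y) < d (w, x) := by
  obtain ⟨y, hy, hle⟩ := hB w hw
  refine ⟨y, hy, ?_⟩
  have hwo : w ∈ osq u r := ⟨by linarith [hw.1], by linarith [hw.2]⟩
  have hwc : w ∈ csq u r := osq_subset_csq u r hwo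
  have hyc : y ∈ csq u r := osq_subset_csq u r hy.2
  have hfr : frontier (osq u r) ⊆ S := frontier_subset_closure.trans ((D1_closure u r).trans hS)
  obtain ⟨z, hz, hzle⟩ := D1_exit h hS hwo hx hx'
  have hcont : ContinuousOn (fun q => d (w, q)) (frontier (osq u r)) :=
    (by fun_prop : Continuous fun q => d (w, q)).continuousOn
  obtain ⟨z₀, hz₀, hinf, hmin⟩ :=
    (isCompact_frontier_osq u r).exists_sInf_image_eq_and_le ⟨z, hz⟩ hcont
  have hne : w ≠ z₀ := by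
    rintro rfl
    rw [(isOpen_osq u r).frontier_eq] at hz₀
    exact hz₀.2 hwo
  have hρ : 0 < d (w, z₀) := h.pos w (hS hwc) z₀ (hfr hz₀) hne
  have h1 : T (u, r) d (w, y) = min (d (w, y)) (d (w, z₀)) := by
    show min (d (proj (u, r) w, proj (u, r) y))
      (sInf ((fun q => d (proj (u, r) w, q)) '' frontier (osq u r))) = _
    rw [D1_proj hwc, D1_proj hyc, hinf]
  have h2 : T (u, r) d (w, u + r) ≤ d (w, z₀) := by
    show min (d (proj (u, r) w, proj (u, r) (u + r)))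
      (sInf ((fun q => d (proj (u, r) w, q)) '' frontier (osq u r))) ≤ _
    rw [D1_proj hwc, hinf]
    exact min_le_right _ _
  have hwy : 0 ≤ d (w, y) := h.nonneg (hS hwc) (hS hyc)
  have hzx : 0 ≤ d (z, x) := h.nonneg (hfr hz) hx
  have hm : 0 ≤ min (d (w, y)) (d (w, z₀)) := le_min hwy hρ.le
  have h3 : min (d (w, y)) (d (w, z₀)) ≤ d (w, z₀) / 2 := by
    rw [h1] at hle
    nlinarith
  have h4 : d (w, z₀) ≤ d (w, z) := hmin z hz
  rcases min_le_iff.1 h3 with h5 | h5 <;> linarith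

theorem D1_grid_re (c : ℂ) (s : ℝ) (j : ℤ × ℤ) :
    (c + (s / 2 : ℝ) * (j.1 + j.2 * Complex.I)).re = c.re + s / 2 * j.1 := by
  simp only [Complex.add_re, Complex.mul_re, Complex.ofReal_re, Complex.ofReal_im,
    Complex.intCast_re, Complex.intCast_im, Complex.I_re, Complex.I_im, Complex.add_im,
    Complex.mul_im]
  ring

theorem D1_grid_im (c : ℂ) (s : ℝ) (j : ℤ × ℤ) :
    (c + (s / 2 : ℝ) * (j.1 + j.2 * Complex.I)).im = c.im + s / 2 * j.2 := by
  simp only [Complex.add_re, Complex.mul_re, Complex.ofReal_re, Complex.ofReal_im,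
    Complex.intCast_re, Complex.intCast_im, Complex.I_re, Complex.I_im, Complex.add_im,
    Complex.mul_im]
  ring

theorem D1_max {j : ℤ × ℤ} (hj : max |j.1| |j.2| = 8) :
    |(j.1 : ℝ)| ≤ 8 ∧ |(j.2 : ℝ)| ≤ 8 ∧ (|(j.1 : ℝ)| = 8 ∨ |(j.2 : ℝ)| = 8) := by
  have h1 : |j.1| ≤ 8 := hj ▸ le_max_left _ _
  have h2 : |j.2| ≤ 8 := hj ▸ le_max_right _ _
  refine ⟨by exact_mod_cast h1, by exact_mod_cast h2, ?_⟩
  rcases max_choice |j.1| |j.2| with h | h
  · left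
    rw [h] at hj
    exact_mod_cast hj
  · right
    rw [h] at hj
    exact_mod_cast hj

theorem D1_up {s a c k R : ℝ} (hs : 0 < s) (hk : |k| ≤ 8) (h : |a - (c + s / 2 * k)| ≤ R) :
    |a - c| ≤ 4 * s + R := by
  rw [abs_le] at *
  constructor <;> nlinarith [hk.1, hk.2, h.1, h.2]

theorem D1_up' {s a c k R : ℝ} (hs : 0 < s) (hk : |k| ≤ 8) (h : |a - (c + s / 2 * k)| < R) :
    |a - c| < 4 * s + R := by
  have := D1_up hs hk (le_refl |a - (c + s / 2 * k)|)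
  linarith

theorem D1_low {s a c k R : ℝ} (hk : |k| = 8) (h : |a - (c + s / 2 * k)| < R) :
    4 * s - R < |a - c| := by
  rw [abs_lt] at h
  rcases (abs_eq (by norm_num : (0 : ℝ) ≤ 8)).1 hk with rfl | rfl
  · exact lt_of_lt_of_le (by linarith [h.1]) (le_abs_self _)
  · exact lt_of_lt_of_le (by linarith [h.2]) (neg_le_abs _)

theorem D1_csq_grid {j : ℤ × ℤ} (hj : max |j.1| |j.2| = 8) :
    csq (ctr n v + (sc n / 2 : ℝ) * (j.1 + j.2 * Complex.I)) (sc n / 2) ⊆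
      csq (ctr n v) (5 * sc n) := by
  obtain ⟨h1, h2, -⟩ := D1_max hj
  have hs := sc_pos n
  rintro p ⟨p1, p2⟩
  rw [D1_grid_re] at p1
  rw [D1_grid_im] at p2
  exact ⟨by linarith [D1_up hs h1 p1], by linarith [D1_up hs h2 p2]⟩

theorem D1_osq_grid {j : ℤ × ℤ} (hj : max |j.1| |j.2| = 8) :
    osq (ctr n v + (sc n / 2 : ℝ) * (j.1 + j.2 * Complex.I)) (sc n / 2) ⊆ ann n v := by
  obtain ⟨h1, h2, h3⟩ := D1_max hj
  have hs := sc_pos n
  rintro p ⟨p1, p2⟩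
  rw [D1_grid_re] at p1
  rw [D1_grid_im] at p2
  refine ⟨⟨by linarith [D1_up' hs h1 p1], by linarith [D1_up' hs h2 p2]⟩, ?_⟩
  rintro ⟨q1, q2⟩
  rcases h3 with h3 | h3
  · linarith [D1_low h3 p1]
  · linarith [D1_low h3 p2]

theorem D1_round {s t : ℝ} (hs : 0 < s) (ht : |t| ≤ 4 * s) :
    ∃ k : ℤ, |k| ≤ 8 ∧ |t - s / 2 * k| ≤ s / 2 / 2 ∧ (¬ |t| < 4 * s → |k| = 8) := by
  have h := abs_sub_round (t / (s / 2))
  set k := round (t / (s / 2))
  have e : t - s / 2 * k = s / 2 * (t / (s / 2) - k) := by field_simp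
  have h1 : |t - s / 2 * k| ≤ s / 2 / 2 := by
    rw [e, abs_mul, abs_of_pos (by linarith : 0 < s / 2)]
    nlinarith
  have h1' := abs_le.1 h1
  have ht' := abs_le.1 ht
  have hk : |k| ≤ 8 := by
    have a1 : (k : ℝ) < 9 := by nlinarith [h1'.1, ht'.2]
    have a2 : (-9 : ℝ) < k := by nlinarith [h1'.2, ht'.1]
    have b1 : k < 9 := by exact_mod_cast a1
    have b2 : -9 < k := by exact_mod_cast a2
    rw [abs_le]
    omega
  refine ⟨k, hk, h1, fun hn => ?_⟩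
  rw [abs_le] at hk
  rcases le_abs.1 (not_lt.1 hn) with h2 | h2
  · have a1 : (7 : ℝ) < k := by nlinarith [h1'.2]
    have b1 : 7 < k := by exact_mod_cast a1
    rw [abs_eq (by norm_num)]
    omega
  · have a1 : (k : ℝ) < -7 := by nlinarith [h1'.1]
    have b1 : k < -7 := by exact_mod_cast a1
    rw [abs_eq (by norm_num)]
    omega

theorem D1_cover {z : ℂ} (hz : z ∈ csq (ctr n v) (4 * sc n)) (hz' : z ∉ reg n v 4) :
    ∃ j : ℤ × ℤ, max |j.1| |j.2| = 8 ∧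
      z ∈ csq (ctr n v + (sc n / 2 : ℝ) * (j.1 + j.2 * Complex.I)) (sc n / 2 / 2) := by
  have hs := sc_pos n
  obtain ⟨k, k1, k2, k3⟩ := D1_round hs hz.1
  obtain ⟨l, l1, l2, l3⟩ := D1_round hs hz.2
  refine ⟨(k, l), ?_, ?_, ?_⟩
  · show max |k| |l| = 8
    by_cases h1 : |z.re - (ctr n v).re| < 4 * sc n
    · have h2 : ¬ |z.im - (ctr n v).im| < 4 * sc n := fun h2 => hz' ⟨h1, h2⟩
      rw [l3 h2]
      exact max_eq_right k1
    · rw [k3 h1]
      exact max_eq_left l1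
  · rw [D1_grid_re, ← sub_sub]
    exact k2
  · rw [D1_grid_im, ← sub_sub]
    exact l2

theorem D1_csq_mono (y : ℂ) {r r' : ℝ} (h : r ≤ r') : csq y r ⊆ csq y r' :=
  fun _ hz => ⟨hz.1.trans h, hz.2.trans h⟩

theorem D1_ann_subset : ann n v ⊆ csq (ctr n v) (5 * sc n) := fun _ hz =>
  D1_csq_mono _ (by linarith [sc_pos n]) (osq_subset_csq _ _ hz.1)

/-- a point of the boundary of `8S` has a point of `Y` closer than every point off the annulus -/
theorem blk_frame (h : NearGeo S (Function.curry d)) (hS : csq (ctr n v) (5 * sc n) ⊆ S)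
    (hl : 1 ≤ lam) (hB : Blk lam n v d Y) {z x : ℂ} (hz : z ∈ csq (ctr n v) (4 * sc n))
    (hz' : z ∉ reg n v 4) (hx : x ∈ S) (hx' : x ∉ ann n v) :
    ∃ y ∈ Y ∩ ann n v, d (z, y) < d (z, x) := by
  obtain ⟨j, hj, hzj⟩ := D1_cover hz hz'
  obtain ⟨y, hy, hlt⟩ := D1_blk h (by linarith [sc_pos n]) ((D1_csq_grid hj).trans hS) hl
    (hB j hj) hzj hx fun hc => hx' (D1_osq_grid hj hc)
  exact ⟨y, ⟨hy.1, D1_osq_grid hj hy.2⟩, hlt⟩

theorem blk_in (h : NearGeo S (Function.curry d)) (hS : csq (ctr n v) (5 * sc n) ⊆ S)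
    (hl : 1 ≤ lam) (hB : Blk lam n v d Y) {w x : ℂ} (hw : w ∈ csq (ctr n v) (4 * sc n))
    (hx : x ∈ S) (hx' : x ∉ reg n v (9 / 2)) : ∃ y ∈ Y ∩ ann n v, d (w, y) < d (w, x) := by
  have hs := sc_pos n
  have hxa : x ∉ ann n v := fun hc => hx' hc.1
  by_cases hw' : w ∈ reg n v 4
  · have h4 : csq (ctr n v) (4 * sc n) ⊆ S := (D1_csq_mono _ (by linarith)).trans hS
    obtain ⟨z, hz, hle⟩ := D1_exit h h4 hw' hx fun hc => hx' (reg_mono n v (by norm_num) hc)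
    rw [(isOpen_osq _ _).frontier_eq] at hz
    have hzc := D1_closure _ _ hz.1
    obtain ⟨y, hy, hlt⟩ := blk_frame h hS hl hB hzc hz.2 hx hxa
    have ht : d (w, y) ≤ d (w, z) + d (z, y) :=
      h.tri w (h4 hw) z (h4 hzc) y (hS (D1_ann_subset hy.2))
    exact ⟨y, hy, by linarith⟩
  · exact blk_frame h hS hl hB hw hw' hx hxa

theorem blk_out (h : NearGeo S (Function.curry d)) (hS : csq (ctr n v) (5 * sc n) ⊆ S)
    (hl : 1 ≤ lam) (hB : Blk lam n v d Y) {w x : ℂ} (hw : w ∈ S) (hw' : w ∉ reg n v 4)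
    (hx : x ∈ csq (ctr n v) (7 / 2 * sc n)) : ∃ y ∈ Y ∩ ann n v, d (w, y) < d (w, x) := by
  have hs := sc_pos n
  have h4 : csq (ctr n v) (4 * sc n) ⊆ S := (D1_csq_mono _ (by linarith)).trans hS
  have hxo : x ∈ osq (ctr n v) (4 * sc n) := ⟨by linarith [hx.1], by linarith [hx.2]⟩
  have hxS : x ∈ S := h4 (osq_subset_csq _ _ hxo)
  obtain ⟨z, hz, hle⟩ := D1_exit h h4 hxo hw hw'
  rw [(isOpen_osq _ _).frontier_eq] at hz
  have hzc := D1_closure _ _ hz.1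
  obtain ⟨y, hy, hlt⟩ := blk_frame h hS hl hB hzc hz.2 hxS fun hc => hc.2 hx
  have ht : d (w, y) ≤ d (w, z) + d (z, y) := h.tri w hw z (h4 hzc) y (hS (D1_ann_subset hy.2))
  have e1 : d (w, z) = d (z, w) := h.symm w hw z (h4 hzc)
  have e2 : d (z, x) = d (x, z) := h.symm z (h4 hzc) x hxS
  have e3 : d (w, x) = d (x, w) := h.symm w hw x hxS
  exact ⟨y, hy, by linarith⟩

theorem blk_cell_subset (h : NearGeo S (Function.curry d)) (hS : csq (ctr n v) (5 * sc n) ⊆ S)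
    (hl : 1 ≤ lam) (hB : Blk lam n v d Y) (hY : Y ∩ ann n v ⊆ P) {x : ℂ}
    (hx : x ∈ csq (ctr n v) (7 / 2 * sc n)) : cell S (Function.curry d) P x ⊆ reg n v 4 := by
  intro w hw
  by_contra hw'
  obtain ⟨y, hy, hlt⟩ := blk_out h hS hl hB hw.1 hw' hx
  exact absurd (hw.2 y (hY hy)) (not_le.2 hlt)

theorem blk_cell_disjoint (h : NearGeo S (Function.curry d)) (hS : csq (ctr n v) (5 * sc n) ⊆ S)
    (hl : 1 ≤ lam) (hB : Blk lam n v d Y) (hY : Y ∩ ann n v ⊆ P) {x : ℂ} (hx : x ∈ S)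
    (hx' : x ∉ reg n v (9 / 2)) :
    Disjoint (cell S (Function.curry d) P x) (csq (ctr n v) (4 * sc n)) := by
  refine Set.disjoint_left.2 fun w hw hw' => ?_
  obtain ⟨y, hy, hlt⟩ := blk_in h hS hl hB hw' hx hx'
  exact absurd (hw.2 y (hY hy)) (not_le.2 hlt)

/-- a blocked box has a point nearby -/
theorem blk_nonempty (hB : Blk lam n v d Y) : (Y ∩ ann n v).Nonempty := by
  have hj : max |((8, 0) : ℤ × ℤ).1| |((8, 0) : ℤ × ℤ).2| = 8 := by norm_num
  have hs := sc_pos n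
  obtain ⟨y, hy, -⟩ := hB (8, 0) hj _ ⟨by rw [sub_self, abs_zero]; linarith,
    by rw [sub_self, abs_zero]; linarith⟩
  exact ⟨y, hy.1, D1_osq_grid hj hy.2⟩

end Pool.Agent.Lib.MP_0d9445_pr.CR
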