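import Pool.Agent.Lib.MP_0d9445_pr.CR.Count
import Pool.Agent.Lib.MP_0d9445_pr.Walk.Hyp

/-! Deterministic comparison of the net of a cell structure with the dominating variables. -/

open MeasureTheory Set Filter Topology
open scoped ENNReal NNReal

namespace Pool.Agent.Lib.MP_0d9445_pr.CR

open Walk Cell

/-- blocked boxes separate the cells -/
def Sep (C : Cells) (a : Pat) : Prop :=
  ∀ n v, a.B n v → ∀ x ∈ C.V,
    (x ∈ csq (ctr n v) (7 / 2 * sc n) → C.H x ⊆ reg n v 4) ∧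
    (x ∉ reg n v (9 / 2) → Disjoint (C.H x) (csq (ctr n v) (4 * sc n)))

/-- the pattern `a` dominates the cell structure `C` in the window `W` -/
structure Dom (C : Cells) (a : Pat) (W : Set ℂ) : Prop where
  sep : Sep C a
  mem : ∀ x ∈ C.V, x ∈ C.H x
  pts : C.V ∩ W ⊆ a.pts

/-- every point of `A` has a blocked box at a level at least `n` -/
def Shut (a : Pat) (n : ℕ) (A : Set ℂ) : Prop := ∀ z ∈ A, ∃ m, n ≤ m ∧ a.B m (idx m z)

variable {d : ℕ} {C : Cells} {a : Pat} {W K : Set ℂ}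

theorem toFC_V_subset (C : Cells) (K : Set ℂ) : ((C.toFC K).V : Set ℂ) ⊆ C.V := by
  intro x hx
  simp only [Cells.toFC] at hx
  split_ifs at hx with h
  · exact (h.mem_toFinset.1 (Finset.mem_coe.1 hx)).1
  · simp at hx

namespace D2

theorem adj_of_mem {x y : ℂ} (h : y ∈ (C.toFC K).G.N x) : C.Adj x y := by
  obtain ⟨h1, h2, h3, h4⟩ := (C.toFC K).mem_N.1 h
  exact ⟨toFC_V_subset C K h2, toFC_V_subset C K h1, h3, h4⟩

theorem sc_anti {n m : ℕ} (h : n ≤ m) : sc m ≤ sc n := by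
  obtain ⟨k, rfl⟩ := Nat.exists_eq_add_of_le h
  exact sc_add_le n k

theorem idx_congr {m m' : ℕ} (h : m' ≤ m) {x y : ℂ} (e : idx m x = idx m y) :
    idx m' x = idx m' y := by
  obtain ⟨k, rfl⟩ := Nat.exists_eq_add_of_le h
  have h1 : idx (m' + k) y ∈ kids k (idx m' y) := idx_mem_kids.2 rfl
  rw [← e] at h1
  exact idx_mem_kids.1 h1

theorem idx_ctr (n : ℕ) (v : ℤ × ℤ) : idx n (ctr n v) = v := mem_box_iff.1 (ctr_mem_box n v)

theorem mem_osq {y z : ℂ} {r : ℝ} : z ∈ osq y r ↔ sn y z < r := sn_lt_iff.symm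

theorem mem_csq {y z : ℂ} {r : ℝ} : z ∈ csq y r ↔ sn y z ≤ r := sn_le_iff.symm

theorem mem_reg {n : ℕ} {v : ℤ × ℤ} {z : ℂ} {r : ℝ} :
    z ∈ reg n v r ↔ sn (ctr n v) z < r * sc n := mem_osq

theorem sn_ctr (n : ℕ) (z : ℂ) : sn (ctr n (idx n z)) z ≤ sc n / 2 :=
  mem_csq.1 (box_subset_csq n _ (mem_box_idx n z))

theorem sn_pos {x y : ℂ} (h : x ≠ y) : 0 < sn x y := by
  have h1 := dist_le_sn x y
  have h2 := dist_pos.2 h.symm
  linarith

/-- the level of a length -/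
theorem exists_level (hd : 1 ≤ d) {c t : ℝ} (n : ℕ) (ht : 0 < t) (h : t ≤ c * sc n) :
    ∃ l : ℕ, c * sc (n + l * d + d) < t ∧ t ≤ c * sc (n + l * d) := by
  have hc : 0 < c := by
    by_contra hc
    have := mul_nonpos_of_nonpos_of_nonneg (not_lt.1 hc) (sc_pos n).le
    linarith
  have hex : ∃ l : ℕ, c * sc (n + l * d + d) < t := by
    obtain ⟨k, hk⟩ := exists_pow_lt_of_lt_one (div_pos ht hc) (by norm_num : (2 : ℝ)⁻¹ < 1)
    refine ⟨k, ?_⟩
    have h1 : sc (n + k * d + d) ≤ sc k := sc_anti (by nlinarith)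
    have h2 : c * sc k < t := by
      rw [lt_div_iff₀ hc] at hk
      rw [mul_comm]
      exact hk
    nlinarith
  classical
  refine ⟨Nat.find hex, Nat.find_spec hex, ?_⟩
  rcases h0 : Nat.find hex with _ | l
  · simpa using h
  · have := Nat.find_min hex (m := l) (by omega)
    rw [add_mul, one_mul, ← add_assoc]
    exact not_lt.1 this

theorem near_of_B (h : Dom C a W) {m : ℕ} {x z : ℂ} (hB : a.B m (idx m z)) (hx : x ∈ C.V)
    (hz : z ∈ C.H x) : sn z x < 5 * sc m := by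
  have h0 := sc_pos m
  have h1 := sn_ctr m z
  have h2 : x ∈ reg m (idx m z) (9 / 2) := by
    by_contra hn
    exact Set.disjoint_left.1 ((h.sep m _ hB x hx).2 hn) hz (mem_csq.2 (by linarith))
  have h3 := mem_reg.1 h2
  have h4 := sn_triangle z (ctr m (idx m z)) x
  rw [sn_comm z (ctr _ _)] at h4
  linarith

theorem cell_of_B (h : Dom C a W) {m : ℕ} {x : ℂ} (hB : a.B m (idx m x)) (hx : x ∈ C.V) :
    C.H x ⊆ reg m (idx m x) 4 := by
  have h0 := sc_pos m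
  have h1 := sn_ctr m x
  exact (h.sep m _ hB x hx).1 (mem_csq.2 (by linarith))

theorem diam_of_B (h : Dom C a W) {m : ℕ} {x : ℂ} (hB : a.B m (idx m x)) (hx : x ∈ C.V) :
    Metric.diam (C.H x) ≤ 12 * sc m := by
  have h0 := sc_pos m
  refine Metric.diam_le_of_forall_dist_le (by positivity) fun p hp q hq => ?_
  obtain ⟨p1, p2⟩ := cell_of_B h hB hx hp
  obtain ⟨q1, q2⟩ := cell_of_B h hB hx hq
  rw [abs_lt] at p1 p2 q1 q2
  rw [Complex.dist_eq_re_im]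
  refine Real.sqrt_le_iff.2 ⟨by positivity, ?_⟩
  have e1 : (p.re - q.re) ^ 2 ≤ (8 * sc m) ^ 2 :=
    sq_le_sq' (by linarith [p1.1, q1.2]) (by linarith [p1.2, q1.1])
  have e2 : (p.im - q.im) ^ 2 ≤ (8 * sc m) ^ 2 :=
    sq_le_sq' (by linarith [p2.1, q2.2]) (by linarith [p2.2, q2.1])
  nlinarith

theorem adj_of_B (h : Dom C a W) {m : ℕ} {x y : ℂ} (hB : a.B m (idx m x)) (hxy : C.Adj x y) :
    sn x y < 5 * sc m := by
  obtain ⟨hx, hy, -, w, hwx, hwy⟩ := hxy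
  have h1 := sn_ctr m x
  have h2 : y ∈ reg m (idx m x) (9 / 2) := by
    by_contra hn
    exact Set.disjoint_left.1 ((h.sep m _ hB y hy).2 hn) hwy
      (mem_csq.2 (mem_reg.1 (cell_of_B h hB hx hwx)).le)
  have h3 := mem_reg.1 h2
  have h4 := sn_triangle x (ctr m (idx m x)) y
  rw [sn_comm x (ctr _ _)] at h4
  linarith

theorem adj_symm {x y : ℂ} (h : C.Adj x y) : C.Adj y x :=
  ⟨h.2.1, h.1, h.2.2.1.symm, by rw [inter_comm]; exact h.2.2.2⟩

theorem exposed_of_adj (h : Dom C a W) {m : ℕ} {x y : ℂ} (hxy : C.Adj x y)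
    (hl : 5 * sc (m + d) < sn x y) : Exposed d a m x := fun i hB => by
  have h1 := adj_of_B h hB hxy
  have h2 : sc (m + (i + 1) * d) ≤ sc (m + d) := sc_anti (by nlinarith)
  linarith

theorem exposed_of_diam (h : Dom C a W) {m : ℕ} {x : ℂ} (hx : x ∈ C.V)
    (hl : 12 * sc (m + d) < Metric.diam (C.H x)) : Exposed d a m x := fun i hB => by
  have h1 := diam_of_B h hB hx
  have h2 : sc (m + (i + 1) * d) ≤ sc (m + d) := sc_anti (by nlinarith)
  linarith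

end D2

open D2

theorem shut_of_B {n : ℕ} {v : ℤ × ℤ} (h : a.B n v) : Shut a n (box n v) :=
  fun _ hz => ⟨n, le_rfl, by rw [mem_box_iff.1 hz]; exact h⟩

theorem shut_of_Loc (hd : 1 ≤ d) {n : ℕ} {v : ℤ × ℤ} (h : Loc d a n v) :
    Shut a (n + d) (csq (ctr n v) (sc n)) := fun z hz => by
  have h1 := not_exposed_of_Loc hd h hz
  simp only [Exposed, not_forall, not_not] at h1
  obtain ⟨i, hi⟩ := h1
  exact ⟨_, Nat.le_add_right _ _, hi⟩

theorem Shut.mono {n n' : ℕ} {A A' : Set ℂ} (h : Shut a n A) (hn : n' ≤ n) (hA : A' ⊆ A) :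
    Shut a n' A' := fun z hz => by
  obtain ⟨m, hm, hB⟩ := h z (hA hz)
  exact ⟨m, hn.trans hm, hB⟩

/-- a cell that meets a shut set has its centre nearby -/
theorem Dom.centre_near (h : Dom C a W) {n : ℕ} {A : Set ℂ} (hs : Shut a n A) {x z : ℂ}
    (hx : x ∈ C.V) (hz : z ∈ A) (hzx : z ∈ C.H x) : x ∈ osq z (5 * sc n) := by
  obtain ⟨m, hm, hB⟩ := hs z hz
  have h1 := near_of_B h hB hx hzx
  have h2 := sc_anti hm
  exact mem_osq.2 (by linarith)

/-- the cell of a shut point is small -/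
theorem Dom.cell_subset (h : Dom C a W) {n : ℕ} {A : Set ℂ} (hs : Shut a n A) {x : ℂ}
    (hx : x ∈ C.V) (hxA : x ∈ A) : C.H x ⊆ osq x (5 * sc n) := by
  obtain ⟨m, hm, hB⟩ := hs x hxA
  intro w hw
  have h0 := sc_pos m
  have h1 := mem_reg.1 (cell_of_B h hB hx hw)
  have h2 := sc_anti hm
  have h3 := sn_ctr m x
  have h4 := sn_triangle x (ctr m (idx m x)) w
  rw [sn_comm x (ctr _ _)] at h4
  exact mem_osq.2 (by linarith)

theorem Dom.diam_le (h : Dom C a W) {n : ℕ} {A : Set ℂ} (hs : Shut a n A) {x : ℂ}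
    (hx : x ∈ C.V) (hxA : x ∈ A) : Metric.diam (C.H x) ≤ 12 * sc n := by
  obtain ⟨m, hm, hB⟩ := hs x hxA
  have h1 := diam_of_B h hB hx
  have h2 := sc_anti hm
  linarith

theorem Dom.adj_near (h : Dom C a W) {n : ℕ} {A : Set ℂ} (hs : Shut a n A) {x y : ℂ}
    (hxA : x ∈ A) (hxy : C.Adj x y) : y ∈ osq x (5 * sc n) := by
  obtain ⟨m, hm, hB⟩ := hs x hxA
  have h1 := adj_of_B h hB hxy
  have h2 := sc_anti hm
  exact mem_osq.2 (by linarith)

theorem sig_ctr (n i : ℕ) (z : ℂ) :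
    sig d a n (i + 1) z = sig d a n (i + 1) (ctr (n + i * d) (idx (n + i * d) z)) := by
  refine Finset.sum_congr rfl fun l hl => ?_
  have h1 : n + l * d ≤ n + i * d :=
    Nat.add_le_add_left (Nat.mul_le_mul_right d (Nat.lt_succ_iff.1 (Finset.mem_range.1 hl))) n
  rw [idx_congr h1 (idx_ctr (n + i * d) (idx (n + i * d) z))]

namespace D2

open Classical in
theorem sum_le_cover {ι κ : Type*} (E : Finset ι) (f : ι → ℝ≥0∞) (P : κ → ι → Prop)
    (hP : ∀ e ∈ E, f e ≠ 0 → ∃ l, P l e) :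
    ∑ e ∈ E, f e ≤ ∑' l, ∑ e ∈ E.filter (P l), f e := by
  calc ∑ e ∈ E, f e ≤ ∑ e ∈ E, ∑' l, (if P l e then f e else 0) := by
        refine Finset.sum_le_sum fun e he => ?_
        by_cases h0 : f e = 0
        · rw [h0]; exact zero_le
        · obtain ⟨l, hl⟩ := hP e he h0
          refine le_trans ?_ (ENNReal.le_tsum l)
          rw [if_pos hl]
    _ = ∑' l, ∑ e ∈ E, (if P l e then f e else 0) :=
        (Summable.tsum_finsetSum fun _ _ => ENNReal.summable).symm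
    _ = _ := tsum_congr fun l => (Finset.sum_filter _ _).symm

open Classical in
/-- levels below `i` and levels from `i` on -/
theorem sum_le_split {ι : Type*} (E : Finset ι) (f : ι → ℝ≥0∞) (P : ℕ → ι → Prop)
    (hP : ∀ e ∈ E, f e ≠ 0 → ∃ l, P l e) (i : ℕ) {b b' : ℕ → ℝ≥0∞}
    (hb : ∀ l < i, ∀ F ⊆ E, (∀ e ∈ F, P l e) → ∑ e ∈ F, f e ≤ b l)
    (hb' : ∀ l, ∀ F ⊆ E, (∀ e ∈ F, P (i + l) e) → ∑ e ∈ F, f e ≤ b' l) :
    ∑ e ∈ E, f e ≤ ∑ l ∈ Finset.range i, b l + ∑' l, b' l := by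
  refine (sum_le_cover E f P hP).trans ?_
  rw [← Summable.sum_add_tsum_nat_add' (k := i) ENNReal.summable]
  refine add_le_add (Finset.sum_le_sum fun l hl => hb l (Finset.mem_range.1 hl) _
    (Finset.filter_subset _ _) fun e he => (Finset.mem_filter.1 he).2)
    (ENNReal.tsum_le_tsum fun l => hb' l _ (Finset.filter_subset _ _) fun e he => ?_)
  rw [add_comm]
  exact (Finset.mem_filter.1 he).2

theorem sum_le_levels {ι : Type*} (E : Finset ι) (f : ι → ℝ≥0∞) (P : ℕ → ι → Prop)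
    (hP : ∀ e ∈ E, f e ≠ 0 → ∃ l, P l e) {b : ℕ → ℝ≥0∞}
    (hb : ∀ l, ∀ F ⊆ E, (∀ e ∈ F, P l e) → ∑ e ∈ F, f e ≤ b l) : ∑ e ∈ E, f e ≤ ∑' l, b l := by
  have := sum_le_split E f P hP 0 (b := fun _ => 0) (b' := b) (fun l hl => absurd hl (by omega))
    fun l F hF h => hb l F hF (by simpa using h)
  simpa using this

theorem sum_le_card {ι : Type*} (E : Finset ι) (f : ι → ℝ≥0∞) {c Z : ℝ≥0∞}
    (hf : ∀ e ∈ E, f e ≤ c) (hZ : (E.card : ℝ≥0∞) ≤ Z) : ∑ e ∈ E, f e ≤ c * Z := by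
  refine (Finset.sum_le_card_nsmul E f c hf).trans ?_
  rw [nsmul_eq_mul, mul_comm]
  gcongr

theorem sum_le_boxes {ι : Type*} (E : Finset ι) (f : ι → ℝ≥0∞) {c : ℝ≥0∞}
    (hf : ∀ e ∈ E, f e ≤ c) (g : ι → ℤ × ℤ) (I : Finset (ℤ × ℤ)) (hg : ∀ e ∈ E, g e ∈ I)
    (Z : ℤ × ℤ → ℝ≥0∞) (hZ : ∀ w, ∀ F ⊆ E, (∀ e ∈ F, g e = w) → (F.card : ℝ≥0∞) ≤ Z w) :
    ∑ e ∈ E, f e ≤ c * ∑ w ∈ I, Z w := by
  refine sum_le_card E f hf ?_
  rw [Finset.card_eq_sum_card_fiberwise (f := g) (t := I) fun e he => hg e he, Nat.cast_sum]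
  exact Finset.sum_le_sum fun w _ =>
    hZ w _ (Finset.filter_subset _ _) fun e he => (Finset.mem_filter.1 he).2

/-- an edge of level `m` -/
def Edge (d : ℕ) (a : Pat) (m : ℕ) (p : ℂ × ℂ) : Prop :=
  p.1 ≠ p.2 ∧ p.1 ∈ a.pts ∧ p.2 ∈ a.pts ∧ Exposed d a m p.1 ∧ Exposed d a m p.2 ∧
    sn p.1 p.2 ≤ 5 * sc m

theorem card_le_TT (hd : 1 ≤ d) {m : ℕ} {w : ℤ × ℤ} (F : Finset (ℂ × ℂ))
    (hF : ∀ p ∈ F, Edge d a m p ∧ idx m p.1 = w) : (F.card : ℝ≥0∞) ≤ TT d a m w := by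
  classical
  set G : Finset ℂ := F.image Prod.fst ∪ F.image Prod.snd with hG
  have h1 : F ⊆ G.offDiag := fun p hp => Finset.mem_offDiag.2
    ⟨Finset.mem_union_left _ (Finset.mem_image_of_mem _ hp),
      Finset.mem_union_right _ (Finset.mem_image_of_mem _ hp), (hF p hp).1.1⟩
  have h2 : ∀ z ∈ G, z ∈ a.pts ∧ Exposed d a m z ∧ idx m z ∈ nbh 5 w := by
    intro z hz
    rcases Finset.mem_union.1 hz with hz | hz
    · obtain ⟨p, hp, rfl⟩ := Finset.mem_image.1 hz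
      obtain ⟨⟨-, e1, -, e2, -, -⟩, e3⟩ := hF p hp
      exact ⟨e1, e2, e3 ▸ self_mem_nbh 5 _⟩
    · obtain ⟨p, hp, rfl⟩ := Finset.mem_image.1 hz
      obtain ⟨⟨-, -, e1, -, e2, e4⟩, e3⟩ := hF p hp
      exact ⟨e1, e2, e3 ▸ idx_mem_nbh (mem_csq.2 (by exact_mod_cast e4))⟩
  have h3 := ncard_pairs_le_TT hd (F := (G : Set ℂ)) G.finite_toSet (fun z hz => (h2 z hz).1)
    fun z hz => (h2 z hz).2
  refine le_trans ?_ h3
  rw [Set.ncard_coe_finset, Nat.mul_sub_one, ← Finset.offDiag_card]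
  exact_mod_cast Finset.card_le_card h1

theorem card_le_ZZ (hd : 1 ≤ d) {m : ℕ} {w : ℤ × ℤ} (F : Finset ℂ)
    (hF : ∀ z ∈ F, z ∈ a.pts ∧ Exposed d a m z ∧ idx m z ∈ nbh 20 w) :
    (F.card : ℝ≥0∞) ≤ ZZ d a m w := by
  have h3 := ncard_sq_le_ZZ hd (F := (F : Set ℂ)) F.finite_toSet (fun z hz => (hF z hz).1)
    fun z hz => (hF z hz).2
  refine le_trans ?_ h3
  rw [Set.ncard_coe_finset]
  exact_mod_cast Nat.le_self_pow two_ne_zero _

open Classical in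
/-- oriented edges that start in `A` -/
noncomputable def edges (N : FC) (A : Set ℂ) : Finset (ℂ × ℂ) :=
  (N.pts A ×ˢ N.V).filter fun p => p.2 ∈ N.G.N p.1

theorem mem_edges {N : FC} {A : Set ℂ} {p : ℂ × ℂ} (h : p ∈ edges N A) :
    p.1 ∈ A ∧ p.2 ∈ N.G.N p.1 := by
  classical
  obtain ⟨h1, h2⟩ := Finset.mem_filter.1 h
  exact ⟨(N.mem_pts.1 (Finset.mem_product.1 h1).1).2, h2⟩

theorem sum_edges (N : FC) (A : Set ℂ) (φ : ℂ → ℂ → ℝ) :
    ∑ x ∈ N.pts A, ∑ y ∈ N.G.N x, φ x y = ∑ p ∈ edges N A, φ p.1 p.2 := by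
  classical
  rw [edges, Finset.sum_filter, Finset.sum_product]
  refine Finset.sum_congr rfl fun x _ => ?_
  rw [← Finset.sum_filter]
  refine Finset.sum_congr ?_ fun _ _ => rfl
  ext y
  rw [Finset.mem_filter]
  exact ⟨fun hy => ⟨(N.mem_N.1 hy).1, hy⟩, fun hy => hy.2⟩

theorem edge_level (h : Dom C a W) (hd : 1 ≤ d) {n : ℕ} {v : ℤ × ℤ}
    (hs : Shut a n (box n v)) (hW : reg n v 6 ⊆ W) {p : ℂ × ℂ} (hx : p.1 ∈ box n v)
    (hp : C.Adj p.1 p.2) : ∃ l, Edge d a (n + l * d) p := by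
  have h0 := sc_pos n
  have h1 := mem_osq.1 (h.adj_near hs hx hp)
  have h2 := mem_csq.1 (box_subset_csq n v hx)
  have h3 := sn_triangle (ctr n v) p.1 p.2
  obtain ⟨l, hl, hl'⟩ := exists_level hd n (sn_pos hp.2.2.1) h1.le
  exact ⟨l, hp.2.2.1, h.pts ⟨hp.1, hW (mem_reg.2 (by linarith))⟩,
    h.pts ⟨hp.2.1, hW (mem_reg.2 (by linarith))⟩, exposed_of_adj h hp hl,
    exposed_of_adj h (adj_symm hp) (by rwa [sn_comm]), hl'⟩

theorem vert_level (h : Dom C a W) (hd : 1 ≤ d) {n : ℕ} {A : Set ℂ} (hs : Shut a n A) {x : ℂ}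
    (hx : x ∈ C.V) (hxA : x ∈ A) (h0 : Metric.diam (C.H x) ≠ 0) :
    ∃ l, Exposed d a (n + l * d) x ∧ Metric.diam (C.H x) ≤ 12 * sc (n + l * d) := by
  obtain ⟨l, hl, hl'⟩ := exists_level hd n (lt_of_le_of_ne Metric.diam_nonneg h0.symm)
    (h.diam_le hs hx hxA)
  exact ⟨l, exposed_of_diam h hx hl, hl'⟩

theorem ofReal_sc (c : ℝ) (n k : ℕ) :
    ENNReal.ofReal (c * sc (n + k) ^ 2) = ENNReal.ofReal (c * sc n ^ 2) * (4 : ℝ≥0∞)⁻¹ ^ k := by
  have e : c * sc (n + k) ^ 2 = c * sc n ^ 2 * (4 : ℝ)⁻¹ ^ k := by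
    rw [sc_add, mul_pow, ← pow_mul, mul_comm k 2, pow_mul, mul_assoc]
    norm_num
  rw [e, ENNReal.ofReal_mul' (by positivity), ENNReal.ofReal_pow (by positivity),
    ENNReal.ofReal_inv_of_pos (by norm_num)]
  norm_num

theorem sum_pts_le (N : FC) {n : ℕ} {A : Set ℂ} (I : Finset (ℤ × ℤ))
    (hI : ∀ z ∈ A, idx n z ∈ I) {f : ℂ → ℝ} (hf : ∀ x, 0 ≤ f x) :
    ∑ x ∈ N.pts A, f x ≤ ∑ v ∈ I, ∑ x ∈ N.pts (box n v), f x := by
  rw [← Finset.sum_fiberwise_of_maps_to (g := idx n) (t := I)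
    fun x hx => hI x (N.mem_pts.1 hx).2]
  refine Finset.sum_le_sum fun v _ => Finset.sum_le_sum_of_subset_of_nonneg (fun x hx => ?_)
    fun x _ _ => hf x
  obtain ⟨h1, h2⟩ := Finset.mem_filter.1 hx
  exact N.mem_pts.2 ⟨(N.mem_pts.1 h1).1, mem_box_iff.2 h2⟩

theorem X_eq (N : FC) (A : Set ℂ) : N.X A =
    ∑ x ∈ N.pts A, ∑ y ∈ N.G.N x, ((x.re - y.re) ^ 2 + (x.im - y.im) ^ 2) / 2 := by
  simp only [FC.X, Net.en, Finset.mul_sum, ← Finset.sum_add_distrib]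
  refine Finset.sum_congr rfl fun x _ => Finset.sum_congr rfl fun y _ => ?_
  ring

theorem X_nonneg (N : FC) (A : Set ℂ) : 0 ≤ N.X A := by
  rw [X_eq]
  positivity

theorem deg_nonneg (N : FC) (x : ℂ) : 0 ≤ N.G.deg x := Nat.cast_nonneg _

theorem deg_eq (N : FC) (A : Set ℂ) :
    ENNReal.ofReal (∑ x ∈ N.pts A, N.G.deg x) = ∑ _p ∈ edges N A, 1 := by
  have e : ∑ x ∈ N.pts A, N.G.deg x = ∑ x ∈ N.pts A, ∑ _y ∈ N.G.N x, (1 : ℝ) := by
    simp [Net.deg]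
  rw [e, sum_edges N A fun _ _ => 1, ENNReal.ofReal_sum_of_nonneg fun _ _ => zero_le_one]
  simp

end D2

/-- degree sum of a descendant of a shut box -/
theorem Dom.deg_le (h : Dom C a W) (hd : 1 ≤ d) {n i : ℕ} {v w : ℤ × ℤ}
    (hs : Shut a n (box n v)) (hW : reg n v 6 ⊆ W) (hw : w ∈ kids (i * d) v) :
    ENNReal.ofReal (∑ x ∈ (C.toFC K).pts (box (n + i * d) w), (C.toFC K).G.deg x) ≤
      PiD d a (n + i * d) w + sig d a n i (ctr (n + i * d) w) := by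
  rw [deg_eq, add_comm (PiD _ _ _ _)]
  refine sum_le_split _ _ (fun l p => Edge d a (n + l * d) p) (fun p hp _ =>
    edge_level h hd hs hW (box_subset_of_kids hw (mem_edges hp).1) (adj_of_mem (mem_edges hp).2))
    i (fun l hl F hF hP => ?_) fun l F hF hP => ?_
  · rw [← one_mul (ZZ _ _ _ _)]
    refine sum_le_card _ _ (fun _ _ => le_rfl) ((card_le_TT hd F fun p hp => ⟨hP p hp, ?_⟩).trans
      (TT_le_ZZ _ _))
    refine idx_congr (Nat.add_le_add_left (Nat.mul_le_mul_right d hl.le) n) ?_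
    rw [idx_ctr, mem_box_iff.1 (mem_edges (hF hp)).1]
  · rw [← one_mul (Finset.sum _ fun w => TT _ _ _ w)]
    refine sum_le_boxes F _ (fun _ _ => le_rfl) (fun p => idx (n + i * d + l * d) p.1) _
      (fun p hp => idx_mem_kids.2 (mem_box_iff.1 (mem_edges (hF hp)).1)) _
      fun q G hG hq => card_le_TT hd G fun p hp => ⟨?_, hq p hp⟩
    have := hP p (hG hp)
    rwa [add_mul, ← add_assoc] at this

theorem Dom.X_le (h : Dom C a W) (hd : 1 ≤ d) {n : ℕ} {v : ℤ × ℤ}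
    (hs : Shut a n (box n v)) (hW : reg n v 6 ⊆ W) :
    ENNReal.ofReal ((C.toFC K).X (box n v)) ≤ ENNReal.ofReal (25 * sc n ^ 2) * KK d a n v := by
  rw [X_eq, sum_edges _ _ fun x y => ((x.re - y.re) ^ 2 + (x.im - y.im) ^ 2) / 2,
    ENNReal.ofReal_sum_of_nonneg fun _ _ => by positivity, KK, ← ENNReal.tsum_mul_left]
  refine sum_le_levels _ _ (fun l p => Edge d a (n + l * d) p) (fun p hp _ =>
    edge_level h hd hs hW (mem_edges hp).1 (adj_of_mem (mem_edges hp).2)) fun l F hF hP => ?_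
  rw [← mul_assoc, ← ofReal_sc]
  refine sum_le_boxes F _ (fun p hp => ENNReal.ofReal_le_ofReal ?_)
    (fun p => idx (n + l * d) p.1) _
    (fun p hp => idx_mem_kids.2 (mem_box_iff.1 (mem_edges (hF hp)).1)) _
    fun q G hG hq => (card_le_TT hd G fun p hp => ⟨hP p (hG hp), hq p hp⟩).trans (TT_le_ZZ _ _)
  obtain ⟨e1, e2⟩ := sn_le_iff.1 (hP p hp).2.2.2.2.2
  rw [abs_le] at e1 e2
  have f1 : (p.1.re - p.2.re) ^ 2 ≤ (5 * sc (n + l * d)) ^ 2 :=
    sq_le_sq' (by linarith [e1.2]) (by linarith [e1.1])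
  have f2 : (p.1.im - p.2.im) ^ 2 ≤ (5 * sc (n + l * d)) ^ 2 :=
    sq_le_sq' (by linarith [e2.2]) (by linarith [e2.1])
  nlinarith

theorem Dom.Y_le (h : Dom C a W) (hd : 1 ≤ d) {n : ℕ} {v : ℤ × ℤ}
    (hs : Shut a n (box n v)) (hW : reg n v 6 ⊆ W) :
    ENNReal.ofReal ((C.toFC K).Y (box n v)) ≤ ENNReal.ofReal (144 * sc n ^ 2) * KK d a n v := by
  rw [FC.Y, ENNReal.ofReal_sum_of_nonneg fun _ _ => by positivity, KK, ← ENNReal.tsum_mul_left]
  have hm : ∀ x ∈ (C.toFC K).pts (box n v), x ∈ C.V ∧ x ∈ box n v := fun x hx =>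
    ⟨toFC_V_subset C K ((C.toFC K).mem_pts.1 hx).1, ((C.toFC K).mem_pts.1 hx).2⟩
  refine sum_le_levels _ _
    (fun l x => Exposed d a (n + l * d) x ∧ Metric.diam (C.H x) ≤ 12 * sc (n + l * d))
    (fun x hx h0 => vert_level h hd hs (hm x hx).1 (hm x hx).2 fun e => h0 ?_)
    fun l F hF hP => ?_
  · change ENNReal.ofReal (Metric.diam (C.H x) ^ 2) = 0
    simp [e]
  rw [← mul_assoc, ← ofReal_sc]
  refine sum_le_boxes F _ (fun x hx => ENNReal.ofReal_le_ofReal ?_) (idx (n + l * d)) _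
    (fun x hx => idx_mem_kids.2 (mem_box_iff.1 (hm x (hF hx)).2)) _
    fun q G hG hq => card_le_ZZ hd G fun x hx => ⟨h.pts ⟨(hm x (hF (hG hx))).1, hW ?_⟩,
      (hP x (hG hx)).1, hq x hx ▸ self_mem_nbh 20 _⟩
  · change Metric.diam (C.H x) ^ 2 ≤ _
    have := pow_le_pow_left₀ Metric.diam_nonneg (hP x hx).2 2
    nlinarith
  · have h0 := sc_pos n
    have h2 := mem_csq.1 (box_subset_csq n v (hm x (hF (hG hx))).2)
    exact mem_reg.2 (by linarith)

/-- the multi-scale cell count of `Micro` -/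
theorem Dom.Kj_le (h : Dom C a W) (hd : 7 ≤ d) {n i j : ℕ} (h1 : n + i * d ≤ j)
    (h2 : j < n + i * d + d) {y : ℂ} (hs : Shut a n (osq y (8 * sc n)))
    (hW : osq y (8 * sc n) ⊆ W) :
    ENNReal.ofReal (∑ x ∈ mt (C.toFC K).H (C.toFC K).V (sqC y (2 / 2 ^ j)),
        min 1 (Metric.diam ((C.toFC K).H x) * 2 ^ j) ^ 2) ≤
      sig d a n (i + 1) y +
        144 * 4 ^ d * ∑ q ∈ nbh 3 (idx (n + i * d) y), KK d a (n + i * d) q := by
  have hd1 : 1 ≤ d := by omega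
  have hn := sc_pos n
  have hj : (2 : ℝ) / 2 ^ j = 2 * sc j := by rw [sc, inv_pow, div_eq_mul_inv]
  have hji : sc j ≤ sc (n + i * d) := sc_anti h1
  have hjn : sc j ≤ sc n := sc_anti (le_trans (Nat.le_add_right _ _) h1)
  have hm : ∀ x ∈ mt (C.toFC K).H (C.toFC K).V (sqC y (2 / 2 ^ j)), x ∈ C.V ∧
      x ∈ osq y (8 * sc n) ∧ sn y x ≤ 2 * sc j + Metric.diam (C.H x) := by
    intro x hx
    obtain ⟨hV, z, hz, hzy⟩ := mem_mt.1 hx
    have hV' := toFC_V_subset C K hV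
    have e1 : sn y z ≤ 2 * sc j := hj ▸ hzy
    have e2 := mem_osq.1 (h.centre_near hs hV' (mem_osq.2 (by linarith)) hz)
    have e3 := sn_triangle y z x
    have e4 : x ∈ osq y (8 * sc n) := mem_osq.2 (by linarith)
    have e5 : Bornology.IsBounded (C.H x) := by
      refine (Metric.isBounded_closedBall (x := x) (r := 10 * sc n)).subset fun u hu => ?_
      have f1 := mem_osq.1 (h.cell_subset hs hV' e4 hu)
      have f2 := dist_le_sn x u
      exact Metric.mem_closedBall.2 (by linarith)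
    have e6 := Metric.dist_le_diam_of_mem e5 (h.mem x hV') hz
    have e7 := sn_le_dist z x
    exact ⟨hV', e4, by linarith⟩
  have hsum : 144 * 4 ^ d * ∑ q ∈ nbh 3 (idx (n + i * d) y), KK d a (n + i * d) q =
      ∑' l : ℕ, 144 * 4 ^ d * (4 : ℝ≥0∞)⁻¹ ^ (l * d) *
        ∑ w ∈ (nbh 3 (idx (n + i * d) y)).biUnion (kids (l * d)), ZZ d a (n + i * d + l * d) w := by
    simp only [KK, sum_biUnion_kids, mul_assoc]
    rw [ENNReal.tsum_mul_left, ENNReal.tsum_mul_left,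
      ← Summable.tsum_finsetSum fun _ _ => ENNReal.summable]
    simp only [Finset.mul_sum]
  rw [ENNReal.ofReal_sum_of_nonneg fun _ _ => by positivity, hsum, sig]
  refine (sum_le_split _ _
    (fun l x => Exposed d a (n + l * d) x ∧ Metric.diam (C.H x) ≤ 12 * sc (n + l * d))
    (fun x hx h0 => vert_level h hd1 hs (hm x hx).1 (hm x hx).2.1 fun e => h0 ?_) (i + 1)
    (b' := fun l => 144 * 4 ^ d * (4 : ℝ≥0∞)⁻¹ ^ ((l + 1) * d) *
        ∑ w ∈ (nbh 3 (idx (n + i * d) y)).biUnion (kids ((l + 1) * d)),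
          ZZ d a (n + i * d + (l + 1) * d) w)
    (fun l hl F hF hP => ?_) fun l F hF hP => ?_).trans (add_le_add le_rfl ?_)
  · change ENNReal.ofReal (min 1 (Metric.diam (C.H x) * 2 ^ j) ^ 2) = 0
    simp [e]
  · rw [← one_mul (ZZ _ _ _ _)]
    refine sum_le_card _ _ (fun x _ => ?_) (card_le_ZZ hd1 F fun x hx =>
      ⟨h.pts ⟨(hm x (hF hx)).1, hW (hm x (hF hx)).2.1⟩, (hP x hx).1, idx_mem_nbh (mem_csq.2 ?_)⟩)
    · exact ENNReal.ofReal_le_one.2 (pow_le_one₀ (le_min zero_le_one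
        (mul_nonneg Metric.diam_nonneg (by positivity))) (min_le_left _ _))
    · have e1 := (hm x (hF hx)).2.2
      have e2 := (hP x hx).2
      have e3 : sc (n + i * d) ≤ sc (n + l * d) :=
        sc_anti (Nat.add_le_add_left (Nat.mul_le_mul_right d (Nat.lt_succ_iff.1 hl)) n)
      have e4 := sc_pos (n + l * d)
      push_cast
      linarith
  · have el : n + (i + 1 + l) * d = n + i * d + (l + 1) * d := by ring
    rw [el] at hP
    refine sum_le_boxes F _ (fun x hx => ?_) (idx (n + i * d + (l + 1) * d)) _ (fun x hx => ?_) _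
      fun q G hG hq => card_le_ZZ hd1 G fun x hx =>
        ⟨h.pts ⟨(hm x (hF (hG hx))).1, hW (hm x (hF (hG hx))).2.1⟩, (hP x (hG hx)).1,
          hq x hx ▸ self_mem_nbh 20 _⟩
    · have e0 : 0 ≤ Metric.diam (C.H x) * 2 ^ j := mul_nonneg Metric.diam_nonneg (by positivity)
      have e1 : sc (n + i * d) * 2 ^ j ≤ 2 ^ d := by
        have f1 : (2 : ℝ) ^ j ≤ 2 ^ (n + i * d + d) := pow_le_pow_right₀ one_le_two h2.le
        calc sc (n + i * d) * 2 ^ j ≤ sc (n + i * d) * 2 ^ (n + i * d + d) :=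
              mul_le_mul_of_nonneg_left f1 (sc_pos _).le
          _ = 2 ^ d := by
              rw [sc, pow_add (2 : ℝ) (n + i * d) d, ← mul_assoc, ← mul_pow]
              norm_num
      have e2 : Metric.diam (C.H x) * 2 ^ j ≤ 12 * 2 ^ d * (2 : ℝ)⁻¹ ^ ((l + 1) * d) := by
        calc Metric.diam (C.H x) * 2 ^ j ≤ 12 * sc (n + i * d + (l + 1) * d) * 2 ^ j :=
              mul_le_mul_of_nonneg_right (hP x hx).2 (by positivity)
          _ = 12 * (sc (n + i * d) * 2 ^ j) * (2 : ℝ)⁻¹ ^ ((l + 1) * d) := by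
              rw [sc_add (n + i * d)]
              ring
          _ ≤ _ := by gcongr
      have e3 : min 1 (Metric.diam (C.H x) * 2 ^ j) ^ 2 ≤
          144 * 4 ^ d * (4 : ℝ)⁻¹ ^ ((l + 1) * d) := by
        refine (pow_le_pow_left₀ (le_min zero_le_one e0) ((min_le_right _ _).trans e2) 2).trans
          (le_of_eq ?_)
        rw [mul_pow, mul_pow, ← pow_mul, ← pow_mul, mul_comm d 2, mul_comm ((l + 1) * d) 2,
          pow_mul, pow_mul]
        norm_num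
      refine (ENNReal.ofReal_le_ofReal e3).trans (le_of_eq ?_)
      rw [ENNReal.ofReal_mul (by positivity), ENNReal.ofReal_mul (by positivity),
        ENNReal.ofReal_pow (by positivity), ENNReal.ofReal_pow (by positivity),
        ENNReal.ofReal_inv_of_pos (by norm_num)]
      norm_num
    · refine Finset.mem_biUnion.2 ⟨idx (n + i * d) x, idx_mem_nbh (mem_csq.2 ?_),
        idx_mem_kids.2 rfl⟩
      have e1 := (hm x (hF hx)).2.2
      have e2 := (hP x hx).2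
      have e3 : sc (n + i * d + (l + 1) * d) ≤ sc (n + i * d + 4) :=
        sc_anti (Nat.add_le_add_left (by nlinarith) _)
      have e4 := sc_pos (n + i * d)
      rw [sc_add (n + i * d) 4] at e3
      push_cast
      linarith
  · exact ENNReal.tsum_comp_le_tsum_of_injective (f := fun l : ℕ => l + 1)
      (fun _ _ e => Nat.succ_injective e) fun l => 144 * 4 ^ d * (4 : ℝ≥0∞)⁻¹ ^ (l * d) *
        ∑ w ∈ (nbh 3 (idx (n + i * d) y)).biUnion (kids (l * d)), ZZ d a (n + i * d + l * d) w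

/-- sums over a set covered by boxes -/
theorem X_le_sum (N : FC) {n : ℕ} {A : Set ℂ} (I : Finset (ℤ × ℤ)) (hI : ∀ z ∈ A, idx n z ∈ I) :
    N.X A ≤ ∑ v ∈ I, N.X (box n v) := by
  simp only [X_eq]
  exact sum_pts_le N I hI fun x => by positivity

theorem Y_le_sum (N : FC) {n : ℕ} {A : Set ℂ} (I : Finset (ℤ × ℤ)) (hI : ∀ z ∈ A, idx n z ∈ I) :
    N.Y A ≤ ∑ v ∈ I, N.Y (box n v) :=
  sum_pts_le N I hI fun _ => sq_nonneg _

theorem deg_le_sum (N : FC) {n : ℕ} {A : Set ℂ} (I : Finset (ℤ × ℤ))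
    (hI : ∀ z ∈ A, idx n z ∈ I) :
    ∑ x ∈ N.pts A, N.G.deg x ≤ ∑ v ∈ I, ∑ x ∈ N.pts (box n v), N.G.deg x :=
  sum_pts_le N I hI (deg_nonneg N)

namespace D2

theorem kid_of_Loc (hd : 7 ≤ d) {n : ℕ} {v w : ℤ × ℤ} (hL : Loc d a n v)
    (hW : reg n v (3 / 2) ⊆ W) (hw : w ∈ kids d v) :
    Shut a (n + d) (box (n + d) w) ∧ reg (n + d) w 6 ⊆ W := by
  have h0 := sc_pos n
  refine ⟨(shut_of_Loc (by omega) hL).mono le_rfl fun z hz => mem_csq.2 ?_,
    ((reg_subset_ball _ _ (by norm_num)).trans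
      (reg_cov_subset hd (kids_subset_cov d v hw))).trans hW⟩
  have := mem_csq.1 (box_subset_csq n v (box_subset_of_kids hw hz))
  linarith

end D2

/-- on `Loc`, for the homogenisation module -/
theorem Dom.X_le_Xd (h : Dom C a W) (hd : 7 ≤ d) {n : ℕ} {v : ℤ × ℤ} (hL : Loc d a n v)
    (hW : reg n v (3 / 2) ⊆ W) :
    ENNReal.ofReal ((C.toFC K).X (box n v)) ≤ ENNReal.ofReal (sc n ^ 2) * Xd d a n v := by
  refine (ENNReal.ofReal_le_ofReal (X_le_sum _ (n := n + d) (kids d v) fun z hz =>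
    idx_mem_kids.2 (mem_box_iff.1 hz))).trans ?_
  rw [ENNReal.ofReal_sum_of_nonneg fun _ _ => X_nonneg _ _, Xd, Finset.mul_sum]
  refine le_trans (Finset.sum_le_sum fun w hw => ?_)
    (Finset.sum_le_sum_of_subset (kids_subset_cov d v))
  refine (h.X_le (d := d) (by omega) (kid_of_Loc hd hL hW hw).1 (kid_of_Loc hd hL hW hw).2).trans ?_
  refine mul_le_mul_left (ENNReal.ofReal_le_ofReal ?_) _
  have e1 : sc (n + d) ≤ sc (n + 3) := sc_anti (by omega)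
  have e2 := pow_le_pow_left₀ (sc_pos _).le e1 2
  rw [sc_add n 3] at e2
  nlinarith [sq_nonneg (sc n)]

theorem Dom.deg_le_Pd (h : Dom C a W) (hd : 7 ≤ d) {n : ℕ} {v : ℤ × ℤ} (hL : Loc d a n v)
    (hW : reg n v (3 / 2) ⊆ W) :
    ENNReal.ofReal (∑ x ∈ (C.toFC K).pts (box n v), (C.toFC K).G.deg x) ≤ Pd d a n v := by
  refine (ENNReal.ofReal_le_ofReal (deg_le_sum _ (n := n + d) (kids d v) fun z hz =>
    idx_mem_kids.2 (mem_box_iff.1 hz))).trans ?_
  rw [ENNReal.ofReal_sum_of_nonneg fun _ _ => Finset.sum_nonneg fun _ _ => deg_nonneg _ _, Pd]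
  refine le_trans (Finset.sum_le_sum fun w hw => ?_)
    (Finset.sum_le_sum_of_subset (kids_subset_cov d v))
  have := h.deg_le (K := K) (d := d) (i := 0) (w := w) (by omega) (kid_of_Loc hd hL hW hw).1
    (kid_of_Loc hd hL hW hw).2 (by rw [zero_mul, kids_zero]; exact Finset.mem_singleton_self _)
  simpa [sig] using this

end Pool.Agent.Lib.MP_0d9445_pr.CR
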