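import Pool.Agent.Lib.MP_0d9445_pr.CR.EnvDefs
import Pool.Agent.Lib.MP_0d9445_pr.Walk.Iface

/-! Uniform smallness of the potentials. -/

open MeasureTheory Set Filter Topology
open scoped ENNReal NNReal Classical

namespace Pool.Agent.Lib.MP_0d9445_pr.CR

open Walk Cell

namespace EnvG

open D2

variable {C : Cells} {a : Pat} {W K : Set ℂ} {d m : ℕ} {A : ℝ≥0} {β : ℝ} {y : ℂ}

theorem norm_le_sn (y z : ℂ) : ‖z - y‖ ≤ 2 * sn y z := by
  rw [← dist_eq_norm]
  exact dist_le_sn y z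

theorem mem_ball_of_sn {z : ℂ} {r : ℝ} (h : 2 * sn y z < r) : z ∈ Metric.ball y r :=
  Metric.mem_ball.2 ((dist_le_sn y z).trans_lt h)

theorem sn_nbh {n R : ℕ} {q : ℤ × ℤ} (hq : q ∈ nbh R (idx n y)) :
    sn y (ctr n q) ≤ (R + 2) * sc n := by
  have h0 := sc_pos n
  have h1 : ctr n q ∈ reg n q 1 := mem_reg.2 (by rw [sn_self]; linarith)
  have h2 := mem_reg.1 (reg_nbh_subset hq 1 h1)
  have h3 := sn_ctr n y
  have h4 := sn_triangle y (ctr n (idx n y)) (ctr n q)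
  rw [sn_comm y (ctr n (idx n y))] at h4
  linarith

theorem kid_ctr (m k : ℕ) (q : ℤ × ℤ) : q ∈ kids k (idx m (ctr (m + k) q)) := by
  have h : idx (m + k) (ctr (m + k) q) ∈ kids k (idx m (ctr (m + k) q)) := idx_mem_kids.2 rfl
  rwa [idx_ctr] at h

theorem exists_depth (hd : 7 ≤ d) {j : ℕ} (hj : m ≤ j) :
    ∃ i, m + i * d ≤ j ∧ j < m + i * d + d := by
  have h1 := Nat.div_add_mod (j - m) d
  have h2 := Nat.mod_lt (j - m) (by omega : d > 0)
  rw [mul_comm] at h1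
  exact ⟨(j - m) / d, by omega, by omega⟩

theorem le_of_not_badS {v w : ℤ × ℤ} (h : a ∉ badS d A β m v) {i : ℕ} (hw : w ∈ kids (i * d) v) :
    sig d a m (i + 1) (ctr (m + i * d) w) + KK d a (m + i * d) w ≤
      ENNReal.ofReal (A * (2 : ℝ) ^ (β * (i * d : ℕ))) := by
  rw [ENNReal.ofReal_mul A.coe_nonneg, ENNReal.ofReal_coe_nnreal]
  exact not_lt.1 fun hlt => h ⟨i, w, hw, hlt⟩

/-- the multi-scale cell count -/
theorem Kj (h : Dom C a W) (hd : 7 ≤ d) (hβ : 0 ≤ β) (hW : Metric.ball y (200 * sc m) ⊆ W)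
    (hB : ∀ z, ‖z - y‖ ≤ 100 * sc m → a.B m (idx m z))
    (hS : ∀ z, ‖z - y‖ ≤ 100 * sc m → a ∉ badS d A β m (idx m z)) {j : ℕ} (hj : m ≤ j) :
    ∑ x ∈ mt (C.toFC K).H (C.toFC K).V (sqC y (2 / 2 ^ j)),
        min 1 (Metric.diam ((C.toFC K).H x) * 2 ^ j) ^ 2 ≤
      A * (1 + 144 * 4 ^ d * 49) * (2 : ℝ) ^ (β * j) := by
  obtain ⟨i, h1, h2⟩ := exists_depth hd hj
  have h0 := sc_pos m
  have hA : (0 : ℝ) ≤ A := A.2
  have hi : sc (m + i * d) ≤ sc m := sc_add_le _ _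
  have e1 := h.Kj_le (K := K) hd h1 h2 (y := y) (fun z hz => ⟨m, le_rfl, hB z (by
    linarith [norm_le_sn y z, mem_osq.1 hz])⟩)
    fun z hz => hW (mem_ball_of_sn (by linarith [mem_osq.1 hz]))
  set T : ℝ := A * (2 : ℝ) ^ (β * (i * d : ℕ)) with hT
  have hT0 : 0 ≤ T := by positivity
  have e2 : sig d a m (i + 1) y ≤ ENNReal.ofReal T := by
    rw [sig_ctr]
    exact le_self_add.trans (le_of_not_badS (hS y (by simp; positivity)) (idx_mem_kids.2 rfl))
  have e3 : ∑ q ∈ nbh 3 (idx (m + i * d) y), KK d a (m + i * d) q ≤ ENNReal.ofReal T * 49 := by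
    refine sum_le_card _ _ (fun q hq => le_add_self.trans
      (le_of_not_badS (hS (ctr (m + i * d) q) ?_) (kid_ctr m (i * d) q))) ?_
    · have := sn_nbh hq
      push_cast at this
      linarith [norm_le_sn y (ctr (m + i * d) q)]
    · rw [card_nbh]
      norm_num
  have e4 : T ≤ A * (2 : ℝ) ^ (β * j) := by
    refine mul_le_mul_of_nonneg_left (Real.rpow_le_rpow_of_exponent_le one_le_two
      (mul_le_mul_of_nonneg_left ?_ hβ)) hA
    exact_mod_cast (Nat.le_add_left _ _).trans h1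
  have e5 : ENNReal.ofReal T + 144 * 4 ^ d * (ENNReal.ofReal T * 49) =
      ENNReal.ofReal (T * (1 + 144 * 4 ^ d * 49)) := by
    rw [ENNReal.ofReal_mul hT0, ENNReal.ofReal_add zero_le_one (by positivity),
      ENNReal.ofReal_mul (p := 144 * 4 ^ d) (by positivity),
      ENNReal.ofReal_mul (p := 144) (by positivity), ENNReal.ofReal_pow (by positivity)]
    simp only [ENNReal.ofReal_one, ENNReal.ofReal_ofNat]
    ring
  have e6 := e1.trans (add_le_add e2 (mul_le_mul_right e3 _))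
  rw [e5, ENNReal.ofReal_le_ofReal_iff (by positivity)] at e6
  refine e6.trans ?_
  rw [mul_right_comm (A : ℝ) (1 + 144 * 4 ^ d * 49)]
  exact mul_le_mul_of_nonneg_right e4 (by positivity)

/-- separation of the centres -/
theorem sep (h : Dom C a W) (hW : Metric.ball y (200 * sc m) ⊆ W) {J : ℕ}
    (hE : a ∉ badE J m (idx m y)) (hy : y ∈ C.V) {x : ℂ} (hx : x ∈ C.V) (hxy : x ≠ y) :
    1 / 2 ^ (m + J) ≤ sn y x := by
  by_contra hc
  have e0 : (1 : ℝ) / 2 ^ (m + J) = sc (m + J) := by rw [sc, inv_pow, one_div]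
  rw [e0, not_le] at hc
  have h0 := sc_pos m
  have h1 := sc_pos (m + J)
  have h2 := sc_add_le m J
  have h3 := sn_ctr (m + J) y
  have h4 := sn_triangle (ctr (m + J) (idx (m + J) y)) y x
  refine hE ⟨idx (m + J) y, idx_mem_kids.2 rfl, ?_⟩
  rw [← Set.encard_pair hxy]
  refine Set.encard_le_encard ?_
  rintro z (rfl | rfl)
  · exact ⟨h.pts ⟨hx, hW (mem_ball_of_sn (by linarith))⟩, mem_osq.2 (by linarith)⟩
  · exact ⟨h.pts ⟨hy, hW (Metric.mem_ball_self (by linarith))⟩, mem_osq.2 (by linarith)⟩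

/-- degree sums in small squares -/
theorem degs (h : Dom C a W) (hd : 7 ≤ d) (hβ : 0 ≤ β) (hW : Metric.ball y (200 * sc m) ⊆ W)
    (hB : ∀ z, ‖z - y‖ ≤ 100 * sc m → a.B m (idx m z))
    (hS : ∀ z, ‖z - y‖ ≤ 100 * sc m → a ∉ badS d A β m (idx m z)) {μ : Measure ℂ}
    {M α α' F : ℝ} (hM : 0 < M) (hα : 0 < α) (hα' : α ≤ α') (hα1 : α ≤ 1) (hF0 : 0 ≤ F)
    (hP : ∀ z, ‖z - y‖ ≤ 100 * sc m → ∃ j : ℕ, a ∉ badP d α' (2 * M) j m (idx m z) ∧
      ∀ i < j, ∀ q ∈ kids (i * d) (idx m z), piS C (box (m + i * d) q) ≤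
        ENNReal.ofReal M * (μ (reg (m + i * d) q 2) + 2⁻¹ ^ (i * d)))
    (hF : ∀ k : ℕ, μ (Metric.ball y (12 * sc (m + k))) ≤
      ENNReal.ofReal (F * (2 : ℝ) ^ (-(α * k)))) {j J : ℕ} (hj : m ≤ j) (hJ : j ≤ J) :
    (∑ x ∈ (C.toFC K).pts (sqC y (2 / 2 ^ j)), (C.toFC K).G.deg x) / M ≤
      25 * (F + 2) * 2 ^ (m + d) * (2 : ℝ) ^ (-(α * j)) + 25 * A * (2 : ℝ) ^ (β * J) / M := by
  obtain ⟨i, h1, h2⟩ := exists_depth hd hj
  have h0 := sc_pos m
  have h0' := sc_pos (m + i * d)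
  have hA : (0 : ℝ) ≤ A := A.2
  have hi : sc (m + i * d) ≤ sc m := sc_add_le _ _
  have hji : sc j ≤ sc (m + i * d) := sc_anti h1
  have hj2 : (2 : ℝ) / 2 ^ j = 2 * sc j := by rw [sc, inv_pow, div_eq_mul_inv]
  set t : ℝ := (2 : ℝ) ^ (-(α * (i * d : ℕ))) with ht
  have ht0 : 0 < t := by positivity
  set T : ℝ := M * ((F + 2) * t) + A * (2 : ℝ) ^ (β * (i * d : ℕ)) with hT
  have hT0 : 0 ≤ T := by positivity
  have key : ∀ q ∈ nbh 2 (idx (m + i * d) y), piS C (box (m + i * d) q) ≤ ENNReal.ofReal T := by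
    intro q hq
    have e0 := sn_nbh hq
    push_cast at e0
    have e1 : ‖ctr (m + i * d) q - y‖ ≤ 100 * sc m := by
      linarith [norm_le_sn y (ctr (m + i * d) q)]
    obtain ⟨j', p1, p2⟩ := hP _ e1
    rcases lt_or_ge i j' with hij | hij
    · refine (p2 i hij q (kid_ctr m (i * d) q)).trans ?_
      have f1 : μ (reg (m + i * d) q 2) ≤ ENNReal.ofReal (F * t) := by
        refine le_trans (measure_mono fun u hu => mem_ball_of_sn ?_) (hF (i * d))
        have g1 := mem_reg.1 hu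
        linarith [sn_triangle y (ctr (m + i * d) q) u]
      have f2 : (2 : ℝ≥0∞)⁻¹ ^ (i * d) ≤ ENNReal.ofReal t := by
        have g1 : (2 : ℝ≥0∞)⁻¹ ^ (i * d) = ENNReal.ofReal ((2 : ℝ)⁻¹ ^ (i * d)) := by
          rw [ENNReal.ofReal_pow (by positivity), ENNReal.ofReal_inv_of_pos two_pos]
          norm_num
        rw [g1, inv_pow, ← Real.rpow_natCast, ← Real.rpow_neg zero_le_two]
        refine ENNReal.ofReal_le_ofReal (Real.rpow_le_rpow_of_exponent_le one_le_two ?_)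
        exact neg_le_neg (mul_le_of_le_one_left (Nat.cast_nonneg _) hα1)
      refine (mul_le_mul_right (add_le_add f1 f2) _).trans ?_
      rw [← ENNReal.ofReal_add (by positivity) ht0.le, ← ENNReal.ofReal_mul hM.le]
      refine ENNReal.ofReal_le_ofReal (le_add_of_le_of_nonneg
        (mul_le_mul_of_nonneg_left (by linarith) hM.le) (by positivity))
    · have f0 : reg m (idx m (ctr (m + i * d) q)) 6 ⊆ W := fun u hu => by
        have g1 := mem_reg.1 hu
        have g2 := sn_ctr m (ctr (m + i * d) q)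
        have g3 := sn_triangle y (ctr (m + i * d) q) u
        have g4 := sn_triangle (ctr (m + i * d) q) (ctr m (idx m (ctr (m + i * d) q))) u
        rw [sn_comm (ctr (m + i * d) q) (ctr m _)] at g4
        exact hW (mem_ball_of_sn (by linarith))
      refine (h.piS_le (d := d) (by omega) (shut_of_B (hB _ e1)) f0
        (kid_ctr m (i * d) q)).trans ?_
      have f1 : PiD d a (m + i * d) q ≤ ENNReal.ofReal (M * ((F + 2) * t)) := by
        refine (not_lt.1 fun hlt => p1 ⟨i, hij, q, kid_ctr m (i * d) q, hlt⟩).trans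
          (ENNReal.ofReal_le_ofReal ?_)
        have g1 : (2 : ℝ) ^ (-(α' * (i * d : ℕ))) ≤ t :=
          Real.rpow_le_rpow_of_exponent_le one_le_two
            (neg_le_neg (mul_le_mul_of_nonneg_right hα' (Nat.cast_nonneg _)))
        have g2 := mul_le_mul_of_nonneg_left g1 hM.le
        have g3 : 0 ≤ M * (F * t) := by positivity
        nlinarith
      have f2 : sig d a m i (ctr (m + i * d) q) ≤
          ENNReal.ofReal (A * (2 : ℝ) ^ (β * (i * d : ℕ))) :=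
        le_trans (Finset.sum_le_sum_of_subset (Finset.range_mono (Nat.le_succ i)))
          (le_self_add.trans (le_of_not_badS (hS _ e1) (kid_ctr m (i * d) q)))
      rw [hT, ENNReal.ofReal_add (by positivity) (by positivity)]
      exact add_le_add f1 f2
  have e1 : ENNReal.ofReal (∑ x ∈ (C.toFC K).pts (sqC y (2 / 2 ^ j)), (C.toFC K).G.deg x) ≤
      ENNReal.ofReal (T * 25) := by
    refine (le_piS C K _).trans ((piS_le_sum C (n := m + i * d) (nbh 2 (idx (m + i * d) y))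
      fun z hz => idx_mem_nbh (mem_csq.2 ?_)).trans ?_)
    · have g1 : sn y z ≤ 2 * sc j := hj2 ▸ hz
      push_cast
      linarith
    · rw [ENNReal.ofReal_mul hT0]
      refine sum_le_card _ _ key ?_
      rw [card_nbh]
      norm_num
  rw [ENNReal.ofReal_le_ofReal_iff (by positivity)] at e1
  have e2 : t ≤ 2 ^ (m + d) * (2 : ℝ) ^ (-(α * j)) := by
    rw [← Real.rpow_natCast, ← Real.rpow_add two_pos]
    refine Real.rpow_le_rpow_of_exponent_le one_le_two ?_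
    have g1 : (j : ℝ) ≤ (i * d : ℕ) + (m + d : ℕ) := by exact_mod_cast (by omega)
    have g2 := mul_le_mul_of_nonneg_left g1 hα.le
    have g3 := mul_le_of_le_one_left (Nat.cast_nonneg (m + d) : (0 : ℝ) ≤ _) hα1
    linarith
  have e3 : (2 : ℝ) ^ (β * (i * d : ℕ)) ≤ (2 : ℝ) ^ (β * J) := by
    refine Real.rpow_le_rpow_of_exponent_le one_le_two (mul_le_mul_of_nonneg_left ?_ hβ)
    exact_mod_cast ((Nat.le_add_left _ _).trans h1).trans hJ
  rw [div_le_iff₀ hM, add_mul, div_mul_cancel₀ _ hM.ne']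
  have e4 := mul_le_mul_of_nonneg_left e2 (by positivity : 0 ≤ M * (F + 2))
  have e5 := mul_le_mul_of_nonneg_left e3 hA
  nlinarith

end EnvG

open EnvG D2

variable {O S : Set ℂ} {C : ℕ → Cells} {μ : Measure ℂ} {M : ℕ → ℝ} {J : ℕ → ℕ}

/-- the field `green` of `Env` for `Γ = univ` -/
theorem env_green (hM : Micro) (h : Cover O C μ M J) (hO : IsOpen O)
    (hn : ∀ K, IsCompact K → K ⊆ O → ∀ ε > 0, ∀ᶠ n in atTop, ((C n).toFC K).Nice K ε)
    (hF : ∀ K, IsCompact K → K ⊆ O → Frost μ K) (hMt : Tendsto M atTop atTop)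
    (hJ : Tendsto J atTop atTop)
    (hJM : ∃ β : ℝ, 0 < β ∧ Tendsto (fun n => (2 : ℝ) ^ (β * J n) / M n) atTop (𝓝 0)) :
    ∀ K, IsCompact K → K ⊆ O → ∀ ε > 0, ∃ δ > 0, ∀ r, 0 < r → r ≤ δ →
      ∀ᶠ n in atTop, ∀ c u, sqC c (8 * r) ⊆ K →
      ((C n).toFC K).G.Sol (((C n).toFC K).inside (sqO c r)) 0
        (fun x => (if x ∈ (univ : Set ℂ) then ((C n).toFC K).G.deg x else 0) / M n) 0 u →
        ∀ x, u x ≤ ε := by
  intro K hK hKO
  obtain ⟨s, r₀, hr₀, hs, hc⟩ := h.lebesgue hK hKO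
  obtain ⟨r₁, hr₁, hK₁⟩ := hK.exists_cthickening_subset_open hO hKO
  have cK₁ : IsCompact (Metric.cthickening r₁ K) := hK.cthickening
  obtain ⟨-, F, αF, rF, hαF, hrF, hFr⟩ := hF _ cK₁ hK₁
  obtain ⟨β₀, hβ₀, hJM⟩ := hJM
  have hev : ∀ t : ℝ, 0 < t → ∀ᶠ α in 𝓝[>] (0 : ℝ), α ≤ t := fun t ht =>
    (eventually_le_nhds ht).filter_mono nhdsWithin_le_nhds
  obtain ⟨α, hαs, hα1, hα2, hα⟩ : ∃ α : ℝ, (∀ w ∈ s, α ≤ w.α) ∧ α ≤ 1 ∧ α ≤ αF ∧ 0 < α :=
    (((eventually_all_finset s).2 fun w hw => hev _ (hs w hw).α_pos).and ((hev 1 one_pos).and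
      ((hev _ hαF).and self_mem_nhdsWithin))).exists
  obtain ⟨k, hk⟩ := exists_nat_one_div_lt (lt_min hα (half_pos hβ₀))
  set β : ℝ := 1 / ((k : ℝ) + 1) with hβdef
  have hβ : 0 < β := by positivity
  obtain ⟨m, hm⟩ := exists_pow_lt_of_lt_one
    (by positivity : 0 < min r₀ (min r₁ rF) / 200) (by norm_num : (2 : ℝ)⁻¹ < 1)
  have hm' : 200 * sc m ≤ min r₀ (min r₁ rF) := by
    rw [lt_div_iff₀ (by norm_num)] at hm
    rw [mul_comm]
    exact hm.le
  have m0 : 200 * sc m ≤ r₀ := hm'.trans (min_le_left _ _)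
  have m1 : 200 * sc m ≤ r₁ := hm'.trans ((min_le_right _ _).trans (min_le_left _ _))
  have m2 : 200 * sc m ≤ rF := hm'.trans ((min_le_right _ _).trans (min_le_right _ _))
  have h0 := sc_pos m
  set F' : ℝ := |F| * 12 ^ αF with hF'
  have hF0 : 0 ≤ F' := by positivity
  have hfr : ∀ y ∈ K, ∀ l : ℕ, μ (Metric.ball y (12 * sc (m + l))) ≤
      ENNReal.ofReal (F' * (2 : ℝ) ^ (-(α * l))) := by
    intro y hy l
    have e0 := sc_pos (m + l)
    have e1 := sc_add_le m l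
    have e2 := hFr y (Metric.self_subset_cthickening K hy) (12 * sc (m + l)) (by positivity)
      (by linarith)
    rw [inter_eq_left.2 fun z hz => Metric.mem_cthickening_of_dist_le z y r₁ K hy
      (by linarith [Metric.mem_ball.1 hz])] at e2
    refine e2.trans (ENNReal.ofReal_le_ofReal ?_)
    have e3 : sc (m + l) ^ αF ≤ (2 : ℝ) ^ (-(α * l)) := by
      rw [sc, inv_pow, ← Real.rpow_natCast, ← Real.rpow_neg zero_le_two,
        ← Real.rpow_mul zero_le_two]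
      refine Real.rpow_le_rpow_of_exponent_le one_le_two ?_
      have g1 : (0 : ℝ) ≤ m := Nat.cast_nonneg m
      have g2 : (0 : ℝ) ≤ l := Nat.cast_nonneg l
      push_cast
      nlinarith
    rw [Real.mul_rpow (by norm_num) e0.le, hF', mul_assoc]
    exact mul_le_mul (le_abs_self F) (mul_le_mul_of_nonneg_left e3 (by positivity))
      (by positivity) (abs_nonneg F)
  set A₁ : ℝ := ∑ w ∈ s, (w.A : ℝ) with hA₁
  set A₂ : ℝ := ∑ w ∈ s, ((w.A : ℝ) * (1 + 144 * 4 ^ w.d * 49) + 25 * (F' + 2) * 2 ^ (m + w.d))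
    with hA₂
  have hA₁0 : 0 ≤ A₁ := by positivity
  have a1 : ∀ w ∈ s, (w.A : ℝ) ≤ A₁ := fun w hw =>
    Finset.single_le_sum (f := fun w : WD => (w.A : ℝ)) (fun w _ => w.A.2) hw
  have a2 : ∀ w ∈ s, (w.A : ℝ) * (1 + 144 * 4 ^ w.d * 49) + 25 * (F' + 2) * 2 ^ (m + w.d) ≤ A₂ :=
    fun w hw => Finset.single_le_sum (f := fun w : WD =>
      (w.A : ℝ) * (1 + 144 * 4 ^ w.d * 49) + 25 * (F' + 2) * 2 ^ (m + w.d))
      (fun w _ => by positivity) hw
  have hMpos : ∀ᶠ n in atTop, 0 < M n := hMt.eventually_gt_atTop 0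
  refine hM K (fun n => (C n).toFC K) _ A₂ α β m (fun n => m + J n)
    (fun n => 25 * A₁ * (2 : ℝ) ^ (β * (m + J n : ℕ)) / M n) hβ (hk.trans_le (min_le_left _ _))
    (hn K hK hKO) ?_ ?_ (tendsto_atTop_mono (fun n => Nat.le_add_left _ _) hJ)
  · have e1 := hJM.const_mul (25 * A₁ * (2 : ℝ) ^ (β₀ * m))
    rw [mul_zero] at e1
    refine squeeze_zero' (hMpos.mono fun n hn => by positivity) (hMpos.mono fun n hn => ?_) e1
    have e2 : (2 : ℝ) ^ (β * (m + J n : ℕ)) * (2 : ℝ) ^ (β * (m + J n : ℕ)) ≤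
        (2 : ℝ) ^ (β₀ * m) * (2 : ℝ) ^ (β₀ * J n) := by
      rw [← Real.rpow_add two_pos, ← Real.rpow_add two_pos]
      refine Real.rpow_le_rpow_of_exponent_le one_le_two ?_
      have g1 : (0 : ℝ) ≤ m := Nat.cast_nonneg m
      have g2 : (0 : ℝ) ≤ J n := Nat.cast_nonneg _
      have g3 := (hk.trans_le (min_le_right _ _)).le
      push_cast
      nlinarith
    rw [← mul_div_assoc, ← mul_div_assoc]
    refine div_le_div_of_nonneg_right ?_ hn.le
    have e3 := mul_le_mul_of_nonneg_left e2 (by positivity : 0 ≤ 25 * A₁)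
    linarith
  have good : ∀ᶠ n in atTop, ∀ w ∈ s, Dom (C n) (w.a n) w.W ∧
      ∀ z ∈ Metric.cthickening r₁ K, w.In m (idx m z) → (w.a n).B m (idx m z) ∧
        w.a n ∉ badS w.d w.A β m (idx m z) ∧ w.a n ∉ badE (J n) m (idx m z) ∧
        ∃ j : ℕ, w.a n ∉ badP w.d w.α (2 * M n) j m (idx m z) ∧
          ∀ i < j, ∀ q ∈ kids (i * w.d) (idx m z), piS (C n) (box (m + i * w.d) q) ≤
            ENNReal.ofReal (M n) * (μ (reg (m + i * w.d) q 2) + 2⁻¹ ^ (i * w.d)) := by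
    refine (eventually_all_finset s).2 fun w hw => (hs w hw).dom.and ?_
    refine eventually_boxes (q := w.In m) (p := fun n v => (w.a n).B m v ∧
        w.a n ∉ badS w.d w.A β m v ∧ w.a n ∉ badE (J n) m v ∧
        ∃ j : ℕ, w.a n ∉ badP w.d w.α (2 * M n) j m v ∧
          ∀ i < j, ∀ q ∈ kids (i * w.d) v, piS (C n) (box (m + i * w.d) q) ≤
            ENNReal.ofReal (M n) * (μ (reg (m + i * w.d) q 2) + 2⁻¹ ^ (i * w.d)))
      cK₁.isBounded m fun v hv => ?_
    exact (((hs w hw).hB m v hv).mono fun n hn => not_not.1 hn).and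
      (((hs w hw).hS k m v hv).and (((hs w hw).hE m v hv).and ((hs w hw).hP m v hv)))
  filter_upwards [good, hMpos] with n hg hMn
  have loc : ∀ y ∈ K, ∃ w ∈ s, Metric.ball y (200 * sc m) ⊆ w.W ∧ ∀ z, ‖z - y‖ ≤ 100 * sc m →
      z ∈ Metric.cthickening r₁ K ∧ w.In m (idx m z) := by
    intro y hy
    obtain ⟨w, hw, hb⟩ := hc y hy
    exact ⟨w, hw, (Metric.ball_subset_ball m0).trans hb, fun z hz =>
      ⟨Metric.mem_cthickening_of_dist_le z y r₁ K hy (by rw [dist_eq_norm]; linarith),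
        WD.in_of_ball hb (by linarith)⟩⟩
  refine ⟨by positivity, fun y => ?_, fun y hy _ => ?_, fun c j hj hjJ hcK => ?_⟩
  · simp only [mem_univ, if_true]
    exact div_nonneg (deg_nonneg _ _) hMn.le
  · obtain ⟨hyV, hyK⟩ := ((C n).toFC K).mem_pts.1 hy
    obtain ⟨w, hw, hb, hz⟩ := loc y hyK
    obtain ⟨g1, g2⟩ := hg w hw
    refine ⟨fun j hj _ _ => (Kj g1 (hs w hw).d7 hβ.le hb
      (fun z e => (g2 z (hz z e).1 (hz z e).2).1)
      (fun z e => (g2 z (hz z e).1 (hz z e).2).2.1) hj).trans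
        (mul_le_mul_of_nonneg_right (le_trans (le_add_of_nonneg_right (by positivity)) (a2 w hw))
          (by positivity)), fun x hx hxy => ?_⟩
    have e : ‖y - y‖ ≤ 100 * sc m := by simp; positivity
    exact sep g1 hb (g2 y (hz y e).1 (hz y e).2).2.2.1 (toFC_V_subset _ K hyV)
      (toFC_V_subset _ K hx) hxy
  · have hcK' : c ∈ K := hcK (show sn c c ≤ _ by rw [sn_self]; positivity)
    obtain ⟨w, hw, hb, hz⟩ := loc c hcK'
    obtain ⟨g1, g2⟩ := hg w hw
    simp only [mem_univ, if_true]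
    rw [← Finset.sum_div]
    refine (degs g1 (hs w hw).d7 hβ.le hb (fun z e => (g2 z (hz z e).1 (hz z e).2).1)
      (fun z e => (g2 z (hz z e).1 (hz z e).2).2.1) hMn hα (hαs w hw) hα1 hF0
      (fun z e => (g2 z (hz z e).1 (hz z e).2).2.2.2) (hfr c hcK') hj hjJ).trans
      (add_le_add (mul_le_mul_of_nonneg_right
        (le_trans (le_add_of_nonneg_left (by positivity)) (a2 w hw)) (by positivity)) ?_)
    have := a1 w hw
    gcongr

end Pool.Agent.Lib.MP_0d9445_pr.CR
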