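import Pool.Agent.Lib.MP_0d9445_pr.CR.EnvDefs

/-! The degree measure converges vaguely. -/

open MeasureTheory Set Filter Topology
open scoped ENNReal NNReal Classical

namespace Pool.Agent.Lib.MP_0d9445_pr.CR

open Walk Cell

variable {O S : Set ℂ} {C : ℕ → Cells} {μ : Measure ℂ} {M : ℕ → ℝ} {J : ℕ → ℕ}

theorem EnvM_squeeze {s : ℕ → ℝ} {L B : ℝ} (hB : 0 ≤ B)
    (h : ∀ η > 0, ∃ (t b : ℕ → ℝ) (t₀ b₀ : ℝ), Tendsto t atTop (𝓝 t₀) ∧ Tendsto b atTop (𝓝 b₀) ∧
      b₀ ≤ B ∧ |t₀ - L| ≤ η * b₀ ∧ ∀ᶠ n in atTop, |s n - t n| ≤ η * b n) :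
    Tendsto s atTop (𝓝 L) := by
  rw [Metric.tendsto_nhds]
  intro ε hε
  have hη : 0 < ε / (4 * (B + 1)) := by positivity
  obtain ⟨t, b, t₀, b₀, ht, hb, h1, h2, h3⟩ := h _ hη
  have e : ε / (4 * (B + 1)) * (B + 1) = ε / 4 := by field_simp
  filter_upwards [h3, Metric.tendsto_nhds.1 ht (ε / 4) (by positivity),
    hb.eventually (gt_mem_nhds (show b₀ < B + 1 by linarith))] with n a1 a2 a3
  rw [Real.dist_eq] at a2 ⊢
  have a4 := mul_le_mul_of_nonneg_left a3.le hη.le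
  have a5 := mul_le_mul_of_nonneg_left (show b₀ ≤ B + 1 by linarith) hη.le
  rw [abs_le] at a1 h2
  rw [abs_lt] at a2 ⊢
  constructor <;> linarith [a1.1, a1.2, a2.1, a2.2, h2.1, h2.2]

theorem EnvM_finite {T : Set ℂ} (hT : Bornology.IsBounded T) (m : ℕ) : (idx m '' T).Finite := by
  obtain ⟨R, hR⟩ := hT.subset_closedBall 0
  have hs := sc_pos m
  obtain ⟨k, hk⟩ := exists_nat_ge (R / sc m)
  rw [div_le_iff₀ hs] at hk
  refine (nbh k (idx m 0)).finite_toSet.subset ?_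
  rintro _ ⟨z, hz, rfl⟩
  have h1 : ‖z‖ ≤ R := by simpa using hR hz
  refine idx_mem_nbh ⟨?_, ?_⟩
  · simpa using (Complex.abs_re_le_norm z).trans (h1.trans hk)
  · simpa using (Complex.abs_im_le_norm z).trans (h1.trans hk)

theorem EnvM_level {δ : ℝ} (hδ : 0 < δ) : ∃ m, sc m < δ :=
  exists_pow_lt_of_lt_one hδ (by norm_num)

theorem EnvM_disj (m : ℕ) (I : Set (ℤ × ℤ)) : I.PairwiseDisjoint (box m) :=
  fun _ _ _ _ hne => Set.disjoint_left.2 fun _ h1 h2 =>
    hne ((mem_box_iff.1 h1).symm.trans (mem_box_iff.1 h2))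

/-- the sum against a step function -/
theorem EnvM_sum (N : FC) {φ : ℂ → ℝ} {m : ℕ} {η : ℝ} (I : Finset (ℤ × ℤ))
    (h0 : ∀ z, idx m z ∉ I → φ z = 0)
    (hη : ∀ v ∈ I, ∀ z ∈ box m v, |φ z - φ (ctr m v)| ≤ η) :
    |∑ x ∈ N.V, N.G.deg x * φ x - ∑ v ∈ I, φ (ctr m v) * ∑ x ∈ N.pts (box m v), N.G.deg x| ≤
      η * ∑ v ∈ I, ∑ x ∈ N.pts (box m v), N.G.deg x := by
  have e1 : ∑ x ∈ N.V, N.G.deg x * φ x = ∑ v ∈ I, ∑ x ∈ N.pts (box m v), N.G.deg x * φ x := by
    have e2 : ∀ v, N.pts (box m v) = N.V.filter fun x => idx m x = v := fun v => by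
      ext x
      rw [N.mem_pts, Finset.mem_filter, mem_box_iff]
    simp only [e2]
    rw [Finset.sum_fiberwise_eq_sum_filter]
    refine (Finset.sum_filter_of_ne fun x _ hx => ?_).symm
    by_contra hc
    exact hx (by rw [h0 x hc, mul_zero])
  rw [e1, ← Finset.sum_sub_distrib, Finset.mul_sum]
  refine (Finset.abs_sum_le_sum_abs _ _).trans (Finset.sum_le_sum fun v hv => ?_)
  rw [Finset.mul_sum, Finset.mul_sum, ← Finset.sum_sub_distrib]
  refine (Finset.abs_sum_le_sum_abs _ _).trans (Finset.sum_le_sum fun x hx => ?_)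
  have hd := N.G.deg_nonneg x
  rw [mul_comm (φ _), ← mul_sub, abs_mul, abs_of_nonneg hd, mul_comm]
  exact mul_le_mul_of_nonneg_right (hη v hv x (N.mem_pts.1 hx).2) hd

/-- the integral against a step function -/
theorem EnvM_int {φ : ℂ → ℝ} (hφ : Continuous φ) {m : ℕ} {η : ℝ} (I : Finset (ℤ × ℤ))
    (h0 : ∀ z, idx m z ∉ I → φ z = 0) (hfin : ∀ v ∈ I, μ (box m v) < ∞)
    (hη : ∀ v ∈ I, ∀ z ∈ box m v, |φ z - φ (ctr m v)| ≤ η) :
    |∑ v ∈ I, φ (ctr m v) * μ.real (box m v) - ∫ w, φ w ∂μ| ≤ η * ∑ v ∈ I, μ.real (box m v) := by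
  have hi : ∀ v ∈ I, IntegrableOn φ (box m v) μ := fun v hv =>
    Measure.integrableOn_of_bounded (M := |φ (ctr m v)| + η) (hfin v hv).ne
      hφ.aestronglyMeasurable ((ae_restrict_mem (measurableSet_box m v)).mono fun z hz => by
        have h1 := hη v hv z hz
        have h2 := abs_sub_abs_le_abs_sub (φ z) (φ (ctr m v))
        rw [Real.norm_eq_abs]
        linarith)
  have e1 : ∫ w, φ w ∂μ = ∑ v ∈ I, ∫ w in box m v, φ w ∂μ := by
    rw [← integral_biUnion_finset I (fun v _ => measurableSet_box m v) (EnvM_disj m I) hi]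
    refine (setIntegral_eq_integral_of_forall_compl_eq_zero fun z hz => h0 z fun hc => ?_).symm
    exact hz (mem_iUnion₂.2 ⟨_, hc, mem_box_idx m z⟩)
  rw [e1, ← Finset.sum_sub_distrib, Finset.mul_sum]
  refine (Finset.abs_sum_le_sum_abs _ _).trans (Finset.sum_le_sum fun v hv => ?_)
  have e2 : φ (ctr m v) * μ.real (box m v) - ∫ w in box m v, φ w ∂μ =
      ∫ w in box m v, (φ (ctr m v) - φ w) ∂μ := by
    have hc : IntegrableOn (fun _ => φ (ctr m v)) (box m v) μ := integrableOn_const (hfin v hv).ne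
    rw [integral_sub hc (hi v hv), setIntegral_const, smul_eq_mul, mul_comm]
  rw [e2, ← Real.norm_eq_abs]
  refine norm_setIntegral_le_of_norm_le_const (hfin v hv) fun z hz => ?_
  rw [Real.norm_eq_abs, abs_sub_comm]
  exact hη v hv z hz

/-- the field `mass` of `Env` for `Γ = univ`, from the degree law for small dyadic boxes -/
theorem env_mass (hm : ∀ n, ∀ x ∈ (C n).V, x ∈ (C n).H x)
    (hn : ∀ K, IsCompact K → K ⊆ O → ∀ ε > 0, ∀ᶠ n in atTop,
      {x | x ∈ (C n).V ∧ ((C n).H x ∩ K).Nonempty}.Finite ∧ ((C n).toFC K).Nice K ε)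
    (hμ : ∀ K, IsCompact K → K ⊆ O → μ K < ∞) (hMt : Tendsto M atTop atTop)
    (hb : ∀ z ∈ O, ∃ U ∈ 𝓝 z, ∀ m v, Metric.ball (ctr m v) (48 * sc m) ⊆ U →
      Tendsto (fun n => piS (C n) (box m v) / ENNReal.ofReal (M n)) atTop (𝓝 (μ (box m v)))) :
    ∀ K, IsCompact K → K ⊆ O → ∀ φ : ℂ → ℝ, Continuous φ → tsupport φ ⊆ interior K →
      Tendsto (fun n => (∑ x ∈ ((C n).toFC K).V,
        (if x ∈ (univ : Set ℂ) then ((C n).toFC K).G.deg x else 0) * φ x) / M n) atTop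
        (𝓝 (∫ w, φ w ∂μ)) := by
  intro K hK hKO φ hφ hT
  simp only [mem_univ, if_true]
  have hTK : tsupport φ ⊆ K := hT.trans interior_subset
  have hTc : IsCompact (tsupport φ) := hK.of_isClosed_subset (isClosed_tsupport φ) hTK
  choose! U hU hUt using hb
  obtain ⟨δ, hδ, hleb⟩ := lebesgue_number_lemma_of_metric hTc
    (c := fun z : tsupport φ => interior (U z) ∩ interior K)
    (fun z => isOpen_interior.inter isOpen_interior)
    (fun z hz => mem_iUnion.2 ⟨⟨z, hz⟩, mem_interior_iff_mem_nhds.2 (hU z (hKO (hTK hz))), hT hz⟩)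
  have huc : UniformContinuous φ := HasCompactSupport.uniformContinuous_of_continuous hTc hφ
  refine EnvM_squeeze (B := μ.real K) measureReal_nonneg fun η hη => ?_
  obtain ⟨δ', hδ', hosc⟩ := Metric.uniformContinuous_iff.1 huc η hη
  obtain ⟨m, hmδ⟩ := EnvM_level (lt_min (show 0 < δ / 49 by positivity) hδ')
  have hs := sc_pos m
  have hm1 : 49 * sc m < δ := by linarith [(lt_min_iff.1 hmδ).1]
  have hm2 : sc m < δ' := (lt_min_iff.1 hmδ).2
  set I := (EnvM_finite hTc.isBounded m).toFinset with hI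
  have h0 : ∀ z, idx m z ∉ I → φ z = 0 := fun z hz =>
    image_eq_zero_of_notMem_tsupport fun hc => hz ((Finite.mem_toFinset _).2 ⟨z, hc, rfl⟩)
  have hball : ∀ v ∈ I, ∃ y ∈ O, Metric.ball (ctr m v) (48 * sc m) ⊆ U y ∩ K := by
    intro v hv
    obtain ⟨z, hz, rfl⟩ := (Finite.mem_toFinset _).1 hv
    obtain ⟨y, hy⟩ := hleb z hz
    refine ⟨y, hKO (hTK y.2), fun p hp => ?_⟩
    have h1 := norm_sub_ctr_le (mem_box_idx m z)
    have h2 : p ∈ Metric.ball z δ := by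
      rw [Metric.mem_ball] at hp ⊢
      have h3 := dist_triangle_right p z (ctr m (idx m z))
      rw [dist_eq_norm z] at h3
      linarith
    exact ⟨interior_subset (hy h2).1, interior_subset (hy h2).2⟩
  have hboxK : ∀ v ∈ I, box m v ⊆ K := fun v hv z hz => by
    obtain ⟨y, -, hy⟩ := hball v hv
    refine (hy ?_).2
    rw [Metric.mem_ball, dist_eq_norm]
    linarith [norm_sub_ctr_le hz]
  have hfin : ∀ v ∈ I, μ (box m v) < ∞ := fun v hv =>
    (measure_mono (hboxK v hv)).trans_lt (hμ K hK hKO)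
  have hη' : ∀ v ∈ I, ∀ z ∈ box m v, |φ z - φ (ctr m v)| ≤ η := fun v _ z hz => by
    rw [← Real.dist_eq]
    refine (hosc ?_).le
    rw [dist_eq_norm]
    exact (norm_sub_ctr_le hz).trans_lt hm2
  have hM0 : ∀ᶠ n in atTop, 0 < M n := hMt.eventually_gt_atTop 0
  let a : ℕ → ℤ × ℤ → ℝ := fun n v =>
    (∑ x ∈ ((C n).toFC K).pts (box m v), ((C n).toFC K).G.deg x) / M n
  have ha : ∀ v ∈ I, Tendsto (fun n => a n v) atTop (𝓝 (μ.real (box m v))) := by
    intro v hv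
    obtain ⟨y, hyO, hy⟩ := hball v hv
    have h1 := (ENNReal.tendsto_toReal (hfin v hv).ne).comp
      (hUt y hyO m v fun p hp => (hy hp).1)
    refine h1.congr' ?_
    filter_upwards [hn K hK hKO _ hs, hM0] with n hN hMn
    have hA : ∀ x ∈ (C n).V ∩ box m v, (C n).H x ⊆ K := by
      intro x hx p hp
      have hxV : x ∈ ((C n).toFC K).V := by
        simp only [Cells.toFC, dif_pos hN.1, Finite.mem_toFinset]
        exact ⟨hx.1, x, hm n x hx.1, hboxK v hv hx.2⟩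
      have h2 := hN.2.dist_le hxV hp (hm n x hx.1)
      refine (hy ?_).2
      have h3 := dist_triangle p x (ctr m v)
      rw [dist_eq_norm x] at h3
      rw [Metric.mem_ball]
      linarith [norm_sub_ctr_le hx.2]
    rw [Function.comp_apply, piS_eq (hm n) hN.1 hA, ENNReal.toReal_div,
      ENNReal.toReal_ofReal (Finset.sum_nonneg fun x _ => Net.deg_nonneg _ x),
      ENNReal.toReal_ofReal hMn.le]
  refine ⟨fun n => ∑ v ∈ I, φ (ctr m v) * a n v, fun n => ∑ v ∈ I, a n v, _, _,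
    tendsto_finsetSum I fun v hv => (ha v hv).const_mul _, tendsto_finsetSum I ha, ?_,
    EnvM_int hφ I h0 hfin hη', ?_⟩
  · rw [← measureReal_biUnion_finset (EnvM_disj m I) (fun v _ => measurableSet_box m v)
      fun v hv => (hfin v hv).ne]
    exact measureReal_mono (iUnion₂_subset hboxK) (hμ K hK hKO).ne
  · filter_upwards [hM0] with n hMn
    have h1 := EnvM_sum ((C n).toFC K) I h0 hη'
    simp only [a, ← mul_div_assoc, ← Finset.sum_div]
    rw [← sub_div, abs_div, abs_of_pos hMn]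
    exact div_le_div_of_nonneg_right h1 hMn.le

end Pool.Agent.Lib.MP_0d9445_pr.CR
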