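import Pool.Agent.Lib.MP_0d9445_pr.CR.EnvDefs

/-! Energy of the identity and squared diameters in squares. -/

open MeasureTheory Set Filter Topology
open scoped ENNReal NNReal Classical

namespace Pool.Agent.Lib.MP_0d9445_pr.CR

open Walk Cell

variable {O S : Set ℂ} {C : ℕ → Cells} {μ : Measure ℂ} {M : ℕ → ℝ} {J : ℕ → ℕ}

theorem EnvX_real {x c : ℝ} {A : ℝ≥0} {k : ℝ≥0∞} (hc : 0 ≤ c)
    (h : ENNReal.ofReal x ≤ ENNReal.ofReal c * k) (hk : k ≤ A) : x ≤ c * A := by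
  have h1 : ENNReal.ofReal x ≤ ENNReal.ofReal (c * A) := by
    rw [ENNReal.ofReal_mul hc, ENNReal.ofReal_coe_nnreal]
    exact h.trans (mul_le_mul_right hk _)
  exact (ENNReal.ofReal_le_ofReal_iff (by positivity)).1 h1

/-- one box inside a good window -/
theorem EnvX_box {w : WD} (hw : w.OK C μ M J) (K : Set ℂ) {m : ℕ} {v : ℤ × ℤ} (hv : w.In m v) :
    ∀ᶠ n in atTop, ((C n).toFC K).X (box m v) ≤ 144 * sc m ^ 2 * w.A ∧
      ((C n).toFC K).Y (box m v) ≤ 144 * sc m ^ 2 * w.A := by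
  filter_upwards [hw.dom, hw.hB m v hv, hw.hK m v hv] with n h1 h2 h3
  have hB : (w.a n).B m v := not_not.1 h2
  have hk : KK w.d (w.a n) m v ≤ w.A := not_lt.1 h3
  have hd : 1 ≤ w.d := le_trans (by norm_num) hw.d7
  have hW : reg m v 6 ⊆ w.W := (reg_subset_ball m v (by norm_num)).trans hv
  refine ⟨(EnvX_real (by positivity) (h1.X_le hd (shut_of_B hB) hW) hk).trans ?_,
    EnvX_real (by positivity) (h1.Y_le hd (shut_of_B hB) hW) hk⟩
  have : 0 ≤ sc m ^ 2 * (w.A : ℝ) := by positivity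
  linarith

theorem EnvX_card {r s : ℝ} (hs : 0 < s) (hsr : s ≤ r) :
    (((2 * ⌈r / s⌉₊ + 1) ^ 2 : ℕ) : ℝ) * s ^ 2 ≤ 25 * r ^ 2 := by
  have h1 : (⌈r / s⌉₊ : ℝ) < r / s + 1 := Nat.ceil_lt_add_one (div_nonneg (hs.le.trans hsr) hs.le)
  have h2 : (⌈r / s⌉₊ : ℝ) * s ≤ r + s := by
    have := mul_le_mul_of_nonneg_right h1.le hs.le
    rwa [add_mul, div_mul_cancel₀ _ hs.ne', one_mul] at this
  have h3 : (2 * (⌈r / s⌉₊ : ℝ) + 1) * s ≤ 5 * r := by linarith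
  have h4 := pow_le_pow_left₀ (by positivity) h3 2
  push_cast
  nlinarith

/-- the field `xy` of `Env` -/
theorem env_xy (h : Cover O C μ M J) :
    ∀ K, IsCompact K → K ⊆ O → ∃ Cst : ℝ, ∀ c r, 0 < r → sqC c r ⊆ K → ∀ᶠ n in atTop,
      ((C n).toFC K).X (sqC c r) ≤ Cst * r ^ 2 ∧ ((C n).toFC K).Y (sqC c r) ≤ Cst * r ^ 2 := by
  intro K hK hKO
  obtain ⟨s, r₀, hr₀, hOK, hcov⟩ := h.lebesgue hK hKO
  set A : ℝ := ∑ w ∈ s, (w.A : ℝ) with hA
  have hA0 : 0 ≤ A := Finset.sum_nonneg fun w _ => w.A.coe_nonneg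
  refine ⟨144 * A * 25, fun c r hr hc => ?_⟩
  obtain ⟨m, hm⟩ := exists_pow_lt_of_lt_one (lt_min hr (by positivity : 0 < r₀ / 49))
    (by norm_num : (2 : ℝ)⁻¹ < 1)
  have hm1 : sc m ≤ r := hm.le.trans (min_le_left _ _)
  have hm2 : sc m ≤ r₀ / 49 := hm.le.trans (min_le_right _ _)
  have hs := sc_pos m
  set I := (nbh ⌈r / sc m⌉₊ (idx m c)).filter fun v => ∃ z ∈ sqC c r, idx m z = v with hI
  have hIm : ∀ z ∈ sqC c r, idx m z ∈ I := fun z hz => by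
    refine Finset.mem_filter.2 ⟨idx_mem_nbh (D2.mem_csq.2 (le_trans hz ?_)), z, hz, rfl⟩
    exact (div_le_iff₀ hs).1 (Nat.le_ceil _)
  have hcard : (I.card : ℝ) * sc m ^ 2 ≤ 25 * r ^ 2 := by
    refine le_trans (mul_le_mul_of_nonneg_right ?_ (sq_nonneg _)) (EnvX_card hs hm1)
    rw [← card_nbh _ (idx m c)]
    exact_mod_cast Finset.card_filter_le _ _
  have hev : ∀ᶠ n in atTop, ∀ v ∈ I, ((C n).toFC K).X (box m v) ≤ 144 * sc m ^ 2 * A ∧
      ((C n).toFC K).Y (box m v) ≤ 144 * sc m ^ 2 * A := by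
    rw [eventually_all_finset]
    intro v hv
    obtain ⟨z, hz, rfl⟩ := (Finset.mem_filter.1 hv).2
    obtain ⟨w, hw, hb⟩ := hcov z (hc hz)
    have hin : w.In m (idx m z) := WD.in_of_ball hb (by rw [sub_self, norm_zero]; linarith)
    have hle : (w.A : ℝ) ≤ A :=
      Finset.single_le_sum (f := fun w : WD => (w.A : ℝ)) (fun w _ => w.A.coe_nonneg) hw
    have h1 := mul_le_mul_of_nonneg_left hle (by positivity : 0 ≤ 144 * sc m ^ 2)
    filter_upwards [EnvX_box (hOK w hw) K hin] with n hn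
    exact ⟨hn.1.trans h1, hn.2.trans h1⟩
  have hfin : (I.card : ℝ) * (144 * sc m ^ 2 * A) ≤ 144 * A * 25 * r ^ 2 := by
    have := mul_le_mul_of_nonneg_left hcard (by positivity : 0 ≤ 144 * A)
    linarith
  filter_upwards [hev] with n hn
  constructor
  · refine (X_le_sum _ I hIm).trans (le_trans ?_ hfin)
    rw [← nsmul_eq_mul]
    exact Finset.sum_le_card_nsmul _ _ _ fun v hv => (hn v hv).1
  · refine (Y_le_sum _ I hIm).trans (le_trans ?_ hfin)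
    rw [← nsmul_eq_mul]
    exact Finset.sum_le_card_nsmul _ _ _ fun v hv => (hn v hv).2

end Pool.Agent.Lib.MP_0d9445_pr.CR
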