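import Pool.Agent.Lib.MP_0d9445_pr.CR.Unif

/-! The bad sets of patterns, seen from level zero along `g + c`, `c → ∞`. -/

open MeasureTheory ProbabilityTheory Set Filter Topology
open scoped ENNReal NNReal

namespace Pool.Agent.Lib.MP_0d9445_pr.CR

/-- closed under more points and fewer blocked boxes -/
def Up (E : Set Pat) : Prop := ∀ a b : Pat, a.Le b → a ∈ E → b ∈ E

/-- the box is not blocked -/
def badB (m : ℕ) (v : ℤ × ℤ) : Set Pat := {a | ¬ a.B m v}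

/-- the average of the chain sums is large -/
def badK (d : ℕ) (C : ℝ≥0) (m : ℕ) (v : ℤ × ℤ) : Set Pat := {a | (C : ℝ≥0∞) < KK d a m v}

/-- some chain sum below the box is large -/
def badS (d : ℕ) (C : ℝ≥0) (β : ℝ) (m : ℕ) (v : ℤ × ℤ) : Set Pat :=
  {a | ∃ i, ∃ w ∈ kids (i * d) v, C * ENNReal.ofReal ((2 : ℝ) ^ (β * (i * d : ℕ))) <
    sig d a m (i + 1) (ctr (m + i * d) w) + KK d a (m + i * d) w}

/-- some box at depth at least `j d` carries more than `t 2^(-α depth)` short edges -/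
def badP (d : ℕ) (α t : ℝ) (j m : ℕ) (v : ℤ × ℤ) : Set Pat :=
  {a | ∃ i, j ≤ i ∧ ∃ w ∈ kids (i * d) v,
    ENNReal.ofReal (t * (2 : ℝ) ^ (-(α * (i * d : ℕ)))) < PiD d a (m + i * d) w}

/-- two points are close -/
def badE (J m : ℕ) (v : ℤ × ℤ) : Set Pat :=
  {a | ∃ w ∈ kids J v, 2 ≤ (a.pts ∩ osq (ctr (m + J) w) (6 * sc (m + J))).encard}

/-- the boxes of `I` carry more than `t` short edges -/
def badF (d : ℕ) (t : ℝ) (n : ℕ) (I : Finset (ℤ × ℤ)) : Set Pat :=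
  {a | ENNReal.ofReal t < ∑ w ∈ I, PiD d a n w}

theorem up_badB (m : ℕ) (v : ℤ × ℤ) : Up (badB m v) :=
  fun _ _ h ha hb => ha (h.1 _ _ hb)

theorem up_badK (d : ℕ) (C : ℝ≥0) (m : ℕ) (v : ℤ × ℤ) : Up (badK d C m v) :=
  fun _ _ h ha => lt_of_lt_of_le ha (KK_mono h m v)

theorem up_badS (d : ℕ) (C : ℝ≥0) (β : ℝ) (m : ℕ) (v : ℤ × ℤ) : Up (badS d C β m v) := by
  rintro a b h ⟨i, w, hw, ha⟩
  exact ⟨i, w, hw, ha.trans_le (add_le_add (sig_mono h _ _ _) (KK_mono h _ _))⟩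

theorem up_badP (d : ℕ) (α t : ℝ) (j m : ℕ) (v : ℤ × ℤ) : Up (badP d α t j m v) := by
  rintro a b h ⟨i, hi, w, hw, ha⟩
  exact ⟨i, hi, w, hw, ha.trans_le (PiD_mono h _ _)⟩

theorem up_badE (J m : ℕ) (v : ℤ × ℤ) : Up (badE J m v) := by
  rintro a b h ⟨w, hw, ha⟩
  exact ⟨w, hw, ha.trans (Set.encard_le_encard (inter_subset_inter_left _ h.2))⟩

theorem up_badF (d : ℕ) (t : ℝ) (n : ℕ) (I : Finset (ℤ × ℤ)) : Up (badF d t n I) :=
  fun _ _ h ha => lt_of_lt_of_le ha (Finset.sum_le_sum fun _ _ => PiD_mono h _ _)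

theorem top_sub (m : ℕ) (y : ℂ) : Sub 0 y m y := by
  have := sc_add_le 0 m
  rw [zero_add] at this
  unfold Sub
  rw [sub_self, norm_zero]
  linarith

theorem top_sub_kids {m k : ℕ} {v w : ℤ × ℤ} (hw : w ∈ kids k v) :
    Sub 0 (ctr m v) (m + k) (ctr (m + k) w) :=
  (top_sub m _).trans (sub_kids hw)

theorem top_oo (y : ℂ) (g : C(ℂ, ℝ)) (c : ℝ) :
    oo 0 y (g + ContinuousMap.const ℂ c) = oo 0 y g := by
  rw [oo, oo, lip_add_const]

theorem top_cc (Q : ℝ) (y : ℂ) (g : C(ℂ, ℝ)) (c : ℝ) :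
    cc Q 0 y (g + ContinuousMap.const ℂ c) = g y + c := by
  simp [cc]

theorem top_wt (Q : ℝ) {s t : ℝ} (hs : 0 ≤ s) (ht : 0 ≤ t) {y : ℂ} {g : C(ℂ, ℝ)} {L : ℝ≥0}
    (ho : oo 0 y g ≤ L) (hg : |g y| ≤ L) (c : ℝ) :
    wt Q s t 0 y (g + ContinuousMap.const ℂ c) ≤
      ENNReal.ofReal (Real.exp (s * c + (s + t) * L)) := by
  refine (wt_le_of_oo_le Q s ht ((top_oo y g c).trans_le ho)).trans ?_
  rw [top_cc]
  refine ENNReal.ofReal_le_ofReal (Real.exp_le_exp.2 ?_)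
  have := mul_le_mul_of_nonneg_left (le_of_abs_le hg) hs
  linarith

theorem top_two_iff {s : Set ℂ} (hs : s.Finite) : 2 ≤ s.encard ↔ 2 ≤ s.ncard := by
  rw [← hs.cast_ncard_eq]
  exact_mod_cast Iff.rfl

namespace Casc

variable {Ξ : Type} [MeasurableSpace Ξ] [MeasurableSpace C(ℂ, ℝ)] (K : Casc Ξ) {d : ℕ}

theorem meas_badB (m : ℕ) (v : ℤ × ℤ) : MeasurableSet (K.pat ⁻¹' badB m v) :=
  (K.blk_meas' m v).compl

theorem meas_badK (hd : 7 ≤ d) (C : ℝ≥0) (m : ℕ) (v : ℤ × ℤ) :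
    MeasurableSet (K.pat ⁻¹' badK d C m v) :=
  measurableSet_lt measurable_const (K.KK_meas hd m v)

theorem meas_badS (hd : 7 ≤ d) (C : ℝ≥0) (β : ℝ) (m : ℕ) (v : ℤ × ℤ) :
    MeasurableSet (K.pat ⁻¹' badS d C β m v) := by
  have e : K.pat ⁻¹' badS d C β m v = ⋃ i, ⋃ w ∈ kids (i * d) v,
      {x | C * ENNReal.ofReal ((2 : ℝ) ^ (β * (i * d : ℕ))) <
        sig d (K.pat x) m (i + 1) (ctr (m + i * d) w) + KK d (K.pat x) (m + i * d) w} := by
    ext x
    simp only [badS, mem_preimage, mem_ofPred_eq, mem_iUnion, exists_prop]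
  rw [e]
  exact MeasurableSet.iUnion fun i => Finset.measurableSet_biUnion _ fun w _ =>
    measurableSet_lt measurable_const ((K.sig_meas hd _ _ _).fun_add (K.KK_meas hd _ _))

theorem meas_badP (hd : 7 ≤ d) (α t : ℝ) (j m : ℕ) (v : ℤ × ℤ) :
    MeasurableSet (K.pat ⁻¹' badP d α t j m v) := by
  have e : K.pat ⁻¹' badP d α t j m v = ⋃ i, ⋃ (_ : j ≤ i), ⋃ w ∈ kids (i * d) v,
      {x | ENNReal.ofReal (t * (2 : ℝ) ^ (-(α * (i * d : ℕ)))) <
        PiD d (K.pat x) (m + i * d) w} := by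
    ext x
    simp only [badP, mem_preimage, mem_ofPred_eq, mem_iUnion, exists_prop]
  rw [e]
  exact MeasurableSet.iUnion fun i => MeasurableSet.iUnion fun _ =>
    Finset.measurableSet_biUnion _ fun w _ =>
      measurableSet_lt measurable_const (K.PiD_meas hd _ _)

theorem top_badE (J m : ℕ) (v : ℤ × ℤ) : K.pat ⁻¹' badE J m v = {x | ∃ w ∈ kids J v,
    2 ≤ ((K.pat x).pts ∩ osq (ctr (m + J) w) (6 * sc (m + J))).ncard} := by
  ext x
  simp only [badE, mem_preimage, mem_ofPred_eq, top_two_iff ((K.pts_fin x).inter_of_left _)]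

theorem meas_badE (J m : ℕ) (v : ℤ × ℤ) : MeasurableSet (K.pat ⁻¹' badE J m v) := by
  have e : K.pat ⁻¹' badE J m v = ⋃ w ∈ kids J v,
      {x | 2 ≤ ((K.pat x).pts ∩ osq (ctr (m + J) w) (6 * sc (m + J))).ncard} := by
    rw [top_badE]
    ext x
    simp only [mem_ofPred_eq, mem_iUnion, exists_prop]
  rw [e]
  exact Finset.measurableSet_biUnion _ fun w _ =>
    measurableSet_le measurable_const (K.cnt_meas _ _)

theorem meas_badF (hd : 7 ≤ d) (t : ℝ) (n : ℕ) (I : Finset (ℤ × ℤ)) :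
    MeasurableSet (K.pat ⁻¹' badF d t n I) :=
  measurableSet_lt measurable_const
    (Finset.measurable_fun_sum _ fun _ _ => K.PiD_meas hd _ _)

/-- the sets `E j c` are unlikely under the level-zero law of `g + c` for `j` large and then `c`
large, uniformly over the `g` that are tame near `y` -/
def Small (y : ℂ) (E : ℕ → ℝ → Set Pat) : Prop :=
  ∀ (ε : ℝ≥0∞) (L : ℝ≥0), 0 < ε → ∀ᶠ j in atTop, ∀ᶠ c in atTop, ∀ g : C(ℂ, ℝ),
    oo 0 y g ≤ L → |g y| ≤ L → K.P 0 (g + ContinuousMap.const ℂ c) (K.pat ⁻¹' E j c) ≤ ε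

theorem small_of_soft {E : ℕ → ℤ × ℤ → Set Pat} (h : K.Soft fun n v => K.pat ⁻¹' E n v)
    (hm : ∀ n v, MeasurableSet (K.pat ⁻¹' E n v)) {m : ℕ} {v : ℤ × ℤ} (hW : K.Win m (ctr m v)) :
    K.Small (ctr m v) fun _ _ => E m v := fun ε L hε => by
  obtain ⟨T, hT⟩ := Soft.lift h hm m ε L hε
  refine Eventually.of_forall fun _ => ?_
  filter_upwards [eventually_ge_atTop (T + L)] with c hc g ho hg
  have h1 := hT 0 (ctr m v) (g + ContinuousMap.const ℂ c) v (by rwa [zero_add])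
    (by rw [zero_add]; exact top_sub m _) ((top_oo _ g c).trans_le ho) (by
      rw [top_cc]
      linarith [neg_le_of_abs_le hg])
  rwa [zero_add] at h1

theorem small_B {m : ℕ} {v : ℤ × ℤ} (hW : K.Win m (ctr m v)) :
    K.Small (ctr m v) fun _ _ => badB m v :=
  K.small_of_soft (E := badB) K.soft_blk K.meas_badB hW

theorem small_K (hd : K.Good d) : ∃ C : ℝ≥0, ∀ m v, K.Win m (ctr m v) →
    K.Small (ctr m v) fun _ _ => badK d C m v := by
  obtain ⟨C, hC⟩ := K.KK_lln hd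
  exact ⟨C, fun m v hW => K.small_of_soft (E := badK d C) hC (K.meas_badK hd.1 C) hW⟩

theorem small_S (hd : K.Good d) : ∃ C : ℝ≥0, ∀ β : ℝ, 0 < β → ∀ m v, K.Win m (ctr m v) →
    K.Small (ctr m v) fun _ _ => badS d C β m v := by
  obtain ⟨C, hC⟩ := K.sig_unif hd
  exact ⟨C, fun β hβ m v hW =>
    K.small_of_soft (E := badS d C β) (hC β hβ) (K.meas_badS hd.1 C β) hW⟩

/-- a bound at level `m + k` seen from level zero along `g + c` -/
theorem top_lift {s t : ℝ} (hs : 0 ≤ s) (hz : 0 ≤ K.z s) (ht : 96 * |s| ≤ t) :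
    ∃ C : ℝ≥0, ∀ (m k : ℕ) (v w : ℤ × ℤ) (g : C(ℂ, ℝ)) (L : ℝ≥0) (c : ℝ) (A : ℝ≥0∞)
      (F : Ξ → ℝ≥0∞), Measurable F → w ∈ kids k v → oo 0 (ctr m v) g ≤ L → |g (ctr m v)| ≤ L →
      (∀ g', ∫⁻ x, F x ∂K.P (m + k) g' ≤ A * wt K.Q s t (m + k) (ctr (m + k) w) g') →
      ∫⁻ x, F x ∂K.P 0 (g + ContinuousMap.const ℂ c) ≤
        A * (C * ENNReal.ofReal ((2 : ℝ) ^ (-(k * K.z s))) *
          ENNReal.ofReal (Real.exp (s * c + (s + t) * L))) := by
  obtain ⟨C, hC⟩ := K.lift s ht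
  refine ⟨C, fun m k v w g L c A F hF hw ho hg h => ?_⟩
  have h1 := hC 0 (m + k) (ctr m v) (ctr (m + k) w) (g + ContinuousMap.const ℂ c) A F hF
    (by rw [zero_add]; exact top_sub_kids hw) (by rwa [zero_add])
  refine h1.trans (mul_le_mul_right (mul_le_mul' (mul_le_mul_right ?_ _)
    (top_wt K.Q hs (le_trans (by positivity) ht) ho hg c)) _)
  refine ENNReal.ofReal_le_ofReal (Real.rpow_le_rpow_of_exponent_le (by norm_num) ?_)
  have : 0 ≤ (m : ℝ) * K.z s := by positivity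
  push_cast
  linarith

theorem small_P (hd : K.Good d) {m : ℕ} {v : ℤ × ℤ} (hW : K.Win m (ctr m v)) :
    K.Small (ctr m v) fun j c =>
      badP d ((K.z K.σ - 2) / 2 * (K.γ / K.σ)) (Real.exp (K.γ * c)) j m v := by
  intro ε L hε
  have hd7 : 7 ≤ d := hd.1
  have hγ := K.γ_pos
  have hσ := K.σ_pos
  have hz := K.z_σ
  have hθ : 96 * |K.σ| ≤ K.θ := by
    rw [abs_of_pos hσ]
    linarith [K.θ_ge]
  obtain ⟨A, hA⟩ := K.PiD_rpow hd
  obtain ⟨C, hC⟩ := K.top_lift hσ.le (by linarith) hθ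
  have hκ : 0 < (K.z K.σ - 2) / 2 := by linarith
  set B : ℝ≥0∞ := A * C * ENNReal.ofReal (Real.exp ((K.σ + K.θ) * L)) with hB
  have hBt : B ≠ ∞ :=
    ENNReal.mul_ne_top (ENNReal.mul_ne_top ENNReal.coe_ne_top ENNReal.coe_ne_top)
      ENNReal.ofReal_ne_top
  obtain ⟨j₀, hj⟩ := unif_geom_tail hBt (unif_ratio_lt hκ) hε
  filter_upwards [eventually_ge_atTop j₀] with j hj₀
  refine Eventually.of_forall fun c g ho hg => ?_
  refine le_trans (measure_mono ?_) (hj (K.P 0 (g + ContinuousMap.const ℂ c))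
    (fun i x => ∃ w ∈ kids (i * d) v, ENNReal.ofReal (Real.exp (K.γ * c) *
      (2 : ℝ) ^ (-((K.z K.σ - 2) / 2 * (K.γ / K.σ) * (i * d : ℕ)))) <
        PiD d (K.pat x) (m + i * d) w) fun i => ?_)
  · rintro x ⟨i, hi, hx⟩
    exact ⟨i, hj₀.trans hi, hx⟩
  set k : ℕ := i * d with hk'
  have hk : ∀ w ∈ kids k v, K.P 0 (g + ContinuousMap.const ℂ c) {x |
      ENNReal.ofReal (Real.exp (K.γ * c) *
        (2 : ℝ) ^ (-((K.z K.σ - 2) / 2 * (K.γ / K.σ) * (k : ℝ)))) < PiD d (K.pat x) (m + k) w} ≤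
      ENNReal.ofReal ((2 : ℝ) ^ ((K.z K.σ - 2) / 2 * k - k * K.z K.σ)) * B := by
    intro w hw
    have mp := K.PiD_meas hd7 (m + k) w
    have hM := unif_markov (K.P 0 (g + ContinuousMap.const ℂ c)) mp
      (a := Real.exp (K.γ * c) * (2 : ℝ) ^ (-((K.z K.σ - 2) / 2 * (K.γ / K.σ) * (k : ℝ))))
      (p := K.σ / K.γ) (by positivity) (by positivity)
    have hl := hC m k v w g L c A _ (mp.pow_const (K.σ / K.γ)) hw ho hg
      (fun g' => hA (m + k) w g' (hW.sub (sub_kids hw)))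
    have e1 : (Real.exp (K.γ * c) *
        (2 : ℝ) ^ (-((K.z K.σ - 2) / 2 * (K.γ / K.σ) * (k : ℝ)))) ^ (-(K.σ / K.γ)) =
        Real.exp (-(K.σ * c)) * (2 : ℝ) ^ ((K.z K.σ - 2) / 2 * k) := by
      rw [Real.mul_rpow (by positivity) (by positivity), ← Real.exp_mul,
        ← Real.rpow_mul (by norm_num)]
      congr 2 <;> field_simp
    have e2 : Real.exp (-(K.σ * c)) * (2 : ℝ) ^ ((K.z K.σ - 2) / 2 * k) *
        ((2 : ℝ) ^ (-(k * K.z K.σ)) * Real.exp (K.σ * c + (K.σ + K.θ) * L)) =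
        (2 : ℝ) ^ ((K.z K.σ - 2) / 2 * k - k * K.z K.σ) * Real.exp ((K.σ + K.θ) * L) := by
      rw [sub_eq_add_neg ((K.z K.σ - 2) / 2 * k), Real.rpow_add (by norm_num), Real.exp_add,
        Real.exp_neg]
      field_simp
    rw [e1] at hM
    calc _ ≤ _ := hM
      _ ≤ ENNReal.ofReal (Real.exp (-(K.σ * c)) * (2 : ℝ) ^ ((K.z K.σ - 2) / 2 * k)) *
            (A * (C * ENNReal.ofReal ((2 : ℝ) ^ (-(k * K.z K.σ))) *
              ENNReal.ofReal (Real.exp (K.σ * c + (K.σ + K.θ) * L)))) :=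
          mul_le_mul_right hl _
      _ = A * C * ENNReal.ofReal (Real.exp (-(K.σ * c)) * (2 : ℝ) ^ ((K.z K.σ - 2) / 2 * k) *
            ((2 : ℝ) ^ (-(k * K.z K.σ)) * Real.exp (K.σ * c + (K.σ + K.θ) * L))) := by
          rw [ENNReal.ofReal_mul (p := Real.exp (-(K.σ * c)) * (2 : ℝ) ^ ((K.z K.σ - 2) / 2 * k))
            (by positivity), ENNReal.ofReal_mul (p := (2 : ℝ) ^ (-(k * K.z K.σ))) (by positivity)]
          ring
      _ = ENNReal.ofReal ((2 : ℝ) ^ ((K.z K.σ - 2) / 2 * k - k * K.z K.σ)) * B := by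
          rw [e2, ENNReal.ofReal_mul (by positivity), hB]
          ring
  refine (unif_kids_le (K.P 0 (g + ContinuousMap.const ℂ c)) k v _ hk).trans ?_
  rw [← mul_assoc, mul_comm _ B]
  refine mul_le_mul_right (unif_pow_le ?_) _
  have hi : (i : ℝ) ≤ (k : ℝ) := by
    exact_mod_cast Nat.le_mul_of_pos_right i (by omega)
  nlinarith [mul_le_mul_of_nonneg_left hi hκ.le]

theorem small_E {κ : ℝ} (hκ : K.σ < κ * (K.z K.σ - 2) * Real.log 2) (m : ℕ) (v : ℤ × ℤ) :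
    K.Small (ctr m v) fun _ c => badE ⌈κ * c⌉₊ m v := by
  intro ε L hε
  have hσ := K.σ_pos
  have hz := K.z_σ
  have hθ : 96 * |K.σ| ≤ K.θ := by
    rw [abs_of_pos hσ]
    linarith [K.θ_ge]
  obtain ⟨A, hA⟩ := K.two
  obtain ⟨C, hC⟩ := K.top_lift hσ.le (by linarith) hθ
  obtain ⟨T, hT⟩ := soft_small (A := A * C * ENNReal.ofReal (Real.exp ((K.σ + K.θ) * L)))
    (by finiteness) hε
  have hδ : 0 < κ * (K.z K.σ - 2) * Real.log 2 - K.σ := by linarith
  refine Eventually.of_forall fun _ => ?_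
  filter_upwards [(tendsto_id.const_mul_atTop hδ).eventually_ge_atTop T] with c hc g ho hg
  refine le_trans ?_ (hT _ hc)
  set J : ℕ := ⌈κ * c⌉₊ with hJ
  have hk : ∀ w ∈ kids J v, K.P 0 (g + ContinuousMap.const ℂ c)
      {x | 2 ≤ ((K.pat x).pts ∩ osq (ctr (m + J) w) (6 * sc (m + J))).ncard} ≤
      A * (C * ENNReal.ofReal ((2 : ℝ) ^ (-(J * K.z K.σ))) *
        ENNReal.ofReal (Real.exp (K.σ * c + (K.σ + K.θ) * L))) := by
    intro w hw
    have hE : MeasurableSet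
        {x | 2 ≤ ((K.pat x).pts ∩ osq (ctr (m + J) w) (6 * sc (m + J))).ncard} :=
      measurableSet_le measurable_const (K.cnt_meas _ _)
    rw [← lintegral_indicator_one hE]
    refine hC m J v w g L c A _ (measurable_one.indicator hE) hw ho hg fun g' => ?_
    rw [lintegral_indicator_one hE]
    exact (hA (m + J) _ g').trans (mul_le_mul_right (wt_mono _ _ K.θ0_le _ _ _) _)
  rw [top_badE]
  refine (unif_kids_le _ J v _ hk).trans ?_
  have hle : (2 : ℝ) ^ (2 * (J : ℝ) + -(J * K.z K.σ)) * Real.exp (K.σ * c) ≤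
      Real.exp (-((κ * (K.z K.σ - 2) * Real.log 2 - K.σ) * id c)) := by
    rw [Real.rpow_def_of_pos (by norm_num), ← Real.exp_add, Real.exp_le_exp, id]
    have h1 : κ * c ≤ J := Nat.le_ceil _
    have h2 : 0 < (K.z K.σ - 2) * Real.log 2 :=
      mul_pos (by linarith) (Real.log_pos (by norm_num))
    nlinarith [mul_le_mul_of_nonneg_right h1 h2.le]
  calc (4 : ℝ≥0∞) ^ J * (A * (C * ENNReal.ofReal ((2 : ℝ) ^ (-(J * K.z K.σ))) *
          ENNReal.ofReal (Real.exp (K.σ * c + (K.σ + K.θ) * L))))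
      = A * C * ENNReal.ofReal (Real.exp ((K.σ + K.θ) * L)) *
          ENNReal.ofReal ((2 : ℝ) ^ (2 * (J : ℝ) + -(J * K.z K.σ)) * Real.exp (K.σ * c)) := by
        rw [ENNReal.ofReal_mul (by positivity), ← unif_four_mul, soft_exp_split']
        ring
    _ ≤ _ := mul_le_mul_right (ENNReal.ofReal_le_ofReal hle) _

/-- families of boxes of small total area carry few edges -/
theorem small_F (hd : K.Good d) {m : ℕ} {v : ℤ × ℤ} (hW : K.Win m (ctr m v)) {η : ℝ} (hη : 0 < η)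
    (l : ℕ → ℕ) (I : ℕ → Finset (ℤ × ℤ)) (hI : ∀ j, I j ⊆ kids (l j) v)
    (h0 : Tendsto (fun j => ((I j).card : ℝ) / 4 ^ l j) atTop (𝓝 0)) :
    K.Small (ctr m v) fun j c => badF d (η * Real.exp (K.γ * c)) (m + l j) (I j) := by
  intro ε L hε
  have hγ := K.γ_pos
  obtain ⟨A, hA⟩ := K.PiD_one hd
  obtain ⟨C, hC⟩ := K.top_lift hγ.le (by rw [K.z_γ]; norm_num) K.Pi_γ_le
  have h1 : Tendsto (fun j => ENNReal.ofReal (((I j).card : ℝ) / 4 ^ l j)) atTop (𝓝 0) := by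
    simpa using ENNReal.tendsto_ofReal h0
  have h2 := ENNReal.Tendsto.const_mul
    (a := A * C * ENNReal.ofReal (η⁻¹ * Real.exp ((K.γ + K.θ) * L))) h1 (Or.inr (by finiteness))
  rw [mul_zero] at h2
  filter_upwards [ENNReal.tendsto_nhds_zero.1 h2 ε hε] with j hj
  refine Eventually.of_forall fun c g ho hg => le_trans ?_ hj
  have mp : ∀ w, Measurable fun x => PiD d (K.pat x) (m + l j) w := K.PiD_meas hd.1 _
  have hM := unif_markov (K.P 0 (g + ContinuousMap.const ℂ c))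
    (Finset.measurable_fun_sum (I j) fun w _ => mp w) (a := η * Real.exp (K.γ * c)) (p := 1)
    (by positivity) one_pos
  simp only [ENNReal.rpow_one] at hM
  rw [lintegral_finsetSum _ fun w _ => mp w] at hM
  have hs := Finset.sum_le_card_nsmul (I j) _ _ fun w hw =>
    hC m (l j) v w g L c A _ (mp w) (hI j hw) ho hg
      fun g' => hA (m + l j) w g' (hW.sub (sub_kids (hI j hw)))
  have e : (η * Real.exp (K.γ * c)) ^ (-(1 : ℝ)) * ((I j).card *
      ((2 : ℝ) ^ (-(l j * K.z K.γ)) * Real.exp (K.γ * c + (K.γ + K.θ) * L))) =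
      η⁻¹ * Real.exp ((K.γ + K.θ) * L) * (((I j).card : ℝ) / 4 ^ l j) := by
    have e4 : (2 : ℝ) ^ (-(l j * K.z K.γ)) = (4 ^ l j)⁻¹ := by
      rw [K.z_γ, Real.rpow_neg (by norm_num), mul_comm, Real.rpow_mul (by norm_num),
        Real.rpow_natCast, Real.rpow_two]
      norm_num
    rw [e4, Real.rpow_neg_one, Real.exp_add]
    field_simp
  refine hM.trans ((mul_le_mul_right hs _).trans (le_of_eq ?_))
  rw [mul_assoc (A * C : ℝ≥0∞), ← ENNReal.ofReal_mul (by positivity), ← e,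
    ENNReal.ofReal_mul (by positivity), ENNReal.ofReal_mul (by positivity),
    ENNReal.ofReal_mul (by positivity), ENNReal.ofReal_natCast, nsmul_eq_mul]
  ring

end Casc

end Pool.Agent.Lib.MP_0d9445_pr.CR
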