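import Pool.Agent.Lib.MP_0d9445_pr.CR.EnvDefs
import Pool.Agent.Lib.MP_0d9445_pr.CR.D1

/-! Voronoi cells are dominated by the pattern; small cells. -/

open MeasureTheory Set Filter Topology
open scoped ENNReal NNReal Classical

namespace Pool.Agent.Lib.MP_0d9445_pr.CR

open Walk Cell

variable {O S : Set ℂ} {C : ℕ → Cells} {μ : Measure ℂ} {M : ℕ → ℝ} {J : ℕ → ℕ}

theorem EnvN_abs {t a r : ℝ} (h0 : 0 < t) (h1 : t < 1) (hr : 0 < r) (ha : |a| ≤ r) :
    |t * a| < r := by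
  rw [abs_mul, abs_of_pos h0]
  nlinarith [abs_nonneg a]

theorem EnvN_csq {c : ℂ} {r : ℝ} (hr : 0 < r) : csq c r ⊆ closure (osq c r) := by
  intro z hz
  have h1 : Tendsto (fun t : ℝ => c + (t : ℂ) * (z - c)) (𝓝[<] 1) (𝓝 z) := by
    have h2 : Continuous fun t : ℝ => c + (t : ℂ) * (z - c) := by fun_prop
    have h3 := h2.tendsto 1
    simp only [Complex.ofReal_one, one_mul, add_sub_cancel] at h3
    exact h3.mono_left nhdsWithin_le_nhds
  refine mem_closure_of_tendsto h1 ?_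
  filter_upwards [Ioo_mem_nhdsLT (zero_lt_one' ℝ)] with t ht
  constructor
  · have := EnvN_abs ht.1 ht.2 hr hz.1
    simpa using this
  · have := EnvN_abs ht.1 ht.2 hr hz.2
    simpa using this

theorem EnvN_ann {W : Sq} {n : ℕ} {v : ℤ × ℤ} (h : reg n v 5 ⊆ W.o) : ann n v ⊆ W.o :=
  (ann_subset n v).trans ((reg_mono n v (by norm_num)).trans h)

theorem dom_mkPat {C : Cells} {d : Met} {W : Sq} {lam : ℝ} {Y Y' : Set ℂ}
    (h : NearGeo S (Function.curry d)) (hW : W.c ⊆ S) (hl : 1 ≤ lam) (hV : C.V ⊆ S)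
    (hH : ∀ x, C.H x = cell S (Function.curry d) C.V x) (hY : Y ∩ W.o ⊆ C.V)
    (hY' : C.V ∩ W.o ⊆ Y') : Dom C (mkPat W lam d Y Y') W.o := by
  refine ⟨fun n v hB x hx => ?_, fun x hx => ?_, hY'⟩
  · obtain ⟨h1, h2⟩ := hB
    have hS : csq (ctr n v) (5 * sc n) ⊆ S :=
      (EnvN_csq (by linarith [sc_pos n])).trans
        ((closure_mono h1).trans ((D1_closure W.1 W.2).trans hW))
    have hY2 : Y ∩ ann n v ⊆ C.V := fun y hy => hY ⟨hy.1, EnvN_ann h1 hy.2⟩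
    rw [hH]
    exact ⟨fun hx' => blk_cell_subset h hS hl h2 hY2 hx',
      fun hx' => blk_cell_disjoint h hS hl h2 hY2 (hV hx) hx'⟩
  · rw [hH]
    exact h.self_mem_cell hV (hV hx)

theorem near_mkPat {C : Cells} {d : Met} {W : Sq} {lam : ℝ} {Y Y' : Set ℂ} (hY : Y ∩ W.o ⊆ C.V)
    (m : ℕ) (v : ℤ × ℤ) (hB : (mkPat W lam d Y Y').B m v) : (C.V ∩ ann m v).Nonempty := by
  obtain ⟨h1, h2⟩ := hB
  obtain ⟨y, hy⟩ := blk_nonempty h2
  exact ⟨y, hY ⟨hy.1, EnvN_ann h1 hy.2⟩, hy.2⟩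

theorem EnvN_dist {m : ℕ} {z p : ℂ} (hp : p ∈ ann m (idx m z)) : dist p z ≤ 10 * sc m := by
  obtain ⟨a1, a2⟩ := ann_subset _ _ hp
  obtain ⟨b1, b2⟩ := box_subset_csq m _ (mem_box_idx m z)
  have h1 := Complex.norm_le_abs_re_add_abs_im (p - z)
  rw [Complex.sub_re, Complex.sub_im] at h1
  have h2 := abs_sub_le p.re (ctr m (idx m z)).re z.re
  have h3 := abs_sub_le p.im (ctr m (idx m z)).im z.im
  rw [abs_sub_comm (ctr m (idx m z)).re] at h2
  rw [abs_sub_comm (ctr m (idx m z)).im] at h3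
  rw [dist_eq_norm]
  linarith

/-- on a compact set the centres are eventually dense and finite in number -/
theorem EnvN_dense (h : Cover O C μ M J) {K : Set ℂ} (hK : IsCompact K) (hKO : K ⊆ O) {δ : ℝ}
    (hδ : 0 < δ) : ∀ᶠ n in atTop, (∀ z ∈ K, ∃ p ∈ (C n).V, dist p z ≤ δ) ∧
      ((C n).V ∩ K).Finite := by
  obtain ⟨s, r, hr, hs, hcov⟩ := h.lebesgue hK hKO
  obtain ⟨m, hm⟩ := exists_pow_lt_of_lt_one (lt_min (by positivity : 0 < r / 49)
    (by positivity : 0 < δ / 10)) (by norm_num : (2 : ℝ)⁻¹ < 1)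
  have hm1 : sc m < r / 49 := hm.trans_le (min_le_left _ _)
  have hm2 : sc m < δ / 10 := hm.trans_le (min_le_right _ _)
  have key : ∀ᶠ n in atTop, ∀ w ∈ s,
      (∀ z ∈ K, w.In m (idx m z) → w.a n ∉ badB m (idx m z)) ∧
      (∀ m v, (w.a n).B m v → ((C n).V ∩ ann m v).Nonempty) ∧ ((C n).V ∩ w.W).Finite :=
    (eventually_all_finset s).2 fun w hw =>
      (eventually_boxes (p := fun n v => w.a n ∉ badB m v) (q := w.In m) hK.isBounded m
        ((hs w hw).hB m)).and ((hs w hw).near.and (hs w hw).fin)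
  filter_upwards [key] with n hn
  constructor
  · intro z hz
    obtain ⟨w, hw, hb⟩ := hcov z hz
    have h1 : w.In m (idx m z) := WD.in_of_ball hb (by rw [sub_self, norm_zero]; linarith)
    obtain ⟨p, hp⟩ := (hn w hw).2.1 m _ (not_not.1 ((hn w hw).1 z hz h1))
    exact ⟨p, hp.1, (EnvN_dist hp.2).trans (by linarith)⟩
  · refine (s.finite_toSet.biUnion fun w hw => (hn w hw).2.2).subset fun x hx => ?_
    obtain ⟨w, hw, hb⟩ := hcov x hx.2
    exact mem_biUnion hw ⟨hx.1, hb (Metric.mem_ball_self hr)⟩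

/-- the field `nice` of `Env` -/
theorem env_nice {D : ℂ → ℂ → ℝ} (h : Cover O C μ M J) (hO : IsOpen O) (hS : IsClosed S)
    (hOS : O ⊆ S) (hD : NearGeo S D) (hV : ∀ n, (C n).V ⊆ S)
    (hH : ∀ n x, (C n).H x = cell S D (C n).V x) :
    ∀ K, IsCompact K → K ⊆ O → ∀ ε > 0, ∀ᶠ n in atTop,
      {x | x ∈ (C n).V ∧ ((C n).H x ∩ K).Nonempty}.Finite ∧ ((C n).toFC K).Nice K ε := by
  intro K hK hKO ε hε
  obtain ⟨ρ, hρ, hρO⟩ := hK.exists_cthickening_subset_open hO hKO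
  obtain ⟨η, hη, h1, h2⟩ : ∃ η : ℝ, 0 < η ∧ 3 * η ≤ ρ ∧ 2 * η ≤ ε :=
    ⟨min (ρ / 3) (ε / 2), by positivity, by linarith [min_le_left (ρ / 3) (ε / 2)],
      by linarith [min_le_right (ρ / 3) (ε / 2)]⟩
  have hK3 : IsCompact (Metric.cthickening (3 * η) K) := hK.cthickening
  have hK3O : Metric.cthickening (3 * η) K ⊆ O := (Metric.cthickening_mono h1 K).trans hρO
  obtain ⟨δ, hδ, H⟩ := hD.small_cells hK (hKO.trans hOS) hη (hK3.inter_right hS)
  filter_upwards [EnvN_dense h hK3 hK3O hδ] with n hn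
  obtain ⟨H1, H2⟩ := H _ (hV n) fun w hw =>
    hn.1 w (Metric.cthickening_mono (by linarith) K hw.1)
  obtain ⟨H3, H4⟩ := H2 (hn.2.subset (inter_subset_inter_right _
    (Metric.thickening_subset_cthickening_of_le (by linarith) K)))
  have hf : {x | x ∈ (C n).V ∧ ((C n).H x ∩ K).Nonempty}.Finite := by simpa only [hH] using H3
  have hm : ∀ x, x ∈ ((C n).toFC K).V ↔ x ∈ (C n).V ∧ (cell S D (C n).V x ∩ K).Nonempty := by
    intro x
    rw [← hH, Cells.toFC, dif_pos hf]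
    exact hf.mem_toFinset
  have he : ∀ x, ((C n).toFC K).H x = cell S D (C n).V x := hH n
  have H5 := fun x (hx : x ∈ ((C n).toFC K).V) => H1 x (hV n ((hm x).1 hx).1) ((hm x).1 hx).2
  refine ⟨hf, fun x hx => ?_, fun x hx => ?_, fun x hx => ?_, fun x hx => ?_, fun w hw => ?_⟩
  · rw [he]
    exact (H5 x hx).2.2.2.1
  · rw [he]
    exact (H5 x hx).2.2.2.2
  · rw [he]
    exact (H5 x hx).2.1
  · rw [he]
    exact ((Metric.diam_mono (H5 x hx).2.2.1 Metric.isBounded_ball).trans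
      (Metric.diam_ball hη.le)).trans h2
  · obtain ⟨x, hx, hwx⟩ := mem_iUnion₂.1 (H4 hw)
    exact ⟨x, (hm x).2 ⟨hx, w, hwx, hw⟩, by rw [he]; exact hwx⟩

end Pool.Agent.Lib.MP_0d9445_pr.CR
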