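import Mathlib

/-! Crude estimates (module CR of the route), definitions.  Owner helper64.
A cascade `Casc` is the abstract form of the engine: kernels `P n g`, layer laws `ν n`, local
sigma-algebras, points and blocking events.  All dominating variables are monotone functions of a
pattern `Pat` = (blocked boxes, points). -/

open MeasureTheory ProbabilityTheory Set Filter Topology
open scoped ENNReal NNReal

namespace Pool.Agent.Lib.MP_0d9445_pr.CR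

noncomputable section

/-! ## Dyadic geometry -/

/-- side of a box of level `n` -/
def sc (n : ℕ) : ℝ := (2 : ℝ)⁻¹ ^ n

/-- centre of the box of level `n` and index `v` -/
def ctr (n : ℕ) (v : ℤ × ℤ) : ℂ := ⟨sc n * (v.1 + 1 / 2), sc n * (v.2 + 1 / 2)⟩

/-- index of the box of level `n` that contains `z` -/
def idx (n : ℕ) (z : ℂ) : ℤ × ℤ := (⌊z.re / sc n⌋, ⌊z.im / sc n⌋)

/-- half-open dyadic box -/
def box (n : ℕ) (v : ℤ × ℤ) : Set ℂ :=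
  {z | sc n * v.1 ≤ z.re ∧ z.re < sc n * (v.1 + 1) ∧ sc n * v.2 ≤ z.im ∧ z.im < sc n * (v.2 + 1)}

/-- open sup-norm square -/
def osq (y : ℂ) (r : ℝ) : Set ℂ := {z | |z.re - y.re| < r ∧ |z.im - y.im| < r}

/-- closed sup-norm square -/
def csq (y : ℂ) (r : ℝ) : Set ℂ := {z | |z.re - y.re| ≤ r ∧ |z.im - y.im| ≤ r}

/-- the open square of half side `r * sc n` concentric with the box (`kS` is `reg n v (k/2)`) -/
def reg (n : ℕ) (v : ℤ × ℤ) (r : ℝ) : Set ℂ := osq (ctr n v) (r * sc n)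

/-- the annulus `9S \ closed 7S` -/
def ann (n : ℕ) (v : ℤ × ℤ) : Set ℂ := reg n v (9 / 2) \ csq (ctr n v) (7 / 2 * sc n)

/-- indices at sup distance at most `R` -/
def nbh (R : ℕ) (v : ℤ × ℤ) : Finset (ℤ × ℤ) :=
  Finset.Icc (v.1 - R) (v.1 + R) ×ˢ Finset.Icc (v.2 - R) (v.2 + R)

/-- indices of the descendants `m` levels below -/
def kids (m : ℕ) (v : ℤ × ℤ) : Finset (ℤ × ℤ) :=
  Finset.Ico (2 ^ m * v.1) (2 ^ m * (v.1 + 1)) ×ˢ Finset.Ico (2 ^ m * v.2) (2 ^ m * (v.2 + 1))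

/-- indices of the boxes `d` levels below that cover the closed square `2S` -/
def cov (d : ℕ) (v : ℤ × ℤ) : Finset (ℤ × ℤ) :=
  Finset.Icc (2 ^ d * v.1 - 2 ^ (d - 1) - 1) (2 ^ d * (v.1 + 1) + 2 ^ (d - 1)) ×ˢ
    Finset.Icc (2 ^ d * v.2 - 2 ^ (d - 1) - 1) (2 ^ d * (v.2 + 1) + 2 ^ (d - 1))

/-- the slope window of `(n', y')` lies in the slope window of `(n, y)` -/
def Sub (n : ℕ) (y : ℂ) (n' : ℕ) (y' : ℂ) : Prop := ‖y' - y‖ + 48 * sc n' ≤ 48 * sc n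

/-! ## State of a coarse field seen from a point at a level -/

/-- Lipschitz seminorm on `A` -/
def lip (g : C(ℂ, ℝ)) (A : Set ℂ) : ℝ≥0∞ := ⨆ x ∈ A, ⨆ y ∈ A, edist (g x) (g y) / edist x y

/-- exponential on `ℝ≥0∞` -/
def ex (t : ℝ≥0∞) : ℝ≥0∞ := EReal.exp (t : EReal)

/-- height `c` -/
def cc (Q : ℝ) (n : ℕ) (y : ℂ) (g : C(ℂ, ℝ)) : ℝ := g y - n * Q * Real.log 2

/-- rescaled slope `o` -/
def oo (n : ℕ) (y : ℂ) (g : C(ℂ, ℝ)) : ℝ≥0∞ :=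
  ENNReal.ofReal (sc n) * lip g (Metric.ball y (48 * sc n))

/-- weight `exp (s c + θ o)` -/
def wt (Q s θ : ℝ) (n : ℕ) (y : ℂ) (g : C(ℂ, ℝ)) : ℝ≥0∞ :=
  ENNReal.ofReal (Real.exp (s * cc Q n y g)) * ex (ENNReal.ofReal θ * oo n y g)

/-! ## Patterns and dominating variables -/

/-- blocked boxes and points -/
structure Pat where
  B : ℕ → ℤ × ℤ → Prop
  pts : Set ℂ

/-- `a ≼ b`: fewer points, more blocked boxes -/
def Pat.Le (a b : Pat) : Prop := (∀ n v, b.B n v → a.B n v) ∧ a.pts ⊆ b.pts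

open Classical in
/-- killed count of occupied boxes at depth `k` (step `d`) -/
def u (d : ℕ) (a : Pat) : ℕ → ℕ → ℤ × ℤ → ℕ
  | 0, n, v => if (a.pts ∩ box n v).Nonempty then 1 else 0
  | k + 1, n, v => ∑ w ∈ kids d v, if a.B (n + d) w then 0 else u d a k (n + d) w

/-- there is an unblocked chain of length `k` below the box -/
def chain (d : ℕ) (a : Pat) : ℕ → ℕ → ℤ × ℤ → Prop
  | 0, _, _ => True
  | k + 1, n, v => ∃ w ∈ kids d v, ¬ a.B (n + d) w ∧ chain d a k (n + d) w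

/-- the box is exposed: unblocked chains of every length (the negation is `Loc` of the box) -/
def Ex (d : ℕ) (a : Pat) (n : ℕ) (v : ℤ × ℤ) : Prop := ∀ k, chain d a k n v

/-- killed count over the boxes of `(2R+1) S` -/
def ws (d : ℕ) (a : Pat) (R k n : ℕ) (v : ℤ × ℤ) : ℕ := ∑ w ∈ nbh R v, u d a k n w

/-- dominates the ordered pairs of distinct exposed points of `11 S` -/
def TT (d : ℕ) (a : Pat) (n : ℕ) (v : ℤ × ℤ) : ℝ≥0∞ :=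
  liminf (fun k => ((ws d a 5 k n v * (ws d a 5 k n v - 1) : ℕ) : ℝ≥0∞)) atTop

/-- dominates the square of the number of exposed points of `41 S` -/
def ZZ (d : ℕ) (a : Pat) (n : ℕ) (v : ℤ × ℤ) : ℝ≥0∞ :=
  liminf (fun k => ((ws d a 20 k n v ^ 2 : ℕ) : ℝ≥0∞)) atTop

/-- chain sum over `N` levels from `n` down along `z` -/
def sig (d : ℕ) (a : Pat) (n N : ℕ) (z : ℂ) : ℝ≥0∞ :=
  ∑ i ∈ Finset.range N, ZZ d a (n + i * d) (idx (n + i * d) z)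

/-- average of the chain sums over the box: dominates `X / s^2` and `Y / s^2` -/
def KK (d : ℕ) (a : Pat) (n : ℕ) (v : ℤ × ℤ) : ℝ≥0∞ :=
  ∑' i : ℕ, (4 : ℝ≥0∞)⁻¹ ^ (i * d) * ∑ w ∈ kids (i * d) v, ZZ d a (n + i * d) w

/-- dominates the number of short edges from the box -/
def PiD (d : ℕ) (a : Pat) (n : ℕ) (v : ℤ × ℤ) : ℝ≥0∞ :=
  ∑' i : ℕ, ∑ w ∈ kids (i * d) v, TT d a (n + i * d) w

/-- every box `d` levels below that meets `2S` is not exposed -/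
def Loc (d : ℕ) (a : Pat) (n : ℕ) (v : ℤ × ℤ) : Prop := ∀ w ∈ cov d v, ¬ Ex d a (n + d) w

/-- dominates `X / s^2` and `Y / s^2` of the box on `Loc` -/
def Xd (d : ℕ) (a : Pat) (n : ℕ) (v : ℤ × ℤ) : ℝ≥0∞ := ∑ w ∈ cov d v, KK d a (n + d) w

/-- dominates the degree sum of the box on `Loc` -/
def Pd (d : ℕ) (a : Pat) (n : ℕ) (v : ℤ × ℤ) : ℝ≥0∞ := ∑ w ∈ cov d v, PiD d a (n + d) w

/-- the point `z` has no blocked ancestor at the levels `n + d, n + 2d, ...` -/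
def Exposed (d : ℕ) (a : Pat) (n : ℕ) (z : ℂ) : Prop :=
  ∀ i : ℕ, ¬ a.B (n + (i + 1) * d) (idx (n + (i + 1) * d) z)

/-! ## The abstract engine -/

/-- What the crude estimates use of the engine (E1, E2hat, E3, E4, E5 for `Phat M W`). -/
structure Casc (Ξ : Type) [mΞ : MeasurableSpace Ξ] [MeasurableSpace C(ℂ, ℝ)] where
  γ : ℝ
  σ : ℝ
  Q : ℝ
  θ0 : ℝ
  γ_pos : 0 < γ
  γ_lt : γ < σ
  σ_le : σ ≤ 2 * γ
  zγ : γ * Q - γ ^ 2 / 2 = 2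
  zσ : 2 < σ * Q - σ ^ 2 / 2
  θ0_nonneg : 0 ≤ θ0
  meas_eval : ∀ y : ℂ, Measurable fun g : C(ℂ, ℝ) => g y
  meas_add : Measurable fun p : C(ℂ, ℝ) × C(ℂ, ℝ) => p.1 + p.2
  ν : ℕ → Measure C(ℂ, ℝ)
  P : ℕ → Kernel C(ℂ, ℝ) Ξ
  ν_prob : ∀ n, IsProbabilityMeasure (ν n)
  P_markov : ∀ n, IsMarkovKernel (P n)
  tower : ∀ n g (F : Ξ → ℝ≥0∞), Measurable F →
    ∫⁻ x, F x ∂P n g = ∫⁻ η, ∫⁻ x, F x ∂P (n + 1) (g + η) ∂ν n
  gauss : ∀ n (y : ℂ), (ν n).map (fun η => η y) = gaussianReal 0 (Real.log 2).toNNReal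
  lipexp : ∀ θ : ℝ, ∃ C : ℝ≥0, ∀ n y, ∫⁻ η, ex (ENNReal.ofReal θ * oo n y η) ∂ν n ≤ C
  G : Set ℂ → MeasurableSpace Ξ
  G_mono : ∀ A B, A ⊆ B → G A ≤ G B
  G_le : ∀ A, G A ≤ mΞ
  indep : ∀ n g (A B : Set ℂ), (∀ x ∈ A, ∀ y ∈ B, sc n / 2 ≤ ‖x - y‖) → Indep (G A) (G B) (P n g)
  pat : Ξ → Pat
  pts_fin : ∀ x, (pat x).pts.Finite
  hit_meas : ∀ n v, MeasurableSet[G (reg n v 1)] {x | ((pat x).pts ∩ box n v).Nonempty}
  cnt_meas : ∀ (y : ℂ) (r : ℝ), Measurable fun x => ((pat x).pts ∩ osq y r).ncard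
  blk_meas : ∀ n v, MeasurableSet[G (ann n v)] {x | (pat x).B n v}
  one : ∃ C : ℝ≥0, ∀ n y g,
    ∫⁻ x, (((pat x).pts ∩ osq y (6 * sc n)).ncard : ℝ≥0∞) ∂P n g ≤ C * wt Q γ θ0 n y g
  two : ∃ C : ℝ≥0, ∀ n y g,
    P n g {x | 2 ≤ ((pat x).pts ∩ osq y (6 * sc n)).ncard} ≤ C * wt Q σ θ0 n y g
  W : Set ℂ
  soft : ∀ (ε : ℝ≥0∞) (L : ℝ≥0), 0 < ε → ∃ T : ℝ, ∀ n v g, reg n v 5 ⊆ W →
    oo n (ctr n v) g ≤ L → T ≤ cc Q n (ctr n v) g → P n g {x | ¬ (pat x).B n v} ≤ ε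

namespace Casc

variable {Ξ : Type} [MeasurableSpace Ξ] [MeasurableSpace C(ℂ, ℝ)] (K : Casc Ξ)

instance (n : ℕ) : IsProbabilityMeasure (K.ν n) := K.ν_prob n
instance (n : ℕ) : IsMarkovKernel (K.P n) := K.P_markov n

/-- law of the sum of the `m` layers `n, ..., n + m - 1` -/
def lay (n : ℕ) : ℕ → Measure C(ℂ, ℝ)
  | 0 => Measure.dirac 0
  | m + 1 => ((lay n m).prod (K.ν (n + m))).map fun p => p.1 + p.2

/-- the universal slope exponent -/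
def θ : ℝ := K.θ0 + 400 * (K.σ + 1)

/-- `z(s) = s Q - s^2/2` -/
def z (s : ℝ) : ℝ := s * K.Q - s ^ 2 / 2

/-- weight of a box -/
def w (s t : ℝ) (n : ℕ) (v : ℤ × ℤ) (g : C(ℂ, ℝ)) : ℝ≥0∞ := wt K.Q s t n (ctr n v) g

/-- the window contains everything the estimates for a ball centre `y` at level `n` look at -/
def Win (n : ℕ) (y : ℂ) : Prop := Metric.ball y (48 * sc n) ⊆ K.W

/-- the step `d` is large enough -/
def Good (d : ℕ) : Prop :=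
  7 ≤ d ∧ ∀ n (y y' : ℂ) g, Sub n y (n + d) y' →
    10 ^ 5 * 4 ^ d * ∫⁻ η, wt K.Q K.σ K.θ (n + d) y' (g + η) ∂K.lay n d ≤ wt K.Q K.σ K.θ n y g

/-- a family of events is soft: unlikely for bounded slope and large height -/
def Soft (E : ℕ → ℤ × ℤ → Set Ξ) : Prop :=
  ∀ (ε : ℝ≥0∞) (L : ℝ≥0), 0 < ε → ∃ T : ℝ, ∀ n v g, K.Win n (ctr n v) →
    oo n (ctr n v) g ≤ L → T ≤ cc K.Q n (ctr n v) g → K.P n g (E n v) ≤ ε

/-- non-constant tuples in `11 S` -/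
def MomA (d r : ℕ) : Prop :=
  ∃ C : ℝ≥0, ∀ k n v g, K.Win n (ctr n v) →
    ∫⁻ x, ((ws d (K.pat x) 5 k n v ^ r - ws d (K.pat x) 5 k n v : ℕ) : ℝ≥0∞) ∂K.P n g ≤
      C * K.w K.σ K.θ n v g

/-- moments of the killed count -/
def MomB (d r : ℕ) : Prop :=
  ∃ C : ℝ≥0, ∀ k n v g, K.Win n (ctr n v) →
    ∫⁻ x, ((u d (K.pat x) k n v ^ r : ℕ) : ℝ≥0∞) ∂K.P n g ≤ C * K.w K.γ K.θ n v g ∧
    ∫⁻ x, ((u d (K.pat x) k n v ^ r : ℕ) : ℝ≥0∞) ∂K.P n g ≤ C * K.w 0 K.θ n v g ∧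
    ∫⁻ x, ((u d (K.pat x) k n v ^ r : ℕ) : ℝ≥0∞) ∂K.P n g ≤
      C * K.w (-1) K.θ n v g + 2⁻¹ ^ k * K.w 0 K.θ n v g

end Casc

end

end Pool.Agent.Lib.MP_0d9445_pr.CR
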