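import Pool.Agent.Lib.MP_0d9445_pr.CR.Defs

/-! The unfolding lemma of `u` is made here once, so that later modules share it. -/

namespace Pool.Agent.Lib.MP_0d9445_pr.CR

theorem eqfix2 : True := by
  have _h := @u.eq_def
  trivial

end Pool.Agent.Lib.MP_0d9445_pr.CR
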