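import Pool.Agent.Lib.MP_0d9445_pr.CR.Geo
import Pool.Agent.Lib.MP_0d9445_pr.CR.EqFixU

/-! Locality and measurability of the dominating variables. -/

open MeasureTheory ProbabilityTheory Set Filter Topology
open scoped ENNReal NNReal

namespace Pool.Agent.Lib.MP_0d9445_pr.CR

theorem meas_tsum {α : Type*} {m : MeasurableSpace α} {f : ℕ → α → ℝ≥0∞}
    (h : ∀ i, Measurable (f i)) : Measurable fun x => ∑' i, f i x := Measurable.tsum h

namespace Casc

variable {Ξ : Type} [MeasurableSpace Ξ] [MeasurableSpace C(ℂ, ℝ)] (K : Casc Ξ)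

variable {d : ℕ}

omit [MeasurableSpace Ξ] [MeasurableSpace C(ℂ, ℝ)] in
theorem meas_kids_same {n m : ℕ} {v w : ℤ × ℤ} (hw : w ∈ kids m v) {r : ℝ} (hr : 1 / 2 ≤ r) :
    reg (n + m) w r ⊆ reg n v r := by
  refine reg_kids_subset hw ?_
  have h : (2 : ℝ)⁻¹ ^ m ≤ 1 := pow_le_one₀ (by norm_num) (by norm_num)
  nlinarith

omit [MeasurableSpace Ξ] [MeasurableSpace C(ℂ, ℝ)] in
theorem meas_ann_kids (hd : 7 ≤ d) {n : ℕ} {v w : ℤ × ℤ} (hw : w ∈ kids d v) :
    ann (n + d) w ⊆ reg n v 1 := by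
  refine (ann_subset _ _).trans (reg_kids_subset hw ?_)
  have h : (2 : ℝ)⁻¹ ^ d ≤ (2 : ℝ)⁻¹ ^ 7 := pow_le_pow_of_le_one (by norm_num) (by norm_num) hd
  norm_num at h ⊢
  linarith

theorem u_loc (hd : 7 ≤ d) (k n : ℕ) (v : ℤ × ℤ) :
    Measurable[K.G (reg n v 1)] fun x => u d (K.pat x) k n v := by
  induction k generalizing n v with
  | zero =>
    simp only [u]
    exact Measurable.ite (K.hit_meas n v) measurable_const measurable_const
  | succ k ih =>
    simp only [u]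
    refine Finset.measurable_fun_sum _ fun w hw => ?_
    exact Measurable.ite (K.G_mono _ _ (meas_ann_kids hd hw) _ (K.blk_meas (n + d) w))
      measurable_const
      ((ih (n + d) w).mono (K.G_mono _ _ (meas_kids_same hw (by norm_num))) le_rfl)

theorem chain_loc (hd : 7 ≤ d) (k n : ℕ) (v : ℤ × ℤ) :
    MeasurableSet[K.G (reg n v 1)] {x | chain d (K.pat x) k n v} := by
  induction k generalizing n v with
  | zero =>
    simp only [chain, ofPred_true]
    exact MeasurableSet.univ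
  | succ k ih =>
    have e : {x | chain d (K.pat x) (k + 1) n v} = ⋃ w ∈ kids d v,
        {x | (K.pat x).B (n + d) w}ᶜ ∩ {x | chain d (K.pat x) k (n + d) w} := by
      ext x
      simp only [chain, mem_ofPred_eq, mem_iUnion, mem_inter_iff, mem_compl_iff, exists_prop]
    rw [e]
    refine Finset.measurableSet_biUnion _ fun w hw => ?_
    exact (K.G_mono _ _ (meas_ann_kids hd hw) _ (K.blk_meas (n + d) w)).compl.inter
      (K.G_mono _ _ (meas_kids_same hw (by norm_num)) _ (ih (n + d) w))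

theorem Ex_loc (hd : 7 ≤ d) (n : ℕ) (v : ℤ × ℤ) :
    MeasurableSet[K.G (reg n v 1)] {x | Ex d (K.pat x) n v} := by
  have e : {x | Ex d (K.pat x) n v} = ⋂ k, {x | chain d (K.pat x) k n v} := by
    ext x
    simp [Ex]
  rw [e]
  exact MeasurableSet.iInter fun k => K.chain_loc hd k n v

theorem Loc_loc (hd : 7 ≤ d) (n : ℕ) (v : ℤ × ℤ) :
    MeasurableSet[K.G (reg n v (3 / 2))] {x | Loc d (K.pat x) n v} := by
  have e : {x | Loc d (K.pat x) n v} = ⋂ w ∈ cov d v, {x | Ex d (K.pat x) (n + d) w}ᶜ := by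
    ext x
    simp [Loc]
  rw [e]
  refine Finset.measurableSet_biInter _ fun w hw => ?_
  exact (K.G_mono _ _ ((reg_subset_ball _ _ (by norm_num)).trans (reg_cov_subset hd hw)) _
    (K.Ex_loc hd (n + d) w)).compl

theorem ws_loc (hd : 7 ≤ d) (R k n : ℕ) (v : ℤ × ℤ) :
    Measurable[K.G (reg n v (1 + R))] fun x => ws d (K.pat x) R k n v := by
  simp only [ws]
  exact Finset.measurable_fun_sum _ fun w hw =>
    (K.u_loc hd k n w).mono (K.G_mono _ _ (reg_nbh_subset hw 1)) le_rfl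

theorem TT_loc (hd : 7 ≤ d) (n : ℕ) (v : ℤ × ℤ) :
    Measurable[K.G (reg n v 6)] fun x => TT d (K.pat x) n v := by
  simp only [TT]
  refine Measurable.liminf fun k => ?_
  have h := (K.ws_loc hd 5 k n v).mono (K.G_mono _ _ (reg_mono n v (r' := 6) (by norm_num))) le_rfl
  exact (measurable_from_nat (f := fun m : ℕ => ((m * (m - 1) : ℕ) : ℝ≥0∞))).comp h

theorem ZZ_loc (hd : 7 ≤ d) (n : ℕ) (v : ℤ × ℤ) :
    Measurable[K.G (reg n v 21)] fun x => ZZ d (K.pat x) n v := by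
  simp only [ZZ]
  refine Measurable.liminf fun k => ?_
  have h := (K.ws_loc hd 20 k n v).mono (K.G_mono _ _ (reg_mono n v (r' := 21) (by norm_num)))
    le_rfl
  exact (measurable_from_nat (f := fun m : ℕ => ((m ^ 2 : ℕ) : ℝ≥0∞))).comp h

theorem KK_loc (hd : 7 ≤ d) (n : ℕ) (v : ℤ × ℤ) :
    Measurable[K.G (reg n v 21)] fun x => KK d (K.pat x) n v := by
  simp only [KK]
  refine meas_tsum fun i => Measurable.const_mul ?_ _
  exact Finset.measurable_fun_sum _ fun w hw =>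
    (K.ZZ_loc hd _ w).mono (K.G_mono _ _ (meas_kids_same hw (by norm_num))) le_rfl

theorem PiD_partial_loc (hd : 7 ≤ d) (n N : ℕ) (v : ℤ × ℤ) :
    Measurable[K.G (reg n v 6)] fun x =>
      ∑ i ∈ Finset.range N, ∑ w ∈ kids (i * d) v, TT d (K.pat x) (n + i * d) w :=
  Finset.measurable_fun_sum _ fun _ _ => Finset.measurable_fun_sum _ fun w hw =>
    (K.TT_loc hd _ w).mono (K.G_mono _ _ (meas_kids_same hw (by norm_num))) le_rfl

theorem PiD_loc (hd : 7 ≤ d) (n : ℕ) (v : ℤ × ℤ) :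
    Measurable[K.G (reg n v 6)] fun x => PiD d (K.pat x) n v := by
  simp only [PiD]
  exact meas_tsum fun i => Finset.measurable_fun_sum _ fun w hw =>
    (K.TT_loc hd _ w).mono (K.G_mono _ _ (meas_kids_same hw (by norm_num))) le_rfl

theorem blk_meas' (n : ℕ) (v : ℤ × ℤ) : MeasurableSet {x | (K.pat x).B n v} :=
  K.G_le _ _ (K.blk_meas n v)

theorem u_meas (hd : 7 ≤ d) (k n : ℕ) (v : ℤ × ℤ) :
    Measurable fun x => u d (K.pat x) k n v := (K.u_loc hd k n v).mono (K.G_le _) le_rfl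

theorem Ex_meas (hd : 7 ≤ d) (n : ℕ) (v : ℤ × ℤ) : MeasurableSet {x | Ex d (K.pat x) n v} :=
  K.G_le _ _ (K.Ex_loc hd n v)

theorem Loc_meas (hd : 7 ≤ d) (n : ℕ) (v : ℤ × ℤ) : MeasurableSet {x | Loc d (K.pat x) n v} :=
  K.G_le _ _ (K.Loc_loc hd n v)

theorem ws_meas (hd : 7 ≤ d) (R k n : ℕ) (v : ℤ × ℤ) :
    Measurable fun x => ws d (K.pat x) R k n v := (K.ws_loc hd R k n v).mono (K.G_le _) le_rfl

theorem TT_meas (hd : 7 ≤ d) (n : ℕ) (v : ℤ × ℤ) : Measurable fun x => TT d (K.pat x) n v :=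
  (K.TT_loc hd n v).mono (K.G_le _) le_rfl

theorem ZZ_meas (hd : 7 ≤ d) (n : ℕ) (v : ℤ × ℤ) : Measurable fun x => ZZ d (K.pat x) n v :=
  (K.ZZ_loc hd n v).mono (K.G_le _) le_rfl

theorem sig_meas (hd : 7 ≤ d) (n N : ℕ) (z : ℂ) : Measurable fun x => sig d (K.pat x) n N z :=
  Finset.measurable_fun_sum _ fun _ _ => K.ZZ_meas hd _ _

theorem KK_meas (hd : 7 ≤ d) (n : ℕ) (v : ℤ × ℤ) : Measurable fun x => KK d (K.pat x) n v :=
  (K.KK_loc hd n v).mono (K.G_le _) le_rfl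

theorem PiD_meas (hd : 7 ≤ d) (n : ℕ) (v : ℤ × ℤ) : Measurable fun x => PiD d (K.pat x) n v :=
  (K.PiD_loc hd n v).mono (K.G_le _) le_rfl

theorem Xd_meas (hd : 7 ≤ d) (n : ℕ) (v : ℤ × ℤ) : Measurable fun x => Xd d (K.pat x) n v :=
  Finset.measurable_fun_sum _ fun _ _ => K.KK_meas hd _ _

theorem Pd_meas (hd : 7 ≤ d) (n : ℕ) (v : ℤ × ℤ) : Measurable fun x => Pd d (K.pat x) n v :=
  Finset.measurable_fun_sum _ fun _ _ => K.PiD_meas hd _ _

/-- product formula for two separated regions -/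
theorem lintegral_mul_far {n : ℕ} (g : C(ℂ, ℝ)) {A B : Set ℂ}
    (h : ∀ x ∈ A, ∀ y ∈ B, sc n / 2 ≤ ‖x - y‖) {F F' : Ξ → ℝ≥0∞} (hF : Measurable[K.G A] F)
    (hF' : Measurable[K.G B] F') :
    ∫⁻ x, F x * F' x ∂K.P n g = (∫⁻ x, F x ∂K.P n g) * ∫⁻ x, F' x ∂K.P n g :=
  lintegral_mul_eq_lintegral_mul_lintegral_of_independent_measurableSpace (K.G_le A) (K.G_le B)
    (K.indep n g A B h) hF hF'

end Casc

end Pool.Agent.Lib.MP_0d9445_pr.CR
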