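import Pool.Agent.Lib.MP_0d9445_pr.CR.Lay

/-! Soft events. -/

open MeasureTheory ProbabilityTheory Set Filter Topology
open scoped ENNReal NNReal

namespace Pool.Agent.Lib.MP_0d9445_pr.CR

theorem soft_small {A ε : ℝ≥0∞} (hA : A ≠ ∞) (hε : 0 < ε) :
    ∃ T : ℝ≥0, ∀ c : ℝ, T ≤ c → A * ENNReal.ofReal (Real.exp (-c)) ≤ ε := by
  have h1 : Tendsto (fun c : ℝ => ENNReal.ofReal (Real.exp (-c))) atTop (𝓝 0) := by
    simpa using ENNReal.tendsto_ofReal Real.tendsto_exp_neg_atTop_nhds_zero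
  have h2 := ENNReal.Tendsto.const_mul (a := A) h1 (Or.inr hA)
  rw [mul_zero] at h2
  obtain ⟨T, hT⟩ := eventually_atTop.1 (ENNReal.tendsto_nhds_zero.1 h2 ε hε)
  exact ⟨T.toNNReal, fun c hc => hT c ((Real.le_coe_toNNReal T).trans hc)⟩

theorem soft_exp_split (c b : ℝ) : ENNReal.ofReal (Real.exp (-1 * c + b)) =
    ENNReal.ofReal (Real.exp b) * ENNReal.ofReal (Real.exp (-c)) := by
  rw [← ENNReal.ofReal_mul (Real.exp_pos b).le, ← Real.exp_add]
  congr 2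
  ring

theorem soft_exp_split' (a b : ℝ) : ENNReal.ofReal (Real.exp (a + b)) =
    ENNReal.ofReal (Real.exp a) * ENNReal.ofReal (Real.exp b) := by
  rw [← ENNReal.ofReal_mul (Real.exp_pos a).le, ← Real.exp_add]

theorem soft_one_le {Q T : ℝ} (t : ℝ) {n : ℕ} {y : ℂ} {g : C(ℂ, ℝ)} (h : cc Q n y g ≤ T) :
    1 ≤ ENNReal.ofReal (Real.exp T) * wt Q (-1) t n y g := by
  rw [wt, ← mul_assoc, ← soft_exp_split']
  refine one_le_mul ?_ (one_le_ex _)
  rw [ENNReal.one_le_ofReal]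
  exact Real.one_le_exp (by linarith)

namespace Casc

variable {Ξ : Type} [MeasurableSpace Ξ] [MeasurableSpace C(ℂ, ℝ)] (K : Casc Ξ)

variable {K}

theorem Soft.mono {E E' : ℕ → ℤ × ℤ → Set Ξ} (h : K.Soft E') (hE : ∀ n v, E n v ⊆ E' n v) :
    K.Soft E := fun ε L hε => by
  obtain ⟨T, hT⟩ := h ε L hε
  exact ⟨T, fun n v g hW ho hc => (measure_mono (hE n v)).trans (hT n v g hW ho hc)⟩

theorem Soft.union {E E' : ℕ → ℤ × ℤ → Set Ξ} (h : K.Soft E) (h' : K.Soft E') :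
    K.Soft fun n v => E n v ∪ E' n v := fun ε L hε => by
  obtain ⟨T, hT⟩ := h (ε / 2) L (ENNReal.half_pos hε.ne')
  obtain ⟨T', hT'⟩ := h' (ε / 2) L (ENNReal.half_pos hε.ne')
  refine ⟨max T T', fun n v g hW ho hc => (measure_union_le _ _).trans ?_⟩
  rw [← ENNReal.add_halves ε]
  exact add_le_add (hT n v g hW ho ((le_max_left _ _).trans hc))
    (hT' n v g hW ho ((le_max_right _ _).trans hc))

theorem Soft.biUnion {ι : Type*} (I : Finset ι) {E : ι → ℕ → ℤ × ℤ → Set Ξ}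
    (h : ∀ i ∈ I, K.Soft (E i)) : K.Soft fun n v => ⋃ i ∈ I, E i n v := by
  classical
  induction I using Finset.induction_on with
  | empty => exact fun ε L _ => ⟨0, fun n v g _ _ _ => by simp⟩
  | insert a I _ ih =>
    refine ((h a (Finset.mem_insert_self a I)).union
      (ih fun i hi => h i (Finset.mem_insert_of_mem hi))).mono fun n v => ?_
    rw [Finset.set_biUnion_insert]

/-- a soft event seen from `m` levels above, at any point whose window contains its window -/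
theorem Soft.lift {E : ℕ → ℤ × ℤ → Set Ξ} (h : K.Soft E) (hm : ∀ n v, MeasurableSet (E n v))
    (m : ℕ) (ε : ℝ≥0∞) (L : ℝ≥0) (hε : 0 < ε) : ∃ T : ℝ, ∀ n y g w,
      K.Win (n + m) (ctr (n + m) w) → Sub n y (n + m) (ctr (n + m) w) → oo n y g ≤ L →
      T ≤ cc K.Q n y g → K.P n g (E (n + m) w) ≤ ε := by
  have h2 := ENNReal.half_pos hε.ne'
  have h4 := ENNReal.half_pos h2.ne'
  obtain ⟨C₀, H₀⟩ := K.down' 0 (t := 1) (by simp)
  obtain ⟨C₁, H₁⟩ := K.down' (-1) (t := 96) (by simp)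
  obtain ⟨L', hL'⟩ := soft_small (A := C₀ * ENNReal.ofReal ((2 : ℝ) ^ (-(m * K.z 0))) *
    ENNReal.ofReal (Real.exp L)) (by finiteness) h4
  obtain ⟨T', hT'⟩ := h (ε / 2) L' h2
  obtain ⟨T, hT⟩ := soft_small (A := ENNReal.ofReal (Real.exp T') *
    (C₁ * ENNReal.ofReal ((2 : ℝ) ^ (-(m * K.z (-1)))) * ENNReal.ofReal (Real.exp (96 * L))))
    (by finiteness) h4
  refine ⟨T, fun n y g w hW hs ho hc => ?_⟩
  have hp : ∀ g' : C(ℂ, ℝ), K.P (n + m) g' (E (n + m) w) ≤ ε / 2 +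
      (ENNReal.ofReal (Real.exp (-(L' : ℝ))) * wt K.Q 0 1 (n + m) (ctr (n + m) w) g' +
        ENNReal.ofReal (Real.exp T') * wt K.Q (-1) 96 (n + m) (ctr (n + m) w) g') := fun g' => by
    rcases le_total (oo (n + m) (ctr (n + m) w) g') L' with a | a
    · rcases le_total T' (cc K.Q (n + m) (ctr (n + m) w) g') with b | b
      · exact (hT' _ _ _ hW a b).trans le_self_add
      · exact prob_le_one.trans ((soft_one_le 96 b).trans (le_add_self.trans le_add_self))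
    · refine prob_le_one.trans ((one_le_exp_neg_mul_ex a).trans (le_trans ?_ le_add_self))
      rw [wt_zero, ENNReal.ofReal_one, one_mul]
      exact le_self_add
  have hm₀ : Measurable fun η : C(ℂ, ℝ) => ENNReal.ofReal (Real.exp (-(L' : ℝ))) *
      wt K.Q 0 1 (n + m) (ctr (n + m) w) (g + η) :=
    ((K.measurable_wt 0 1 _ _).comp (K.measurable_add_left g)).const_mul _
  rw [K.tower_set n m g (hm _ _)]
  refine (lintegral_mono fun η => hp (g + η)).trans ?_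
  rw [lintegral_add_left measurable_const, lintegral_add_left hm₀, lintegral_const, measure_univ,
    mul_one, lintegral_const_mul' _ _ ENNReal.ofReal_ne_top,
    lintegral_const_mul' _ _ ENNReal.ofReal_ne_top]
  have a₀ := wt_le_of_oo_le K.Q 0 (t := 1) zero_le_one ho
  have a₁ := wt_le_of_oo_le K.Q (-1) (t := 96) (by norm_num) ho
  rw [zero_mul, zero_add, one_mul] at a₀
  rw [soft_exp_split] at a₁
  have b₀ := (mul_comm _ _).trans_le (hL' L' le_rfl)
  have b₁ := hT _ hc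
  rw [mul_assoc, mul_assoc] at b₁
  calc _ ≤ ε / 2 + (ε / 2 / 2 + ε / 2 / 2) := by
        refine add_le_add le_rfl (add_le_add (le_trans ?_ b₀) (le_trans ?_ b₁))
        · exact mul_le_mul' le_rfl ((H₀ n m y _ g hs).trans (mul_le_mul' le_rfl a₀))
        · exact mul_le_mul' le_rfl ((H₁ n m y _ g hs).trans (mul_le_mul' le_rfl a₁))
    _ = ε := by rw [ENNReal.add_halves, ENNReal.add_halves]

theorem Soft.lift_union {E : ℕ → ℤ × ℤ → Set Ξ} (h : K.Soft E)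
    (hm : ∀ n v, MeasurableSet (E n v)) (m N : ℕ) (I : ℤ × ℤ → Finset (ℤ × ℤ))
    (hI : ∀ v, (I v).card ≤ N)
    (hs : ∀ n v, ∀ w ∈ I v, Sub n (ctr n v) (n + m) (ctr (n + m) w)) :
    K.Soft fun n v => ⋃ w ∈ I v, E (n + m) w := fun ε L hε => by
  obtain ⟨T, hT⟩ := h.lift hm m (ε / N) L (ENNReal.div_pos hε.ne' (ENNReal.natCast_ne_top N))
  refine ⟨T, fun n v g hW ho hc => (measure_biUnion_finset_le _ _).trans ?_⟩
  refine (Finset.sum_le_card_nsmul _ _ (ε / N) fun w hw =>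
    hT n _ g w (hW.sub (hs n v w hw)) (hs n v w hw) ho hc).trans ?_
  rw [nsmul_eq_mul]
  exact (mul_le_mul' (Nat.cast_le.2 (hI v)) le_rfl).trans ENNReal.mul_div_le

theorem Soft.kids {E : ℕ → ℤ × ℤ → Set Ξ} (h : K.Soft E) (hm : ∀ n v, MeasurableSet (E n v))
    (m : ℕ) : K.Soft fun n v => ⋃ w ∈ kids m v, E (n + m) w :=
  h.lift_union hm m (4 ^ m) (CR.kids m) (fun v => (card_kids m v).le) fun _ _ _ hw => sub_kids hw

theorem Soft.nbh_kids {E : ℕ → ℤ × ℤ → Set Ξ} (h : K.Soft E)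
    (hm : ∀ n v, MeasurableSet (E n v)) {m R : ℕ} (h4 : 4 ≤ m) (hR : R ≤ 25) :
    K.Soft fun n v => ⋃ w ∈ (nbh R v).biUnion (CR.kids m), E (n + m) w :=
  h.lift_union hm m ((2 * R + 1) ^ 2 * 4 ^ m) (fun v => (nbh R v).biUnion (CR.kids m))
    (fun v => card_nbh R v ▸ Finset.card_biUnion_le_card_mul _ _ _ fun q _ => (card_kids m q).le)
    fun _ _ _ hw => sub_nbh_kids h4 hR hw

/-- a bound by `C exp (-c + t o)` makes an event soft -/
theorem soft_of_le {E : ℕ → ℤ × ℤ → Set Ξ} {C : ℝ≥0} {t : ℝ} (ht : 0 ≤ t)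
    (h : ∀ n v g, K.Win n (ctr n v) → K.P n g (E n v) ≤ C * K.w (-1) t n v g) : K.Soft E :=
  fun ε L hε => by
  obtain ⟨T, hT⟩ := soft_small (A := C * ENNReal.ofReal (Real.exp (t * L))) (by finiteness) hε
  refine ⟨T, fun n v g hW ho hc => (h n v g hW).trans (le_trans ?_ (hT _ hc))⟩
  rw [mul_assoc, ← soft_exp_split]
  exact mul_le_mul' le_rfl (wt_le_of_oo_le K.Q (-1) ht ho)

/-- soft up to every small error is soft -/
theorem soft_of_approx {E : ℕ → ℤ × ℤ → Set Ξ}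
    (h : ∀ (ε : ℝ≥0∞) (L : ℝ≥0), 0 < ε → ∃ E₁ E₂ : ℕ → ℤ × ℤ → Set Ξ, K.Soft E₁ ∧
      (∀ n v, E n v ⊆ E₁ n v ∪ E₂ n v) ∧
      ∀ n v g, K.Win n (ctr n v) → oo n (ctr n v) g ≤ L → K.P n g (E₂ n v) ≤ ε) : K.Soft E :=
  fun ε L hε => by
  obtain ⟨E₁, E₂, h₁, hE, h₂⟩ := h (ε / 2) L (ENNReal.half_pos hε.ne')
  obtain ⟨T, hT⟩ := h₁ (ε / 2) L (ENNReal.half_pos hε.ne')
  refine ⟨T, fun n v g hW ho hc => (measure_mono (hE n v)).trans ((measure_union_le _ _).trans ?_)⟩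
  rw [← ENNReal.add_halves ε]
  exact add_le_add (hT n v g hW ho hc) (h₂ n v g hW ho)

variable (K)

theorem soft_blk : K.Soft fun n v => {x | ¬ (K.pat x).B n v} := fun ε L hε => by
  obtain ⟨T, hT⟩ := K.soft ε L hε
  exact ⟨T, fun n v g hW ho hc => hT n v g hW.reg ho hc⟩

/-- a soft event along `g + c`, `c → ∞` -/
theorem Soft.tendsto {K : Casc Ξ} {E : ℕ → ℤ × ℤ → Set Ξ} (h : K.Soft E) {n : ℕ} {v : ℤ × ℤ}
    (hW : K.Win n (ctr n v)) {g : C(ℂ, ℝ)} (hg : oo n (ctr n v) g ≠ ∞) :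
    Tendsto (fun c : ℝ => K.P n (g + ContinuousMap.const ℂ c) (E n v)) atTop (𝓝 0) := by
  refine ENNReal.tendsto_nhds_zero.2 fun ε hε => ?_
  obtain ⟨T, hT⟩ := h ε (oo n (ctr n v) g).toNNReal hε
  filter_upwards [eventually_ge_atTop (T - cc K.Q n (ctr n v) g)] with c hc
  refine hT n v _ hW ?_ ?_
  · rw [ENNReal.coe_toNNReal hg, oo, oo, lip_add_const]
  · simp only [cc, ContinuousMap.add_apply, ContinuousMap.const_apply] at hc ⊢
    linarith

end Casc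

end Pool.Agent.Lib.MP_0d9445_pr.CR
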