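import Mathlib

/-! Concentration of a sum with few dependent pairs. -/

open MeasureTheory ProbabilityTheory Set Filter Topology
open scoped ENNReal NNReal

namespace Pool.Agent.Lib.MP_0d9445_pr.CR

lemma Conc_two_mul (a b : ℝ≥0∞) : 2 * (a * b) ≤ a ^ 2 + b ^ 2 := by
  rcases eq_or_ne a ∞ with rfl | ha
  · simp
  rcases eq_or_ne b ∞ with rfl | hb
  · simp
  lift a to ℝ≥0 using ha
  lift b to ℝ≥0 using hb
  have h : 2 * (a * b) ≤ a ^ 2 + b ^ 2 := by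
    have : 2 * ((a : ℝ) * b) ≤ (a : ℝ) ^ 2 + (b : ℝ) ^ 2 := by nlinarith [sq_nonneg ((a : ℝ) - b)]
    exact_mod_cast this
  exact_mod_cast h

lemma Conc_near {ι : Type*} [DecidableEq ι] (I : Finset ι) (near : ι → Finset ι) {N : ℕ}
    (hN : ∀ i ∈ I, (near i).card ≤ N) (hsymm : ∀ i ∈ I, ∀ j ∈ I, j ∈ near i → i ∈ near j)
    (a : ι → ℝ≥0∞) :
    ∑ i ∈ I, ∑ j ∈ I.filter (fun j => j ∈ near i), a i * a j ≤ N * ∑ i ∈ I, a i ^ 2 := by
  have hc : ∀ i ∈ I, ((I.filter (fun j => j ∈ near i)).card : ℝ≥0∞) ≤ N := fun i hi => by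
    exact_mod_cast (Finset.card_le_card fun j hj => (Finset.mem_filter.1 hj).2).trans (hN i hi)
  have h1 : ∑ i ∈ I, ∑ j ∈ I.filter (fun j => j ∈ near i), a i ^ 2 ≤ N * ∑ i ∈ I, a i ^ 2 := by
    rw [Finset.mul_sum]
    refine Finset.sum_le_sum fun i hi => ?_
    rw [Finset.sum_const, nsmul_eq_mul]
    exact mul_le_mul' (hc i hi) le_rfl
  have h2 : ∑ i ∈ I, ∑ j ∈ I.filter (fun j => j ∈ near i), a j ^ 2 =
      ∑ i ∈ I, ∑ j ∈ I.filter (fun j => j ∈ near i), a i ^ 2 := by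
    refine Finset.sum_comm' fun i j => ?_
    simp only [Finset.mem_filter]
    exact ⟨fun h => ⟨⟨h.1, hsymm i h.1 j h.2.1 h.2.2⟩, h.2.1⟩,
      fun h => ⟨h.1.1, h.2, hsymm j h.2 i h.1.1 h.1.2⟩⟩
  have h3 : 2 * ∑ i ∈ I, ∑ j ∈ I.filter (fun j => j ∈ near i), a i * a j ≤
      2 * (N * ∑ i ∈ I, a i ^ 2) := by
    calc 2 * ∑ i ∈ I, ∑ j ∈ I.filter (fun j => j ∈ near i), a i * a j
        = ∑ i ∈ I, ∑ j ∈ I.filter (fun j => j ∈ near i), 2 * (a i * a j) := by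
          simp only [Finset.mul_sum]
      _ ≤ ∑ i ∈ I, ∑ j ∈ I.filter (fun j => j ∈ near i), (a i ^ 2 + a j ^ 2) :=
          Finset.sum_le_sum fun i _ => Finset.sum_le_sum fun j _ => Conc_two_mul _ _
      _ ≤ 2 * (N * ∑ i ∈ I, a i ^ 2) := by
          simp only [Finset.sum_add_distrib]
          rw [h2, two_mul]
          exact add_le_add h1 h1
  exact (ENNReal.mul_le_mul_iff_right two_ne_zero ENNReal.ofNat_ne_top).1 h3

lemma Conc_sq_le {ι : Type*} [DecidableEq ι] (I : Finset ι) (near : ι → Finset ι) {N : ℕ}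
    (hN : ∀ i ∈ I, (near i).card ≤ N) (hsymm : ∀ i ∈ I, ∀ j ∈ I, j ∈ near i → i ∈ near j)
    (a : ι → ℝ≥0∞) :
    (∑ i ∈ I, a i) ^ 2 ≤ N * ∑ i ∈ I, a i ^ 2 +
      ∑ i ∈ I, ∑ j ∈ I.filter (fun j => j ∉ near i), a i * a j := by
  refine le_trans (le_of_eq ?_) (add_le_add (Conc_near I near hN hsymm a) le_rfl)
  rw [pow_two, Finset.sum_mul_sum, ← Finset.sum_add_distrib]
  exact Finset.sum_congr rfl fun i _ => (Finset.sum_filter_add_sum_filter_not _ _ _).symm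

lemma Conc_far {Ω ι : Type*} [MeasurableSpace Ω] [DecidableEq ι] (μ : Measure Ω)
    (I : Finset ι) (near : ι → Finset ι) {ξ : ι → Ω → ℝ≥0∞} (hm : ∀ i ∈ I, Measurable (ξ i))
    (hfar : ∀ i ∈ I, ∀ j ∈ I, j ∉ near i →
      ∫⁻ x, ξ i x * ξ j x ∂μ ≤ (∫⁻ x, ξ i x ∂μ) * ∫⁻ x, ξ j x ∂μ) :
    ∫⁻ x, ∑ i ∈ I, ∑ j ∈ I.filter (fun j => j ∉ near i), ξ i x * ξ j x ∂μ ≤
      (∑ i ∈ I, ∫⁻ x, ξ i x ∂μ) ^ 2 := by
  have hm' : ∀ i ∈ I, ∀ j ∈ I.filter (fun j => j ∉ near i), Measurable fun x => ξ i x * ξ j x :=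
    fun i hi j hj => (hm i hi).mul (hm j (Finset.mem_filter.1 hj).1)
  rw [lintegral_finsetSum _ fun i hi => Finset.measurable_sum _ (hm' i hi), pow_two,
    Finset.sum_mul_sum]
  refine Finset.sum_le_sum fun i hi => ?_
  rw [lintegral_finsetSum _ (hm' i hi)]
  refine le_trans (Finset.sum_le_sum fun j hj => hfar i hi j (Finset.mem_filter.1 hj).1
    (Finset.mem_filter.1 hj).2) (Finset.sum_le_sum_of_subset (Finset.filter_subset _ _))

lemma Conc_sub_sq (S M : ℝ≥0∞) : (S - M) ^ 2 + 2 * (S * M) ≤ S ^ 2 + M ^ 2 := by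
  rcases le_total S M with h | h
  · rw [tsub_eq_zero_of_le h]
    simpa using Conc_two_mul S M
  · have e := add_tsub_cancel_of_le h
    generalize S - M = u at e
    rw [← e]
    exact le_of_eq (by ring)

lemma Conc_jensen {Ω : Type*} [MeasurableSpace Ω] (μ : Measure Ω) [IsProbabilityMeasure μ]
    {f : Ω → ℝ≥0∞} (hf : Measurable f) {q : ℝ} (h0 : 0 ≤ q) (h1 : q ≤ 1) :
    ∫⁻ x, f x ^ q ∂μ ≤ (∫⁻ x, f x ∂μ) ^ q := by
  have h := ENNReal.lintegral_mul_norm_pow_le (μ := μ) (f := f) (g := fun _ => 1) hf.aemeasurable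
    aemeasurable_const h0 (sub_nonneg.2 h1) (add_sub_cancel q 1)
  simpa using h

lemma Conc_sum_rpow {ι : Type*} (I : Finset ι) (a : ι → ℝ≥0∞) {q : ℝ} (h0 : 0 < q) (h1 : q ≤ 1) :
    (∑ i ∈ I, a i) ^ q ≤ ∑ i ∈ I, a i ^ q := by
  classical
  induction I using Finset.induction_on with
  | empty => simp [h0]
  | insert i s hi ih =>
    rw [Finset.sum_insert hi, Finset.sum_insert hi]
    exact (ENNReal.rpow_add_le_add_rpow _ _ h0.le h1).trans (add_le_add le_rfl ih)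

lemma Conc_nat_rpow (N : ℕ) {q : ℝ} (h0 : 0 < q) (h1 : q ≤ 1) : (N : ℝ≥0∞) ^ q ≤ N := by
  rcases Nat.eq_zero_or_pos N with rfl | h
  · simp [h0]
  · have : (1 : ℝ≥0∞) ≤ N := by exact_mod_cast h
    simpa using ENNReal.rpow_le_rpow_of_exponent_le this h1

lemma Conc_step (a b : ℝ≥0∞) (n : ℕ) :
    (a + b) ^ (n + 1) ≤ b ^ (n + 1) + (n + 1 : ℕ) * (a * (a + b) ^ n) := by
  induction n with
  | zero => simp [add_comm]
  | succ n ih =>
    have h : b ^ (n + 1) ≤ (a + b) ^ (n + 1) := pow_le_pow_left' le_add_self _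
    calc (a + b) ^ (n + 1 + 1) = (a + b) * (a + b) ^ (n + 1) := by ring
      _ ≤ (a + b) * (b ^ (n + 1) + (n + 1 : ℕ) * (a * (a + b) ^ n)) := by gcongr
      _ = b ^ (n + 1 + 1) + (a * b ^ (n + 1) + (n + 1 : ℕ) * (a * (a + b) ^ (n + 1))) := by ring
      _ ≤ b ^ (n + 1 + 1) + (a * (a + b) ^ (n + 1) + (n + 1 : ℕ) * (a * (a + b) ^ (n + 1))) := by
          gcongr
      _ = _ := by push_cast; ring

lemma Conc_add_pow (a b : ℝ≥0∞) (n : ℕ) : (a + b) ^ n ≤ 2 ^ n * (a ^ n + b ^ n) := by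
  rcases le_total a b with h | h
  · calc (a + b) ^ n ≤ (2 * b) ^ n := by
          rw [two_mul]
          gcongr
      _ = 2 ^ n * b ^ n := mul_pow _ _ _
      _ ≤ _ := by gcongr; exact le_add_self
  · calc (a + b) ^ n ≤ (2 * a) ^ n := by
          rw [two_mul]
          gcongr
      _ = 2 ^ n * a ^ n := mul_pow _ _ _
      _ ≤ _ := by gcongr; exact le_self_add

/-- Chebyshev for a finite family in which every index has at most `N` near indices -/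
theorem conc {Ω ι : Type*} [MeasurableSpace Ω] [DecidableEq ι] (μ : Measure Ω)
    [IsProbabilityMeasure μ] (I : Finset ι) (near : ι → Finset ι) {N : ℕ}
    (hN : ∀ i ∈ I, (near i).card ≤ N) (hsymm : ∀ i ∈ I, ∀ j ∈ I, j ∈ near i → i ∈ near j)
    (hself : ∀ i ∈ I, i ∈ near i) {ξ : ι → Ω → ℝ≥0∞} (hm : ∀ i ∈ I, Measurable (ξ i))
    (hfar : ∀ i ∈ I, ∀ j ∈ I, j ∉ near i →
      ∫⁻ x, ξ i x * ξ j x ∂μ ≤ (∫⁻ x, ξ i x ∂μ) * ∫⁻ x, ξ j x ∂μ)
    {t : ℝ≥0∞} (ht : t ≠ 0) (ht' : t ≠ ∞) :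
    μ {x | ∑ i ∈ I, ∫⁻ y, ξ i y ∂μ + t < ∑ i ∈ I, ξ i x} ≤
      N * (∑ i ∈ I, ∫⁻ y, ξ i y ^ 2 ∂μ) / t ^ 2 := by
  have _ := hself
  set M := ∑ i ∈ I, ∫⁻ y, ξ i y ∂μ with hM
  rcases eq_or_ne M ∞ with h | h
  · simp [h]
  have hS : Measurable fun x => ∑ i ∈ I, ξ i x := Finset.measurable_sum _ hm
  have hq : Measurable fun x => ∑ i ∈ I, ξ i x ^ 2 :=
    Finset.measurable_sum _ fun i hi => (hm i hi).pow_const 2
  have hE : ∫⁻ x, ∑ i ∈ I, ξ i x ∂μ = M := lintegral_finsetSum _ hm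
  have h1 : ∫⁻ x, (∑ i ∈ I, ξ i x) ^ 2 ∂μ ≤ N * (∑ i ∈ I, ∫⁻ y, ξ i y ^ 2 ∂μ) + M ^ 2 := by
    refine (lintegral_mono fun x => Conc_sq_le I near hN hsymm fun i => ξ i x).trans ?_
    rw [lintegral_add_left (hq.const_mul _), lintegral_const_mul _ hq,
      lintegral_finsetSum _ fun i hi => (hm i hi).pow_const 2]
    exact add_le_add le_rfl (Conc_far μ I near hm hfar)
  have hd : Measurable fun x => (∑ i ∈ I, ξ i x - M) ^ 2 := (hS.sub_const M).pow_const 2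
  have h2 := lintegral_mono (μ := μ) fun x => Conc_sub_sq (∑ i ∈ I, ξ i x) M
  rw [lintegral_add_left hd, lintegral_const_mul _ (hS.mul_const M), lintegral_mul_const _ hS, hE,
    lintegral_add_right _ measurable_const, lintegral_const, measure_univ, mul_one] at h2
  have h3 : ∫⁻ x, (∑ i ∈ I, ξ i x - M) ^ 2 ∂μ ≤ N * ∑ i ∈ I, ∫⁻ y, ξ i y ^ 2 ∂μ := by
    have h4 : 2 * (M * M) ≠ ∞ := ENNReal.mul_ne_top ENNReal.ofNat_ne_top (ENNReal.mul_ne_top h h)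
    refine (ENNReal.add_le_add_iff_right h4).1 (h2.trans ((add_le_add h1 le_rfl).trans ?_))
    exact le_of_eq (by ring)
  have h5 : {x | M + t < ∑ i ∈ I, ξ i x} ⊆ {x | t ^ 2 ≤ (∑ i ∈ I, ξ i x - M) ^ 2} := by
    intro x hx
    exact pow_le_pow_left' (ENNReal.le_sub_of_add_le_left h (le_of_lt hx)) 2
  refine (measure_mono h5).trans ((meas_ge_le_lintegral_div hd.aemeasurable (pow_ne_zero 2 ht)
    (ENNReal.pow_ne_top ht')).trans ?_)
  gcongr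

/-- near and far pairs for a power between 1 and 2 -/
theorem lintegral_sum_rpow_le {Ω ι : Type*} [MeasurableSpace Ω] [DecidableEq ι] (μ : Measure Ω)
    [IsProbabilityMeasure μ] (I : Finset ι) (near : ι → Finset ι) {N : ℕ}
    (hN : ∀ i ∈ I, (near i).card ≤ N) (hsymm : ∀ i ∈ I, ∀ j ∈ I, j ∈ near i → i ∈ near j)
    {ξ : ι → Ω → ℝ≥0∞} (hm : ∀ i ∈ I, Measurable (ξ i))
    (hfar : ∀ i ∈ I, ∀ j ∈ I, j ∉ near i →
      ∫⁻ x, ξ i x * ξ j x ∂μ ≤ (∫⁻ x, ξ i x ∂μ) * ∫⁻ x, ξ j x ∂μ)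
    {p : ℝ} (h1 : 1 ≤ p) (h2 : p ≤ 2) :
    ∫⁻ x, (∑ i ∈ I, ξ i x) ^ p ∂μ ≤
      N * ∑ i ∈ I, ∫⁻ x, ξ i x ^ p ∂μ + I.card * ∑ i ∈ I, (∫⁻ x, ξ i x ∂μ) ^ p := by
  have q0 : 0 < p / 2 := by linarith
  have q1 : p / 2 ≤ 1 := by linarith
  have e : ∀ a : ℝ≥0∞, (a ^ 2) ^ (p / 2) = a ^ p := fun a => by
    rw [← ENNReal.rpow_natCast, ← ENNReal.rpow_mul]
    congr 1
    push_cast
    ring
  have hF : Measurable fun x => ∑ i ∈ I, ∑ j ∈ I.filter (fun j => j ∉ near i), ξ i x * ξ j x :=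
    Finset.measurable_sum _ fun i hi => Finset.measurable_sum _ fun j hj =>
      (hm i hi).mul (hm j (Finset.mem_filter.1 hj).1)
  have hq : Measurable fun x => ∑ i ∈ I, ξ i x ^ p :=
    Finset.measurable_sum _ fun i hi => (hm i hi).pow_const p
  have h3 : ∀ x, (∑ i ∈ I, ξ i x) ^ p ≤ N * ∑ i ∈ I, ξ i x ^ p +
      (∑ i ∈ I, ∑ j ∈ I.filter (fun j => j ∉ near i), ξ i x * ξ j x) ^ (p / 2) := fun x => by
    rw [← e]
    refine (ENNReal.rpow_le_rpow (Conc_sq_le I near hN hsymm fun i => ξ i x) q0.le).trans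
      ((ENNReal.rpow_add_le_add_rpow _ _ q0.le q1).trans (add_le_add ?_ le_rfl))
    rw [ENNReal.mul_rpow_of_nonneg _ _ q0.le]
    refine mul_le_mul' (Conc_nat_rpow N q0 q1) ((Conc_sum_rpow I _ q0 q1).trans ?_)
    simp only [e, le_refl]
  refine (lintegral_mono h3).trans ?_
  rw [lintegral_add_left (hq.const_mul _), lintegral_const_mul _ hq,
    lintegral_finsetSum _ fun i hi => (hm i hi).pow_const p]
  refine add_le_add le_rfl ((Conc_jensen μ hF q0.le q1).trans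
    ((ENNReal.rpow_le_rpow (Conc_far μ I near hm hfar) q0.le).trans ?_))
  rw [e]
  rcases I.eq_empty_or_nonempty with rfl | hI
  · have : 0 < p := by linarith
    simp [this]
  refine (ENNReal.rpow_sum_le_const_mul_sum_rpow I _ h1).trans ?_
  gcongr
  have : (1 : ℝ≥0∞) ≤ I.card := by exact_mod_cast hI.card_pos
  simpa using ENNReal.rpow_le_rpow_of_exponent_le this (show p - 1 ≤ 1 by linarith)

/-- each term against the sum of the later terms -/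
theorem sum_range_pow_le {r : ℕ} (hr : 1 ≤ r) (N : ℕ) (a : ℕ → ℝ≥0∞) :
    (∑ i ∈ Finset.range N, a i) ^ r ≤
      ∑ i ∈ Finset.range N, (r * 2 ^ r : ℝ≥0∞) *
        (a i ^ r + a i * (∑ j ∈ Finset.Ioo i N, a j) ^ (r - 1)) := by
  obtain ⟨n, rfl⟩ : ∃ n, r = n + 1 := ⟨r - 1, by omega⟩
  have key : ∀ m k : ℕ, k + m = N → (∑ i ∈ Finset.Ico k N, a i) ^ (n + 1) ≤
      ∑ i ∈ Finset.Ico k N, ((n + 1 : ℕ) * 2 ^ (n + 1) : ℝ≥0∞) *
        (a i ^ (n + 1) + a i * (∑ j ∈ Finset.Ioo i N, a j) ^ n) := by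
    intro m
    induction m with
    | zero =>
      rintro k rfl
      simp
    | succ m ih =>
      intro k hk
      have hlt : k < N := by omega
      have hI : Finset.Ioo k N = Finset.Ico (k + 1) N := by
        ext j
        simp only [Finset.mem_Ioo, Finset.mem_Ico]
        omega
      rw [Finset.sum_eq_sum_Ico_succ_bot hlt, Finset.sum_eq_sum_Ico_succ_bot hlt, hI]
      have h1 := ih (k + 1) (by omega)
      set b := ∑ i ∈ Finset.Ico (k + 1) N, a i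
      refine (Conc_step _ _ n).trans ?_
      rw [add_comm]
      refine add_le_add ?_ h1
      have h2 : (2 : ℝ≥0∞) ^ n ≤ 2 ^ (n + 1) := pow_le_pow_right₀ one_le_two (Nat.le_succ n)
      calc ((n + 1 : ℕ) : ℝ≥0∞) * (a k * (a k + b) ^ n)
          ≤ (n + 1 : ℕ) * (a k * (2 ^ (n + 1) * (a k ^ n + b ^ n))) := by
            gcongr
            exact (Conc_add_pow _ _ n).trans (by gcongr)
        _ = _ := by ring
  rw [Finset.range_eq_Ico, Nat.add_sub_cancel]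
  exact key N 0 (zero_add N)

theorem lintegral_mul_pow_le {Ω : Type*} [MeasurableSpace Ω] (μ : Measure Ω) {r : ℕ} (hr : 1 ≤ r)
    {a b : Ω → ℝ≥0∞} (ha : Measurable a) (hb : Measurable b) [IsProbabilityMeasure μ] :
    ∫⁻ x, a x * b x ^ (r - 1) ∂μ ≤
      (∫⁻ x, a x ^ r ∂μ) ^ (1 / (r : ℝ)) * (∫⁻ x, b x ^ r ∂μ) ^ (1 - 1 / (r : ℝ)) := by
  have hr' : (1 : ℝ) ≤ r := by exact_mod_cast hr
  have h0 : (r : ℝ) ≠ 0 := by linarith
  have h1 : 1 / (r : ℝ) ≤ 1 := by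
    rw [div_le_one (by linarith)]
    exact hr'
  have h := ENNReal.lintegral_mul_norm_pow_le (μ := μ) (f := fun x => a x ^ r)
    (g := fun x => b x ^ r) (ha.pow_const r).aemeasurable (hb.pow_const r).aemeasurable
    (p := 1 / (r : ℝ)) (q := 1 - 1 / (r : ℝ)) (by positivity) (sub_nonneg.2 h1) (by ring)
  refine le_trans (le_of_eq (lintegral_congr fun x => ?_)) h
  rw [← ENNReal.rpow_natCast (a x) r, ← ENNReal.rpow_natCast (b x) r, ← ENNReal.rpow_mul,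
    ← ENNReal.rpow_mul, mul_one_div_cancel h0, ENNReal.rpow_one, ← ENNReal.rpow_natCast (b x),
    Nat.cast_sub hr]
  congr 2
  field_simp
  simp

/-- Jensen for a finite sum -/
theorem sum_pow_le {ι : Type*} (I : Finset ι) (a : ι → ℝ≥0∞) {r : ℕ} (hr : 1 ≤ r) :
    (∑ i ∈ I, a i) ^ r ≤ (I.card : ℝ≥0∞) ^ (r - 1) * ∑ i ∈ I, a i ^ r := by
  have h := ENNReal.rpow_sum_le_const_mul_sum_rpow I a (p := r) (by exact_mod_cast hr)
  have e : (r : ℝ) - 1 = ((r - 1 : ℕ) : ℝ) := by rw [Nat.cast_sub hr, Nat.cast_one]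
  simpa only [e, ENNReal.rpow_natCast] using h

theorem sum_rpow_le {ι : Type*} (I : Finset ι) (a : ι → ℝ≥0∞) {p : ℝ} (hp : 1 ≤ p) :
    (∑ i ∈ I, a i) ^ p ≤ (I.card : ℝ≥0∞) ^ (p - 1) * ∑ i ∈ I, a i ^ p :=
  ENNReal.rpow_sum_le_const_mul_sum_rpow I a hp

/-- a fixed point for the self-bounding recursion -/
theorem exists_self_bound (C : ℝ≥0) {q : ℝ} (h0 : 0 ≤ q) (h1 : q < 1) :
    ∃ M : ℝ≥0, (C : ℝ≥0∞) * (1 + (M : ℝ≥0∞) ^ q) ≤ M := by
  have hq : 0 < 1 - q := by linarith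
  have hB : (1 : ℝ≥0) ≤ 2 * C + 1 := le_add_self
  set M : ℝ≥0 := (2 * C + 1) ^ (1 - q)⁻¹ with hM
  have hM1 : 1 ≤ M := NNReal.one_le_rpow hB (inv_nonneg.2 hq.le)
  have hM0 : M ≠ 0 := (zero_lt_one.trans_le hM1).ne'
  have e1 : M ^ (1 - q) = 2 * C + 1 := NNReal.rpow_inv_rpow hq.ne' _
  have e2 : M = M ^ (1 - q) * M ^ q := by
    rw [← NNReal.rpow_add hM0]
    simp
  have e3 : 1 ≤ M ^ q := NNReal.one_le_rpow hM1 h0
  have e4 : C * (1 + M ^ q) ≤ M := by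
    calc C * (1 + M ^ q) ≤ C * (M ^ q + M ^ q) := by gcongr
      _ = 2 * C * M ^ q := by ring
      _ ≤ (2 * C + 1) * M ^ q := by gcongr; exact le_self_add
      _ = M := by rw [← e1, ← e2]
  refine ⟨M, ?_⟩
  rw [← ENNReal.coe_rpow_of_nonneg _ h0]
  exact_mod_cast e4

end Pool.Agent.Lib.MP_0d9445_pr.CR
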