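import Pool.Agent.Lib.MP_0d9445_pr.CR.Geo
import Pool.Agent.Lib.MP_0d9445_pr.CR.EqFixU

/-! Deterministic facts on the dominating variables. -/

open MeasureTheory ProbabilityTheory Set Filter Topology
open scoped ENNReal NNReal

namespace Pool.Agent.Lib.MP_0d9445_pr.CR

variable {d : ℕ} {a b : Pat}

theorem u_mono (h : a.Le b) (k n : ℕ) (v : ℤ × ℤ) : u d a k n v ≤ u d b k n v := by
  induction k generalizing n v with
  | zero =>
    simp only [u]
    split_ifs with h1 h2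
    · exact le_rfl
    · exact absurd (h1.mono (inter_subset_inter_left _ h.2)) h2
    · exact Nat.zero_le _
    · exact le_rfl
  | succ k ih =>
    simp only [u]
    refine Finset.sum_le_sum fun w _ => ?_
    split_ifs with h1 h2 h2
    · exact le_rfl
    · exact Nat.zero_le _
    · exact absurd (h.1 _ _ h2) h1
    · exact ih _ _

theorem chain_mono (h : a.Le b) {k n : ℕ} {v : ℤ × ℤ} (hc : chain d a k n v) :
    chain d b k n v := by
  induction k generalizing n v with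
  | zero => trivial
  | succ k ih =>
    obtain ⟨w, hw, h1, h2⟩ := hc
    exact ⟨w, hw, fun hb => h1 (h.1 _ _ hb), ih h2⟩

theorem Ex_mono (h : a.Le b) {n : ℕ} {v : ℤ × ℤ} (hc : Ex d a n v) : Ex d b n v :=
  fun k => chain_mono h (hc k)

theorem Loc_anti (h : a.Le b) {n : ℕ} {v : ℤ × ℤ} (hc : Loc d b n v) : Loc d a n v :=
  fun w hw he => hc w hw (Ex_mono h he)

theorem ws_mono (h : a.Le b) (R k n : ℕ) (v : ℤ × ℤ) : ws d a R k n v ≤ ws d b R k n v :=
  Finset.sum_le_sum fun w _ => u_mono h k n w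

theorem TT_mono (h : a.Le b) (n : ℕ) (v : ℤ × ℤ) : TT d a n v ≤ TT d b n v :=
  liminf_le_liminf (Eventually.of_forall fun k => Nat.cast_le.2
    (Nat.mul_le_mul (ws_mono h 5 k n v) (Nat.sub_le_sub_right (ws_mono h 5 k n v) 1)))

theorem ZZ_mono (h : a.Le b) (n : ℕ) (v : ℤ × ℤ) : ZZ d a n v ≤ ZZ d b n v :=
  liminf_le_liminf (Eventually.of_forall fun k => Nat.cast_le.2
    (Nat.pow_le_pow_left (ws_mono h 20 k n v) 2))

theorem sig_mono (h : a.Le b) (n N : ℕ) (z : ℂ) : sig d a n N z ≤ sig d b n N z :=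
  Finset.sum_le_sum fun _ _ => ZZ_mono h _ _

theorem KK_mono (h : a.Le b) (n : ℕ) (v : ℤ × ℤ) : KK d a n v ≤ KK d b n v :=
  ENNReal.tsum_le_tsum fun _ =>
    mul_le_mul_right (Finset.sum_le_sum fun _ _ => ZZ_mono h _ _) _

theorem PiD_mono (h : a.Le b) (n : ℕ) (v : ℤ × ℤ) : PiD d a n v ≤ PiD d b n v :=
  ENNReal.tsum_le_tsum fun _ => Finset.sum_le_sum fun _ _ => TT_mono h _ _

theorem u_zero_le_one (n : ℕ) (v : ℤ × ℤ) : u d a 0 n v ≤ 1 := by
  simp only [u]
  split_ifs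
  · exact le_rfl
  · exact Nat.zero_le _

/-- points in different boxes are different -/
theorem count_sum_ncard_le {s A : Set ℂ} (hf : s.Finite) (n : ℕ) (I : Finset (ℤ × ℤ))
    (hA : ∀ w ∈ I, box n w ⊆ A) : ∑ w ∈ I, (s ∩ box n w).ncard ≤ (s ∩ A).ncard := by
  classical
  have e : ∀ w, (s ∩ box n w).ncard = (hf.toFinset.filter fun z => idx n z = w).card := by
    intro w
    rw [← Set.ncard_coe_finset]
    congr 1
    ext z
    simp [mem_box_iff]
  simp only [e]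
  rw [Finset.sum_card_fiberwise_eq_card_filter, ← Set.ncard_coe_finset]
  refine Set.ncard_le_ncard (fun z hz => ?_) (hf.inter_of_left _)
  rw [Finset.mem_coe, Finset.mem_filter, Set.Finite.mem_toFinset] at hz
  exact ⟨hz.1, hA _ hz.2 (mem_box_idx n z)⟩

theorem count_box_subset_reg (n : ℕ) (v : ℤ × ℤ) : box n v ⊆ reg n v 1 := by
  intro z hz
  obtain ⟨h1, h2⟩ := box_subset_csq n v hz
  have := sc_pos n
  exact ⟨by linarith, by linarith⟩

theorem count_ite_le (k n : ℕ) (v : ℤ × ℤ) :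
    u d a (k + 1) n v ≤ ∑ w ∈ kids d v, u d a k (n + d) w := by
  simp only [u]
  refine Finset.sum_le_sum fun w _ => ?_
  split_ifs
  · exact Nat.zero_le _
  · exact le_rfl

/-- the killed count is at most the number of points -/
theorem u_le_ncard (hf : a.pts.Finite) (k n : ℕ) (v : ℤ × ℤ) :
    u d a k n v ≤ (a.pts ∩ box n v).ncard := by
  induction k generalizing n v with
  | zero =>
    simp only [u]
    split_ifs with h1
    · exact (Set.ncard_pos (hf.inter_of_left _)).2 h1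
    · exact Nat.zero_le _
  | succ k ih =>
    exact (count_ite_le k n v).trans ((Finset.sum_le_sum fun w _ => ih (n + d) w).trans
      (count_sum_ncard_le hf (n + d) _ fun w hw => box_subset_of_kids hw))

theorem u_le_ncard_osq (hf : a.pts.Finite) (k n : ℕ) (v : ℤ × ℤ) :
    u d a k n v ≤ (a.pts ∩ osq (ctr n v) (6 * sc n)).ncard :=
  (u_le_ncard hf k n v).trans (Set.ncard_le_ncard (inter_subset_inter_right _
    ((count_box_subset_reg n v).trans (reg_mono n v (by norm_num : (1 : ℝ) ≤ 6))))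
    (hf.inter_of_left _))

theorem u_le_ws (R k n : ℕ) (v : ℤ × ℤ) : u d a k n v ≤ ws d a R k n v :=
  Finset.single_le_sum (f := fun w => u d a k n w) (fun _ _ => Nat.zero_le _) (self_mem_nbh R v)

theorem ws_mono_R {R R' : ℕ} (h : R ≤ R') (k n : ℕ) (v : ℤ × ℤ) :
    ws d a R k n v ≤ ws d a R' k n v :=
  Finset.sum_le_sum_of_subset (nbh_mono h v)

theorem ws_zero_le (R n : ℕ) (v : ℤ × ℤ) : ws d a R 0 n v ≤ (2 * R + 1) ^ 2 := by
  have := Finset.sum_le_card_nsmul (nbh R v) (fun w => u d a 0 n w) 1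
    fun w _ => u_zero_le_one n w
  rwa [card_nbh, smul_eq_mul, mul_one] at this

theorem two_le_ncard_of_ws (hf : a.pts.Finite) {n : ℕ} {v : ℤ × ℤ} (h : 2 ≤ ws d a 5 0 n v) :
    2 ≤ (a.pts ∩ osq (ctr n v) (6 * sc n)).ncard := by
  refine h.trans ((Finset.sum_le_sum fun w _ => u_le_ncard hf 0 n w).trans
    (count_sum_ncard_le hf n _ fun w hw => ?_))
  exact (count_box_subset_reg n w).trans ((reg_nbh_subset hw 1).trans
    (reg_mono n v (r' := 6) (by norm_num)))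

theorem ws_succ_le (R k n : ℕ) (v : ℤ × ℤ) :
    ws d a R (k + 1) n v ≤ ∑ q ∈ (nbh R v).biUnion (kids d), u d a k (n + d) q := by
  rw [sum_biUnion_kids]
  exact Finset.sum_le_sum fun w _ => count_ite_le k n w

open Classical in
theorem u_pow_succ_le (r k n : ℕ) (hr : 1 ≤ r) (v : ℤ × ℤ) :
    u d a (k + 1) n v ^ r ≤
      (4 ^ d) ^ r * ∑ w ∈ kids d v, if a.B (n + d) w then 0 else u d a k (n + d) w ^ r := by
  obtain ⟨r, rfl⟩ := Nat.exists_eq_add_of_le' hr
  simp only [u]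
  refine (pow_sum_le_card_mul_sum_pow (fun _ _ => Nat.zero_le _) r).trans ?_
  rw [card_kids, Nat.cast_id]
  refine Nat.mul_le_mul (Nat.pow_le_pow_right (by positivity) r.le_succ)
    (Finset.sum_le_sum fun w _ => ?_)
  split_ifs
  · rw [zero_pow r.succ_ne_zero]
  · exact le_rfl


theorem pow_sub_self_mono {r x y : ℕ} (hr : 1 ≤ r) (h : x ≤ y) : x ^ r - x ≤ y ^ r - y := by
  obtain ⟨s, rfl⟩ := Nat.exists_eq_add_of_le' hr
  have e : ∀ z : ℕ, z ^ (s + 1) - z = z * (z ^ s - 1) := fun z => by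
    rw [Nat.mul_sub, mul_one, pow_succ']
  rw [e, e]
  exact Nat.mul_le_mul h (Nat.sub_le_sub_right (Nat.pow_le_pow_left h s) 1)

theorem mul_pred_pow_le (r x : ℕ) (hr : 1 ≤ r) : (x * (x - 1)) ^ r ≤ x ^ (2 * r) - x := by
  rcases Nat.eq_zero_or_pos x with rfl | hx
  · simp [show r ≠ 0 by omega]
  apply Nat.le_sub_of_add_le
  have h1 : (x - 1) ^ r + 1 ≤ x ^ r := Nat.pow_lt_pow_left (by omega) (by omega)
  have h2 : x ≤ x ^ r := Nat.le_self_pow (by omega) x
  calc (x * (x - 1)) ^ r + x ≤ x ^ r * (x - 1) ^ r + x ^ r := by rw [mul_pow]; omega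
    _ = x ^ r * ((x - 1) ^ r + 1) := by ring
    _ ≤ x ^ r * x ^ r := Nat.mul_le_mul_left _ h1
    _ = x ^ (2 * r) := by ring

theorem Count_add_pow_le (x y r : ℕ) :
    (x + y) ^ (r + 1) ≤ x ^ (r + 1) + (r + 1) * (x + y) ^ r * y := by
  induction r with
  | zero => simp
  | succ r ih =>
    have h1 : x ^ (r + 1) ≤ (x + y) ^ (r + 1) := Nat.pow_le_pow_left (Nat.le_add_right _ _) _
    calc (x + y) ^ (r + 1 + 1) = (x + y) ^ (r + 1) * (x + y) := pow_succ _ _
      _ ≤ (x ^ (r + 1) + (r + 1) * (x + y) ^ r * y) * (x + y) := Nat.mul_le_mul_right _ ih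
      _ = x ^ (r + 1 + 1) + x ^ (r + 1) * y + (r + 1) * (x + y) ^ (r + 1) * y := by ring
      _ ≤ x ^ (r + 1 + 1) + (x + y) ^ (r + 1) * y + (r + 1) * (x + y) ^ (r + 1) * y := by
        gcongr
      _ = x ^ (r + 1 + 1) + (r + 1 + 1) * (x + y) ^ (r + 1) * y := by ring

/-- largest term and far pairs -/
theorem pow_sum_sub_le {ι : Type*} [DecidableEq ι] (I : Finset ι) (Z Wn : ι → ℕ)
    (near : ι → Finset ι) (hn : ∀ q ∈ I, ∑ q' ∈ I ∩ near q, Z q' ≤ Wn q) (r : ℕ) :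
    (∑ q ∈ I, Z q) ^ (r + 1) - ∑ q ∈ I, Z q ≤
      ∑ q ∈ I, (Wn q ^ (r + 1) - Wn q) +
        (r + 1) * I.card ^ r * ∑ q ∈ I, ∑ q' ∈ I \ near q, Z q ^ r * Z q' := by
  rcases I.eq_empty_or_nonempty with rfl | hI
  · simp
  obtain ⟨q, hq, hmax⟩ := I.exists_max_image Z hI
  have hS : ∑ q' ∈ I, Z q' = ∑ q' ∈ I ∩ near q, Z q' + ∑ q' ∈ I \ near q, Z q' :=
    (Finset.sum_inter_add_sum_sdiff I (near q) Z).symm
  have hle : ∑ q' ∈ I, Z q' ≤ I.card * Z q := by
    simpa using Finset.sum_le_card_nsmul I Z (Z q) hmax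
  have h1 := Count_add_pow_le (∑ q' ∈ I ∩ near q, Z q') (∑ q' ∈ I \ near q, Z q') r
  rw [← hS] at h1
  have h2 : (∑ q' ∈ I ∩ near q, Z q') ^ (r + 1) - ∑ q' ∈ I ∩ near q, Z q' ≤
      ∑ q ∈ I, (Wn q ^ (r + 1) - Wn q) :=
    (pow_sub_self_mono (by omega) (hn q hq)).trans
      (Finset.single_le_sum (f := fun q => Wn q ^ (r + 1) - Wn q) (fun _ _ => Nat.zero_le _) hq)
  have h3 : (r + 1) * (∑ q' ∈ I, Z q') ^ r * ∑ q' ∈ I \ near q, Z q' ≤
      (r + 1) * I.card ^ r * ∑ q ∈ I, ∑ q' ∈ I \ near q, Z q ^ r * Z q' := by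
    have h4 : ∑ q' ∈ I \ near q, Z q ^ r * Z q' ≤
        ∑ q ∈ I, ∑ q' ∈ I \ near q, Z q ^ r * Z q' :=
      Finset.single_le_sum (f := fun q => ∑ q' ∈ I \ near q, Z q ^ r * Z q')
        (fun _ _ => Nat.zero_le _) hq
    calc (r + 1) * (∑ q' ∈ I, Z q') ^ r * ∑ q' ∈ I \ near q, Z q'
        ≤ (r + 1) * (I.card * Z q) ^ r * ∑ q' ∈ I \ near q, Z q' := by gcongr
      _ = (r + 1) * I.card ^ r * ∑ q' ∈ I \ near q, Z q ^ r * Z q' := by
        rw [← Finset.mul_sum]; ring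
      _ ≤ _ := Nat.mul_le_mul_left _ h4
  omega

theorem TT_le_ZZ (n : ℕ) (v : ℤ × ℤ) : TT d a n v ≤ ZZ d a n v := by
  refine liminf_le_liminf (Eventually.of_forall fun k => ?_)
  have h : ws d a 5 k n v ≤ ws d a 20 k n v := ws_mono_R (by norm_num) k n v
  rw [Nat.cast_le, sq]
  exact Nat.mul_le_mul h ((Nat.sub_le _ _).trans h)

theorem Count_card_le_u (k : ℕ) : ∀ (n : ℕ) (v : ℤ × ℤ) (G : Finset ℂ),
    (∀ z ∈ G, z ∈ a.pts ∧ idx n z = v ∧ Exposed d a n z) → InjOn (idx (n + k * d)) (G : Set ℂ) →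
    G.card ≤ u d a k n v := by
  classical
  induction k with
  | zero =>
    intro n v G hG hinj
    rcases G.eq_empty_or_nonempty with rfl | ⟨z, hz⟩
    · simp
    have h1 : (a.pts ∩ box n v).Nonempty := ⟨z, (hG z hz).1, mem_box_iff.2 (hG z hz).2.1⟩
    simp only [u, if_pos h1]
    refine Finset.card_le_one.2 fun x hx y hy => hinj hx hy ?_
    simp only [zero_mul, add_zero]
    rw [(hG x hx).2.1, (hG y hy).2.1]
  | succ k ih =>
    intro n v G hG hinj
    have hmap : ∀ z ∈ G, idx (n + d) z ∈ kids d v := fun z hz => idx_mem_kids.2 (hG z hz).2.1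
    rw [Finset.card_eq_sum_card_fiberwise (f := idx (n + d)) (t := kids d v) hmap]
    simp only [u]
    refine Finset.sum_le_sum fun w _ => ?_
    split_ifs with hB
    · rw [Nat.le_zero, Finset.card_eq_zero, Finset.filter_eq_empty_iff]
      intro z hz e
      have := (hG z hz).2.2 0
      simp only [zero_add, one_mul] at this
      exact this (e ▸ hB)
    · refine ih (n + d) w _ (fun z hz => ?_) ?_
      · rw [Finset.mem_filter] at hz
        refine ⟨(hG z hz.1).1, hz.2, fun i => ?_⟩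
        have := (hG z hz.1).2.2 (i + 1)
        rwa [show n + (i + 1 + 1) * d = n + d + (i + 1) * d by ring] at this
      · rw [show n + d + k * d = n + (k + 1) * d by ring]
        exact hinj.mono (Finset.coe_subset.2 (Finset.filter_subset _ _))

/-- exposed points are counted -/
theorem ncard_le_ws (hd : 1 ≤ d) {R n : ℕ} {v : ℤ × ℤ} {F : Set ℂ} (hF : F.Finite)
    (hp : F ⊆ a.pts) (he : ∀ z ∈ F, Exposed d a n z ∧ idx n z ∈ nbh R v) :
    ∀ᶠ k in atTop, F.ncard ≤ ws d a R k n v := by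
  classical
  filter_upwards [eventually_injOn_idx hF n hd] with k hk
  lift F to Finset ℂ using hF
  rw [Set.ncard_coe_finset,
    Finset.card_eq_sum_card_fiberwise (f := idx n) (t := nbh R v) fun z hz => (he z hz).2]
  refine Finset.sum_le_sum fun w _ => Count_card_le_u k n w _ (fun z hz => ?_)
    (hk.mono (Finset.coe_subset.2 (Finset.filter_subset _ _)))
  rw [Finset.mem_filter] at hz
  exact ⟨hp hz.1, hz.2, (he z hz.1).1⟩

theorem ncard_pairs_le_TT (hd : 1 ≤ d) {n : ℕ} {v : ℤ × ℤ} {F : Set ℂ} (hF : F.Finite)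
    (hp : F ⊆ a.pts) (he : ∀ z ∈ F, Exposed d a n z ∧ idx n z ∈ nbh 5 v) :
    ((F.ncard * (F.ncard - 1) : ℕ) : ℝ≥0∞) ≤ TT d a n v := by
  refine le_liminf_of_le (h := ?_)
  filter_upwards [ncard_le_ws hd hF hp he] with k hk
  rw [Nat.cast_le]
  exact Nat.mul_le_mul hk (Nat.sub_le_sub_right hk 1)

theorem ncard_sq_le_ZZ (hd : 1 ≤ d) {n : ℕ} {v : ℤ × ℤ} {F : Set ℂ} (hF : F.Finite)
    (hp : F ⊆ a.pts) (he : ∀ z ∈ F, Exposed d a n z ∧ idx n z ∈ nbh 20 v) :
    ((F.ncard ^ 2 : ℕ) : ℝ≥0∞) ≤ ZZ d a n v := by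
  refine le_liminf_of_le (h := ?_)
  filter_upwards [ncard_le_ws hd hF hp he] with k hk
  rw [Nat.cast_le]
  exact Nat.pow_le_pow_left hk 2

theorem Ex_of_exposed {n : ℕ} {z : ℂ} (h : Exposed d a n z) : Ex d a n (idx n z) := by
  intro k
  induction k generalizing n with
  | zero => trivial
  | succ k ih =>
    refine ⟨idx (n + d) z, idx_mem_kids.2 rfl, ?_, ih fun i => ?_⟩
    · simpa using h 0
    · have := h (i + 1)
      rwa [show n + (i + 1 + 1) * d = n + d + (i + 1) * d by ring] at this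

theorem not_exposed_of_Loc (hd : 1 ≤ d) {n : ℕ} {v : ℤ × ℤ} (h : Loc d a n v) {z : ℂ}
    (hz : z ∈ csq (ctr n v) (sc n)) : ¬ Exposed d a (n + d) z :=
  fun he => h _ (idx_mem_cov hd hz) (Ex_of_exposed he)

theorem sig_succ (n N : ℕ) (z : ℂ) :
    sig d a n (N + 1) z = ZZ d a n (idx n z) + sig d a (n + d) N z := by
  unfold sig
  rw [Finset.sum_range_succ', add_comm]
  congr 1
  · simp
  · refine Finset.sum_congr rfl fun i _ => ?_
    rw [show n + (i + 1) * d = n + d + i * d by ring]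

/-- coarse part and fine part -/
theorem KK_split (n j : ℕ) (v : ℤ × ℤ) :
    KK d a n v = ∑ i ∈ Finset.range j, (4 : ℝ≥0∞)⁻¹ ^ (i * d) *
        ∑ w ∈ kids (i * d) v, ZZ d a (n + i * d) w +
      (4 : ℝ≥0∞)⁻¹ ^ (j * d) * ∑ q ∈ kids (j * d) v, KK d a (n + j * d) q := by
  unfold KK
  rw [← ENNReal.summable.sum_add_tsum_nat_add' (k := j)]
  congr 1
  rw [← Summable.tsum_finsetSum fun _ _ => ENNReal.summable, ← ENNReal.tsum_mul_left]
  refine tsum_congr fun i => ?_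
  rw [show (i + j) * d = j * d + i * d by ring, sum_kids_add, pow_add, mul_assoc, Finset.mul_sum,
    ← add_assoc]

/-- the partial sums of `KK` are averages of chain sums -/
theorem KK_partial (n N : ℕ) (v : ℤ × ℤ) :
    ∑ i ∈ Finset.range N, (4 : ℝ≥0∞)⁻¹ ^ (i * d) * ∑ w ∈ kids (i * d) v, ZZ d a (n + i * d) w =
      (4 : ℝ≥0∞)⁻¹ ^ (N * d) * ∑ w ∈ kids (N * d) v, sig d a n N (ctr (n + N * d) w) := by
  unfold sig
  rw [Finset.sum_comm, Finset.mul_sum]
  refine Finset.sum_congr rfl fun i hi => ?_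
  obtain ⟨m, rfl⟩ := Nat.exists_eq_add_of_le (Finset.mem_range.1 hi).le
  rw [add_mul, sum_kids_add]
  have e : ∀ q ∈ kids (i * d) v, ∑ w ∈ kids (m * d) q,
      ZZ d a (n + i * d) (idx (n + i * d) (ctr (n + (i * d + m * d)) w)) =
        4 ^ (m * d) * ZZ d a (n + i * d) q := by
    intro q _
    rw [Finset.sum_congr rfl (g := fun _ => ZZ d a (n + i * d) q) fun w hw => by
      rw [← add_assoc, idx_ctr_of_kids hw]]
    rw [Finset.sum_const, card_kids, nsmul_eq_mul]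
    push_cast
    rfl
  rw [Finset.sum_congr rfl e, ← Finset.mul_sum, pow_add, mul_assoc, ← mul_assoc (4⁻¹ ^ (m * d)),
    ← mul_pow, ENNReal.inv_mul_cancel (by norm_num) (by norm_num), one_pow, one_mul]

/-- partial sums of `PiD` -/
theorem PiD_partial_succ (n N : ℕ) (v : ℤ × ℤ) :
    ∑ i ∈ Finset.range (N + 1), ∑ w ∈ kids (i * d) v, TT d a (n + i * d) w =
      TT d a n v + ∑ q ∈ kids d v,
        ∑ i ∈ Finset.range N, ∑ w ∈ kids (i * d) q, TT d a (n + d + i * d) w := by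
  rw [Finset.sum_range_succ', add_comm]
  congr 1
  · simp [kids_zero]
  · rw [Finset.sum_comm]
    refine Finset.sum_congr rfl fun i _ => ?_
    rw [show (i + 1) * d = d + i * d by ring, sum_kids_add, ← add_assoc]

end Pool.Agent.Lib.MP_0d9445_pr.CR
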