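import Pool.Agent.Lib.MP_0d9445_pr.CR.Kill
import Pool.Agent.Lib.MP_0d9445_pr.CR.Count

/-! Moments of the killed count from the bound on non-constant tuples. -/

open MeasureTheory ProbabilityTheory Set Filter Topology
open scoped ENNReal NNReal

namespace Pool.Agent.Lib.MP_0d9445_pr.CR

namespace Casc

variable {Ξ : Type} [MeasurableSpace Ξ] [MeasurableSpace C(ℂ, ℝ)] (K : Casc Ξ)

theorem momA_one (d : ℕ) : K.MomA d 1 :=
  ⟨0, fun k n v g _ => by simp⟩

/-- the a priori bound -/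
theorem MomB_apriori {d r : ℕ} (hr : 1 ≤ r) (h : K.MomA d r) :
    ∃ A B : ℝ≥0, ∀ k n v g, K.Win n (ctr n v) →
      ∫⁻ x, ((u d (K.pat x) k n v ^ r : ℕ) : ℝ≥0∞) ∂K.P n g ≤
        A * K.w K.σ K.θ n v g + B * K.w K.γ K.θ n v g := by
  obtain ⟨A, hA⟩ := h
  obtain ⟨B, hB⟩ := K.one
  refine ⟨A, B, fun k n v g hW => ?_⟩
  have hm : Measurable fun x => ((((K.pat x).pts ∩ osq (ctr n v) (6 * sc n)).ncard : ℕ) : ℝ≥0∞) :=
    (measurable_from_top (f := fun m : ℕ => (m : ℝ≥0∞))).comp (K.cnt_meas _ _)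
  calc ∫⁻ x, ((u d (K.pat x) k n v ^ r : ℕ) : ℝ≥0∞) ∂K.P n g
      ≤ ∫⁻ x, ((ws d (K.pat x) 5 k n v ^ r - ws d (K.pat x) 5 k n v : ℕ) : ℝ≥0∞) +
          ((((K.pat x).pts ∩ osq (ctr n v) (6 * sc n)).ncard : ℕ) : ℝ≥0∞) ∂K.P n g := by
        refine lintegral_mono fun x => ?_
        have h1 := pow_sub_self_mono hr (u_le_ws (d := d) (a := K.pat x) 5 k n v)
        have h2 := u_le_ncard_osq (d := d) (K.pts_fin x) k n v
        have h3 : u d (K.pat x) k n v ^ r ≤ (ws d (K.pat x) 5 k n v ^ r - ws d (K.pat x) 5 k n v) +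
            ((K.pat x).pts ∩ osq (ctr n v) (6 * sc n)).ncard := by omega
        show ((_ : ℕ) : ℝ≥0∞) ≤ ((_ : ℕ) : ℝ≥0∞) + ((_ : ℕ) : ℝ≥0∞)
        rw [← Nat.cast_add]
        exact Nat.cast_le.2 h3
    _ = _ := lintegral_add_right _ hm
    _ ≤ A * K.w K.σ K.θ n v g + B * K.w K.γ K.θ n v g := by
        refine add_le_add (hA k n v g hW) ((hB n _ g).trans ?_)
        exact mul_le_mul_right (wt_mono _ _ K.θ0_le _ _ _) _

theorem MomB_w_le {s T : ℝ} (hs : 0 ≤ s) (t : ℝ) {n : ℕ} {v : ℤ × ℤ} {g : C(ℂ, ℝ)}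
    (h : cc K.Q n (ctr n v) g < T) :
    K.w s t n v g ≤ (Real.exp (s * T)).toNNReal * K.w 0 t n v g := by
  unfold w
  rw [wt_eq K.Q s 0]
  refine mul_le_mul_left ?_ _
  refine ENNReal.ofReal_le_ofReal (Real.exp_le_exp.2 ?_)
  rw [sub_zero]
  exact mul_le_mul_of_nonneg_left h.le hs

theorem momB_of_momA {d r : ℕ} (hd : 7 ≤ d) (hr : 1 ≤ r) (h : K.MomA d r) : K.MomB d r := by
  obtain ⟨A, B, hAB⟩ := K.MomB_apriori hr h
  have hγ := K.γ_pos
  have hσ := K.γ_lt
  obtain ⟨C, hC⟩ := K.kill hd ((4 ^ d) ^ r) (fun k n v x => ((u d (K.pat x) k n v ^ r : ℕ) : ℝ≥0∞))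
    (fun k n v => (measurable_from_top (f := fun m : ℕ => ((m ^ r : ℕ) : ℝ≥0∞))).comp
      (K.u_loc hd k n v))
    (fun n v x => by
      have h1 := u_zero_le_one (d := d) (a := K.pat x) n v
      have h2 : u d (K.pat x) 0 n v ^ r ≤ 1 := pow_le_one₀ (Nat.zero_le _) h1
      exact_mod_cast h2)
    (fun k n v x => by
      have h1 := u_pow_succ_le (d := d) (a := K.pat x) r k n hr v
      refine (Nat.cast_le.2 h1).trans (le_of_eq ?_)
      push_cast
      rfl)
    (fun T => ⟨A * (Real.exp (K.σ * T)).toNNReal + B * (Real.exp (K.γ * T)).toNNReal,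
      fun k n v g hW hT => by
        refine (hAB k n v g hW).trans ?_
        rw [ENNReal.coe_add, ENNReal.coe_mul, ENNReal.coe_mul, add_mul, mul_assoc, mul_assoc]
        exact add_le_add (mul_le_mul_right (K.MomB_w_le (hγ.trans hσ).le _ hT) _)
          (mul_le_mul_right (K.MomB_w_le hγ.le _ hT) _)⟩)
  refine ⟨A + B + C + 1, fun k n v g hW => ?_⟩
  have h1 := hAB k n v g hW
  have h2 := hC k n v g hW
  have hk : (2 : ℝ≥0∞)⁻¹ ^ k ≤ 1 := pow_le_one₀ (zero_le) (ENNReal.inv_le_one.2 one_le_two)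
  have key : ∀ s : ℝ, 0 ≤ s → s ≤ K.γ →
      ∫⁻ x, ((u d (K.pat x) k n v ^ r : ℕ) : ℝ≥0∞) ∂K.P n g ≤
        ((A + B + C + 1 : ℝ≥0) : ℝ≥0∞) * K.w s K.θ n v g := by
    intro s hs0 hs1
    rcases le_total (cc K.Q n (ctr n v) g) 0 with hc | hc
    · have e1 : K.w K.σ K.θ n v g ≤ K.w s K.θ n v g := wt_le_of_le _ (by nlinarith)
      have e2 : K.w K.γ K.θ n v g ≤ K.w s K.θ n v g := wt_le_of_le _ (by nlinarith)
      calc _ ≤ A * K.w s K.θ n v g + B * K.w s K.θ n v g :=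
            h1.trans (add_le_add (mul_le_mul_right e1 _) (mul_le_mul_right e2 _))
        _ = ((A + B : ℝ≥0) : ℝ≥0∞) * K.w s K.θ n v g := by rw [ENNReal.coe_add, add_mul]
        _ ≤ _ := mul_le_mul_left (ENNReal.coe_le_coe.2 (by
            rw [add_assoc (A + B)]; exact le_self_add)) _
    · have e1 : K.w (-1) K.θ n v g ≤ K.w s K.θ n v g := wt_le_of_le _ (by nlinarith)
      have e2 : K.w 0 K.θ n v g ≤ K.w s K.θ n v g := wt_le_of_le _ (by nlinarith)
      calc _ ≤ C * K.w s K.θ n v g + 1 * K.w s K.θ n v g :=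
            h2.trans (add_le_add (mul_le_mul_right e1 _) (mul_le_mul' hk e2))
        _ = ((C + 1 : ℝ≥0) : ℝ≥0∞) * K.w s K.θ n v g := by
            rw [ENNReal.coe_add, add_mul, ENNReal.coe_one]
        _ ≤ _ := mul_le_mul_left (ENNReal.coe_le_coe.2 (by
            rw [add_assoc (A + B)]; exact le_add_self)) _
  refine ⟨key _ hγ.le le_rfl, key 0 le_rfl hγ.le, h2.trans (add_le_add_left ?_ _)⟩
  exact mul_le_mul_left (ENNReal.coe_le_coe.2 (le_add_self.trans le_self_add)) _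

theorem Ex_prob {d : ℕ} (hd : 7 ≤ d) : ∃ C : ℝ≥0, ∀ n v g, K.Win n (ctr n v) →
    K.P n g {x | Ex d (K.pat x) n v} ≤ C * K.w (-1) K.θ n v g := by
  classical
  obtain ⟨C, hC⟩ := K.kill hd 1
    (fun k n v => {x | chain d (K.pat x) k n v}.indicator 1)
    (fun k n v => @Measurable.indicator Ξ ℝ≥0∞ _ _ (K.G (reg n v 1)) _ _
      (@measurable_const _ _ _ (K.G (reg n v 1)) 1) (K.chain_loc hd k n v))
    (fun n v x => by
      by_cases hx : x ∈ {x | chain d (K.pat x) 0 n v}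
      · rw [indicator_of_mem hx]; exact le_rfl
      · rw [indicator_of_notMem hx]; exact zero_le)
    (fun k n v x => by
      by_cases hx : x ∈ {x | chain d (K.pat x) (k + 1) n v}
      · rw [indicator_of_mem hx, ENNReal.coe_one, one_mul]
        obtain ⟨w, hw, hB, hc⟩ := hx
        refine le_trans ?_ (Finset.single_le_sum (fun _ _ => zero_le) hw)
        rw [if_neg hB, indicator_of_mem (show x ∈ {x | chain d (K.pat x) k (n + d) w} from hc)]
      · rw [indicator_of_notMem hx]; exact zero_le)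
    (fun T => ⟨1, fun k n v g _ _ => by
      rw [ENNReal.coe_one, one_mul]
      refine le_trans ?_ (one_le_wt_zero _ _ _ _ _)
      rw [lintegral_indicator_one (K.G_le _ _ (K.chain_loc hd k n v))]
      exact prob_le_one⟩)
  refine ⟨C + 1, fun n v g hW => ?_⟩
  by_cases htop : K.w 0 K.θ n v g = ∞
  · have : K.w (-1) K.θ n v g = ∞ := by
      unfold w at htop ⊢
      rw [wt_eq K.Q (-1) 0, htop, ENNReal.mul_top]
      exact (ENNReal.ofReal_pos.2 (Real.exp_pos _)).ne'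
    rw [this, ENNReal.mul_top (by simp)]
    exact le_top
  · have hl : Tendsto (fun k : ℕ => C * K.w (-1) K.θ n v g + 2⁻¹ ^ k * K.w 0 K.θ n v g) atTop
        (𝓝 (C * K.w (-1) K.θ n v g + 0 * K.w 0 K.θ n v g)) :=
      tendsto_const_nhds.add (ENNReal.Tendsto.mul_const
        (ENNReal.tendsto_pow_atTop_nhds_zero_of_lt_one (by simp)) (Or.inr htop))
    rw [zero_mul, add_zero] at hl
    refine (ge_of_tendsto' hl fun k => ?_).trans
      (mul_le_mul_left (ENNReal.coe_le_coe.2 le_self_add) _)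
    have h1 := hC k n v g hW
    rw [lintegral_indicator_one (K.G_le _ _ (K.chain_loc hd k n v))] at h1
    refine le_trans (measure_mono ?_) h1
    exact fun x hx => hx k

/-- K1 of the homogenisation module: only `3S` has to lie in the window -/
theorem Loc_prob {d : ℕ} (hd : 7 ≤ d) : ∃ C : ℝ≥0, ∀ n v g, reg n v (3 / 2) ⊆ K.W →
    K.P n g {x | ¬ Loc d (K.pat x) n v} ≤ C * K.w (-1) K.θ n v g := by
  obtain ⟨C, hC⟩ := K.Ex_prob hd
  have hθ : 96 * |(-1 : ℝ)| ≤ K.θ := by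
    have h1 := K.θ_ge
    have h2 := K.σ_pos
    rw [abs_neg, abs_one]
    linarith
  obtain ⟨C', hC'⟩ := K.lift (-1) hθ
  refine ⟨16 * 4 ^ d * (C * (C' * ((2 : ℝ) ^ (-(d * K.z (-1)))).toNNReal)), fun n v g hW => ?_⟩
  have hsub : {x | ¬ Loc d (K.pat x) n v} ⊆ ⋃ q ∈ cov d v, {x | Ex d (K.pat x) (n + d) q} := by
    intro x hx
    by_contra hn
    exact hx fun q hq he => hn (mem_iUnion₂.2 ⟨q, hq, he⟩)
  have hq : ∀ q ∈ cov d v, K.P n g {x | Ex d (K.pat x) (n + d) q} ≤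
      C * (C' * ENNReal.ofReal ((2 : ℝ) ^ (-(d * K.z (-1)))) * K.w (-1) K.θ n v g) := by
    intro q hq
    have hm := K.Ex_meas hd (n + d) q
    rw [← lintegral_indicator_one hm]
    refine hC' n d _ _ g C _ (measurable_one.indicator hm) (sub_cov (by omega) hq) fun g' => ?_
    rw [lintegral_indicator_one hm]
    exact hC _ _ g' ((reg_cov_subset hd hq).trans hW)
  refine ((measure_mono hsub).trans (measure_biUnion_finset_le _ _)).trans ?_
  refine (Finset.sum_le_card_nsmul _ _ _ hq).trans ?_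
  have hcard : ((cov d v).card : ℝ≥0∞) ≤ 16 * 4 ^ d := by
    exact_mod_cast card_cov_le (by omega : 1 ≤ d) v
  rw [nsmul_eq_mul]
  refine (mul_le_mul_left hcard _).trans (le_of_eq ?_)
  push_cast
  rw [ENNReal.ofReal]
  ring

end Casc

end Pool.Agent.Lib.MP_0d9445_pr.CR
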