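import Pool.Agent.Lib.MP_0d9445_pr.CR.MomA
import Pool.Agent.Lib.MP_0d9445_pr.CR.MomB
import Pool.Agent.Lib.MP_0d9445_pr.CR.Conc

/-! Moments of `TT` and `ZZ`. -/

open MeasureTheory ProbabilityTheory Set Filter Topology
open scoped ENNReal NNReal

namespace Pool.Agent.Lib.MP_0d9445_pr.CR

theorem tz_liminf_pow (f : ℕ → ℝ≥0∞) (r : ℕ) :
    liminf f atTop ^ r = liminf (fun k => f k ^ r) atTop := by
  have hm : Monotone fun x : ℝ≥0∞ => x ^ r := fun _ _ h => pow_le_pow_left' h r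
  exact hm.map_liminf_of_continuousAt f (ENNReal.continuous_pow r).continuousAt

theorem tz_fatou {Ω : Type*} [MeasurableSpace Ω] (μ : Measure Ω) (f : ℕ → Ω → ℝ≥0∞)
    (hf : ∀ k, Measurable (f k)) (r : ℕ) :
    ∫⁻ x, liminf (fun k => f k x) atTop ^ r ∂μ ≤ liminf (fun k => ∫⁻ x, f k x ^ r ∂μ) atTop := by
  simp only [tz_liminf_pow]
  exact lintegral_liminf_le fun k => (hf k).pow_const r

theorem tz_rpow_le (x : ℝ≥0∞) {p : ℝ} (h1 : 1 ≤ p) (h2 : p ≤ 2) : x ^ p ≤ x ^ 1 + x ^ 2 := by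
  rcases le_total x 1 with h | h
  · refine le_trans ?_ le_self_add
    have := ENNReal.rpow_le_rpow_of_exponent_ge h h1
    rw [ENNReal.rpow_one] at this
    rwa [pow_one]
  · refine le_trans ?_ le_add_self
    have := ENNReal.rpow_le_rpow_of_exponent_le h h2
    rwa [ENNReal.rpow_two] at this

theorem tz_meas_nat {Ω : Type*} [MeasurableSpace Ω] {f : Ω → ℕ} (hf : Measurable f)
    (φ : ℕ → ℝ≥0∞) : Measurable fun x => φ (f x) :=
  (measurable_from_top (f := φ)).comp hf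

namespace Casc

variable {Ξ : Type} [MeasurableSpace Ξ] [MeasurableSpace C(ℂ, ℝ)] (K : Casc Ξ)

variable {d : ℕ}

theorem momA (hd : K.Good d) {r : ℕ} (hr : 1 ≤ r) : K.MomA d r := by
  induction r, hr using Nat.le_induction with
  | base => exact K.momA_one d
  | succ r hr ih =>
    exact K.momA_succ hd hr (K.momB_of_momA hd.1 hr ih)
      (K.momB_of_momA hd.1 le_rfl (K.momA_one d))

theorem momB (hd : K.Good d) {r : ℕ} (hr : 1 ≤ r) : K.MomB d r :=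
  K.momB_of_momA hd.1 hr (K.momA hd hr)

theorem TT_mom (hd : K.Good d) {r : ℕ} (hr : 1 ≤ r) : ∃ C : ℝ≥0, ∀ n v g, K.Win n (ctr n v) →
    ∫⁻ x, TT d (K.pat x) n v ^ r ∂K.P n g ≤ C * K.w K.σ K.θ n v g := by
  obtain ⟨C, hC⟩ := K.momA hd (r := 2 * r) (by omega)
  refine ⟨C, fun n v g hW => ?_⟩
  refine (tz_fatou (K.P n g)
    (fun k x => ((ws d (K.pat x) 5 k n v * (ws d (K.pat x) 5 k n v - 1) : ℕ) : ℝ≥0∞))
    (fun k => tz_meas_nat (K.ws_meas hd.1 5 k n v) fun j => ((j * (j - 1) : ℕ) : ℝ≥0∞))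
    r).trans ?_
  refine liminf_le_of_frequently_le' (Frequently.of_forall fun k => ?_)
  refine le_trans (lintegral_mono fun x => ?_) (hC k n v g hW)
  rw [← Nat.cast_pow]
  exact Nat.cast_le.2 (mul_pred_pow_le r _ hr)

theorem tz_ZZ_le (hd : K.Good d) {r : ℕ} (hr : 1 ≤ r) (n : ℕ) (v : ℤ × ℤ) (g : C(ℂ, ℝ)) :
    ∫⁻ x, ZZ d (K.pat x) n v ^ r ∂K.P n g ≤
      liminf (fun k => ((1681 * 4 ^ d : ℕ) : ℝ≥0∞) ^ (2 * r - 1) *
        ∑ q ∈ (nbh 20 v).biUnion (kids d),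
          ∫⁻ x, ((u d (K.pat x) k (n + d) q ^ (2 * r) : ℕ) : ℝ≥0∞) ∂K.P n g) atTop := by
  have e : ∀ x, ZZ d (K.pat x) n v =
      liminf (fun k => ((ws d (K.pat x) 20 (k + 1) n v ^ 2 : ℕ) : ℝ≥0∞)) atTop := fun x =>
    (liminf_nat_add (fun k => ((ws d (K.pat x) 20 k n v ^ 2 : ℕ) : ℝ≥0∞)) 1).symm
  simp only [e]
  refine (tz_fatou (K.P n g)
    (fun k x => ((ws d (K.pat x) 20 (k + 1) n v ^ 2 : ℕ) : ℝ≥0∞))
    (fun k => tz_meas_nat (K.ws_meas hd.1 20 (k + 1) n v) fun j => ((j ^ 2 : ℕ) : ℝ≥0∞))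
    r).trans ?_
  refine liminf_le_liminf (Eventually.of_forall fun k => ?_)
  have hm : ∀ q, Measurable fun x => ((u d (K.pat x) k (n + d) q ^ (2 * r) : ℕ) : ℝ≥0∞) :=
    fun q => tz_meas_nat (K.u_meas hd.1 k (n + d) q) fun j => ((j ^ (2 * r) : ℕ) : ℝ≥0∞)
  rw [← lintegral_finset_sum _ fun q _ => hm q,
    ← lintegral_const_mul _ (Finset.measurable_sum _ fun q _ => hm q)]
  refine lintegral_mono fun x => ?_
  have hcard : ((nbh 20 v).biUnion (kids d)).card ≤ 1681 * 4 ^ d := by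
    refine Finset.card_biUnion_le.trans (le_of_eq ?_)
    simp only [card_kids, Finset.sum_const, card_nbh, smul_eq_mul]
    norm_num
  have h1 : ((ws d (K.pat x) 20 (k + 1) n v : ℕ) : ℝ≥0∞) ≤
      ∑ q ∈ (nbh 20 v).biUnion (kids d), ((u d (K.pat x) k (n + d) q : ℕ) : ℝ≥0∞) := by
    rw [← Nat.cast_sum]
    exact Nat.cast_le.2 (ws_succ_le 20 k n v)
  calc (((ws d (K.pat x) 20 (k + 1) n v ^ 2 : ℕ) : ℝ≥0∞)) ^ r
      = ((ws d (K.pat x) 20 (k + 1) n v : ℕ) : ℝ≥0∞) ^ (2 * r) := by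
        rw [Nat.cast_pow, ← pow_mul]
    _ ≤ (∑ q ∈ (nbh 20 v).biUnion (kids d), ((u d (K.pat x) k (n + d) q : ℕ) : ℝ≥0∞)) ^
          (2 * r) := pow_le_pow_left' h1 _
    _ ≤ _ := sum_pow_le _ _ (by omega)
    _ ≤ _ := by
        simp only [Nat.cast_pow (u _ _ _ _ _)]
        exact mul_le_mul_left (pow_le_pow_left' (Nat.cast_le.2 hcard) _) _

theorem tz_abs_le (s : ℝ) (h : |s| ≤ K.σ + 1) : 96 * |s| ≤ K.θ := by
  have h1 := K.θ_ge
  have h2 := K.σ_pos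
  linarith

theorem ZZ_mom (hd : K.Good d) {r : ℕ} (hr : 1 ≤ r) : ∃ C : ℝ≥0, ∀ n v g, K.Win n (ctr n v) →
    ∫⁻ x, ZZ d (K.pat x) n v ^ r ∂K.P n g ≤ C * K.w K.γ K.θ n v g ∧
    ∫⁻ x, ZZ d (K.pat x) n v ^ r ∂K.P n g ≤ C * K.w (-1) K.θ n v g := by
  obtain ⟨CB, hB⟩ := K.momB hd (r := 2 * r) (by omega)
  have hσ := K.σ_pos
  obtain ⟨C1, h1⟩ := K.lift K.γ (K.tz_abs_le K.γ (by
    rw [abs_of_pos K.γ_pos]; linarith [K.γ_lt]))
  obtain ⟨C2, h2⟩ := K.down' (-1) (K.tz_abs_le (-1) (by rw [abs_neg, abs_one]; linarith))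
  obtain ⟨C3, h3⟩ := K.down' 0 (K.tz_abs_le 0 (by rw [abs_zero]; linarith))
  set N : ℝ≥0∞ := ((1681 * 4 ^ d : ℕ) : ℝ≥0∞) with hN
  have hNt : N ≠ ∞ := ENNReal.natCast_ne_top _
  obtain ⟨A1, hA1⟩ : ∃ A : ℝ≥0, N ^ (2 * r - 1) * (N * (CB *
      (C1 * ENNReal.ofReal ((2 : ℝ) ^ (-(d * K.z K.γ)))))) = A :=
    ⟨_, (ENNReal.coe_toNNReal (by finiteness)).symm⟩
  obtain ⟨A2, hA2⟩ : ∃ A : ℝ≥0, N ^ (2 * r - 1) * (N * (CB *
      (C2 * ENNReal.ofReal ((2 : ℝ) ^ (-(d * K.z (-1))))))) = A :=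
    ⟨_, (ENNReal.coe_toNNReal (by finiteness)).symm⟩
  obtain ⟨A3, hA3⟩ : ∃ A : ℝ≥0, N ^ (2 * r - 1) * (N *
      (C3 * ENNReal.ofReal ((2 : ℝ) ^ (-(d * K.z 0))))) = A :=
    ⟨_, (ENNReal.coe_toNNReal (by finiteness)).symm⟩
  refine ⟨A1 + A2 + 1, fun n v g hW => ?_⟩
  have hcard : (((nbh 20 v).biUnion (kids d)).card : ℝ≥0∞) ≤ N := by
    refine Nat.cast_le.2 (Finset.card_biUnion_le.trans (le_of_eq ?_))
    simp only [card_kids, Finset.sum_const, card_nbh, smul_eq_mul]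
    norm_num
  have hm : ∀ k q, Measurable fun x => ((u d (K.pat x) k (n + d) q ^ (2 * r) : ℕ) : ℝ≥0∞) :=
    fun k q => tz_meas_nat (K.u_meas hd.1 k (n + d) q) fun j => ((j ^ (2 * r) : ℕ) : ℝ≥0∞)
  have hsub : ∀ q ∈ (nbh 20 v).biUnion (kids d), Sub n (ctr n v) (n + d) (ctr (n + d) q) :=
    fun q hq => sub_nbh_kids (by have := hd.1; omega) (by norm_num) hq
  have hsum : ∀ (a : ℤ × ℤ → ℝ≥0∞) (b : ℝ≥0∞), (∀ q ∈ (nbh 20 v).biUnion (kids d), a q ≤ b) →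
      ∑ q ∈ (nbh 20 v).biUnion (kids d), a q ≤ N * b := by
    intro a b h
    refine (Finset.sum_le_card_nsmul _ _ _ h).trans ?_
    rw [nsmul_eq_mul]
    exact mul_le_mul_left hcard _
  constructor
  · refine (K.tz_ZZ_le hd hr n v g).trans ?_
    refine liminf_le_of_frequently_le' (Frequently.of_forall fun k => ?_)
    refine le_trans (mul_le_mul_right (hsum _ _ fun q hq =>
      h1 n d _ _ g CB _ (hm k q) (hsub q hq) fun g' =>
        (hB k (n + d) q g' (hW.sub (hsub q hq))).1) _) ?_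
    calc _ = (A1 : ℝ≥0∞) * K.w K.γ K.θ n v g := by rw [← hA1]; simp only [w, mul_assoc, hN]
      _ ≤ _ := mul_le_mul_left (by push_cast; exact le_self_add.trans le_self_add) _
  · by_cases htop : K.w 0 K.θ n v g = ∞
    · have : K.w (-1) K.θ n v g = ∞ := by
        unfold w at htop ⊢
        rw [wt_eq K.Q (-1) 0, htop, ENNReal.mul_top]
        exact (ENNReal.ofReal_pos.2 (Real.exp_pos _)).ne'
      rw [this, ENNReal.mul_top (by simp)]
      exact le_top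
    refine (K.tz_ZZ_le hd hr n v g).trans ?_
    have hk : ∀ k, N ^ (2 * r - 1) * ∑ q ∈ (nbh 20 v).biUnion (kids d),
        ∫⁻ x, ((u d (K.pat x) k (n + d) q ^ (2 * r) : ℕ) : ℝ≥0∞) ∂K.P n g ≤
        A2 * K.w (-1) K.θ n v g + 2⁻¹ ^ k * (A3 * K.w 0 K.θ n v g) := by
      intro k
      have hq : ∀ q ∈ (nbh 20 v).biUnion (kids d),
          ∫⁻ x, ((u d (K.pat x) k (n + d) q ^ (2 * r) : ℕ) : ℝ≥0∞) ∂K.P n g ≤
          CB * (C2 * ENNReal.ofReal ((2 : ℝ) ^ (-(d * K.z (-1)))) * K.w (-1) K.θ n v g) +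
            2⁻¹ ^ k * (C3 * ENNReal.ofReal ((2 : ℝ) ^ (-(d * K.z 0))) * K.w 0 K.θ n v g) := by
        intro q hq
        rw [K.tower_lay n d g (hm k q)]
        refine (lintegral_mono fun η =>
          (hB k (n + d) q (g + η) (hW.sub (hsub q hq))).2.2).trans ?_
        have m1 : ∀ s, Measurable fun η : C(ℂ, ℝ) => K.w s K.θ (n + d) q (g + η) := fun s =>
          (K.measurable_wt s K.θ (n + d) _).comp (K.measurable_add_left g)
        rw [lintegral_add_left ((m1 _).const_mul _), lintegral_const_mul _ (m1 _),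
          lintegral_const_mul _ (m1 _)]
        exact add_le_add (mul_le_mul_right (h2 n d _ _ g (hsub q hq)) _)
          (mul_le_mul_right (h3 n d _ _ g (hsub q hq)) _)
      refine (mul_le_mul_right (hsum _ _ hq) _).trans (le_of_eq ?_)
      rw [← hA2, ← hA3]
      ring
    refine (liminf_le_liminf (Eventually.of_forall hk)).trans ?_
    have ht : Tendsto (fun k : ℕ => (A2 : ℝ≥0∞) * K.w (-1) K.θ n v g +
        2⁻¹ ^ k * (A3 * K.w 0 K.θ n v g)) atTop (𝓝 (A2 * K.w (-1) K.θ n v g + 0)) := by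
      refine tendsto_const_nhds.add ?_
      have := ENNReal.Tendsto.mul_const (b := (A3 : ℝ≥0∞) * K.w 0 K.θ n v g)
        (ENNReal.tendsto_pow_atTop_nhds_zero_of_lt_one (r := 2⁻¹) (by norm_num))
        (Or.inr (ENNReal.mul_ne_top ENNReal.coe_ne_top htop))
      rwa [zero_mul] at this
    rw [ht.liminf_eq, add_zero]
    exact mul_le_mul_left (by push_cast; exact le_add_self.trans le_self_add) _

theorem tz_w_le {s s' a : ℝ} {n : ℕ} {v : ℤ × ℤ} {g : C(ℂ, ℝ)}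
    (h : (s - s') * cc K.Q n (ctr n v) g ≤ a) :
    K.w s K.θ n v g ≤ K.w s' K.θ n v g * ENNReal.ofReal (Real.exp a) := by
  unfold w
  rw [wt_eq K.Q s s', mul_comm]
  exact mul_le_mul_right (ENNReal.ofReal_le_ofReal (Real.exp_le_exp.2 h)) _

theorem ZZ_mom_abs (hd : K.Good d) {r : ℕ} (hr : 1 ≤ r) : ∃ C : ℝ≥0, ∀ n v g,
    K.Win n (ctr n v) → ∫⁻ x, ZZ d (K.pat x) n v ^ r ∂K.P n g ≤
      C * (K.w 0 K.θ n v g *
        ENNReal.ofReal (Real.exp (-(min K.γ 1 * |cc K.Q n (ctr n v) g|)))) := by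
  obtain ⟨C, hC⟩ := K.ZZ_mom hd hr
  refine ⟨C, fun n v g hW => ?_⟩
  have m1 := min_le_left K.γ 1
  have m2 := min_le_right K.γ 1
  rcases le_total 0 (cc K.Q n (ctr n v) g) with hc | hc
  · refine (hC n v g hW).2.trans (mul_le_mul_right (K.tz_w_le ?_) _)
    rw [abs_of_nonneg hc]
    nlinarith
  · refine (hC n v g hW).1.trans (mul_le_mul_right (K.tz_w_le ?_) _)
    rw [abs_of_nonpos hc]
    nlinarith

theorem TT_one_abs (hd : K.Good d) : ∃ C : ℝ≥0, ∀ n v g, K.Win n (ctr n v) →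
    ∫⁻ x, TT d (K.pat x) n v ∂K.P n g ≤
      C * (K.w K.γ K.θ n v g *
        ENNReal.ofReal (Real.exp (-(min (K.σ - K.γ) 1 * |cc K.Q n (ctr n v) g|)))) := by
  obtain ⟨C, hC⟩ := K.ZZ_mom hd (r := 1) le_rfl
  obtain ⟨C', hC'⟩ := K.TT_mom hd (r := 1) le_rfl
  refine ⟨C + C', fun n v g hW => ?_⟩
  have m1 := min_le_left (K.σ - K.γ) 1
  have m2 := min_le_right (K.σ - K.γ) 1
  have hγ := K.γ_pos
  rcases le_total 0 (cc K.Q n (ctr n v) g) with hc | hc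
  · have h1 := (hC n v g hW).2
    simp only [pow_one] at h1
    refine ((lintegral_mono fun x => TT_le_ZZ n v).trans h1).trans
      (mul_le_mul' (by push_cast; exact le_self_add) (K.tz_w_le ?_))
    rw [abs_of_nonneg hc]
    nlinarith
  · have h1 := hC' n v g hW
    simp only [pow_one] at h1
    refine h1.trans (mul_le_mul' (by push_cast; exact le_add_self) (K.tz_w_le ?_))
    rw [abs_of_nonpos hc]
    nlinarith

theorem TT_rpow (hd : K.Good d) : ∃ C : ℝ≥0, ∀ n v g, K.Win n (ctr n v) →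
    ∫⁻ x, TT d (K.pat x) n v ^ (K.σ / K.γ) ∂K.P n g ≤ C * K.w K.σ K.θ n v g := by
  obtain ⟨C, hC⟩ := K.TT_mom hd (r := 1) le_rfl
  obtain ⟨C', hC'⟩ := K.TT_mom hd (r := 2) (by norm_num)
  refine ⟨C + C', fun n v g hW => ?_⟩
  have h1 : 1 ≤ K.σ / K.γ := (one_le_div K.γ_pos).2 K.γ_lt.le
  have h2 : K.σ / K.γ ≤ 2 := (div_le_iff₀ K.γ_pos).2 K.σ_le
  refine (lintegral_mono fun x => tz_rpow_le _ h1 h2).trans ?_
  rw [lintegral_add_left ((K.TT_meas hd.1 n v).pow_const 1)]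
  push_cast
  rw [add_mul]
  exact add_le_add (hC n v g hW) (hC' n v g hW)

end Casc

end Pool.Agent.Lib.MP_0d9445_pr.CR
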