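import Pool.Agent.Lib.MP_0d9445_pr.CR.Chain
import Pool.Agent.Lib.MP_0d9445_pr.CR.Soft

/-! A deterministic bound for `KK` at large height. -/

open MeasureTheory ProbabilityTheory Set Filter Topology
open scoped ENNReal NNReal

namespace Pool.Agent.Lib.MP_0d9445_pr.CR

theorem LLN_inv_mul (k : ℕ) : (4 : ℝ≥0∞)⁻¹ ^ k * 4 ^ k = 1 := by
  rw [← mul_pow, ENNReal.inv_mul_cancel (by norm_num) (by norm_num), one_pow]

theorem LLN_avg_le {ι : Type*} {I : Finset ι} {k : ℕ} (hI : I.card = 4 ^ k) {f : ι → ℝ≥0∞}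
    {B : ℝ≥0∞} (h : ∀ i ∈ I, f i ≤ B) : (4 : ℝ≥0∞)⁻¹ ^ k * ∑ i ∈ I, f i ≤ B := by
  have h1 : ∑ i ∈ I, f i ≤ 4 ^ k * B := by
    refine (Finset.sum_le_card_nsmul I f B h).trans (le_of_eq ?_)
    rw [hI, nsmul_eq_mul]
    push_cast
    rfl
  calc (4 : ℝ≥0∞)⁻¹ ^ k * ∑ i ∈ I, f i ≤ (4 : ℝ≥0∞)⁻¹ ^ k * (4 ^ k * B) := by gcongr
    _ = B := by rw [← mul_assoc, LLN_inv_mul, one_mul]

theorem LLN_half_pow (m : ℕ) : ENNReal.ofReal ((2 : ℝ)⁻¹ ^ m) = (2 : ℝ≥0∞)⁻¹ ^ m := by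
  rw [ENNReal.ofReal_pow (by norm_num), ENNReal.ofReal_inv_of_pos (by norm_num)]
  norm_num

namespace Casc

variable {Ξ : Type} [MeasurableSpace Ξ] [MeasurableSpace C(ℂ, ℝ)] (K : Casc Ξ)

/-- average of `KK` over the descendants `m` levels below -/
noncomputable def LLN_xi (d m n : ℕ) (q : ℤ × ℤ) (x : Ξ) : ℝ≥0∞ :=
  (4 : ℝ≥0∞)⁻¹ ^ m * ∑ w ∈ kids m q, KK d (K.pat x) (n + m) w

theorem LLN_xi_loc {d : ℕ} (hd : 7 ≤ d) (m n : ℕ) (q : ℤ × ℤ) :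
    Measurable[K.G (reg n q 21)] (K.LLN_xi d m n q) := by
  have h : ∀ w ∈ kids m q,
      Measurable[K.G (reg n q 21)] fun x => KK d (K.pat x) (n + m) w := fun w hw => by
    refine (K.KK_loc hd (n + m) w).mono (K.G_mono _ _ (reg_kids_subset hw ?_)) le_rfl
    have h1 : (2 : ℝ)⁻¹ ^ m ≤ 1 := pow_le_one₀ (by norm_num) (by norm_num)
    linarith
  exact Measurable.const_mul (Finset.measurable_sum _ h) _

theorem LLN_xi_meas {d : ℕ} (hd : 7 ≤ d) (m n : ℕ) (q : ℤ × ℤ) :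
    Measurable (K.LLN_xi d m n q) :=
  (K.LLN_xi_loc hd m n q).mono (K.G_le _) le_rfl

theorem LLN_z_zero (m : ℕ) : ENNReal.ofReal ((2 : ℝ) ^ (-(m * K.z 0))) = 1 := by
  rw [K.z_zero]
  simp

theorem LLN_xi_one {d : ℕ} (hd : K.Good d) : ∃ C : ℝ≥0, ∀ n m q g, K.Win n (ctr n q) →
    ∫⁻ x, K.LLN_xi d m n q x ∂K.P n g ≤
      C * (1 + (2 : ℝ≥0∞)⁻¹ ^ m * K.w 0 (2 * K.θ) n q g) := by
  obtain ⟨C1, h1⟩ := K.KK_mom hd (r := 1) le_rfl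
  have hθ : 0 ≤ 2 * K.θ := by linarith [K.θ_pos]
  obtain ⟨C2, h2⟩ := K.down 0 hθ
  refine ⟨C1 * C2, fun n m q g hW => ?_⟩
  unfold LLN_xi
  rw [lintegral_const_mul _ (Finset.measurable_sum _ fun w _ => K.KK_meas hd.1 _ w),
    lintegral_finsetSum _ fun w _ => K.KK_meas hd.1 _ w]
  refine LLN_avg_le (card_kids m q) fun w hw => ?_
  have hs := sub_kids (n := n) hw
  rw [K.tower_lay n m g (K.KK_meas hd.1 _ w)]
  calc ∫⁻ η, ∫⁻ x, KK d (K.pat x) (n + m) w ∂K.P (n + m) (g + η) ∂K.lay n m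
      ≤ ∫⁻ η, C1 * wt K.Q 0 (2 * K.θ) (n + m) (ctr (n + m) w) (g + η) ∂K.lay n m := by
        refine lintegral_mono fun η => ?_
        have := h1 (n + m) w (g + η) (hW.sub hs)
        simp only [pow_one] at this
        exact this
    _ = C1 * ∫⁻ η, wt K.Q 0 (2 * K.θ) (n + m) (ctr (n + m) w) (g + η) ∂K.lay n m :=
        lintegral_const_mul _ ((K.measurable_wt _ _ _ _).comp (K.measurable_add_left g))
    _ ≤ C1 * (C2 * ENNReal.ofReal ((2 : ℝ) ^ (-(m * K.z 0))) *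
          wt K.Q 0 (2 * K.θ * (2 : ℝ)⁻¹ ^ m + 48 * |(0 : ℝ)|) n (ctr n q) g) := by
        gcongr
        exact h2 n m _ _ g hs
    _ ≤ (C1 * C2 : ℝ≥0) * (1 + (2 : ℝ≥0∞)⁻¹ ^ m * K.w 0 (2 * K.θ) n q g) := by
        rw [K.LLN_z_zero, mul_one, ← mul_assoc]
        push_cast
        gcongr
        unfold Casc.w
        rw [wt_zero, wt_zero, abs_zero, mul_zero, add_zero, mul_comm (2 * K.θ),
          ENNReal.ofReal_mul (by positivity), mul_assoc, ← LLN_half_pow]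
        exact ex_mul_le (by positivity) (pow_le_one₀ (by norm_num) (by norm_num)) _

theorem LLN_xi_two {d : ℕ} (hd : K.Good d) : ∃ C : ℝ≥0, ∀ n m q g, K.Win n (ctr n q) →
    ∫⁻ x, K.LLN_xi d m n q x ^ 2 ∂K.P n g ≤ C * K.w 0 (2 * K.θ) n q g := by
  obtain ⟨C, h⟩ := K.KK_lift hd (r := 2) (by norm_num)
  refine ⟨C, fun n m q g hW => ?_⟩
  have hm : ∀ w, Measurable fun x => KK d (K.pat x) (n + m) w ^ 2 := fun w =>
    (K.KK_meas hd.1 _ w).pow_const 2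
  calc ∫⁻ x, K.LLN_xi d m n q x ^ 2 ∂K.P n g
      ≤ ∫⁻ x, (4 : ℝ≥0∞)⁻¹ ^ m * ∑ w ∈ kids m q, KK d (K.pat x) (n + m) w ^ 2 ∂K.P n g := by
        refine lintegral_mono fun x => ?_
        unfold LLN_xi
        have h1 := sum_pow_le (kids m q) (fun w => KK d (K.pat x) (n + m) w) (r := 2)
          (by norm_num)
        rw [card_kids] at h1
        push_cast at h1
        calc ((4 : ℝ≥0∞)⁻¹ ^ m * ∑ w ∈ kids m q, KK d (K.pat x) (n + m) w) ^ 2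
            = ((4 : ℝ≥0∞)⁻¹ ^ m) ^ 2 * (∑ w ∈ kids m q, KK d (K.pat x) (n + m) w) ^ 2 :=
              mul_pow _ _ _
          _ ≤ ((4 : ℝ≥0∞)⁻¹ ^ m) ^ 2 *
              ((4 ^ m) ^ 1 * ∑ w ∈ kids m q, KK d (K.pat x) (n + m) w ^ 2) := by gcongr
          _ = (4 : ℝ≥0∞)⁻¹ ^ m * ((4 : ℝ≥0∞)⁻¹ ^ m * 4 ^ m) *
              ∑ w ∈ kids m q, KK d (K.pat x) (n + m) w ^ 2 := by ring
          _ = _ := by rw [LLN_inv_mul, mul_one]
    _ ≤ C * K.w 0 (2 * K.θ) n q g := by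
        rw [lintegral_const_mul _ (Finset.measurable_sum _ fun w _ => hm w),
          lintegral_finsetSum _ fun w _ => hm w]
        refine LLN_avg_le (card_kids m q) fun w hw => ?_
        have hs := sub_kids (n := n) hw
        exact h n m _ g w (hW.sub hs) hs

/-- concentration at the level of the boxes `q` -/
theorem LLN_level {d : ℕ} (hd : K.Good d) : ∃ C1 C2 : ℝ≥0, ∀ n m j (I : Finset (ℤ × ℤ)) g,
    (∀ q ∈ I, K.Win n (ctr n q)) → I.card = 4 ^ j →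
    K.P n g {x | 1 + 2 * (C1 : ℝ≥0∞) < (4 : ℝ≥0∞)⁻¹ ^ j * ∑ q ∈ I, K.LLN_xi d m n q x} ≤
      (C2 * (4 : ℝ≥0∞)⁻¹ ^ j + (2 : ℝ≥0∞)⁻¹ ^ m) *
        ((4 : ℝ≥0∞)⁻¹ ^ j * ∑ q ∈ I, K.w 0 (2 * K.θ) n q g) := by
  obtain ⟨C1, h1⟩ := K.LLN_xi_one hd
  obtain ⟨C2, h2⟩ := K.LLN_xi_two hd
  refine ⟨C1, 7225 * C2, fun n m j I g hW hI => ?_⟩
  set S : ℝ≥0∞ := ∑ q ∈ I, K.w 0 (2 * K.θ) n q g with hS
  by_cases hbad : 1 ≤ (2 : ℝ≥0∞)⁻¹ ^ m * ((4 : ℝ≥0∞)⁻¹ ^ j * S)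
  · refine prob_le_one.trans (hbad.trans ?_)
    gcongr
    exact le_add_self
  have hgood : (2 : ℝ≥0∞)⁻¹ ^ m * S ≤ 4 ^ j := by
    have h3 : (2 : ℝ≥0∞)⁻¹ ^ m * ((4 : ℝ≥0∞)⁻¹ ^ j * S) ≤ 1 := (not_le.1 hbad).le
    calc (2 : ℝ≥0∞)⁻¹ ^ m * S
        = ((4 : ℝ≥0∞)⁻¹ ^ j * 4 ^ j) * ((2 : ℝ≥0∞)⁻¹ ^ m * S) := by rw [LLN_inv_mul, one_mul]
      _ = 4 ^ j * ((2 : ℝ≥0∞)⁻¹ ^ m * ((4 : ℝ≥0∞)⁻¹ ^ j * S)) := by ring
      _ ≤ 4 ^ j * 1 := by gcongr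
      _ = 4 ^ j := mul_one _
  have hmean : ∑ q ∈ I, ∫⁻ y, K.LLN_xi d m n q y ∂K.P n g ≤ 2 * C1 * 4 ^ j := by
    calc ∑ q ∈ I, ∫⁻ y, K.LLN_xi d m n q y ∂K.P n g
        ≤ ∑ q ∈ I, (C1 : ℝ≥0∞) * (1 + (2 : ℝ≥0∞)⁻¹ ^ m * K.w 0 (2 * K.θ) n q g) :=
          Finset.sum_le_sum fun q hq => h1 n m q g (hW q hq)
      _ = C1 * (4 ^ j + (2 : ℝ≥0∞)⁻¹ ^ m * S) := by
          rw [← Finset.mul_sum, Finset.sum_add_distrib, ← Finset.mul_sum, Finset.sum_const, hI,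
            nsmul_eq_mul, mul_one]
          push_cast
          rfl
      _ ≤ C1 * (4 ^ j + 4 ^ j) := by gcongr
      _ = 2 * C1 * 4 ^ j := by ring
  have hc := conc (K.P n g) I (nbh 42) (N := 7225)
    (fun i _ => by rw [card_nbh]; norm_num) (fun i _ k _ h => mem_nbh_comm.1 h)
    (fun i _ => self_mem_nbh 42 i) (ξ := fun q => K.LLN_xi d m n q)
    (fun q _ => K.LLN_xi_meas hd.1 m n q)
    (fun q _ q' _ h => le_of_eq (K.lintegral_mul_far g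
      (fun x hx y hy => reg_far h (r := 21) (by norm_num) hx hy)
      (K.LLN_xi_loc hd.1 m n q) (K.LLN_xi_loc hd.1 m n q')))
    (t := 4 ^ j) (by positivity) (ENNReal.pow_ne_top (by norm_num))
  have hsub : {x | 1 + 2 * (C1 : ℝ≥0∞) < (4 : ℝ≥0∞)⁻¹ ^ j * ∑ q ∈ I, K.LLN_xi d m n q x} ⊆
      {x | ∑ q ∈ I, ∫⁻ y, K.LLN_xi d m n q y ∂K.P n g + 4 ^ j < ∑ q ∈ I, K.LLN_xi d m n q x} := by
    intro x hx
    by_contra hcon
    have h3 : ∑ q ∈ I, K.LLN_xi d m n q x ≤ 2 * C1 * 4 ^ j + 4 ^ j :=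
      (not_lt.1 hcon).trans (by gcongr)
    have h4 : (4 : ℝ≥0∞)⁻¹ ^ j * ∑ q ∈ I, K.LLN_xi d m n q x ≤ 1 + 2 * C1 := by
      calc (4 : ℝ≥0∞)⁻¹ ^ j * ∑ q ∈ I, K.LLN_xi d m n q x
          ≤ (4 : ℝ≥0∞)⁻¹ ^ j * (2 * C1 * 4 ^ j + 4 ^ j) := by gcongr
        _ = ((4 : ℝ≥0∞)⁻¹ ^ j * 4 ^ j) * (1 + 2 * C1) := by ring
        _ = 1 + 2 * C1 := by rw [LLN_inv_mul, one_mul]
    exact absurd hx (not_lt.2 h4)
  refine (measure_mono hsub).trans (hc.trans ?_)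
  have h5 : ∑ q ∈ I, ∫⁻ y, K.LLN_xi d m n q y ^ 2 ∂K.P n g ≤ C2 * S := by
    rw [hS, Finset.mul_sum]
    exact Finset.sum_le_sum fun q hq => h2 n m q g (hW q hq)
  calc ((7225 : ℕ) : ℝ≥0∞) * (∑ q ∈ I, ∫⁻ y, K.LLN_xi d m n q y ^ 2 ∂K.P n g) / (4 ^ j) ^ 2
      ≤ ((7225 : ℕ) : ℝ≥0∞) * (C2 * S) / (4 ^ j) ^ 2 := by gcongr
    _ = ((7225 * C2 : ℝ≥0) * (4 : ℝ≥0∞)⁻¹ ^ j) * ((4 : ℝ≥0∞)⁻¹ ^ j * S) := by
        rw [div_eq_mul_inv, ENNReal.inv_pow, ENNReal.inv_pow]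
        push_cast
        ring
    _ ≤ _ := by
        gcongr
        exact le_self_add

/-- the fine part seen from the top level -/
theorem LLN_fine {d : ℕ} (hd : K.Good d) : ∃ C1 C2 C3 : ℝ≥0, ∀ n m j v g, K.Win n (ctr n v) →
    K.P n g {x | 1 + 2 * (C1 : ℝ≥0∞) <
        (4 : ℝ≥0∞)⁻¹ ^ j * ∑ q ∈ kids j v, K.LLN_xi d m (n + j) q x} ≤
      (C2 * (4 : ℝ≥0∞)⁻¹ ^ j + (2 : ℝ≥0∞)⁻¹ ^ m) * (C3 * K.w 0 (2 * K.θ) n v g) := by
  obtain ⟨C1, C2, h1⟩ := K.LLN_level hd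
  obtain ⟨C3, h3⟩ := K.down' 0 (t := 2 * K.θ) (by rw [abs_zero]; linarith [K.θ_pos])
  refine ⟨C1, C2, C3, fun n m j v g hW => ?_⟩
  have hmw : ∀ q, Measurable fun η => K.w 0 (2 * K.θ) (n + j) q (g + η) := fun q =>
    (K.measurable_wt _ _ _ _).comp (K.measurable_add_left g)
  rw [K.tower_set n j g (measurableSet_lt measurable_const
    ((Finset.measurable_sum _ fun q _ => K.LLN_xi_meas hd.1 m (n + j) q).const_mul _))]
  refine (lintegral_mono fun η => h1 (n + j) m j (kids j v) (g + η)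
    (fun q hq => hW.sub (sub_kids hq)) (card_kids j v)).trans ?_
  rw [lintegral_const_mul _ ((Finset.measurable_sum _ fun q _ => hmw q).const_mul _),
    lintegral_const_mul _ (Finset.measurable_sum _ fun q _ => hmw q),
    lintegral_finsetSum _ fun q _ => hmw q]
  refine mul_le_mul_right (LLN_avg_le (card_kids j v) fun q hq => ?_) _
  have := h3 n j _ _ g (sub_kids (n := n) hq)
  rw [K.LLN_z_zero, mul_one] at this
  exact this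

/-- the coarse part is soft -/
theorem LLN_coarse {d : ℕ} (hd : K.Good d) (J : ℕ) :
    K.Soft fun n v => {x | 1 < ∑ i ∈ Finset.range J, (4 : ℝ≥0∞)⁻¹ ^ (i * d) *
      ∑ w ∈ kids (i * d) v, ZZ d (K.pat x) (n + i * d) w} := by
  obtain ⟨C1, h1⟩ := K.ZZ_mom hd (r := 1) le_rfl
  obtain ⟨C2, h2⟩ := K.lift (-1) (t := K.θ)
    (by rw [abs_neg, abs_one]; linarith [K.θ_ge, K.σ_pos])
  refine soft_of_le (t := K.θ) (C := ∑ i ∈ Finset.range J,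
    C1 * (C2 * ((2 : ℝ) ^ (-(((i * d : ℕ) : ℝ) * K.z (-1)))).toNNReal)) K.θ_pos.le
    fun n v g hW => ?_
  have hmz : ∀ i w, Measurable fun x => ZZ d (K.pat x) (n + i * d) w := fun i w =>
    K.ZZ_meas hd.1 _ w
  have hm : ∀ i, Measurable fun x => (4 : ℝ≥0∞)⁻¹ ^ (i * d) *
      ∑ w ∈ kids (i * d) v, ZZ d (K.pat x) (n + i * d) w := fun i =>
    (Finset.measurable_sum _ fun w _ => hmz i w).const_mul _
  have hM := meas_ge_le_lintegral_div (μ := K.P n g)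
    (Finset.measurable_sum (Finset.range J) fun i _ => hm i).aemeasurable one_ne_zero
    ENNReal.one_ne_top
  rw [div_one] at hM
  refine le_trans (measure_mono ?_) (hM.trans ?_)
  · intro x hx
    exact le_of_lt (mem_ofPred_eq ▸ hx)
  rw [lintegral_finsetSum _ fun i _ => hm i, ENNReal.ofNNReal_finsetSum, Finset.sum_mul]
  refine Finset.sum_le_sum fun i _ => ?_
  rw [lintegral_const_mul _ (Finset.measurable_sum _ fun w _ => hmz i w),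
    lintegral_finsetSum _ fun w _ => hmz i w]
  refine LLN_avg_le (card_kids _ v) fun w hw => ?_
  have hs := sub_kids (n := n) hw
  have := h2 n (i * d) _ _ g C1 _ (hmz i w) hs fun g' => by
    have h3 := (h1 (n + i * d) w g' (hW.sub hs)).2
    simp only [pow_one] at h3
    exact h3
  refine this.trans (le_of_eq ?_)
  push_cast
  unfold Casc.w
  rw [ENNReal.ofReal]
  ring

/-- C8 b -/
theorem KK_lln {d : ℕ} (hd : K.Good d) :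
    ∃ C : ℝ≥0, K.Soft fun n v => {x | (C : ℝ≥0∞) < KK d (K.pat x) n v} := by
  obtain ⟨C1, C2, C3, h⟩ := K.LLN_fine hd
  refine ⟨2 + 2 * C1, soft_of_approx fun ε L hε => ?_⟩
  set B : ℝ≥0∞ := (C2 + 1) * (C3 * ENNReal.ofReal (Real.exp (2 * K.θ * L))) with hB
  have hBtop : B ≠ ∞ :=
    ENNReal.mul_ne_top (ENNReal.add_ne_top.2 ⟨ENNReal.coe_ne_top, ENNReal.one_ne_top⟩)
      (ENNReal.mul_ne_top ENNReal.coe_ne_top ENNReal.ofReal_ne_top)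
  obtain ⟨k, hk⟩ : ∃ k : ℕ, B * (2 : ℝ≥0∞)⁻¹ ^ k ≤ ε := by
    have h1 : Tendsto (fun k : ℕ => B * (2 : ℝ≥0∞)⁻¹ ^ k) atTop (𝓝 (B * 0)) :=
      ENNReal.Tendsto.const_mul (ENNReal.tendsto_pow_atTop_nhds_zero_of_lt_one (by norm_num))
        (Or.inr hBtop)
    rw [mul_zero] at h1
    exact (h1.eventually (ge_mem_nhds hε)).exists
  refine ⟨_, fun n v => {x | 1 + 2 * (C1 : ℝ≥0∞) < (4 : ℝ≥0∞)⁻¹ ^ (k * d) *
    ∑ q ∈ kids (k * d) v, K.LLN_xi d (k * d) (n + k * d) q x}, K.LLN_coarse hd (k + k),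
    fun n v x hx => ?_, fun n v g hW hL => ?_⟩
  · by_contra hcon
    simp only [mem_union, mem_ofPred_eq, not_or, not_lt] at hcon
    have h1 : (4 : ℝ≥0∞)⁻¹ ^ ((k + k) * d) * ∑ q ∈ kids ((k + k) * d) v,
        KK d (K.pat x) (n + (k + k) * d) q = (4 : ℝ≥0∞)⁻¹ ^ (k * d) *
          ∑ q ∈ kids (k * d) v, K.LLN_xi d (k * d) (n + k * d) q x := by
      unfold LLN_xi
      rw [add_mul, sum_kids_add, pow_add, ← Finset.mul_sum, mul_assoc, ← add_assoc]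
    have h2 : KK d (K.pat x) n v ≤ ((2 + 2 * C1 : ℝ≥0) : ℝ≥0∞) := by
      rw [KK_split n (k + k) v, h1]
      refine (add_le_add hcon.1 hcon.2).trans (le_of_eq ?_)
      push_cast
      ring
    exact absurd hx (not_lt.2 h2)
  · refine (h n (k * d) (k * d) v g hW).trans (le_trans ?_ hk)
    have hw : K.w 0 (2 * K.θ) n v g ≤ ENNReal.ofReal (Real.exp (2 * K.θ * L)) := by
      have := wt_le_of_oo_le K.Q 0 (t := 2 * K.θ) (by linarith [K.θ_pos]) hL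
      rw [zero_mul, zero_add] at this
      exact this
    have hkd : k ≤ k * d := Nat.le_mul_of_pos_right k (by have := hd.1; omega)
    have h2 : (2 : ℝ≥0∞)⁻¹ ^ (k * d) ≤ (2 : ℝ≥0∞)⁻¹ ^ k :=
      pow_le_pow_of_le_one zero_le (by norm_num) hkd
    have h4 : (4 : ℝ≥0∞)⁻¹ ^ (k * d) ≤ (2 : ℝ≥0∞)⁻¹ ^ k := by
      refine le_trans ?_ h2
      gcongr
      norm_num
    calc (C2 * (4 : ℝ≥0∞)⁻¹ ^ (k * d) + (2 : ℝ≥0∞)⁻¹ ^ (k * d)) * (C3 * K.w 0 (2 * K.θ) n v g)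
        ≤ (C2 * (2 : ℝ≥0∞)⁻¹ ^ k + (2 : ℝ≥0∞)⁻¹ ^ k) *
            (C3 * ENNReal.ofReal (Real.exp (2 * K.θ * L))) := by gcongr
      _ = B * (2 : ℝ≥0∞)⁻¹ ^ k := by
          rw [hB]
          ring

end Casc

end Pool.Agent.Lib.MP_0d9445_pr.CR
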