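import Pool.Agent.Lib.MP_0d9445_pr.CR.Geo

/-! The exponential on `ℝ≥0∞`, slopes, weights. -/

open MeasureTheory ProbabilityTheory Set Filter Topology
open scoped ENNReal NNReal

namespace Pool.Agent.Lib.MP_0d9445_pr.CR

theorem ex_zero : ex 0 = 1 := by
  simp [ex]

theorem ex_add (a b : ℝ≥0∞) : ex (a + b) = ex a * ex b := by
  unfold ex
  rw [EReal.coe_ennreal_add, EReal.exp_add]

theorem ex_mono {a b : ℝ≥0∞} (h : a ≤ b) : ex a ≤ ex b := by
  unfold ex
  exact EReal.exp_monotone (EReal.coe_ennreal_le_coe_ennreal_iff.2 h)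

theorem one_le_ex (a : ℝ≥0∞) : 1 ≤ ex a := by
  rw [← ex_zero]
  exact ex_mono (zero_le)

theorem ex_ofReal {a : ℝ} (h : 0 ≤ a) : ex (ENNReal.ofReal a) = ENNReal.ofReal (Real.exp a) := by
  unfold ex
  rw [EReal.coe_ennreal_ofReal, max_eq_left h, EReal.exp_coe]

theorem Wt_ex_top : ex ∞ = ∞ := by
  simp [ex]

theorem ex_ne_top {a : ℝ≥0∞} (h : a ≠ ∞) : ex a ≠ ∞ := by
  rw [← ENNReal.ofReal_toReal h, ex_ofReal ENNReal.toReal_nonneg]
  exact ENNReal.ofReal_ne_top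

theorem ex_rpow {p : ℝ} (hp : 0 < p) (a : ℝ≥0∞) : ex a ^ p = ex (ENNReal.ofReal p * a) := by
  rcases eq_or_ne a ∞ with rfl | h
  · rw [ENNReal.mul_top (by simpa using hp), Wt_ex_top, ENNReal.top_rpow_of_pos hp]
  · rw [← ENNReal.ofReal_toReal h, ← ENNReal.ofReal_mul hp.le, ex_ofReal ENNReal.toReal_nonneg,
      ex_ofReal (mul_nonneg hp.le ENNReal.toReal_nonneg),
      ENNReal.ofReal_rpow_of_pos (Real.exp_pos _), ← Real.exp_mul, mul_comm]

/-- convexity -/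
theorem ex_mul_le {e : ℝ} (h0 : 0 ≤ e) (h1 : e ≤ 1) (a : ℝ≥0∞) :
    ex (ENNReal.ofReal e * a) ≤ 1 + ENNReal.ofReal e * ex a := by
  rcases h0.eq_or_lt with rfl | hpos
  · simp [ex_zero]
  rcases eq_or_ne a ∞ with rfl | h
  · rw [Wt_ex_top, ENNReal.mul_top (by simpa using hpos)]
    simp
  · rw [← ENNReal.ofReal_toReal h, ← ENNReal.ofReal_mul h0, ex_ofReal ENNReal.toReal_nonneg,
      ex_ofReal (mul_nonneg h0 ENNReal.toReal_nonneg), ← ENNReal.ofReal_mul h0,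
      ← ENNReal.ofReal_one, ← ENNReal.ofReal_add zero_le_one (by positivity)]
    apply ENNReal.ofReal_le_ofReal
    have hc := convexOn_exp.2 (Set.mem_univ (0 : ℝ)) (Set.mem_univ a.toReal)
      (sub_nonneg.2 h1) h0 (by ring)
    simp only [smul_eq_mul, mul_zero, zero_add, Real.exp_zero, mul_one] at hc
    linarith

theorem measurable_ex : Measurable ex :=
  Monotone.measurable fun _ _ h => ex_mono h

/-- `1 ≤ exp (-L) exp a` when `L < a` -/
theorem one_le_exp_neg_mul_ex {L : ℝ≥0} {a : ℝ≥0∞} (h : (L : ℝ≥0∞) ≤ a) :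
    1 ≤ ENNReal.ofReal (Real.exp (-(L : ℝ))) * ex a := by
  have h1 : ex (L : ℝ≥0∞) = ENNReal.ofReal (Real.exp L) := by
    rw [← ex_ofReal L.coe_nonneg, ENNReal.ofReal_coe_nnreal]
  calc (1 : ℝ≥0∞) = ENNReal.ofReal (Real.exp (-(L : ℝ))) * ex (L : ℝ≥0∞) := by
        rw [h1, ← ENNReal.ofReal_mul (Real.exp_pos _).le, ← Real.exp_add]
        simp
    _ ≤ _ := by gcongr; exact ex_mono h

theorem lip_mono (g : C(ℂ, ℝ)) {A B : Set ℂ} (h : A ⊆ B) : lip g A ≤ lip g B := by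
  unfold lip
  refine iSup₂_le fun x hx => iSup₂_le fun y hy => ?_
  exact le_iSup₂_of_le x (h hx) (le_iSup₂_of_le y (h hy) le_rfl)

theorem Wt_le_lip (g : C(ℂ, ℝ)) {A : Set ℂ} {x y : ℂ} (hx : x ∈ A) (hy : y ∈ A) :
    edist (g x) (g y) / edist x y ≤ lip g A := by
  unfold lip
  exact le_iSup₂_of_le x hx (le_iSup₂_of_le y hy le_rfl)

theorem lip_add_le (g h : C(ℂ, ℝ)) (A : Set ℂ) : lip (g + h) A ≤ lip g A + lip h A := by
  refine iSup₂_le fun x hx => iSup₂_le fun y hy => ?_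
  calc edist ((g + h) x) ((g + h) y) / edist x y
      ≤ (edist (g x) (g y) + edist (h x) (h y)) / edist x y := by
        gcongr
        exact edist_add_add_le _ _ _ _
    _ = edist (g x) (g y) / edist x y + edist (h x) (h y) / edist x y := ENNReal.add_div
    _ ≤ _ := add_le_add (Wt_le_lip g hx hy) (Wt_le_lip h hx hy)

theorem lip_zero (A : Set ℂ) : lip 0 A = 0 := by
  simp [lip]

theorem lip_add_const (g : C(ℂ, ℝ)) (c : ℝ) (A : Set ℂ) :
    lip (g + ContinuousMap.const ℂ c) A = lip g A := by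
  simp [lip]

theorem edist_le_lip (g : C(ℂ, ℝ)) {A : Set ℂ} {x y : ℂ} (hx : x ∈ A) (hy : y ∈ A) :
    edist (g x) (g y) ≤ lip g A * edist x y := by
  rcases eq_or_ne x y with rfl | hne
  · simp
  · have h0 : edist x y ≠ 0 := by simpa using hne
    exact (ENNReal.div_le_iff h0 (edist_ne_top x y)).1 (Wt_le_lip g hx hy)

theorem lip_le_of_lipschitzOnWith {g : C(ℂ, ℝ)} {A : Set ℂ} {L : ℝ≥0}
    (h : LipschitzOnWith L g A) : lip g A ≤ L := by
  refine iSup₂_le fun x hx => iSup₂_le fun y hy => ?_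
  exact ENNReal.div_le_of_le_mul (h hx hy)

theorem lipschitzOnWith_of_lip_le {g : C(ℂ, ℝ)} {A : Set ℂ} {L : ℝ≥0} (h : lip g A ≤ L) :
    LipschitzOnWith L g A := by
  intro x hx y hy
  exact (edist_le_lip g hx hy).trans (by gcongr)

theorem measurable_lip [MeasurableSpace C(ℂ, ℝ)]
    (he : ∀ y : ℂ, Measurable fun g : C(ℂ, ℝ) => g y) {A : Set ℂ} (hA : IsOpen A) :
    Measurable fun g : C(ℂ, ℝ) => lip g A := by
  obtain ⟨D, hDA, hDc, hD⟩ :=
    (TopologicalSpace.IsSeparable.of_separableSpace A).exists_countable_dense_subset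
  have key : ∀ g : C(ℂ, ℝ), lip g A = lip g D := by
    intro g
    refine le_antisymm ?_ (lip_mono g hDA)
    rcases eq_or_ne (lip g D) ∞ with ht | ht
    · rw [ht]; exact le_top
    · have h1 : LipschitzOnWith (lip g D).toNNReal g D :=
        lipschitzOnWith_of_lip_le (by rw [ENNReal.coe_toNNReal ht])
      have h2 := (h1.closure g.continuous.continuousOn).mono hD
      have h3 := lip_le_of_lipschitzOnWith h2
      rwa [ENNReal.coe_toNNReal ht] at h3
  simp_rw [key]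
  unfold lip
  refine Measurable.biSup D hDc fun x _ => Measurable.biSup D hDc fun y _ => ?_
  exact ((he x).edist (he y)).div_const _

theorem oo_add_le (n : ℕ) (y : ℂ) (g h : C(ℂ, ℝ)) : oo n y (g + h) ≤ oo n y g + oo n y h := by
  unfold oo
  rw [← mul_add]
  gcongr
  exact lip_add_le _ _ _

theorem oo_zero (n : ℕ) (y : ℂ) : oo n y 0 = 0 := by
  simp [oo, lip_zero]

theorem oo_le_of_sub {n m : ℕ} {y y' : ℂ} (h : Sub n y (n + m) y') (g : C(ℂ, ℝ)) :
    oo (n + m) y' g ≤ ENNReal.ofReal ((2 : ℝ)⁻¹ ^ m) * oo n y g := by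
  unfold oo
  rw [← mul_assoc, ← ENNReal.ofReal_mul (by positivity), mul_comm ((2 : ℝ)⁻¹ ^ m), ← sc_add]
  gcongr
  exact lip_mono g h.ball_subset

theorem cc_add (Q : ℝ) (n m : ℕ) (y : ℂ) (g h : C(ℂ, ℝ)) :
    cc Q (n + m) y (g + h) = cc Q n y g + h y - m * Q * Real.log 2 := by
  simp only [cc, ContinuousMap.add_apply]
  push_cast
  ring

/-- moving the base point inside the window -/
theorem exp_abs_shift_le {n : ℕ} {y y' : ℂ} (h : y' ∈ Metric.ball y (48 * sc n)) {a : ℝ}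
    (ha : 0 ≤ a) (g : C(ℂ, ℝ)) :
    ENNReal.ofReal (Real.exp (a * |g y' - g y|)) ≤ ex (ENNReal.ofReal (48 * a) * oo n y g) := by
  have hs := sc_pos n
  rw [← ex_ofReal (mul_nonneg ha (abs_nonneg _))]
  apply ex_mono
  have hy : y ∈ Metric.ball y (48 * sc n) := Metric.mem_ball_self (by positivity)
  have h1 := edist_le_lip g h hy
  have h2 : edist y' y ≤ ENNReal.ofReal (48 * sc n) := by
    rw [edist_dist]
    exact ENNReal.ofReal_le_ofReal (le_of_lt h)
  have h3 : ENNReal.ofReal |g y' - g y| ≤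
      lip g (Metric.ball y (48 * sc n)) * ENNReal.ofReal (48 * sc n) := by
    rw [← Real.dist_eq, ← edist_dist]
    exact h1.trans (by gcongr)
  calc ENNReal.ofReal (a * |g y' - g y|) = ENNReal.ofReal a * ENNReal.ofReal |g y' - g y| :=
        ENNReal.ofReal_mul ha
    _ ≤ ENNReal.ofReal a * (lip g (Metric.ball y (48 * sc n)) * ENNReal.ofReal (48 * sc n)) := by
        gcongr
    _ = _ := by
        unfold oo
        rw [ENNReal.ofReal_mul (by norm_num : (0 : ℝ) ≤ 48),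
          ENNReal.ofReal_mul (by norm_num : (0 : ℝ) ≤ 48)]
        ring

theorem wt_ne_zero (Q s t : ℝ) (n : ℕ) (y : ℂ) (g : C(ℂ, ℝ)) : wt Q s t n y g ≠ 0 := by
  unfold wt
  refine mul_ne_zero ?_ (zero_lt_one.trans_le (one_le_ex _)).ne'
  simpa using Real.exp_pos _

theorem wt_zero (Q t : ℝ) (n : ℕ) (y : ℂ) (g : C(ℂ, ℝ)) :
    wt Q 0 t n y g = ex (ENNReal.ofReal t * oo n y g) := by
  simp [wt]

theorem one_le_wt_zero (Q t : ℝ) (n : ℕ) (y : ℂ) (g : C(ℂ, ℝ)) : 1 ≤ wt Q 0 t n y g := by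
  rw [wt_zero]
  exact one_le_ex _

theorem wt_mono (Q s : ℝ) {t t' : ℝ} (h : t ≤ t') (n : ℕ) (y : ℂ) (g : C(ℂ, ℝ)) :
    wt Q s t n y g ≤ wt Q s t' n y g := by
  unfold wt
  exact mul_le_mul' le_rfl (ex_mono (mul_le_mul' (ENNReal.ofReal_le_ofReal h) le_rfl))

theorem wt_eq (Q s s' t : ℝ) (n : ℕ) (y : ℂ) (g : C(ℂ, ℝ)) :
    wt Q s t n y g = ENNReal.ofReal (Real.exp ((s - s') * cc Q n y g)) * wt Q s' t n y g := by
  unfold wt
  rw [← mul_assoc, ← ENNReal.ofReal_mul (Real.exp_pos _).le, ← Real.exp_add]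
  congr 3
  ring

theorem wt_le_of_le {Q s s' : ℝ} (t : ℝ) {n : ℕ} {y : ℂ} {g : C(ℂ, ℝ)}
    (h : s * cc Q n y g ≤ s' * cc Q n y g) : wt Q s t n y g ≤ wt Q s' t n y g := by
  unfold wt
  exact mul_le_mul' (ENNReal.ofReal_le_ofReal (Real.exp_le_exp.2 h)) le_rfl

theorem wt_mul (Q s s' : ℝ) {t t' : ℝ} (ht : 0 ≤ t) (ht' : 0 ≤ t') (n : ℕ) (y : ℂ)
    (g : C(ℂ, ℝ)) : wt Q s t n y g * wt Q s' t' n y g = wt Q (s + s') (t + t') n y g := by
  unfold wt
  rw [ENNReal.ofReal_add ht ht', add_mul (ENNReal.ofReal t), ex_add, add_mul s, Real.exp_add,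
    ENNReal.ofReal_mul (Real.exp_pos _).le]
  ring

theorem wt_rpow (Q s : ℝ) {t p : ℝ} (ht : 0 ≤ t) (hp : 0 < p) (n : ℕ) (y : ℂ) (g : C(ℂ, ℝ)) :
    wt Q s t n y g ^ p = wt Q (p * s) (p * t) n y g := by
  unfold wt
  rw [ENNReal.mul_rpow_of_nonneg _ _ hp.le, ex_rpow hp, ENNReal.ofReal_rpow_of_pos (Real.exp_pos _),
    ← Real.exp_mul, ENNReal.ofReal_mul hp.le, mul_assoc (ENNReal.ofReal p)]
  congr 3
  ring

theorem wt_le_of_oo_le (Q s : ℝ) {t : ℝ} (ht : 0 ≤ t) {n : ℕ} {y : ℂ} {g : C(ℂ, ℝ)} {L : ℝ≥0}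
    (h : oo n y g ≤ L) :
    wt Q s t n y g ≤ ENNReal.ofReal (Real.exp (s * cc Q n y g + t * L)) := by
  unfold wt
  rw [Real.exp_add, ENNReal.ofReal_mul (Real.exp_pos _).le,
    ← ex_ofReal (mul_nonneg ht L.coe_nonneg), ENNReal.ofReal_mul ht]
  refine mul_le_mul' le_rfl (ex_mono (mul_le_mul' le_rfl ?_))
  simpa using h

/-- one step down, pointwise -/
theorem wt_step (Q s : ℝ) {t : ℝ} (ht : 0 ≤ t) {n m : ℕ} {y y' : ℂ} (h : Sub n y (n + m) y')
    (g η : C(ℂ, ℝ)) :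
    wt Q s t (n + m) y' (g + η) ≤
      wt Q s (t * (2 : ℝ)⁻¹ ^ m + 48 * |s|) n y g *
        ENNReal.ofReal (Real.exp (-(s * m * Q * Real.log 2))) *
        (ENNReal.ofReal (Real.exp (s * η y')) * ex (ENNReal.ofReal t * oo (n + m) y' η)) := by
  have hs : 0 ≤ |s| := abs_nonneg s
  have h1 : ex (ENNReal.ofReal t * oo (n + m) y' (g + η)) ≤
      ex (ENNReal.ofReal (t * (2 : ℝ)⁻¹ ^ m) * oo n y g) *
        ex (ENNReal.ofReal t * oo (n + m) y' η) := by
    rw [← ex_add, ENNReal.ofReal_mul ht, mul_assoc, ← mul_add]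
    exact ex_mono (mul_le_mul' le_rfl
      ((oo_add_le _ _ _ _).trans (add_le_add (oo_le_of_sub h g) le_rfl)))
  have h2 := exp_abs_shift_le h.mem_ball hs g
  have h3 : ENNReal.ofReal (Real.exp (s * cc Q (n + m) y' (g + η))) ≤
      ENNReal.ofReal (Real.exp (s * cc Q n y g)) * ENNReal.ofReal (Real.exp (|s| * |g y' - g y|)) *
        ENNReal.ofReal (Real.exp (-(s * m * Q * Real.log 2))) *
        ENNReal.ofReal (Real.exp (s * η y')) := by
    rw [← ENNReal.ofReal_mul (Real.exp_pos _).le, ← Real.exp_add,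
      ← ENNReal.ofReal_mul (Real.exp_pos _).le, ← Real.exp_add,
      ← ENNReal.ofReal_mul (Real.exp_pos _).le, ← Real.exp_add]
    apply ENNReal.ofReal_le_ofReal
    apply Real.exp_le_exp.2
    rw [cc_add, ← abs_mul]
    have h4 := le_abs_self (s * (g y' - g y))
    simp only [cc]
    nlinarith
  unfold wt
  rw [ENNReal.ofReal_add (by positivity) (by positivity), add_mul, ex_add]
  calc _ ≤ (ENNReal.ofReal (Real.exp (s * cc Q n y g)) *
        ex (ENNReal.ofReal (48 * |s|) * oo n y g) *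
        ENNReal.ofReal (Real.exp (-(s * m * Q * Real.log 2))) *
        ENNReal.ofReal (Real.exp (s * η y'))) *
        (ex (ENNReal.ofReal (t * (2 : ℝ)⁻¹ ^ m) * oo n y g) *
        ex (ENNReal.ofReal t * oo (n + m) y' η)) :=
        mul_le_mul' (h3.trans (by gcongr)) h1
    _ = _ := by ring

namespace Casc

variable {Ξ : Type} [MeasurableSpace Ξ] [MeasurableSpace C(ℂ, ℝ)] (K : Casc Ξ)

include K in
theorem measurable_oo (n : ℕ) (y : ℂ) : Measurable (oo n y) :=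
  (measurable_lip K.meas_eval Metric.isOpen_ball).const_mul _

theorem measurable_cc (n : ℕ) (y : ℂ) : Measurable (cc K.Q n y) :=
  (K.meas_eval y).sub_const _

theorem measurable_wt (s t : ℝ) (n : ℕ) (y : ℂ) : Measurable (wt K.Q s t n y) := by
  unfold wt
  exact (((K.measurable_cc n y).const_mul s).exp.ennreal_ofReal).mul
    (measurable_ex.comp ((K.measurable_oo n y).const_mul _))

include K in
theorem measurable_add_left (g : C(ℂ, ℝ)) : Measurable fun η : C(ℂ, ℝ) => g + η :=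
  K.meas_add.comp (measurable_const.prodMk measurable_id)

theorem σ_pos : 0 < K.σ := K.γ_pos.trans K.γ_lt

theorem γ_lt_Q : K.γ < K.Q := by
  have h1 := K.γ_pos
  have h2 := K.γ_lt
  have h3 := K.zγ
  have h4 := K.zσ
  by_contra hc
  push Not at hc
  nlinarith

theorem Q_pos : 0 < K.Q := K.γ_pos.trans K.γ_lt_Q

theorem z_γ : K.z K.γ = 2 := K.zγ

theorem z_σ : 2 < K.z K.σ := K.zσ

theorem z_zero : K.z 0 = 0 := by
  simp [z]

theorem θ0_le : K.θ0 ≤ K.θ := by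
  have := K.σ_pos
  unfold θ
  linarith

theorem θ_ge : 400 * (K.σ + 1) ≤ K.θ := by
  have := K.θ0_nonneg
  unfold θ
  linarith

theorem θ_pos : 0 < K.θ := by
  have := K.σ_pos
  have := K.θ_ge
  linarith

theorem Win.sub {K : Casc Ξ} {n n' : ℕ} {y y' : ℂ} (h : K.Win n y) (hs : Sub n y n' y') :
    K.Win n' y' :=
  hs.ball_subset.trans h

theorem Win.reg {K : Casc Ξ} {n : ℕ} {v : ℤ × ℤ} (h : K.Win n (ctr n v)) : reg n v 5 ⊆ K.W :=
  (reg_subset_ball n v (by norm_num)).trans h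

end Casc

end Pool.Agent.Lib.MP_0d9445_pr.CR
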