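import Pool.Agent.Lib.MP_0d9445_pr.CR.Lay

/-! Sums over all levels along a chain (Green function of the height). -/

open MeasureTheory ProbabilityTheory Set Filter Topology
open scoped ENNReal NNReal

namespace Pool.Agent.Lib.MP_0d9445_pr.CR

/-- the tilt density of one layer -/
noncomputable def G1E (s x : ℝ) : ℝ≥0∞ :=
  ENNReal.ofReal (Real.exp (s * x - s ^ 2 / 2 * Real.log 2))

/-- one step of the tilted walk of the height -/
noncomputable def G1P (s q : ℝ) (f : ℝ → ℝ≥0∞) (c : ℝ) : ℝ≥0∞ :=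
  ∫⁻ x, G1E s x * f (c + x - q) ∂gaussianReal 0 (Real.log 2).toNNReal

/-- measurable functions whose logarithm is Lipschitz -/
def G1L (α : ℝ) (f : ℝ → ℝ≥0∞) : Prop :=
  Measurable f ∧ ∀ c h, f (c + h) ≤ ENNReal.ofReal (Real.exp (α * |h|)) * f c

theorem G1E_meas (s : ℝ) : Measurable (G1E s) := by
  unfold G1E
  fun_prop

theorem G1P_meas (s q : ℝ) {f : ℝ → ℝ≥0∞} (hf : Measurable f) : Measurable (G1P s q f) := by
  unfold G1P
  refine Measurable.lintegral_prod_right' (f := fun p : ℝ × ℝ => G1E s p.2 * f (p.1 + p.2 - q)) ?_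
  exact ((G1E_meas s).comp measurable_snd).mul (hf.comp (by fun_prop))

theorem G1P_mono (s q : ℝ) {f g : ℝ → ℝ≥0∞} (h : ∀ c, f c ≤ g c) (c : ℝ) :
    G1P s q f c ≤ G1P s q g c :=
  lintegral_mono fun _ => mul_le_mul_right (h _) _

theorem G1P_L {α : ℝ} (s q : ℝ) {f : ℝ → ℝ≥0∞} (hf : G1L α f) : G1L α (G1P s q f) := by
  refine ⟨G1P_meas s q hf.1, fun c h => ?_⟩
  unfold G1P
  rw [← lintegral_const_mul' _ _ ENNReal.ofReal_ne_top]
  refine lintegral_mono fun x => ?_
  have h1 := hf.2 (c + x - q) h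
  have h2 : c + x - q + h = c + h + x - q := by ring
  rw [h2] at h1
  calc G1E s x * f (c + h + x - q)
      ≤ G1E s x * (ENNReal.ofReal (Real.exp (α * |h|)) * f (c + x - q)) := mul_le_mul_right h1 _
    _ = _ := by ring

theorem G1P_iter_L {α : ℝ} (s q : ℝ) {f : ℝ → ℝ≥0∞} (hf : G1L α f) (m : ℕ) :
    G1L α ((G1P s q)^[m] f) := by
  induction m with
  | zero => exact hf
  | succ m ih => rw [Function.iterate_succ_apply']; exact G1P_L s q ih

theorem G1P_lower (α s q : ℝ) :
    ∃ C : ℝ≥0, ∀ f, G1L α f → ∀ c, f c ≤ C * G1P s q f c := by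
  set μ : Measure ℝ := gaussianReal 0 (Real.log 2).toNNReal with hμ
  set φ : ℝ → ℝ≥0∞ := fun x => G1E s x * ENNReal.ofReal (Real.exp (-(α * |x - q|))) with hφ
  have hφm : Measurable φ := (G1E_meas s).mul (by fun_prop)
  have hpos : ∫⁻ x, φ x ∂μ ≠ 0 := by
    intro h0
    rw [lintegral_eq_zero_iff hφm] at h0
    have h1 : ∀ x, φ x ≠ 0 := fun x =>
      mul_ne_zero (by unfold G1E; simpa using Real.exp_pos _) (by simpa using Real.exp_pos _)
    obtain ⟨x, hx⟩ := h0.exists
    exact h1 x hx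
  set k : ℝ≥0∞ := min (∫⁻ x, φ x ∂μ) 1 with hk
  have hk0 : k ≠ 0 := by
    rw [hk]
    exact (lt_min (pos_iff_ne_zero.mpr hpos) one_pos).ne'
  have hk1 : k ≠ ∞ := ((min_le_right _ _).trans_lt ENNReal.one_lt_top).ne
  refine ⟨(k⁻¹).toNNReal, fun f hf c => ?_⟩
  rw [ENNReal.coe_toNNReal (ENNReal.inv_ne_top.mpr hk0)]
  have h2 : k * f c ≤ G1P s q f c := by
    calc k * f c ≤ (∫⁻ x, φ x ∂μ) * f c := mul_le_mul_left (min_le_left _ _) _
      _ = ∫⁻ x, φ x * f c ∂μ := (lintegral_mul_const _ hφm).symm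
      _ ≤ _ := by
        refine lintegral_mono fun x => ?_
        have h3 := hf.2 (c + x - q) (-(x - q))
        have h4 : c + x - q + -(x - q) = c := by ring
        rw [h4, abs_neg] at h3
        have h5 : ENNReal.ofReal (Real.exp (-(α * |x - q|))) *
            ENNReal.ofReal (Real.exp (α * |x - q|)) = 1 := by
          rw [← ENNReal.ofReal_mul (Real.exp_pos _).le, ← Real.exp_add]
          simp
        calc φ x * f c ≤ φ x * (ENNReal.ofReal (Real.exp (α * |x - q|)) * f (c + x - q)) :=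
              mul_le_mul_right h3 _
          _ = G1E s x * (ENNReal.ofReal (Real.exp (-(α * |x - q|))) *
              ENNReal.ofReal (Real.exp (α * |x - q|))) * f (c + x - q) := by
              simp only [hφ]; ring
          _ = _ := by rw [h5, mul_one]
  calc f c = k⁻¹ * (k * f c) := by rw [← mul_assoc, ENNReal.inv_mul_cancel hk0 hk1, one_mul]
    _ ≤ _ := mul_le_mul_right h2 _

theorem G1_exp (r : ℝ) :
    ∫⁻ x, ENNReal.ofReal (Real.exp (r * x)) ∂gaussianReal 0 (Real.log 2).toNNReal =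
      ENNReal.ofReal (Real.exp (r ^ 2 / 2 * Real.log 2)) := by
  rw [← ofReal_integral_eq_lintegral_ofReal (integrable_exp_mul_gaussianReal r)
    (Eventually.of_forall fun x => (Real.exp_pos _).le)]
  have h := mgf_fun_id_gaussianReal (μ := 0) (v := (Real.log 2).toNNReal)
  have h2 := congrFun h r
  rw [mgf] at h2
  rw [h2, Real.coe_toNNReal _ (Real.log_nonneg one_le_two)]
  congr 2
  ring

theorem G1P_exp (s q b k c : ℝ) :
    G1P s q (fun x => ENNReal.ofReal (Real.exp (b * (x - k)))) c =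
      ENNReal.ofReal (Real.exp ((b * s + b ^ 2 / 2) * Real.log 2 - b * q + b * (c - k))) := by
  unfold G1P
  have h1 : ∀ x, G1E s x * ENNReal.ofReal (Real.exp (b * (c + x - q - k))) =
      ENNReal.ofReal (Real.exp (b * (c - q - k) - s ^ 2 / 2 * Real.log 2)) *
        ENNReal.ofReal (Real.exp ((s + b) * x)) := by
    intro x
    unfold G1E
    rw [← ENNReal.ofReal_mul (Real.exp_pos _).le, ← ENNReal.ofReal_mul (Real.exp_pos _).le,
      ← Real.exp_add, ← Real.exp_add]
    congr 2
    ring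
  simp_rw [h1]
  rw [lintegral_const_mul' _ _ ENNReal.ofReal_ne_top, G1_exp,
    ← ENNReal.ofReal_mul (Real.exp_pos _).le, ← Real.exp_add]
  congr 2
  ring

theorem G1P_one (s q c : ℝ) : G1P s q (fun _ => 1) c = 1 := by
  have h := G1P_exp s q 0 0 c
  simpa using h

theorem G1P_tsum (s q : ℝ) {f : ℕ → ℝ → ℝ≥0∞} (hf : ∀ k, Measurable (f k)) (a : ℕ → ℝ≥0∞)
    (c : ℝ) : G1P s q (fun x => ∑' k, a k * f k x) c = ∑' k, a k * G1P s q (f k) c := by
  unfold G1P
  have hm : ∀ k, Measurable fun x => G1E s x * f k (c + x - q) := fun k =>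
    (G1E_meas s).mul ((hf k).comp (by fun_prop))
  simp_rw [← ENNReal.tsum_mul_left]
  rw [lintegral_tsum (f := fun k x => G1E s x * (a k * f k (c + x - q))) fun k =>
    ((G1E_meas s).mul (((hf k).comp (by fun_prop)).const_mul _)).aemeasurable]
  refine tsum_congr fun k => ?_
  rw [← lintegral_const_mul _ (hm k)]
  exact lintegral_congr fun x => by ring

theorem G1P_sum (s q : ℝ) {f : ℕ → ℝ → ℝ≥0∞} (hf : ∀ k, Measurable (f k)) (N : ℕ)
    (c : ℝ) : G1P s q (fun x => ∑ k ∈ Finset.range N, f k x) c =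
      ∑ k ∈ Finset.range N, G1P s q (f k) c := by
  unfold G1P
  simp_rw [Finset.mul_sum]
  exact lintegral_finsetSum _ fun k _ => (G1E_meas s).mul ((hf k).comp (by fun_prop))

theorem G1w_L {α : ℝ} (hα : 0 ≤ α) :
    G1L α fun x => ENNReal.ofReal (Real.exp (-(α * |x|))) := by
  refine ⟨by fun_prop, fun c h => ?_⟩
  rw [← ENNReal.ofReal_mul (Real.exp_pos _).le, ← Real.exp_add]
  refine ENNReal.ofReal_le_ofReal (Real.exp_le_exp.mpr ?_)
  have h1 : |c| ≤ |c + h| + |h| := by
    have := abs_sub (c + h) h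
    simpa using this
  nlinarith

theorem G1_lyap {s Q α : ℝ} (hs : s < Q) (hα : 0 < α) : ∃ C : ℝ≥0, ∀ c,
    ∑' m, (G1P s (Q * Real.log 2))^[m] (fun x => ENNReal.ofReal (Real.exp (-(α * |x|)))) c ≤ C := by
  set q := Q * Real.log 2 with hq
  set w : ℝ → ℝ≥0∞ := fun x => ENNReal.ofReal (Real.exp (-(α * |x|))) with hw
  obtain ⟨b, hb0, hbα, hbQ⟩ : ∃ b : ℝ, 0 < b ∧ b ≤ α ∧ b ≤ Q - s :=
    ⟨min α (Q - s), lt_min hα (by linarith), min_le_left _ _, min_le_right _ _⟩
  set l : ℝ := (b * s + b ^ 2 / 2) * Real.log 2 - b * q with hl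
  have hl0 : l < 0 := by
    have h2 : 0 < Real.log 2 := Real.log_pos one_lt_two
    have h3 : b * s + b ^ 2 / 2 - b * Q < 0 := by nlinarith
    have h4 : l = (b * s + b ^ 2 / 2 - b * Q) * Real.log 2 := by rw [hl, hq]; ring
    rw [h4]
    exact mul_neg_of_neg_of_pos h3 h2
  have hρ : 0 < 1 - Real.exp l := by
    have := Real.exp_lt_one_iff.mpr hl0
    linarith
  set A : ℝ := Real.exp (α + b) / (1 - Real.exp l) with hA
  have hA0 : 0 < A := div_pos (Real.exp_pos _) hρ
  set a : ℕ → ℝ≥0∞ := fun k => ENNReal.ofReal (A * Real.exp (-α) ^ k) with ha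
  set g : ℕ → ℝ → ℝ≥0∞ := fun k x => min 1 (ENNReal.ofReal (Real.exp (b * (x - k)))) with hg
  have hgm : ∀ k, Measurable (g k) := fun k => measurable_const.min (by fun_prop)
  have hPg : ∀ k x, G1P s q (g k) x ≤ min 1 (ENNReal.ofReal (Real.exp (l + b * (x - k)))) := by
    intro k x
    refine le_min ?_ ?_
    · exact (G1P_mono s q (g := fun _ => 1) (fun _ => min_le_left _ _) x).trans
        (G1P_one s q x).le
    · exact (G1P_mono s q (g := fun x => ENNReal.ofReal (Real.exp (b * (x - k))))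
        (fun _ => min_le_right _ _) x).trans (G1P_exp s q b k x).le
  have hPg' : ∀ k x, G1P s q (g k) x ≤ g k x := fun k x =>
    (hPg k x).trans (min_le_min le_rfl
      (ENNReal.ofReal_le_ofReal (Real.exp_le_exp.mpr (by linarith))))
  set V : ℝ → ℝ≥0∞ := fun x => ∑' k, a k * g k x with hV
  have hsum : Summable fun k : ℕ => A * Real.exp (-α) ^ k :=
    (summable_geometric_of_lt_one (Real.exp_pos _).le
      (Real.exp_lt_one_iff.mpr (by linarith))).mul_left A
  have hVC : ∀ x, V x ≤ ENNReal.ofReal (∑' k : ℕ, A * Real.exp (-α) ^ k) := by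
    intro x
    rw [ENNReal.ofReal_tsum_of_nonneg (fun k => by positivity) hsum]
    exact ENNReal.tsum_le_tsum fun k => mul_le_of_le_one_right' (min_le_left _ _)
  have hkey : ∀ x, w x + G1P s q V x ≤ V x := by
    intro x
    rw [hV, G1P_tsum s q hgm a x]
    set k0 : ℕ := ⌈x⌉₊ with hk0
    have hx1 : x ≤ k0 := Nat.le_ceil x
    have h1 : w x = ∑' k, if k = k0 then w x else 0 := by simp
    rw [h1, ← ENNReal.tsum_add]
    refine ENNReal.tsum_le_tsum fun k => ?_
    split_ifs with hk
    · subst hk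
      have he : Real.exp (b * (x - k0)) ≤ 1 := Real.exp_le_one_iff.mpr (by nlinarith)
      have h2 : g k0 x = ENNReal.ofReal (Real.exp (b * (x - k0))) :=
        min_eq_right (ENNReal.ofReal_le_one.mpr he)
      have h3 : G1P s q (g k0) x ≤ ENNReal.ofReal (Real.exp (l + b * (x - k0))) :=
        (hPg k0 x).trans (min_le_right _ _)
      have h4 : Real.exp (-(α * |x|)) ≤
          Real.exp (α + b) * (Real.exp (-α) ^ k0 * Real.exp (b * (x - k0))) := by
        rw [← Real.exp_nat_mul, ← Real.exp_add, ← Real.exp_add]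
        refine Real.exp_le_exp.mpr ?_
        rcases le_total x 0 with hx | hx
        · have h5 : k0 = 0 := by rw [hk0]; exact Nat.ceil_eq_zero.mpr hx
          rw [h5, abs_of_nonpos hx]
          push_cast
          nlinarith
        · have h5 : (k0 : ℝ) < x + 1 := Nat.ceil_lt_add_one hx
          rw [abs_of_nonneg hx]
          nlinarith
      have h6 : A * (1 - Real.exp l) = Real.exp (α + b) := by
        rw [hA]; field_simp
      calc w x + a k0 * G1P s q (g k0) x
          ≤ w x + a k0 * ENNReal.ofReal (Real.exp (l + b * (x - k0))) := by gcongr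
        _ = ENNReal.ofReal (Real.exp (-(α * |x|)) +
            A * Real.exp (-α) ^ k0 * Real.exp (l + b * (x - k0))) := by
            rw [ENNReal.ofReal_add (Real.exp_pos _).le (by positivity),
              ENNReal.ofReal_mul (by positivity)]
        _ ≤ ENNReal.ofReal (A * Real.exp (-α) ^ k0 * Real.exp (b * (x - k0))) := by
            refine ENNReal.ofReal_le_ofReal ?_
            rw [← h6] at h4
            rw [Real.exp_add l]
            nlinarith
        _ = a k0 * g k0 x := by rw [h2, ENNReal.ofReal_mul (by positivity)]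
    · rw [zero_add]
      exact mul_le_mul_right (hPg' k x) _
  have hit : ∀ m, Measurable ((G1P s q)^[m] w) := fun m => (G1P_iter_L s q (G1w_L hα.le) m).1
  have hN : ∀ N x, ∑ m ∈ Finset.range N, (G1P s q)^[m] w x ≤ V x := by
    intro N
    induction N with
    | zero => intro x; simp
    | succ N ih =>
      intro x
      rw [Finset.sum_range_succ']
      simp_rw [Function.iterate_succ_apply']
      rw [← G1P_sum s q hit N x, add_comm]
      exact (add_le_add le_rfl (G1P_mono s q ih x)).trans (hkey x)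
  refine ⟨(∑' k : ℕ, A * Real.exp (-α) ^ k).toNNReal, fun c => ?_⟩
  rw [ENNReal.tsum_eq_iSup_nat]
  exact iSup_le fun N => (hN N c).trans (hVC c)

namespace Casc

variable {Ξ : Type} [MeasurableSpace Ξ] [MeasurableSpace C(ℂ, ℝ)] (K : Casc Ξ)

theorem G1_map (n : ℕ) (y : ℂ) {F : ℝ → ℝ≥0∞} (hF : Measurable F) :
    ∫⁻ η, F (η y) ∂K.ν n = ∫⁻ x, F x ∂gaussianReal 0 (Real.log 2).toNNReal := by
  rw [← K.gauss n y, lintegral_map hF (K.meas_eval y)]

theorem G1_one {α : ℝ} (hα : 0 ≤ α) (s q : ℝ) {t : ℝ} (ht : 0 ≤ t) :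
    ∃ κ : ℝ≥0, ∀ f, G1L α f → ∀ e : ℝ, 0 ≤ e → e ≤ 1 → ∀ n y c,
      ∫⁻ η, G1E s (η y) * f (c + η y - q) * ex (ENNReal.ofReal (e * t) * oo n y η) ∂K.ν n ≤
        (1 + κ * ENNReal.ofReal e) * G1P s q f c := by
  obtain ⟨C0, hC0⟩ := G1P_lower α s q
  obtain ⟨κ1, h1⟩ := K.one_layer (s + α) t
  obtain ⟨κ2, h2⟩ := K.one_layer (s - α) t
  set D : ℝ≥0∞ := ENNReal.ofReal (Real.exp (α * |q| - s ^ 2 / 2 * Real.log 2)) with hD
  set B : ℝ≥0∞ := D * (ENNReal.ofReal ((2 : ℝ) ^ ((s + α) ^ 2 / 2)) * (1 + κ1 * ENNReal.ofReal 1) +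
    ENNReal.ofReal ((2 : ℝ) ^ ((s - α) ^ 2 / 2)) * (1 + κ2 * ENNReal.ofReal 1)) with hB
  have hBt : B ≠ ∞ := by
    rw [hB, hD]
    finiteness
  refine ⟨B.toNNReal * C0, fun f hf e he0 he1 n y c => ?_⟩
  rw [ENNReal.coe_mul, ENNReal.coe_toNNReal hBt]
  have hev := K.meas_eval y
  have hmx : Measurable fun η : C(ℂ, ℝ) => ex (ENNReal.ofReal (1 * t) * oo n y η) :=
    measurable_ex.comp ((K.measurable_oo n y).const_mul _)
  have hme : ∀ r : ℝ, Measurable fun η : C(ℂ, ℝ) => ENNReal.ofReal (Real.exp (r * η y)) *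
      ex (ENNReal.ofReal (1 * t) * oo n y η) := fun r =>
    (ENNReal.measurable_ofReal.comp (Real.measurable_exp.comp (hev.const_mul r))).mul hmx
  have hF : Measurable fun x => G1E s x * f (c + x - q) :=
    (G1E_meas s).mul (hf.1.comp (by fun_prop))
  have hpt : ∀ η : C(ℂ, ℝ),
      G1E s (η y) * f (c + η y - q) * ex (ENNReal.ofReal (e * t) * oo n y η) ≤
        G1E s (η y) * f (c + η y - q) + ENNReal.ofReal e * f c * D *
          (ENNReal.ofReal (Real.exp ((s + α) * η y)) * ex (ENNReal.ofReal (1 * t) * oo n y η) +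
          ENNReal.ofReal (Real.exp ((s - α) * η y)) * ex (ENNReal.ofReal (1 * t) * oo n y η)) := by
    intro η
    have h3 : ex (ENNReal.ofReal (e * t) * oo n y η) ≤
        1 + ENNReal.ofReal e * ex (ENNReal.ofReal (1 * t) * oo n y η) := by
      rw [ENNReal.ofReal_mul he0, mul_assoc, one_mul]
      exact ex_mul_le he0 he1 _
    have h4 : f (c + η y - q) ≤ ENNReal.ofReal (Real.exp (α * |η y - q|)) * f c := by
      have := hf.2 c (η y - q)
      rwa [← add_sub_assoc] at this
    have h5 : G1E s (η y) * ENNReal.ofReal (Real.exp (α * |η y - q|)) ≤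
        D * (ENNReal.ofReal (Real.exp ((s + α) * η y)) +
          ENNReal.ofReal (Real.exp ((s - α) * η y))) := by
      unfold G1E
      rw [hD, ← ENNReal.ofReal_add (Real.exp_pos _).le (Real.exp_pos _).le,
        ← ENNReal.ofReal_mul (Real.exp_pos _).le, ← ENNReal.ofReal_mul (Real.exp_pos _).le,
        mul_add, ← Real.exp_add, ← Real.exp_add, ← Real.exp_add]
      refine ENNReal.ofReal_le_ofReal ?_
      have h6 : |η y - q| ≤ |η y| + |q| := abs_sub _ _
      rcases le_total 0 (η y) with h7 | h7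
      · rw [abs_of_nonneg h7] at h6
        exact le_add_of_le_of_nonneg (Real.exp_le_exp.mpr (by nlinarith)) (Real.exp_pos _).le
      · rw [abs_of_nonpos h7] at h6
        exact le_add_of_nonneg_of_le (Real.exp_pos _).le (Real.exp_le_exp.mpr (by nlinarith))
    calc G1E s (η y) * f (c + η y - q) * ex (ENNReal.ofReal (e * t) * oo n y η)
        ≤ G1E s (η y) * f (c + η y - q) *
          (1 + ENNReal.ofReal e * ex (ENNReal.ofReal (1 * t) * oo n y η)) := by gcongr
      _ = G1E s (η y) * f (c + η y - q) + G1E s (η y) * f (c + η y - q) *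
          (ENNReal.ofReal e * ex (ENNReal.ofReal (1 * t) * oo n y η)) := by ring
      _ ≤ G1E s (η y) * f (c + η y - q) +
          G1E s (η y) * (ENNReal.ofReal (Real.exp (α * |η y - q|)) * f c) *
          (ENNReal.ofReal e * ex (ENNReal.ofReal (1 * t) * oo n y η)) := by gcongr
      _ = G1E s (η y) * f (c + η y - q) +
          (G1E s (η y) * ENNReal.ofReal (Real.exp (α * |η y - q|))) *
          (ENNReal.ofReal e * f c * ex (ENNReal.ofReal (1 * t) * oo n y η)) := by ring
      _ ≤ G1E s (η y) * f (c + η y - q) +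
          (D * (ENNReal.ofReal (Real.exp ((s + α) * η y)) +
          ENNReal.ofReal (Real.exp ((s - α) * η y)))) *
          (ENNReal.ofReal e * f c * ex (ENNReal.ofReal (1 * t) * oo n y η)) := by gcongr
      _ = _ := by ring
  refine (lintegral_mono hpt).trans ?_
  have hF' : Measurable fun η : C(ℂ, ℝ) => G1E s (η y) * f (c + η y - q) := hF.comp hev
  have hme2 : Measurable fun η : C(ℂ, ℝ) =>
      ENNReal.ofReal (Real.exp ((s + α) * η y)) * ex (ENNReal.ofReal (1 * t) * oo n y η) +
      ENNReal.ofReal (Real.exp ((s - α) * η y)) * ex (ENNReal.ofReal (1 * t) * oo n y η) :=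
    (hme _).add (hme _)
  rw [lintegral_add_left hF', K.G1_map n y hF, lintegral_const_mul _ hme2,
    lintegral_add_left (hme _)]
  have h8 := add_le_add (h1 1 zero_le_one le_rfl n y) (h2 1 zero_le_one le_rfl n y)
  calc _ ≤ G1P s q f c + ENNReal.ofReal e * (C0 * G1P s q f c) * D *
        (ENNReal.ofReal ((2 : ℝ) ^ ((s + α) ^ 2 / 2)) * (1 + κ1 * ENNReal.ofReal 1) +
          ENNReal.ofReal ((2 : ℝ) ^ ((s - α) ^ 2 / 2)) * (1 + κ2 * ENNReal.ofReal 1)) := by
        refine add_le_add le_rfl (mul_le_mul' (mul_le_mul_left ?_ _) h8)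
        exact mul_le_mul_right (hC0 f hf c) _
    _ = _ := by rw [hB]; ring

theorem G1_ind {α : ℝ} (hα : 0 ≤ α) (s q : ℝ) {t : ℝ} (ht : 0 ≤ t) :
    ∃ κ : ℝ≥0, ∀ (n m : ℕ) (y : ℂ) f, G1L α f → ∀ e : ℝ, 0 ≤ e → e ≤ 1 → ∀ c,
      ∫⁻ η, ENNReal.ofReal (Real.exp (s * η y - m * (s ^ 2 / 2 * Real.log 2))) *
          f (c + η y - m * q) * ex (ENNReal.ofReal (e * t) * oo (n + m) y η) ∂K.lay n m ≤
        ENNReal.ofReal (Real.exp (κ * e)) * (G1P s q)^[m] f c := by
  obtain ⟨κ, hκ⟩ := K.G1_one hα s q ht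
  refine ⟨κ, fun n m y => ?_⟩
  have hev := K.meas_eval y
  have hM : ∀ (m : ℕ) (f : ℝ → ℝ≥0∞), Measurable f → ∀ e c : ℝ, Measurable fun η : C(ℂ, ℝ) =>
      ENNReal.ofReal (Real.exp (s * η y - m * (s ^ 2 / 2 * Real.log 2))) *
          f (c + η y - m * q) * ex (ENNReal.ofReal (e * t) * oo (n + m) y η) := by
    intro m f hf e c
    refine ((ENNReal.measurable_ofReal.comp (Real.measurable_exp.comp
      ((hev.const_mul s).sub_const _))).mul (hf.comp ((hev.const_add c).sub_const _))).mul ?_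
    exact measurable_ex.comp ((K.measurable_oo _ y).const_mul _)
  induction m with
  | zero =>
    intro f hf e he0 he1 c
    rw [K.lintegral_lay_zero n (hM 0 f hf.1 e c), oo_zero, mul_zero, ex_zero]
    have h1 : (1 : ℝ≥0∞) ≤ ENNReal.ofReal (Real.exp (κ * e)) :=
      ENNReal.one_le_ofReal.mpr (Real.one_le_exp (by positivity))
    simpa using mul_le_mul_left h1 (f c)
  | succ m ih =>
    intro f hf e he0 he1 c
    rw [K.lintegral_lay_succ n m (hM (m + 1) f hf.1 e c), Function.iterate_succ_apply]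
    have hsub : Sub (n + m) y (n + m + 1) y := by
      have := sc_add_le (n + m) 1
      unfold Sub
      simp only [sub_self, norm_zero]
      linarith
    have he2 : 0 ≤ e / 2 := by linarith
    have he3 : e / 2 ≤ 1 := by linarith
    have hhalf : ∀ η : C(ℂ, ℝ), ENNReal.ofReal (e * t) * oo (n + (m + 1)) y η ≤
        ENNReal.ofReal (e / 2 * t) * oo (n + m) y η := by
      intro η
      have h1 := oo_le_of_sub hsub η
      calc ENNReal.ofReal (e * t) * oo (n + (m + 1)) y η
          ≤ ENNReal.ofReal (e * t) * (ENNReal.ofReal ((2 : ℝ)⁻¹ ^ 1) * oo (n + m) y η) :=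
            mul_le_mul_right h1 _
        _ = _ := by
            rw [← mul_assoc, ← ENNReal.ofReal_mul (by positivity)]
            congr 2
            ring
    have hin : ∀ η : C(ℂ, ℝ), ∫⁻ η', ENNReal.ofReal (Real.exp (s * (η + η') y -
          ((m + 1 : ℕ) : ℝ) * (s ^ 2 / 2 * Real.log 2))) *
          f (c + (η + η') y - ((m + 1 : ℕ) : ℝ) * q) *
          ex (ENNReal.ofReal (e * t) * oo (n + (m + 1)) y (η + η')) ∂K.ν (n + m) ≤
        (1 + κ * ENNReal.ofReal (e / 2)) *
          (ENNReal.ofReal (Real.exp (s * η y - m * (s ^ 2 / 2 * Real.log 2))) *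
          G1P s q f (c + η y - m * q) * ex (ENNReal.ofReal (e / 2 * t) * oo (n + m) y η)) := by
      intro η
      have hm2 : Measurable fun η' : C(ℂ, ℝ) => G1E s (η' y) * f (c + η y - m * q + η' y - q) *
          ex (ENNReal.ofReal (e / 2 * t) * oo (n + m) y η') :=
        (((G1E_meas s).comp hev).mul (hf.1.comp ((hev.const_add _).sub_const _))).mul
          (measurable_ex.comp ((K.measurable_oo _ y).const_mul _))
      calc _ ≤ ∫⁻ η', (ENNReal.ofReal (Real.exp (s * η y - m * (s ^ 2 / 2 * Real.log 2))) *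
              ex (ENNReal.ofReal (e / 2 * t) * oo (n + m) y η)) *
              (G1E s (η' y) * f (c + η y - m * q + η' y - q) *
              ex (ENNReal.ofReal (e / 2 * t) * oo (n + m) y η')) ∂K.ν (n + m) := by
            refine lintegral_mono fun η' => ?_
            have h1 : ex (ENNReal.ofReal (e * t) * oo (n + (m + 1)) y (η + η')) ≤
                ex (ENNReal.ofReal (e / 2 * t) * oo (n + m) y η) *
                  ex (ENNReal.ofReal (e / 2 * t) * oo (n + m) y η') := by
              rw [← ex_add]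
              refine ex_mono ((mul_le_mul_right (oo_add_le _ _ _ _) _).trans ?_)
              rw [mul_add]
              exact add_le_add (hhalf η) (hhalf η')
            have h2 : ENNReal.ofReal (Real.exp (s * (η + η') y -
                ((m + 1 : ℕ) : ℝ) * (s ^ 2 / 2 * Real.log 2))) =
                ENNReal.ofReal (Real.exp (s * η y - m * (s ^ 2 / 2 * Real.log 2))) *
                  G1E s (η' y) := by
              unfold G1E
              rw [← ENNReal.ofReal_mul (Real.exp_pos _).le, ← Real.exp_add,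
                ContinuousMap.add_apply]
              congr 2
              push_cast
              ring
            have h3 : c + (η + η') y - ((m + 1 : ℕ) : ℝ) * q = c + η y - m * q + η' y - q := by
              rw [ContinuousMap.add_apply]
              push_cast
              ring
            rw [h2, h3]
            refine (mul_le_mul_right h1 _).trans (le_of_eq ?_)
            ring
        _ = _ := lintegral_const_mul _ hm2
        _ ≤ (ENNReal.ofReal (Real.exp (s * η y - m * (s ^ 2 / 2 * Real.log 2))) *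
              ex (ENNReal.ofReal (e / 2 * t) * oo (n + m) y η)) *
              ((1 + κ * ENNReal.ofReal (e / 2)) * G1P s q f (c + η y - m * q)) :=
            mul_le_mul_right (hκ f hf (e / 2) he2 he3 (n + m) y _) _
        _ = _ := by ring
    refine (lintegral_mono hin).trans ?_
    rw [lintegral_const_mul _ (hM m _ (G1P_meas s q hf.1) (e / 2) c)]
    refine (mul_le_mul_right (ih _ (G1P_L s q hf) (e / 2) he2 he3 c) _).trans ?_
    rw [← mul_assoc]
    refine mul_le_mul_left ?_ _
    have h4 : (1 + κ * ENNReal.ofReal (e / 2) : ℝ≥0∞) = ENNReal.ofReal (κ * (e / 2) + 1) := by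
      rw [ENNReal.ofReal_add (by positivity) zero_le_one, ENNReal.ofReal_mul κ.coe_nonneg]
      simp [add_comm]
    rw [h4, ← ENNReal.ofReal_mul (by positivity)]
    refine ENNReal.ofReal_le_ofReal ?_
    calc (κ * (e / 2) + 1) * Real.exp (κ * (e / 2))
        ≤ Real.exp (κ * (e / 2)) * Real.exp (κ * (e / 2)) :=
          mul_le_mul_of_nonneg_right (Real.add_one_le_exp _) (Real.exp_pos _).le
      _ = _ := by rw [← Real.exp_add]; congr 1; ring

/-- `a m c` bounds the term of level `m` for the start height `c`, and the terms are summable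
uniformly in `c`. -/
theorem green {s α t : ℝ} (hs : s < K.Q) (hα : 0 < α) (ht : 96 * (|s| + α) ≤ t) :
    ∃ (C : ℝ≥0) (a : ℕ → ℝ → ℝ≥0∞), (∀ c, ∑' m, a m c ≤ C) ∧
      ∀ n m y y' g, Sub n y (n + m) y' →
        ENNReal.ofReal ((2 : ℝ) ^ (m * K.z s)) *
          ∫⁻ η, wt K.Q s t (n + m) y' (g + η) *
            ENNReal.ofReal (Real.exp (-(α * |cc K.Q (n + m) y' (g + η)|))) ∂K.lay n m ≤
          a m (cc K.Q n y g) * wt K.Q s t n y g := by
  have ht0 : 0 ≤ t := le_trans (by positivity) ht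
  obtain ⟨C, hC⟩ := G1_lyap hs hα
  obtain ⟨κ, hκ⟩ := K.G1_ind hα.le s (K.Q * Real.log 2) ht0
  set q := K.Q * Real.log 2 with hq
  set w : ℝ → ℝ≥0∞ := fun x => ENNReal.ofReal (Real.exp (-(α * |x|))) with hw
  have hwL : G1L α w := G1w_L hα.le
  refine ⟨(Real.exp (κ * 1)).toNNReal * C,
    fun m c => ENNReal.ofReal (Real.exp (κ * 1)) * (G1P s q)^[m] w c, fun c => ?_, ?_⟩
  · rw [ENNReal.tsum_mul_left, ENNReal.coe_mul]
    exact mul_le_mul_right (hC c) _
  intro n m y y' g hsub
  rcases Nat.eq_zero_or_pos m with rfl | hm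
  · have hy : y' = y := Sub.eq_of_zero hsub
    subst hy
    have hF : Measurable fun η => wt K.Q s t (n + 0) y' (g + η) *
        ENNReal.ofReal (Real.exp (-(α * |cc K.Q (n + 0) y' (g + η)|))) :=
      ((K.measurable_wt s t _ y').comp (K.measurable_add_left g)).mul
        (hwL.1.comp ((K.measurable_cc _ y').comp (K.measurable_add_left g)))
    rw [K.lintegral_lay_zero n hF]
    have h1 : (1 : ℝ≥0∞) ≤ ENNReal.ofReal (Real.exp (κ * 1)) :=
      ENNReal.one_le_ofReal.mpr (Real.one_le_exp (by positivity))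
    simp only [Nat.cast_zero, zero_mul, Real.rpow_zero, ENNReal.ofReal_one, one_mul, add_zero,
      Function.iterate_zero, id_eq]
    rw [mul_comm, mul_assoc]
    exact le_mul_of_one_le_left' h1
  · have hev := K.meas_eval y'
    have hM : Measurable fun η : C(ℂ, ℝ) =>
        ENNReal.ofReal (Real.exp (s * η y' - m * (s ^ 2 / 2 * Real.log 2))) *
          w (cc K.Q n y' g + η y' - m * q) * ex (ENNReal.ofReal (1 * t) * oo (n + m) y' η) :=
      ((ENNReal.measurable_ofReal.comp (Real.measurable_exp.comp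
        ((hev.const_mul s).sub_const _))).mul (hwL.1.comp ((hev.const_add _).sub_const _))).mul
        (measurable_ex.comp ((K.measurable_oo _ y').const_mul _))
    have hshift : (G1P s q)^[m] w (cc K.Q n y' g) ≤
        wt K.Q 0 (48 * α) n y g * (G1P s q)^[m] w (cc K.Q n y g) := by
      have h1 := (G1P_iter_L s q hwL m).2 (cc K.Q n y g) (g y' - g y)
      have h2 : cc K.Q n y g + (g y' - g y) = cc K.Q n y' g := by unfold cc; ring
      rw [h2] at h1
      rw [wt_zero]
      exact h1.trans (mul_le_mul_left (exp_abs_shift_le hsub.mem_ball hα.le g) _)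
    have hexp : t * (2 : ℝ)⁻¹ ^ m + 48 * |s| + 48 * α ≤ t := by
      have h1 : (2 : ℝ)⁻¹ ^ m ≤ (2 : ℝ)⁻¹ ^ 1 :=
        pow_le_pow_of_le_one (by norm_num) (by norm_num) hm
      have h2 := mul_le_mul_of_nonneg_left h1 ht0
      linarith
    rw [← lintegral_const_mul' _ _ ENNReal.ofReal_ne_top]
    calc _ ≤ ∫⁻ η, wt K.Q s (t * (2 : ℝ)⁻¹ ^ m + 48 * |s|) n y g *
          (ENNReal.ofReal (Real.exp (s * η y' - m * (s ^ 2 / 2 * Real.log 2))) *
          w (cc K.Q n y' g + η y' - m * q) *
          ex (ENNReal.ofReal (1 * t) * oo (n + m) y' η)) ∂K.lay n m := by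
          refine lintegral_mono fun η => ?_
          have h1 := wt_step K.Q s ht0 hsub g η
          have h2 : cc K.Q (n + m) y' (g + η) = cc K.Q n y' g + η y' - m * q := by
            rw [cc_add, hq, mul_assoc]
          have h3 : ENNReal.ofReal (Real.exp (s * η y' - m * (s ^ 2 / 2 * Real.log 2))) =
              ENNReal.ofReal ((2 : ℝ) ^ (m * K.z s)) *
              ENNReal.ofReal (Real.exp (-(s * m * K.Q * Real.log 2))) *
              ENNReal.ofReal (Real.exp (s * η y')) := by
            rw [Real.rpow_def_of_pos two_pos, ← ENNReal.ofReal_mul (Real.exp_pos _).le,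
              ← ENNReal.ofReal_mul (by positivity), ← Real.exp_add, ← Real.exp_add]
            congr 2
            unfold z
            ring
          rw [h2, h3, one_mul]
          refine (mul_le_mul_right (mul_le_mul_left h1 _) _).trans (le_of_eq ?_)
          simp only [hw]
          ring
      _ = _ := lintegral_const_mul _ hM
      _ ≤ wt K.Q s (t * (2 : ℝ)⁻¹ ^ m + 48 * |s|) n y g * (ENNReal.ofReal (Real.exp (κ * 1)) *
          (wt K.Q 0 (48 * α) n y g * (G1P s q)^[m] w (cc K.Q n y g))) :=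
          mul_le_mul_right ((hκ n m y' w hwL 1 zero_le_one le_rfl _).trans
            (mul_le_mul_right hshift _)) _
      _ = ENNReal.ofReal (Real.exp (κ * 1)) * (G1P s q)^[m] w (cc K.Q n y g) *
          (wt K.Q s (t * (2 : ℝ)⁻¹ ^ m + 48 * |s|) n y g * wt K.Q 0 (48 * α) n y g) := by ring
      _ ≤ _ := by
          rw [wt_mul K.Q s 0 (by positivity) (by positivity), add_zero]
          exact mul_le_mul_right (wt_mono K.Q s hexp n y g) _

end Casc

end Pool.Agent.Lib.MP_0d9445_pr.CR
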