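import Pool.Agent.Lib.MP_0d9445_pr.CR.TZ
import Pool.Agent.Lib.MP_0d9445_pr.CR.G1
import Pool.Agent.Lib.MP_0d9445_pr.CR.Conc

/-! All moments of the chain sums and of their averages. -/

open MeasureTheory ProbabilityTheory Set Filter Topology
open scoped ENNReal NNReal

namespace Pool.Agent.Lib.MP_0d9445_pr.CR

theorem Chain_later (d : ℕ) (a : Pat) (n N i : ℕ) (z : ℂ) :
    ∑ j ∈ Finset.Ioo i N, ZZ d a (n + j * d) (idx (n + j * d) z) =
      sig d a (n + i * d + d) (N - (i + 1)) z := by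
  have h : Finset.Ioo i N = Finset.Ico (i + 1) N := by
    ext j
    simp only [Finset.mem_Ioo, Finset.mem_Ico]
    omega
  rw [h, Finset.sum_Ico_eq_sum_range]
  unfold sig
  refine Finset.sum_congr rfl fun k _ => ?_
  have e : n + (i + 1 + k) * d = n + i * d + d + k * d := by ring
  rw [e]

theorem Chain_alg {A B CZ CL M W E E' : ℝ≥0∞} {p : ℝ} (hp0 : 0 ≤ p) (hp1 : p ≤ 1)
    (hA : A ≤ CZ * (W * E)) (hB : B ≤ M * (CL * W)) (hE : E ≤ E') (hE' : E ^ p ≤ E') :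
    A + A ^ p * B ^ (1 - p) ≤ (CZ + CZ ^ p * CL ^ (1 - p)) * (1 + M ^ (1 - p)) * (W * E') := by
  have hq : 0 ≤ 1 - p := by linarith
  have h1 : A ≤ CZ * (W * E') := hA.trans (by gcongr)
  have h2 : A ^ p * B ^ (1 - p) ≤ CZ ^ p * CL ^ (1 - p) * M ^ (1 - p) * (W * E') := by
    calc A ^ p * B ^ (1 - p) ≤ (CZ * (W * E)) ^ p * (M * (CL * W)) ^ (1 - p) := by gcongr
      _ = CZ ^ p * CL ^ (1 - p) * M ^ (1 - p) * ((W ^ p * W ^ (1 - p)) * E ^ p) := by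
          rw [ENNReal.mul_rpow_of_nonneg _ _ hp0, ENNReal.mul_rpow_of_nonneg _ _ hp0,
            ENNReal.mul_rpow_of_nonneg _ _ hq, ENNReal.mul_rpow_of_nonneg _ _ hq]
          ring
      _ = CZ ^ p * CL ^ (1 - p) * M ^ (1 - p) * (W * E ^ p) := by
          rw [← ENNReal.rpow_add_of_nonneg _ _ hp0 hq]
          simp
      _ ≤ _ := by gcongr
  calc A + A ^ p * B ^ (1 - p)
      ≤ CZ * (W * E') + CZ ^ p * CL ^ (1 - p) * M ^ (1 - p) * (W * E') := add_le_add h1 h2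
    _ = (CZ * 1 + CZ ^ p * CL ^ (1 - p) * M ^ (1 - p)) * (W * E') := by ring
    _ ≤ _ := by
        gcongr
        calc CZ * 1 + CZ ^ p * CL ^ (1 - p) * M ^ (1 - p)
            ≤ CZ * 1 + CZ ^ p * CL ^ (1 - p) * M ^ (1 - p) +
              (CZ * M ^ (1 - p) + CZ ^ p * CL ^ (1 - p) * 1) := le_self_add
          _ = _ := by ring

theorem Chain_sum_le {d : ℕ} (hd : 1 ≤ d) (N : ℕ) (f : ℕ → ℝ≥0∞) :
    ∑ i ∈ Finset.range N, f (i * d) ≤ ∑' m, f m := by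
  refine (ENNReal.sum_le_tsum _).trans ?_
  refine ENNReal.tsum_comp_le_tsum_of_injective (f := fun i : ℕ => i * d) ?_ f
  intro i j h
  exact Nat.eq_of_mul_eq_mul_right (by omega) h

theorem Chain_tsum_pow (f : ℕ → ℝ≥0∞) (r : ℕ) :
    (∑' i, f i) ^ r = liminf (fun N => (∑ i ∈ Finset.range N, f i) ^ r) atTop := by
  have h : Tendsto (fun N => (∑ i ∈ Finset.range N, f i) ^ r) atTop (𝓝 ((∑' i, f i) ^ r)) :=
    ENNReal.Tendsto.pow (ENNReal.tendsto_nat_tsum f)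
  exact h.liminf_eq.symm

theorem Chain_avg (m : ℕ) {r : ℕ} (hr : 1 ≤ r) :
    ((4 : ℝ≥0∞)⁻¹ ^ m) ^ r * (((4 ^ m : ℕ) : ℝ≥0∞) ^ (r - 1)) * ((4 ^ m : ℕ) : ℝ≥0∞) = 1 := by
  obtain ⟨k, rfl⟩ : ∃ k, r = k + 1 := ⟨r - 1, by omega⟩
  have h4 : (4 : ℝ≥0∞)⁻¹ * 4 = 1 := ENNReal.inv_mul_cancel (by norm_num) (by norm_num)
  have h : (4 : ℝ≥0∞)⁻¹ ^ m * ((4 ^ m : ℕ) : ℝ≥0∞) = 1 := by
    push_cast
    rw [← mul_pow, h4, one_pow]
  rw [Nat.add_sub_cancel, mul_assoc, ← pow_succ, ← mul_pow, h, one_pow]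

namespace Casc

variable {Ξ : Type} [MeasurableSpace Ξ] [MeasurableSpace C(ℂ, ℝ)] (K : Casc Ξ)

variable {d : ℕ}

theorem Chain_lift : ∃ C : ℝ≥0, ∀ n m y y' g (A : ℝ≥0∞) (F : Ξ → ℝ≥0∞), Measurable F →
    Sub n y (n + m) y' →
    (∀ g', ∫⁻ x, F x ∂K.P (n + m) g' ≤ A * wt K.Q 0 (2 * K.θ) (n + m) y' g') →
    ∫⁻ x, F x ∂K.P n g ≤ A * (C * wt K.Q 0 (2 * K.θ) n y g) := by
  have ht : 96 * |(0 : ℝ)| ≤ 2 * K.θ := by
    have := K.θ_pos
    simp only [abs_zero, mul_zero]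
    linarith
  obtain ⟨C, hC⟩ := K.lift 0 ht
  refine ⟨C, fun n m y y' g A F hF hs h => ?_⟩
  have := hC n m y y' g A F hF hs h
  simpa [K.z_zero] using this

theorem sig_mom (hd : K.Good d) {r : ℕ} (hr : 1 ≤ r) : ∃ C : ℝ≥0, ∀ N n v g z,
    K.Win n (ctr n v) → z ∈ box n v →
    ∫⁻ x, sig d (K.pat x) n N z ^ r ∂K.P n g ≤ C * K.w 0 (2 * K.θ) n v g := by
  obtain ⟨CZ, hZ⟩ := K.ZZ_mom_abs hd hr
  obtain ⟨CL, hL⟩ := K.Chain_lift
  have hr1 : (1 : ℝ) ≤ r := by exact_mod_cast hr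
  have hr0 : (0 : ℝ) < r := by linarith
  set p : ℝ := 1 / (r : ℝ) with hp
  have hp0 : 0 < p := by positivity
  have hp1 : p ≤ 1 := by rw [hp, div_le_one hr0]; exact hr1
  set α : ℝ := min K.γ 1 with hα
  have hα0 : 0 < α := lt_min K.γ_pos one_pos
  have hα1 : α ≤ 1 := min_le_right _ _
  have hθ := K.θ_ge
  have hσ := K.σ_pos
  have hθ0 := K.θ_pos
  have ht : 96 * (|(0 : ℝ)| + p * α) ≤ 2 * K.θ := by
    have : p * α ≤ 1 := by nlinarith
    simp only [abs_zero, zero_add]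
    nlinarith
  obtain ⟨CG, a, ha, hG⟩ := K.green K.Q_pos (mul_pos hp0 hα0) ht
  have hq : 0 ≤ 1 - p := by linarith
  set C1 : ℝ≥0 := CZ + CZ ^ p * CL ^ (1 - p) with hC1
  have hC1' : (C1 : ℝ≥0∞) = CZ + (CZ : ℝ≥0∞) ^ p * (CL : ℝ≥0∞) ^ (1 - p) := by
    rw [hC1]
    push_cast
    rw [ENNReal.coe_rpow_of_nonneg _ hp0.le, ENNReal.coe_rpow_of_nonneg _ hq]
  obtain ⟨M, hM⟩ := exists_self_bound (r * 2 ^ r * C1 * CG) hq (by linarith)
  refine ⟨M, fun N => ?_⟩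
  induction N using Nat.strong_induction_on with
  | _ N ih =>
  intro n v g z hW hz
  have hv : idx n z = v := mem_box_iff.1 hz
  have hmZ : ∀ i : ℕ, Measurable fun x => ZZ d (K.pat x) (n + i * d) (idx (n + i * d) z) :=
    fun i => K.ZZ_meas hd.1 _ _
  have hmS : ∀ i : ℕ, Measurable fun x => sig d (K.pat x) (n + i * d + d) (N - (i + 1)) z :=
    fun i => K.sig_meas hd.1 _ _ _
  -- the term of index `i`
  set F : ℕ → Ξ → ℝ≥0∞ := fun i x => ZZ d (K.pat x) (n + i * d) (idx (n + i * d) z) ^ r +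
    ZZ d (K.pat x) (n + i * d) (idx (n + i * d) z) *
      sig d (K.pat x) (n + i * d + d) (N - (i + 1)) z ^ (r - 1) with hF
  have hmF : ∀ i, Measurable (F i) := fun i =>
    ((hmZ i).pow_const r).add ((hmZ i).mul ((hmS i).pow_const _))
  have hterm : ∀ i ∈ Finset.range N, ∫⁻ x, F i x ∂K.P n g ≤
      C1 * (1 + (M : ℝ≥0∞) ^ (1 - p)) *
        (a (i * d) (cc K.Q n (ctr n v) g) * wt K.Q 0 (2 * K.θ) n (ctr n v) g) := by
    intro i hi
    have hi' : i < N := Finset.mem_range.1 hi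
    set n' := n + i * d with hn'
    set q := idx n' z with hq'
    have hs1 : Sub n (ctr n v) n' (ctr n' q) := sub_kids (idx_mem_kids.2 hv)
    have hW1 : K.Win n' (ctr n' q) := hW.sub hs1
    have hs2 : Sub n' (ctr n' q) (n' + d) (ctr (n' + d) (idx (n' + d) z)) :=
      sub_kids (idx_mem_kids.2 rfl)
    have hW2 := hW1.sub hs2
    have hin : ∀ g', ∫⁻ x, F i x ∂K.P n' g' ≤ C1 * (1 + (M : ℝ≥0∞) ^ (1 - p)) *
        (wt K.Q 0 (2 * K.θ) n' (ctr n' q) g' *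
          ENNReal.ofReal (Real.exp (-(p * α * |cc K.Q n' (ctr n' q) g'|)))) := by
      intro g'
      have hA : ∫⁻ x, ZZ d (K.pat x) n' q ^ r ∂K.P n' g' ≤
          CZ * (wt K.Q 0 (2 * K.θ) n' (ctr n' q) g' *
            ENNReal.ofReal (Real.exp (-(α * |cc K.Q n' (ctr n' q) g'|)))) := by
        refine (hZ n' q g' hW1).trans ?_
        have := wt_mono K.Q 0 (show K.θ ≤ 2 * K.θ by linarith) n' (ctr n' q) g'
        unfold Casc.w
        gcongr
      have hB : ∫⁻ x, sig d (K.pat x) (n' + d) (N - (i + 1)) z ^ r ∂K.P n' g' ≤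
          M * (CL * wt K.Q 0 (2 * K.θ) n' (ctr n' q) g') :=
        hL n' d _ _ g' M _ ((hmS i).pow_const r) hs2 fun g'' =>
          ih (N - (i + 1)) (by omega) (n' + d) _ g'' z hW2 (mem_box_idx _ _)
      have hH := lintegral_mul_pow_le (K.P n' g') hr (hmZ i) (hmS i)
      have habs := abs_nonneg (cc K.Q n' (ctr n' q) g')
      have hE : ENNReal.ofReal (Real.exp (-(α * |cc K.Q n' (ctr n' q) g'|))) ≤
          ENNReal.ofReal (Real.exp (-(p * α * |cc K.Q n' (ctr n' q) g'|))) := by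
        refine ENNReal.ofReal_le_ofReal (Real.exp_le_exp.2 ?_)
        have : 0 ≤ α * |cc K.Q n' (ctr n' q) g'| := by positivity
        nlinarith
      have hE' : ENNReal.ofReal (Real.exp (-(α * |cc K.Q n' (ctr n' q) g'|))) ^ p ≤
          ENNReal.ofReal (Real.exp (-(p * α * |cc K.Q n' (ctr n' q) g'|))) := by
        rw [ENNReal.ofReal_rpow_of_pos (Real.exp_pos _), ← Real.exp_mul]
        refine le_of_eq ?_
        congr 2
        ring
      have hfin := Chain_alg hp0.le hp1 hA hB hE hE'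
      rw [← hC1'] at hfin
      refine le_trans ?_ hfin
      simp only [hF]
      rw [lintegral_add_left ((hmZ i).pow_const r)]
      gcongr
    rw [K.tower_lay n (i * d) g (hmF i)]
    refine (lintegral_mono fun η => hin (g + η)).trans ?_
    have hne : (C1 : ℝ≥0∞) * (1 + (M : ℝ≥0∞) ^ (1 - p)) ≠ ∞ :=
      ENNReal.mul_ne_top ENNReal.coe_ne_top (ENNReal.add_ne_top.2 ⟨ENNReal.one_ne_top,
        ENNReal.rpow_ne_top_of_nonneg hq ENNReal.coe_ne_top⟩)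
    rw [lintegral_const_mul' _ _ hne]
    gcongr
    have := hG n (i * d) (ctr n v) (ctr n' q) g hs1
    simpa [K.z_zero] using this
  have hpt : ∀ x, sig d (K.pat x) n N z ^ r ≤
      ∑ i ∈ Finset.range N, (r * 2 ^ r : ℝ≥0∞) * F i x := by
    intro x
    have := sum_range_pow_le hr N fun i => ZZ d (K.pat x) (n + i * d) (idx (n + i * d) z)
    simp only [Chain_later] at this
    exact this
  have hsum := (Chain_sum_le (d := d) (by have := hd.1; omega) N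
    fun m => a m (cc K.Q n (ctr n v) g)).trans (ha _)
  calc ∫⁻ x, sig d (K.pat x) n N z ^ r ∂K.P n g
      ≤ ∫⁻ x, ∑ i ∈ Finset.range N, (r * 2 ^ r : ℝ≥0∞) * F i x ∂K.P n g := lintegral_mono hpt
    _ = ∑ i ∈ Finset.range N, (r * 2 ^ r : ℝ≥0∞) * ∫⁻ x, F i x ∂K.P n g := by
        rw [lintegral_finsetSum _ fun i _ => (hmF i).const_mul _]
        exact Finset.sum_congr rfl fun i _ => lintegral_const_mul _ (hmF i)
    _ ≤ ∑ i ∈ Finset.range N, (r * 2 ^ r : ℝ≥0∞) * (C1 * (1 + (M : ℝ≥0∞) ^ (1 - p)) *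
        (a (i * d) (cc K.Q n (ctr n v) g) * wt K.Q 0 (2 * K.θ) n (ctr n v) g)) := by
        refine Finset.sum_le_sum fun i hi => ?_
        have := hterm i hi
        gcongr
    _ = (r * 2 ^ r : ℝ≥0∞) * (C1 * (1 + (M : ℝ≥0∞) ^ (1 - p))) *
        (∑ i ∈ Finset.range N, a (i * d) (cc K.Q n (ctr n v) g)) *
          wt K.Q 0 (2 * K.θ) n (ctr n v) g := by
        rw [Finset.mul_sum, Finset.sum_mul]
        exact Finset.sum_congr rfl fun i _ => by ring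
    _ ≤ (r * 2 ^ r : ℝ≥0∞) * (C1 * (1 + (M : ℝ≥0∞) ^ (1 - p))) * CG *
          wt K.Q 0 (2 * K.θ) n (ctr n v) g := by gcongr
    _ = ((r * 2 ^ r * C1 * CG : ℝ≥0) : ℝ≥0∞) * (1 + (M : ℝ≥0∞) ^ (1 - p)) *
          wt K.Q 0 (2 * K.θ) n (ctr n v) g := by
        push_cast
        ring
    _ ≤ M * K.w 0 (2 * K.θ) n v g := by
        unfold Casc.w
        gcongr

theorem KK_mom (hd : K.Good d) {r : ℕ} (hr : 1 ≤ r) : ∃ C : ℝ≥0, ∀ n v g, K.Win n (ctr n v) →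
    ∫⁻ x, KK d (K.pat x) n v ^ r ∂K.P n g ≤ C * K.w 0 (2 * K.θ) n v g := by
  obtain ⟨C, hC⟩ := K.sig_mom hd hr
  refine ⟨C, fun n v g hW => ?_⟩
  have hm : ∀ N : ℕ, Measurable fun x => (∑ i ∈ Finset.range N, (4 : ℝ≥0∞)⁻¹ ^ (i * d) *
      ∑ w ∈ kids (i * d) v, ZZ d (K.pat x) (n + i * d) w) ^ r := fun N =>
    (Finset.measurable_sum _ fun i _ =>
      (Finset.measurable_sum _ fun w _ => K.ZZ_meas hd.1 _ _).const_mul _).pow_const r
  have hN : ∀ N : ℕ, ∫⁻ x, (∑ i ∈ Finset.range N, (4 : ℝ≥0∞)⁻¹ ^ (i * d) *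
      ∑ w ∈ kids (i * d) v, ZZ d (K.pat x) (n + i * d) w) ^ r ∂K.P n g ≤
      C * K.w 0 (2 * K.θ) n v g := by
    intro N
    have hs : ∀ w, Measurable fun x => sig d (K.pat x) n N (ctr (n + N * d) w) ^ r :=
      fun w => (K.sig_meas hd.1 _ _ _).pow_const r
    set c : ℝ≥0∞ := ((4 : ℝ≥0∞)⁻¹ ^ (N * d)) ^ r * (((4 ^ (N * d) : ℕ) : ℝ≥0∞) ^ (r - 1)) with hc
    calc _ ≤ ∫⁻ x, c * ∑ w ∈ kids (N * d) v, sig d (K.pat x) n N (ctr (n + N * d) w) ^ r
          ∂K.P n g := by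
          refine lintegral_mono fun x => ?_
          have := sum_pow_le (kids (N * d) v)
            (fun w => sig d (K.pat x) n N (ctr (n + N * d) w)) hr
          rw [card_kids] at this
          simp only [KK_partial, mul_pow, hc, mul_assoc]
          gcongr
      _ = c * ∑ w ∈ kids (N * d) v, ∫⁻ x, sig d (K.pat x) n N (ctr (n + N * d) w) ^ r
          ∂K.P n g := by
          rw [lintegral_const_mul _ (Finset.measurable_sum _ fun w _ => hs w),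
            lintegral_finsetSum _ fun w _ => hs w]
      _ ≤ c * ∑ w ∈ kids (N * d) v, C * K.w 0 (2 * K.θ) n v g := by
          gcongr with w hw
          exact hC N n v g _ hW (box_subset_of_kids hw (ctr_mem_box _ _))
      _ = C * K.w 0 (2 * K.θ) n v g := by
          rw [Finset.sum_const, card_kids, nsmul_eq_mul, ← mul_assoc, hc, Chain_avg _ hr, one_mul]
  simp only [KK, Chain_tsum_pow]
  refine (lintegral_liminf_le hm).trans ?_
  exact liminf_le_of_frequently_le' (Frequently.of_forall hN)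

theorem Chain_KK_lift (hd : K.Good d) {r : ℕ} (hr : 1 ≤ r) : ∃ C : ℝ≥0, ∀ n m y g w,
    K.Win (n + m) (ctr (n + m) w) → Sub n y (n + m) (ctr (n + m) w) →
    ∫⁻ x, KK d (K.pat x) (n + m) w ^ r ∂K.P n g ≤ C * wt K.Q 0 (2 * K.θ) n y g := by
  obtain ⟨C, hC⟩ := K.KK_mom hd hr
  obtain ⟨CL, hL⟩ := K.Chain_lift
  refine ⟨C * CL, fun n m y g w hW hs => ?_⟩
  have := hL n m y _ g C _ ((K.KK_meas hd.1 (n + m) w).pow_const r) hs fun g' =>
    hC (n + m) w g' hW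
  push_cast
  rwa [mul_assoc]

/-- K2 of the homogenisation module -/
theorem Xd_mom (hd : K.Good d) {r : ℕ} (hr : 1 ≤ r) : ∃ C : ℝ≥0, ∀ n v g,
    reg n v (3 / 2) ⊆ K.W →
    ∫⁻ x, Xd d (K.pat x) n v ^ r ∂K.P n g ≤ C * K.w 0 (2 * K.θ) n v g := by
  obtain ⟨C, hC⟩ := K.Chain_KK_lift hd hr
  have h7 := hd.1
  refine ⟨(16 * 4 ^ d) ^ (r - 1) * (16 * 4 ^ d) * C, fun n v g hW => ?_⟩
  have hs : ∀ w, Measurable fun x => KK d (K.pat x) (n + d) w ^ r :=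
    fun w => (K.KK_meas hd.1 _ _).pow_const r
  have hcard : ((cov d v).card : ℝ≥0∞) ≤ 16 * 4 ^ d := by
    exact_mod_cast card_cov_le (by omega) v
  calc _ ≤ ∫⁻ x, ((cov d v).card : ℝ≥0∞) ^ (r - 1) * ∑ w ∈ cov d v, KK d (K.pat x) (n + d) w ^ r
        ∂K.P n g := lintegral_mono fun x => sum_pow_le (cov d v) _ hr
    _ = ((cov d v).card : ℝ≥0∞) ^ (r - 1) *
        ∑ w ∈ cov d v, ∫⁻ x, KK d (K.pat x) (n + d) w ^ r ∂K.P n g := by
        rw [lintegral_const_mul _ (Finset.measurable_sum _ fun w _ => hs w),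
          lintegral_finsetSum _ fun w _ => hs w]
    _ ≤ ((cov d v).card : ℝ≥0∞) ^ (r - 1) * ∑ w ∈ cov d v, C * K.w 0 (2 * K.θ) n v g := by
        gcongr with w hw
        exact hC n d _ g w ((reg_cov_subset h7 hw).trans hW) (sub_cov (by omega) hw)
    _ = ((cov d v).card : ℝ≥0∞) ^ (r - 1) * ((cov d v).card * (C * K.w 0 (2 * K.θ) n v g)) := by
        rw [Finset.sum_const, nsmul_eq_mul]
    _ ≤ (16 * 4 ^ d : ℝ≥0∞) ^ (r - 1) * ((16 * 4 ^ d) * (C * K.w 0 (2 * K.θ) n v g)) := by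
        gcongr
    _ = _ := by
        push_cast
        ring

/-- seen from `m` levels above (C8 f) -/
theorem KK_lift (hd : K.Good d) {r : ℕ} (hr : 1 ≤ r) : ∃ C : ℝ≥0, ∀ n m y g w,
    K.Win (n + m) (ctr (n + m) w) → Sub n y (n + m) (ctr (n + m) w) →
    ∫⁻ x, KK d (K.pat x) (n + m) w ^ r ∂K.P n g ≤ C * wt K.Q 0 (2 * K.θ) n y g :=
  K.Chain_KK_lift hd hr

end Casc

end Pool.Agent.Lib.MP_0d9445_pr.CR
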