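import Pool.Agent.Lib.MP_0d9445_pr.CR.Top
import Pool.Agent.Lib.MP_0d9445_pr.CR.D2

/-! Good windows along a sequence of cell structures. -/

open MeasureTheory Set Filter Topology
open scoped ENNReal NNReal

namespace Pool.Agent.Lib.MP_0d9445_pr.CR

open Walk Cell

/-- the degree sum of the centres in `A` -/
noncomputable def piS (C : Cells) (A : Set ℂ) : ℝ≥0∞ :=
  ⨆ K : Set ℂ, ENNReal.ofReal (∑ x ∈ (C.toFC K).pts A, (C.toFC K).G.deg x)

/-- data attached to a window -/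
structure WD where
  W : Set ℂ
  d : ℕ
  a : ℕ → Pat
  A : ℝ≥0
  α : ℝ

/-- the box lies well inside the window -/
def WD.In (w : WD) (m : ℕ) (v : ℤ × ℤ) : Prop := Metric.ball (ctr m v) (48 * sc m) ⊆ w.W

/-- along the sequence the patterns of the window dominate the cells and are eventually good -/
structure WD.OK (w : WD) (C : ℕ → Cells) (μ : Measure ℂ) (M : ℕ → ℝ) (J : ℕ → ℕ) : Prop where
  d7 : 7 ≤ w.d
  α_pos : 0 < w.α
  dom : ∀ᶠ n in atTop, Dom (C n) (w.a n) w.W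
  fin : ∀ᶠ n in atTop, ((C n).V ∩ w.W).Finite
  near : ∀ᶠ n in atTop, ∀ m v, (w.a n).B m v → ((C n).V ∩ ann m v).Nonempty
  hB : ∀ m v, w.In m v → ∀ᶠ n in atTop, w.a n ∉ badB m v
  hK : ∀ m v, w.In m v → ∀ᶠ n in atTop, w.a n ∉ badK w.d w.A m v
  hS : ∀ k : ℕ, ∀ m v, w.In m v → ∀ᶠ n in atTop, w.a n ∉ badS w.d w.A (1 / (k + 1)) m v
  hE : ∀ m v, w.In m v → ∀ᶠ n in atTop, w.a n ∉ badE (J n) m v
  hP : ∀ m v, w.In m v → ∀ᶠ n in atTop, ∃ j : ℕ, w.a n ∉ badP w.d w.α (2 * M n) j m v ∧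
    ∀ i < j, ∀ q ∈ kids (i * w.d) v, piS (C n) (box (m + i * w.d) q) ≤
      ENNReal.ofReal (M n) * (μ (reg (m + i * w.d) q 2) + 2⁻¹ ^ (i * w.d))

/-- every point of `O` has a good window -/
def Cover (O : Set ℂ) (C : ℕ → Cells) (μ : Measure ℂ) (M : ℕ → ℝ) (J : ℕ → ℕ) : Prop :=
  ∀ z ∈ O, ∃ w : WD, w.OK C μ M J ∧ w.W ∈ 𝓝 z

variable {O K : Set ℂ} {C : ℕ → Cells} {μ : Measure ℂ} {M : ℕ → ℝ} {J : ℕ → ℕ}

theorem le_piS (C : Cells) (K A : Set ℂ) :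
    ENNReal.ofReal (∑ x ∈ (C.toFC K).pts A, (C.toFC K).G.deg x) ≤ piS C A :=
  le_iSup (fun K : Set ℂ => ENNReal.ofReal (∑ x ∈ (C.toFC K).pts A, (C.toFC K).G.deg x)) K

theorem EnvDefs_mem_toFC {C : Cells} {K : Set ℂ}
    (h : {x | x ∈ C.V ∧ (C.H x ∩ K).Nonempty}.Finite) {x : ℂ} :
    x ∈ (C.toFC K).V ↔ x ∈ C.V ∧ (C.H x ∩ K).Nonempty := by
  simp only [Cells.toFC, dif_pos h, Finite.mem_toFinset, mem_ofPred_eq]

theorem EnvDefs_deg_nonneg (N : FC) (x : ℂ) : 0 ≤ N.G.deg x := Nat.cast_nonneg _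

/-- the supremum is attained for every `K` that contains the cells of the centres in `A` -/
theorem piS_eq {C : Cells} {K A : Set ℂ} (hm : ∀ x ∈ C.V, x ∈ C.H x)
    (hf : {x | x ∈ C.V ∧ (C.H x ∩ K).Nonempty}.Finite) (hA : ∀ x ∈ C.V ∩ A, C.H x ⊆ K) :
    piS C A = ENNReal.ofReal (∑ x ∈ (C.toFC K).pts A, (C.toFC K).G.deg x) := by
  refine le_antisymm (iSup_le fun K' => ENNReal.ofReal_le_ofReal ?_) (le_piS C K A)
  have key : ∀ x ∈ (C.toFC K').pts A, x ∈ C.V ∧ x ∈ A ∧ C.H x ⊆ K ∧ x ∈ (C.toFC K).V := by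
    intro x hx
    obtain ⟨h1, h2⟩ := (C.toFC K').mem_pts.1 hx
    have h3 : x ∈ C.V := toFC_V_subset C K' h1
    have h4 := hA x ⟨h3, h2⟩
    exact ⟨h3, h2, h4, (EnvDefs_mem_toFC hf).2 ⟨h3, x, hm x h3, h4 (hm x h3)⟩⟩
  refine le_trans (Finset.sum_le_sum fun x hx => ?_) (Finset.sum_le_sum_of_subset_of_nonneg
    (fun x hx => (C.toFC K).mem_pts.2 ⟨(key x hx).2.2.2, (key x hx).2.1⟩)
    fun x _ _ => EnvDefs_deg_nonneg _ x)
  obtain ⟨-, -, h3, h4⟩ := key x hx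
  refine Nat.cast_le.2 (Finset.card_le_card fun y hy => ?_)
  obtain ⟨g1, -, g3, w, hw⟩ := (C.toFC K').mem_N.1 hy
  exact (C.toFC K).mem_N.2 ⟨(EnvDefs_mem_toFC hf).2 ⟨toFC_V_subset C K' g1, w, hw.2, h3 hw.1⟩,
    h4, g3, w, hw⟩

theorem piS_mono (C : Cells) {A A' : Set ℂ} (h : A ⊆ A') : piS C A ≤ piS C A' :=
  iSup_mono fun K => ENNReal.ofReal_le_ofReal (Finset.sum_le_sum_of_subset_of_nonneg
    (fun _ hx => (C.toFC K).mem_pts.2
      ⟨((C.toFC K).mem_pts.1 hx).1, h ((C.toFC K).mem_pts.1 hx).2⟩)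
    fun x _ _ => EnvDefs_deg_nonneg _ x)

theorem piS_le_sum (C : Cells) {n : ℕ} {A : Set ℂ} (I : Finset (ℤ × ℤ))
    (hI : ∀ z ∈ A, idx n z ∈ I) : piS C A ≤ ∑ v ∈ I, piS C (box n v) := by
  refine iSup_le fun K => le_trans ?_ (Finset.sum_le_sum fun v _ => le_piS C K (box n v))
  rw [← ENNReal.ofReal_sum_of_nonneg
    fun v _ => Finset.sum_nonneg fun x _ => EnvDefs_deg_nonneg _ x]
  refine ENNReal.ofReal_le_ofReal ?_
  rw [← Finset.sum_fiberwise_of_maps_to (g := idx n) (t := I)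
    fun x hx => hI x ((C.toFC K).mem_pts.1 hx).2]
  refine Finset.sum_le_sum fun v _ => Finset.sum_le_sum_of_subset_of_nonneg (fun x hx => ?_)
    fun x _ _ => EnvDefs_deg_nonneg _ x
  obtain ⟨h1, h2⟩ := Finset.mem_filter.1 hx
  exact (C.toFC K).mem_pts.2 ⟨((C.toFC K).mem_pts.1 h1).1, mem_box_iff.2 h2⟩

theorem Dom.piS_le {d : ℕ} {C : Cells} {a : Pat} {W : Set ℂ} (h : Dom C a W) (hd : 1 ≤ d)
    {n i : ℕ} {v w : ℤ × ℤ} (hs : Shut a n (box n v)) (hW : reg n v 6 ⊆ W)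
    (hw : w ∈ kids (i * d) v) :
    piS C (box (n + i * d) w) ≤ PiD d a (n + i * d) w + sig d a n i (ctr (n + i * d) w) :=
  iSup_le fun _ => h.deg_le hd hs hW hw

theorem Dom.piS_le_PiD {d : ℕ} {C : Cells} {a : Pat} {W : Set ℂ} (h : Dom C a W) (hd : 1 ≤ d)
    {n : ℕ} {v : ℤ × ℤ} (hs : Shut a n (box n v)) (hW : reg n v 6 ⊆ W) :
    piS C (box n v) ≤ PiD d a n v := by
  have h0 := h.piS_le (i := 0) (w := v) hd hs hW (by
    rw [zero_mul, kids_zero]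
    exact Finset.mem_singleton_self v)
  simpa only [zero_mul, add_zero, sig, Finset.range_zero, Finset.sum_empty] using h0

/-- finitely many windows with a Lebesgue number -/
theorem Cover.lebesgue (h : Cover O C μ M J) (hK : IsCompact K) (hKO : K ⊆ O) :
    ∃ (s : Finset WD) (r : ℝ), 0 < r ∧ (∀ w ∈ s, w.OK C μ M J) ∧
      ∀ y ∈ K, ∃ w ∈ s, Metric.ball y r ⊆ w.W := by
  classical
  choose f hf hW using fun z : K => h z (hKO z.2)
  obtain ⟨t, ht⟩ := hK.elim_finite_subcover (fun z : K => interior (f z).W)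
    (fun _ => isOpen_interior)
    fun y hy => mem_iUnion.2 ⟨⟨y, hy⟩, mem_interior_iff_mem_nhds.2 (hW ⟨y, hy⟩)⟩
  obtain ⟨r, hr, hl⟩ := lebesgue_number_lemma_of_metric (c := fun z : t => interior (f z).W) hK
    (fun _ => isOpen_interior) fun y hy => by
      obtain ⟨z, hz, hy⟩ := mem_iUnion₂.1 (ht hy)
      exact mem_iUnion.2 ⟨⟨z, hz⟩, hy⟩
  refine ⟨t.image f, r, hr, fun w hw => ?_, fun y hy => ?_⟩
  · obtain ⟨z, -, rfl⟩ := Finset.mem_image.1 hw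
    exact hf z
  · obtain ⟨z, hz⟩ := hl y hy
    exact ⟨f z, Finset.mem_image_of_mem f z.2, hz.trans interior_subset⟩

theorem EnvDefs_finite_idx (hK : Bornology.IsBounded K) (m : ℕ) : (idx m '' K).Finite := by
  obtain ⟨R, hR⟩ := hK.exists_norm_le
  obtain ⟨N, hN⟩ := exists_nat_ge (R / sc m)
  rw [div_le_iff₀ (sc_pos m)] at hN
  refine (nbh N (idx m 0)).finite_toSet.subset ?_
  rintro _ ⟨z, hz, rfl⟩
  refine idx_mem_nbh ⟨?_, ?_⟩
  · rw [Complex.zero_re, sub_zero]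
    exact (Complex.abs_re_le_norm z).trans ((hR z hz).trans hN)
  · rw [Complex.zero_im, sub_zero]
    exact (Complex.abs_im_le_norm z).trans ((hR z hz).trans hN)

/-- a property of all boxes of level `m` near a bounded set holds eventually at once -/
theorem eventually_boxes {p : ℕ → ℤ × ℤ → Prop} {q : ℤ × ℤ → Prop} (hK : Bornology.IsBounded K)
    (m : ℕ) (h : ∀ v, q v → ∀ᶠ n in atTop, p n v) :
    ∀ᶠ n in atTop, ∀ z ∈ K, q (idx m z) → p n (idx m z) := by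
  have h1 : ∀ᶠ n in atTop, ∀ v ∈ idx m '' K, q v → p n v :=
    (eventually_all_finite (EnvDefs_finite_idx hK m)).2 fun v _ => by
      by_cases hq : q v
      · exact (h v hq).mono fun _ hn _ => hn
      · exact Eventually.of_forall fun _ hn => absurd hn hq
  exact h1.mono fun n hn z hz => hn _ ⟨z, hz, rfl⟩

theorem WD.in_of_ball {w : WD} {y z : ℂ} {r : ℝ} {m : ℕ} (h : Metric.ball y r ⊆ w.W)
    (hz : ‖z - y‖ + 49 * sc m ≤ r) : w.In m (idx m z) := by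
  refine Subset.trans (Metric.ball_subset_ball' ?_) h
  have h1 := norm_sub_ctr_le (mem_box_idx m z)
  have h2 := norm_sub_le_norm_sub_add_norm_sub (ctr m (idx m z)) z y
  rw [norm_sub_rev] at h1
  rw [dist_eq_norm]
  linarith

/-- diagonal subsequence for arbitrary sets -/
theorem exists_diag {Ω : Type*} [MeasurableSpace Ω] (P : Measure Ω) (F : ℕ → ℕ → Set Ω)
    (h : ∀ i, ∀ᶠ n in atTop, P (F i n) ≤ 2⁻¹ ^ i) :
    ∃ φ : ℕ → ℕ, StrictMono φ ∧ ∀ᵐ ω ∂P, ∀ᶠ i in atTop, ω ∉ F i (φ i) := by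
  obtain ⟨φ, h1, h2⟩ := extraction_forall_of_eventually h
  refine ⟨φ, h1, ae_eventually_notMem (ne_top_of_le_ne_top ?_ (ENNReal.tsum_le_tsum h2))⟩
  rw [ENNReal.tsum_geometric, ENNReal.one_sub_inv_two, inv_inv]
  exact ENNReal.ofNat_ne_top

/-- countably many two-parameter families of small sets: one subsequence, and for each family a
choice of the first parameter -/
theorem exists_diag' {Ω ι : Type*} [MeasurableSpace Ω] [Countable ι] (P : Measure Ω)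
    (G : ι → ℕ → ℕ → Set Ω)
    (h : ∀ k (ε : ℝ≥0∞), 0 < ε → ∃ j, ∀ᶠ n in atTop, P (G k j n) ≤ ε) :
    ∃ φ : ℕ → ℕ, StrictMono φ ∧ ∀ᵐ ω ∂P, ∀ k, ∀ᶠ i in atTop, ∃ j, ω ∉ G k j (φ i) := by
  rcases isEmpty_or_nonempty ι with hι | hι
  · exact ⟨id, strictMono_id, Eventually.of_forall fun _ k => hι.elim k⟩
  obtain ⟨e, he⟩ := exists_surjective_nat ι
  have hε : ∀ i : ℕ, (0 : ℝ≥0∞) < 2⁻¹ ^ i / ((i + 1 : ℕ) : ℝ≥0∞) := fun i =>
    ENNReal.div_pos (pow_ne_zero _ (ENNReal.inv_ne_zero.2 ENNReal.ofNat_ne_top))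
      (ENNReal.natCast_ne_top _)
  choose j hj using fun k i => h k _ (hε i)
  obtain ⟨φ, h1, h2⟩ := exists_diag P
    (fun i n => ⋃ l ∈ Finset.range (i + 1), G (e l) (j (e l) i) n) fun i => by
      filter_upwards [(eventually_all_finset (Finset.range (i + 1))).2 fun l _ => hj (e l) i]
        with n hn
      refine (measure_biUnion_finset_le _ _).trans ((Finset.sum_le_card_nsmul _ _ _ hn).trans ?_)
      rw [Finset.card_range, nsmul_eq_mul]
      exact ENNReal.mul_div_le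
  refine ⟨φ, h1, h2.mono fun ω hω k => ?_⟩
  obtain ⟨l, rfl⟩ := he k
  filter_upwards [hω, eventually_ge_atTop l] with i hi hl
  exact ⟨j (e l) i, fun hh => hi (mem_iUnion₂.2 ⟨l, Finset.mem_range.2 (by omega), hh⟩)⟩

end Pool.Agent.Lib.MP_0d9445_pr.CR
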