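import Pool.Agent.Lib.MP_0d9445_pr.CR.Lay
import Pool.Agent.Lib.MP_0d9445_pr.CR.Meas

/-! Killing by blocked boxes gives decay for large height. -/

open MeasureTheory ProbabilityTheory Set Filter Topology
open scoped ENNReal NNReal

namespace Pool.Agent.Lib.MP_0d9445_pr.CR

namespace Casc

variable {Ξ : Type} [MeasurableSpace Ξ] [MeasurableSpace C(ℂ, ℝ)] (K : Casc Ξ)

theorem Kill_down1 {d : ℕ} (hd : 7 ≤ d) {s : ℝ} (hs : |s| ≤ 1) :
    ∃ D : ℝ≥0, ∀ n v w g, w ∈ kids d v →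
      ∫⁻ η, K.w s (K.θ + 1) (n + d) w (g + η) ∂K.lay n d ≤ D * K.w s K.θ n v g := by
  have hθ := K.θ_ge
  have hσ := K.σ_pos
  obtain ⟨C, hC⟩ := K.down s (t := K.θ + 1) (by linarith)
  refine ⟨C * ((2 : ℝ) ^ (-(d * K.z s))).toNNReal, fun n v w g hw => ?_⟩
  refine (hC n d _ _ g (sub_kids hw)).trans ?_
  rw [ENNReal.coe_mul]
  refine mul_le_mul' le_rfl (wt_mono _ _ ?_ _ _ _)
  have h2 : (2 : ℝ)⁻¹ ^ d ≤ (2 : ℝ)⁻¹ ^ 7 :=
    pow_le_pow_of_le_one (by norm_num) (by norm_num) hd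
  have h3 : (K.θ + 1) * (2 : ℝ)⁻¹ ^ d ≤ (K.θ + 1) * (2 : ℝ)⁻¹ ^ 7 :=
    mul_le_mul_of_nonneg_left h2 (by linarith)
  norm_num at h3 ⊢
  linarith

theorem Kill_down {d : ℕ} (hd : 7 ≤ d) :
    ∃ D : ℝ≥0, ∀ n v w g, w ∈ kids d v →
      ∫⁻ η, K.w (-1) (K.θ + 1) (n + d) w (g + η) ∂K.lay n d ≤ D * K.w (-1) K.θ n v g ∧
      ∫⁻ η, K.w 0 (K.θ + 1) (n + d) w (g + η) ∂K.lay n d ≤ D * K.w 0 K.θ n v g := by
  obtain ⟨D1, h1⟩ := K.Kill_down1 hd (s := -1) (by simp)
  obtain ⟨D0, h0⟩ := K.Kill_down1 hd (s := 0) (by simp)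
  refine ⟨max D1 D0, fun n v w g hw => ⟨(h1 n v w g hw).trans ?_, (h0 n v w g hw).trans ?_⟩⟩
  · exact mul_le_mul' (ENNReal.coe_le_coe.2 (le_max_left _ _)) le_rfl
  · exact mul_le_mul' (ENNReal.coe_le_coe.2 (le_max_right _ _)) le_rfl

omit [MeasurableSpace C(ℂ, ℝ)] in
theorem Kill_small (M : ℝ≥0) :
    ∃ (δ L : ℝ≥0), 0 < δ ∧ ENNReal.ofReal (Real.exp (-(L : ℝ))) ≤ δ ∧ M * δ ≤ 2⁻¹ := by
  have hp : (0 : ℝ≥0) < 2 * (M + 1) := by positivity
  refine ⟨(2 * (M + 1))⁻¹, 2 * (M + 1), inv_pos.2 hp, ?_, ?_⟩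
  · rw [← ENNReal.ofReal_coe_nnreal]
    refine ENNReal.ofReal_le_ofReal ?_
    have hp' : (0 : ℝ) < ((2 * (M + 1) : ℝ≥0) : ℝ) := by exact_mod_cast hp
    rw [NNReal.coe_inv, Real.exp_neg]
    refine inv_anti₀ hp' ?_
    linarith [Real.add_one_le_exp ((2 * (M + 1) : ℝ≥0) : ℝ)]
  · rw [← div_eq_mul_inv, div_le_iff₀ hp]
    have : (2 : ℝ≥0)⁻¹ * (2 * (M + 1)) = M + 1 := by
      rw [← mul_assoc, inv_mul_cancel₀ (by norm_num), one_mul]
    rw [this]
    exact le_self_add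

open Classical in
theorem Kill_prod {n : ℕ} {v : ℤ × ℤ} {F : Ξ → ℝ≥0∞} (hF : Measurable[K.G (reg n v 1)] F)
    (g : C(ℂ, ℝ)) :
    ∫⁻ x, (if (K.pat x).B n v then 0 else F x) ∂K.P n g =
      K.P n g {x | ¬ (K.pat x).B n v} * ∫⁻ x, F x ∂K.P n g := by
  have h1 : Measurable[K.G (ann n v)]
      fun x => (if (K.pat x).B n v then (0 : ℝ≥0∞) else 1) :=
    Measurable.ite (K.blk_meas n v) measurable_const measurable_const
  have h2 := K.lintegral_mul_far g (n := n) (A := ann n v) (B := reg n v 1)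
    (fun x hx y hy => ann_far hx (reg_mono n v (by norm_num) hy)) h1 hF
  have h3 : ∫⁻ x, (if (K.pat x).B n v then (0 : ℝ≥0∞) else 1) ∂K.P n g =
      K.P n g {x | ¬ (K.pat x).B n v} := by
    have hB : MeasurableSet {x | ¬ (K.pat x).B n v} := (K.blk_meas' n v).compl
    rw [← lintegral_indicator_one hB]
    refine lintegral_congr fun x => ?_
    by_cases h : (K.pat x).B n v <;> simp [h]
  rw [← h3, ← h2]
  refine lintegral_congr fun x => ?_
  by_cases h : (K.pat x).B n v <;> simp [h]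

theorem Kill_w_succ (s : ℝ) (n : ℕ) (v : ℤ × ℤ) (g : C(ℂ, ℝ)) :
    ex (oo n (ctr n v) g) * K.w s K.θ n v g = K.w s (K.θ + 1) n v g := by
  have h := wt_mul K.Q 0 s (t := 1) (t' := K.θ) zero_le_one K.θ_pos.le n (ctr n v) g
  rw [wt_zero, ENNReal.ofReal_one, one_mul, zero_add, add_comm] at h
  exact h

open Classical in
theorem kill {d : ℕ} (hd : 7 ≤ d) (N : ℝ≥0) (φ : ℕ → ℕ → ℤ × ℤ → Ξ → ℝ≥0∞)
    (hm : ∀ k n v, Measurable[K.G (reg n v 1)] (φ k n v))
    (h0 : ∀ n v x, φ 0 n v x ≤ 1)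
    (hs : ∀ k n v x, φ (k + 1) n v x ≤
      N * ∑ w ∈ kids d v, if (K.pat x).B (n + d) w then 0 else φ k (n + d) w x)
    (hap : ∀ T : ℝ, ∃ C : ℝ≥0, ∀ k n v g, K.Win n (ctr n v) → cc K.Q n (ctr n v) g < T →
      ∫⁻ x, φ k n v x ∂K.P n g ≤ C * K.w 0 K.θ n v g) :
    ∃ C : ℝ≥0, ∀ k n v g, K.Win n (ctr n v) →
      ∫⁻ x, φ k n v x ∂K.P n g ≤ C * K.w (-1) K.θ n v g + 2⁻¹ ^ k * K.w 0 K.θ n v g := by
  obtain ⟨D, hD⟩ := K.Kill_down hd
  obtain ⟨δ, L, hδ, hL, hMδ⟩ := Kill_small (N * 4 ^ d * D)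
  obtain ⟨T, hT⟩ := K.soft δ L (by exact_mod_cast hδ)
  obtain ⟨CT, hCT⟩ := hap T
  set A : ℝ≥0 := CT * (Real.exp T).toNNReal with hA
  refine ⟨2 * (N * 4 ^ d * D * A), fun k => ?_⟩
  set C : ℝ≥0 := 2 * (N * 4 ^ d * D * A) with hC
  have hmm : ∀ k n v, Measurable (φ k n v) := fun k n v => (hm k n v).mono (K.G_le _) le_rfl
  induction k with
  | zero =>
    intro n v g _
    calc ∫⁻ x, φ 0 n v x ∂K.P n g ≤ ∫⁻ _, 1 ∂K.P n g := lintegral_mono fun x => h0 n v x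
      _ = 1 := by simp
      _ ≤ K.w 0 K.θ n v g := one_le_wt_zero _ _ _ _ _
      _ ≤ _ := by rw [pow_zero, one_mul]; exact le_add_self
  | succ k ih =>
    intro n v g hW
    -- pointwise bound at level `n + d`
    have key : ∀ w ∈ kids d v, ∀ g' : C(ℂ, ℝ),
        ∫⁻ x, (if (K.pat x).B (n + d) w then 0 else φ k (n + d) w x) ∂K.P (n + d) g' ≤
          (A + δ * C : ℝ≥0) * K.w (-1) (K.θ + 1) (n + d) w g' +
            δ * 2⁻¹ ^ k * K.w 0 (K.θ + 1) (n + d) w g' := by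
      intro w hw g'
      have hW' : K.Win (n + d) (ctr (n + d) w) := hW.sub (sub_kids hw)
      have hmono : ∀ s, K.w s K.θ (n + d) w g' ≤ K.w s (K.θ + 1) (n + d) w g' := fun s =>
        wt_mono _ _ (by linarith) _ _ _
      rw [K.Kill_prod (hm k (n + d) w)]
      have hp1 : K.P (n + d) g' {x | ¬ (K.pat x).B (n + d) w} ≤ 1 := prob_le_one
      by_cases hc : cc K.Q (n + d) (ctr (n + d) w) g' < T
      · have h1 := hCT k (n + d) w g' hW' hc
        have h2 : K.w 0 K.θ (n + d) w g' ≤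
            ENNReal.ofReal (Real.exp T) * K.w (-1) K.θ (n + d) w g' := by
          unfold Casc.w
          rw [wt_eq K.Q 0 (-1)]
          refine mul_le_mul' (ENNReal.ofReal_le_ofReal (Real.exp_le_exp.2 ?_)) le_rfl
          linarith
        calc _ ≤ 1 * (CT * (ENNReal.ofReal (Real.exp T) * K.w (-1) (K.θ + 1) (n + d) w g')) :=
              mul_le_mul' hp1 (h1.trans (mul_le_mul' le_rfl
                (h2.trans (mul_le_mul' le_rfl (hmono _)))))
          _ = A * K.w (-1) (K.θ + 1) (n + d) w g' := by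
              rw [one_mul, hA, ENNReal.coe_mul, mul_assoc]; rfl
          _ ≤ (A + δ * C : ℝ≥0) * K.w (-1) (K.θ + 1) (n + d) w g' :=
              mul_le_mul' (ENNReal.coe_le_coe.2 le_self_add) le_rfl
          _ ≤ _ := le_self_add
      · have h1 := ih (n + d) w g' hW'
        have h4 : K.P (n + d) g' {x | ¬ (K.pat x).B (n + d) w} *
            ∫⁻ x, φ k (n + d) w x ∂K.P (n + d) g' ≤
            δ * (C * K.w (-1) (K.θ + 1) (n + d) w g' +
              2⁻¹ ^ k * K.w 0 (K.θ + 1) (n + d) w g') := by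
          by_cases ho : oo (n + d) (ctr (n + d) w) g' ≤ L
          · have h2 := hT (n + d) w g' hW'.reg ho (not_lt.1 hc)
            exact mul_le_mul' h2 (h1.trans (add_le_add (mul_le_mul' le_rfl (hmono _))
              (mul_le_mul' le_rfl (hmono _))))
          · have h2 := one_le_exp_neg_mul_ex (not_le.1 ho).le
            have h3 : K.P (n + d) g' {x | ¬ (K.pat x).B (n + d) w} ≤
                δ * ex (oo (n + d) (ctr (n + d) w) g') :=
              hp1.trans (h2.trans (mul_le_mul' hL le_rfl))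
            refine (mul_le_mul' h3 h1).trans (le_of_eq ?_)
            rw [← K.Kill_w_succ, ← K.Kill_w_succ]
            ring
        refine h4.trans ?_
        rw [mul_add, ← mul_assoc, ← mul_assoc]
        refine add_le_add (mul_le_mul' ?_ le_rfl) le_rfl
        rw [← ENNReal.coe_mul]
        exact ENNReal.coe_le_coe.2 le_add_self
    have hmeas : ∀ w, Measurable fun x =>
        (if (K.pat x).B (n + d) w then 0 else φ k (n + d) w x) := fun w =>
      Measurable.ite (K.blk_meas' _ _) measurable_const (hmm _ _ _)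
    have hw1 : ∀ s w, Measurable fun η : C(ℂ, ℝ) => K.w s (K.θ + 1) (n + d) w (g + η) :=
      fun s w => (K.measurable_wt s (K.θ + 1) (n + d) (ctr (n + d) w)).comp
        (K.measurable_add_left g)
    have key2 : ∀ w ∈ kids d v,
        ∫⁻ x, (if (K.pat x).B (n + d) w then 0 else φ k (n + d) w x) ∂K.P n g ≤
          (A + δ * C : ℝ≥0) * (D * K.w (-1) K.θ n v g) +
            δ * 2⁻¹ ^ k * (D * K.w 0 K.θ n v g) := by
      intro w hw
      rw [K.tower_lay n d g (hmeas w)]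
      refine (lintegral_mono fun η => key w hw (g + η)).trans ?_
      rw [lintegral_add_left ((hw1 _ _).const_mul _), lintegral_const_mul _ (hw1 _ _),
        lintegral_const_mul _ (hw1 _ _)]
      exact add_le_add (mul_le_mul' le_rfl (hD n v w g hw).1)
        (mul_le_mul' le_rfl (hD n v w g hw).2)
    have hc1 : N * 4 ^ d * D * (A + δ * C) ≤ C := by
      have : N * 4 ^ d * D * (A + δ * C) = N * 4 ^ d * D * A + (N * 4 ^ d * D * δ) * C := by ring
      rw [this]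
      calc _ ≤ N * 4 ^ d * D * A + 2⁻¹ * C := add_le_add le_rfl (mul_le_mul' hMδ le_rfl)
        _ = C := by
          rw [hC, ← mul_assoc (2⁻¹ : ℝ≥0), inv_mul_cancel₀ (by norm_num), one_mul, two_mul]
    have hc2 : ((N * 4 ^ d * D * δ : ℝ≥0) : ℝ≥0∞) ≤ 2⁻¹ := by
      have := ENNReal.coe_le_coe.2 hMδ
      rwa [ENNReal.coe_inv (by norm_num), ENNReal.coe_ofNat] at this
    calc ∫⁻ x, φ (k + 1) n v x ∂K.P n g
        ≤ ∫⁻ x, N * ∑ w ∈ kids d v,
            (if (K.pat x).B (n + d) w then 0 else φ k (n + d) w x) ∂K.P n g :=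
          lintegral_mono fun x => hs k n v x
      _ = N * ∑ w ∈ kids d v,
            ∫⁻ x, (if (K.pat x).B (n + d) w then 0 else φ k (n + d) w x) ∂K.P n g := by
          rw [lintegral_const_mul _ (Finset.measurable_sum _ fun w _ => hmeas w),
            lintegral_finsetSum _ fun w _ => hmeas w]
      _ ≤ N * ∑ _w ∈ kids d v, ((A + δ * C : ℝ≥0) * (D * K.w (-1) K.θ n v g) +
            δ * 2⁻¹ ^ k * (D * K.w 0 K.θ n v g)) :=
          mul_le_mul' le_rfl (Finset.sum_le_sum key2)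
      _ = ((N * 4 ^ d * D * (A + δ * C) : ℝ≥0) : ℝ≥0∞) * K.w (-1) K.θ n v g +
            2⁻¹ ^ k * ((N * 4 ^ d * D * δ : ℝ≥0) : ℝ≥0∞) * K.w 0 K.θ n v g := by
          rw [Finset.sum_const, card_kids, nsmul_eq_mul]
          push_cast
          ring
      _ ≤ C * K.w (-1) K.θ n v g + 2⁻¹ ^ (k + 1) * K.w 0 K.θ n v g := by
          refine add_le_add (mul_le_mul' (ENNReal.coe_le_coe.2 hc1) le_rfl)
            (mul_le_mul' ?_ le_rfl)
          rw [pow_succ]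
          exact mul_le_mul' le_rfl hc2

end Casc

end Pool.Agent.Lib.MP_0d9445_pr.CR
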