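import Pool.Agent.Lib.MP_0d9445_pr.CR.Wt

/-! Several layers at once: tower, exponential moments, one step down. -/

open MeasureTheory ProbabilityTheory Set Filter Topology
open scoped ENNReal NNReal

namespace Pool.Agent.Lib.MP_0d9445_pr.CR

theorem Lay_mul_le (a b : ℝ≥0∞) : a * b ≤ a * a + b * b := by
  rcases le_total a b with h | h
  · exact (mul_le_mul_left h b).trans le_add_self
  · exact (mul_le_mul_right h a).trans le_self_add

namespace Casc

variable {Ξ : Type} [MeasurableSpace Ξ] [MeasurableSpace C(ℂ, ℝ)] (K : Casc Ξ)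

instance lay_prob (n m : ℕ) : IsProbabilityMeasure (K.lay n m) := by
  induction m with
  | zero => exact inferInstanceAs (IsProbabilityMeasure (Measure.dirac 0))
  | succ m ih => exact Measure.isProbabilityMeasure_map K.meas_add.aemeasurable

theorem lintegral_lay_zero (n : ℕ) {F : C(ℂ, ℝ) → ℝ≥0∞} (hF : Measurable F) :
    ∫⁻ η, F η ∂K.lay n 0 = F 0 := lintegral_dirac' 0 hF

theorem lintegral_lay_succ (n m : ℕ) {F : C(ℂ, ℝ) → ℝ≥0∞} (hF : Measurable F) :
    ∫⁻ η, F η ∂K.lay n (m + 1) = ∫⁻ η, ∫⁻ η', F (η + η') ∂K.ν (n + m) ∂K.lay n m := by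
  rw [lay, lintegral_map hF K.meas_add, lintegral_prod _ (hF.fun_comp K.meas_add).aemeasurable]

theorem tower_lay (n m : ℕ) (g : C(ℂ, ℝ)) {F : Ξ → ℝ≥0∞} (hF : Measurable F) :
    ∫⁻ x, F x ∂K.P n g = ∫⁻ η, ∫⁻ x, F x ∂K.P (n + m) (g + η) ∂K.lay n m := by
  induction m with
  | zero =>
    rw [K.lintegral_lay_zero n (hF.lintegral_kernel.fun_comp (K.measurable_add_left g)), add_zero,
      add_zero]
  | succ m ih =>
    rw [K.lintegral_lay_succ n m (hF.lintegral_kernel.fun_comp (K.measurable_add_left g)), ih]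
    refine lintegral_congr fun η => ?_
    rw [K.tower (n + m) (g + η) F hF]
    simp only [add_assoc]

theorem tower_set (n m : ℕ) (g : C(ℂ, ℝ)) {E : Set Ξ} (hE : MeasurableSet E) :
    K.P n g E = ∫⁻ η, K.P (n + m) (g + η) E ∂K.lay n m := by
  have h := K.tower_lay n m g (F := E.indicator 1) (measurable_one.indicator hE)
  simpa only [lintegral_indicator_one hE] using h

theorem lintegral_exp_ν (s : ℝ) (n : ℕ) (y : ℂ) :
    ∫⁻ η, ENNReal.ofReal (Real.exp (s * η y)) ∂K.ν n = ENNReal.ofReal ((2 : ℝ) ^ (s ^ 2 / 2)) := by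
  have hm : Measurable fun x : ℝ => ENNReal.ofReal (Real.exp (s * x)) := by fun_prop
  rw [← lintegral_map hm (K.meas_eval y), K.gauss, ← ofReal_integral_eq_lintegral_ofReal
    (integrable_exp_mul_gaussianReal s) (ae_of_all _ fun x => (Real.exp_pos _).le)]
  have h := congrFun (mgf_fun_id_gaussianReal (μ := 0) (v := (Real.log 2).toNNReal)) s
  rw [ProbabilityTheory.mgf] at h
  rw [h, Real.coe_toNNReal _ (Real.log_nonneg one_le_two), Real.rpow_def_of_pos two_pos]
  congr 2
  ring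

/-- one layer with a small slope factor -/
theorem one_layer (s t : ℝ) : ∃ κ : ℝ≥0, ∀ (e : ℝ), 0 ≤ e → e ≤ 1 → ∀ n y,
    ∫⁻ η, ENNReal.ofReal (Real.exp (s * η y)) * ex (ENNReal.ofReal (e * t) * oo n y η) ∂K.ν n ≤
      ENNReal.ofReal ((2 : ℝ) ^ (s ^ 2 / 2)) * (1 + κ * ENNReal.ofReal e) := by
  obtain ⟨C, hC⟩ := K.lipexp (2 * t)
  refine ⟨((2 : ℝ) ^ ((2 * s) ^ 2 / 2)).toNNReal + C, fun e h0 h1 n y => ?_⟩
  have m1 : ∀ a : ℝ, Measurable fun η : C(ℂ, ℝ) => ENNReal.ofReal (Real.exp (a * η y)) :=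
    fun a => (Real.measurable_exp.comp ((K.meas_eval y).const_mul a)).ennreal_ofReal
  have m2 : Measurable fun η : C(ℂ, ℝ) => ex (ENNReal.ofReal (2 * t) * oo n y η) :=
    measurable_ex.comp ((K.measurable_oo n y).const_mul _)
  have h2 : (1 : ℝ≥0∞) ≤ ENNReal.ofReal ((2 : ℝ) ^ (s ^ 2 / 2)) :=
    ENNReal.one_le_ofReal.2 (Real.one_le_rpow one_le_two (by positivity))
  calc _ ≤ ∫⁻ η, ENNReal.ofReal (Real.exp (s * η y)) + ENNReal.ofReal e *
        (ENNReal.ofReal (Real.exp (2 * s * η y)) + ex (ENNReal.ofReal (2 * t) * oo n y η))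
          ∂K.ν n := by
        refine lintegral_mono fun η => ?_
        rw [ENNReal.ofReal_mul h0, mul_assoc]
        refine (mul_le_mul_right (ex_mul_le h0 h1 _) _).trans ?_
        rw [mul_add, mul_one, mul_left_comm]
        refine add_le_add le_rfl (mul_le_mul_right ((Lay_mul_le _ _).trans (le_of_eq ?_)) _)
        rw [← ex_add, ← add_mul, ← ENNReal.ofReal_mul (Real.exp_pos _).le, ← Real.exp_add,
          ENNReal.ofReal_mul zero_le_two, ENNReal.ofReal_ofNat, two_mul (ENNReal.ofReal t)]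
        congr 3
        ring
    _ = ENNReal.ofReal ((2 : ℝ) ^ (s ^ 2 / 2)) + ENNReal.ofReal e *
        (ENNReal.ofReal ((2 : ℝ) ^ ((2 * s) ^ 2 / 2)) +
          ∫⁻ η, ex (ENNReal.ofReal (2 * t) * oo n y η) ∂K.ν n) := by
        rw [lintegral_add_left (m1 s), lintegral_const_mul _ ((m1 _).fun_add m2),
          lintegral_add_left (m1 _), K.lintegral_exp_ν, K.lintegral_exp_ν]
    _ ≤ _ := by
        rw [mul_add _ 1, mul_one, ENNReal.coe_add]
        refine add_le_add le_rfl (le_trans ?_ (le_mul_of_one_le_left' h2))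
        rw [mul_comm]
        exact mul_le_mul_left (add_le_add le_rfl (hC n y)) _

/-- the constant does not depend on the number of layers -/
theorem mgf (s t : ℝ) : ∃ C : ℝ≥0, ∀ n m y,
    ∫⁻ η, ENNReal.ofReal (Real.exp (s * η y)) * ex (ENNReal.ofReal t * oo (n + m) y η)
      ∂K.lay n m ≤ C * ENNReal.ofReal ((2 : ℝ) ^ (m * s ^ 2 / 2)) := by
  obtain ⟨κ, hκ⟩ := K.one_layer s t
  have mm : ∀ (a : ℝ) (n : ℕ) (y : ℂ), Measurable fun η : C(ℂ, ℝ) =>
      ENNReal.ofReal (Real.exp (s * η y)) * ex (ENNReal.ofReal a * oo n y η) := fun a n y =>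
    (Real.measurable_exp.comp ((K.meas_eval y).const_mul s)).ennreal_ofReal.mul
      (measurable_ex.comp ((K.measurable_oo n y).const_mul _))
  have key : ∀ (n : ℕ) (y : ℂ) (m : ℕ) (e : ℝ), 0 ≤ e → e ≤ 1 →
      ∫⁻ η, ENNReal.ofReal (Real.exp (s * η y)) * ex (ENNReal.ofReal (e * t) * oo (n + m) y η)
        ∂K.lay n m ≤ ENNReal.ofReal (Real.exp (κ * e)) *
          ENNReal.ofReal ((2 : ℝ) ^ (m * s ^ 2 / 2)) := by
    intro n y m
    induction m with
    | zero =>
      intro e h0 _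
      rw [K.lintegral_lay_zero n (mm _ _ _), oo_zero, mul_zero, ex_zero]
      simp only [ContinuousMap.zero_apply, mul_zero, Real.exp_zero, ENNReal.ofReal_one, mul_one,
        Nat.cast_zero, zero_mul, zero_div, Real.rpow_zero]
      exact ENNReal.one_le_ofReal.2 (Real.one_le_exp (by positivity))
    | succ m ih =>
      intro e h0 h1
      have hs : Sub (n + m) y (n + m + 1) y := by
        unfold Sub
        rw [sub_self, norm_zero, zero_add]
        linarith [sc_add_le (n + m) 1]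
      have ho : ∀ η, ENNReal.ofReal (e * t) * oo (n + (m + 1)) y η ≤
          ENNReal.ofReal (e / 2 * t) * oo (n + m) y η := fun η => by
        refine (mul_le_mul_right (oo_le_of_sub hs η) _).trans (le_of_eq ?_)
        rw [← mul_assoc, ← ENNReal.ofReal_mul' (by positivity)]
        congr 2
        ring
      rw [K.lintegral_lay_succ n m (mm _ _ _)]
      calc _ ≤ ∫⁻ η, (ENNReal.ofReal (Real.exp (s * η y)) *
              ex (ENNReal.ofReal (e / 2 * t) * oo (n + m) y η)) *
            (ENNReal.ofReal ((2 : ℝ) ^ (s ^ 2 / 2)) * (1 + κ * ENNReal.ofReal (e / 2)))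
              ∂K.lay n m := by
            refine lintegral_mono fun η => ?_
            refine le_trans ?_ (mul_le_mul_right (hκ (e / 2) (by linarith) (by linarith) (n + m) y) _)
            rw [← lintegral_const_mul _ (mm _ _ _)]
            refine lintegral_mono fun η' => ?_
            rw [ContinuousMap.add_apply, mul_add s, Real.exp_add,
              ENNReal.ofReal_mul (Real.exp_pos _).le, mul_mul_mul_comm, ← ex_add]
            refine mul_le_mul_right (ex_mono ?_) _
            refine (mul_le_mul_right (oo_add_le _ _ _ _) _).trans ?_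
            rw [mul_add]
            exact add_le_add (ho η) (ho η')
        _ ≤ ENNReal.ofReal (Real.exp (κ * (e / 2))) * ENNReal.ofReal ((2 : ℝ) ^ (m * s ^ 2 / 2)) *
            (ENNReal.ofReal ((2 : ℝ) ^ (s ^ 2 / 2)) * ENNReal.ofReal (Real.exp (κ * (e / 2)))) := by
            rw [lintegral_mul_const _ (mm _ _ _)]
            refine mul_le_mul' (ih (e / 2) (by linarith) (by linarith)) (mul_le_mul_right ?_ _)
            rw [← ENNReal.ofReal_coe_nnreal, ← ENNReal.ofReal_mul κ.coe_nonneg, ← ENNReal.ofReal_one,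
              ← ENNReal.ofReal_add zero_le_one (by positivity)]
            exact ENNReal.ofReal_le_ofReal (by linarith [Real.add_one_le_exp (κ * (e / 2))])
        _ = _ := by
            rw [mul_comm (ENNReal.ofReal ((2 : ℝ) ^ (s ^ 2 / 2))), mul_mul_mul_comm,
              ← ENNReal.ofReal_mul (Real.exp_pos _).le, ← Real.exp_add,
              ← ENNReal.ofReal_mul (by positivity), ← Real.rpow_add two_pos]
            congr 3
            · ring
            · push_cast
              ring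
  refine ⟨(Real.exp κ).toNNReal, fun n m y => ?_⟩
  have h := key n y m 1 zero_le_one le_rfl
  rwa [one_mul, mul_one] at h

theorem down (s : ℝ) {t : ℝ} (ht : 0 ≤ t) : ∃ C : ℝ≥0, ∀ n m y y' g, Sub n y (n + m) y' →
    ∫⁻ η, wt K.Q s t (n + m) y' (g + η) ∂K.lay n m ≤
      C * ENNReal.ofReal ((2 : ℝ) ^ (-(m * K.z s))) *
        wt K.Q s (t * (2 : ℝ)⁻¹ ^ m + 48 * |s|) n y g := by
  obtain ⟨C, hC⟩ := K.mgf s t
  refine ⟨C, fun n m y y' g h => ?_⟩
  have mm : Measurable fun η : C(ℂ, ℝ) =>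
      ENNReal.ofReal (Real.exp (s * η y')) * ex (ENNReal.ofReal t * oo (n + m) y' η) :=
    (Real.measurable_exp.comp ((K.meas_eval y').const_mul s)).ennreal_ofReal.mul
      (measurable_ex.comp ((K.measurable_oo _ y').const_mul _))
  refine (lintegral_mono fun η => wt_step K.Q s ht h g η).trans ?_
  rw [lintegral_const_mul _ mm]
  refine (mul_le_mul_right (hC n m y') _).trans (le_of_eq ?_)
  have e : ENNReal.ofReal ((2 : ℝ) ^ (-(m * K.z s))) =
      ENNReal.ofReal (Real.exp (-(s * m * K.Q * Real.log 2))) *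
        ENNReal.ofReal ((2 : ℝ) ^ (m * s ^ 2 / 2)) := by
    rw [← ENNReal.ofReal_mul (Real.exp_pos _).le, Real.rpow_def_of_pos two_pos,
      Real.rpow_def_of_pos two_pos, ← Real.exp_add, z]
    congr 2
    ring
  rw [e]
  ring

/-- the same exponent on both sides (for `m = 0` the hypothesis `Sub` forces `y' = y`) -/
theorem down' (s : ℝ) {t : ℝ} (ht : 96 * |s| ≤ t) : ∃ C : ℝ≥0, ∀ n m y y' g, Sub n y (n + m) y' →
    ∫⁻ η, wt K.Q s t (n + m) y' (g + η) ∂K.lay n m ≤
      C * ENNReal.ofReal ((2 : ℝ) ^ (-(m * K.z s))) * wt K.Q s t n y g := by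
  have ht0 : 0 ≤ t := le_trans (by positivity) ht
  obtain ⟨C, hC⟩ := K.down s ht0
  refine ⟨C + 1, fun n m y y' g h => ?_⟩
  rcases Nat.eq_zero_or_pos m with rfl | hm
  · obtain rfl : y' = y := Sub.eq_of_zero h
    rw [K.lintegral_lay_zero n ((K.measurable_wt s t _ _).fun_comp (K.measurable_add_left g))]
    simp only [add_zero, Nat.cast_zero, zero_mul, neg_zero, Real.rpow_zero, ENNReal.ofReal_one,
      mul_one]
    exact le_mul_of_one_le_left' (by simp)
  · refine (hC n m y y' g h).trans (mul_le_mul' (mul_le_mul_left (by simp) _) (wt_mono _ _ ?_ _ _ _))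
    have h1 : (2 : ℝ)⁻¹ ^ m ≤ 2⁻¹ := pow_le_of_le_one (by norm_num) (by norm_num) hm.ne'
    nlinarith

/-- a bound at level `n + m` gives a bound at level `n` -/
theorem lift (s : ℝ) {t : ℝ} (ht : 96 * |s| ≤ t) : ∃ C : ℝ≥0, ∀ n m y y' g (A : ℝ≥0∞)
    (F : Ξ → ℝ≥0∞), Measurable F → Sub n y (n + m) y' →
    (∀ g', ∫⁻ x, F x ∂K.P (n + m) g' ≤ A * wt K.Q s t (n + m) y' g') →
    ∫⁻ x, F x ∂K.P n g ≤
      A * (C * ENNReal.ofReal ((2 : ℝ) ^ (-(m * K.z s))) * wt K.Q s t n y g) := by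
  obtain ⟨C, hC⟩ := K.down' s ht
  refine ⟨C, fun n m y y' g A F hF h hA => ?_⟩
  rw [K.tower_lay n m g hF]
  refine (lintegral_mono fun η => hA (g + η)).trans ?_
  rw [lintegral_const_mul _ ((K.measurable_wt s t _ _).fun_comp (K.measurable_add_left g))]
  exact mul_le_mul_right (hC n m y y' g h) _

theorem exists_good : ∃ d, K.Good d := by
  have hσ := K.σ_pos
  obtain ⟨C, hC⟩ := K.down' K.σ (t := K.θ) (by rw [abs_of_pos hσ]; linarith [K.θ_ge])
  have hρ : (2 : ℝ) ^ (2 - K.z K.σ) < 1 :=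
    Real.rpow_lt_one_of_one_lt_of_neg one_lt_two (by linarith [K.z_σ])
  have h1 := (tendsto_pow_atTop_nhds_zero_of_lt_one (by positivity) hρ).const_mul (10 ^ 5 * (C : ℝ))
  rw [mul_zero] at h1
  obtain ⟨d, h2, h3⟩ := ((h1.eventually_le_const one_pos).and (eventually_ge_atTop 7)).exists
  refine ⟨d, h3, fun n y y' g h => (mul_le_mul_right (hC n d y y' g h) _).trans ?_⟩
  rw [← mul_assoc]
  refine mul_le_of_le_one_left' ?_
  have e : (10 : ℝ≥0∞) ^ 5 * 4 ^ d * (C * ENNReal.ofReal ((2 : ℝ) ^ (-(d * K.z K.σ)))) =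
      ENNReal.ofReal (10 ^ 5 * (C : ℝ) * ((2 : ℝ) ^ (2 - K.z K.σ)) ^ d) := by
    have e1 : ((2 : ℝ) ^ (2 - K.z K.σ)) ^ d = 4 ^ d * (2 : ℝ) ^ (-(d * K.z K.σ)) := by
      rw [← Real.rpow_natCast, ← Real.rpow_mul zero_le_two,
        show (4 : ℝ) = 2 ^ (2 : ℝ) by norm_num, ← Real.rpow_natCast, ← Real.rpow_mul zero_le_two,
        ← Real.rpow_add two_pos]
      congr 1
      ring
    rw [e1, ENNReal.ofReal_mul (by positivity), ENNReal.ofReal_mul (by positivity),
      ENNReal.ofReal_mul (by positivity), ENNReal.ofReal_pow (by norm_num),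
      ENNReal.ofReal_pow (by norm_num), ENNReal.ofReal_ofNat, ENNReal.ofReal_ofNat,
      ENNReal.ofReal_coe_nnreal]
    ring
  rw [e]
  exact ENNReal.ofReal_le_one.2 h2

end Casc

end Pool.Agent.Lib.MP_0d9445_pr.CR
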