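import Pool.Agent.Lib.MP_0d9445_pr.CR.Lay
import Pool.Agent.Lib.MP_0d9445_pr.CR.Meas
import Pool.Agent.Lib.MP_0d9445_pr.CR.Count

/-! Non-constant tuples: contraction and far pairs. -/

open MeasureTheory ProbabilityTheory Set Filter Topology
open scoped ENNReal NNReal

namespace Pool.Agent.Lib.MP_0d9445_pr.CR

theorem MomA_half {ι : Type*} {I : Finset ι} {J : ι → ℝ≥0∞} {W N : ℝ≥0∞} (hN0 : N ≠ 0)
    (hNt : N ≠ ⊤) (hI : (I.card : ℝ≥0∞) ≤ 121 * N) (h : ∀ q ∈ I, 10 ^ 5 * N * J q ≤ W) :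
    2 * ∑ q ∈ I, J q ≤ W := by
  have h1 : 10 ^ 5 * N * ∑ q ∈ I, J q ≤ 121 * N * W := by
    rw [Finset.mul_sum]
    calc ∑ q ∈ I, 10 ^ 5 * N * J q ≤ ∑ _q ∈ I, W := Finset.sum_le_sum h
      _ = I.card * W := by rw [Finset.sum_const, nsmul_eq_mul]
      _ ≤ 121 * N * W := by gcongr
  have h2 : (121 * N) * (2 * ∑ q ∈ I, J q) ≤ (121 * N) * W := by
    refine le_trans ?_ h1
    calc (121 * N) * (2 * ∑ q ∈ I, J q) = 242 * N * ∑ q ∈ I, J q := by ring
      _ ≤ 10 ^ 5 * N * ∑ q ∈ I, J q := by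
        gcongr
        norm_num
  exact (ENNReal.mul_le_mul_iff_right (mul_ne_zero (by norm_num) hN0)
    (ENNReal.mul_ne_top (by norm_num) hNt)).1 h2

theorem MomA_mul_le (a b : ℝ≥0∞) : a * b ≤ a * a + b * b := by
  rcases le_total a b with h | h
  · calc a * b ≤ b * b := by gcongr
      _ ≤ a * a + b * b := le_add_self
  · calc a * b ≤ a * a := by gcongr
      _ ≤ a * a + b * b := le_self_add

theorem MomA_card (d : ℕ) (v : ℤ × ℤ) : ((nbh 5 v).biUnion (kids d)).card ≤ 121 * 4 ^ d := by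
  calc ((nbh 5 v).biUnion (kids d)).card ≤ ∑ q ∈ nbh 5 v, (kids d q).card :=
        Finset.card_biUnion_le
    _ = 121 * 4 ^ d := by simp [card_kids, card_nbh]

theorem MomA_point (d r k n : ℕ) (a : Pat) (v : ℤ × ℤ) :
    ws d a 5 (k + 1) n v ^ (r + 1) - ws d a 5 (k + 1) n v ≤
      ∑ q ∈ (nbh 5 v).biUnion (kids d),
          (ws d a 5 k (n + d) q ^ (r + 1) - ws d a 5 k (n + d) q) +
        (r + 1) * (121 * 4 ^ d) ^ r * ∑ q ∈ (nbh 5 v).biUnion (kids d),
          ∑ q' ∈ (nbh 5 v).biUnion (kids d) \ nbh 5 q,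
            u d a k (n + d) q ^ r * u d a k (n + d) q' := by
  refine (pow_sub_self_mono (Nat.le_add_left 1 r) (ws_succ_le 5 k n v)).trans ?_
  refine (pow_sum_sub_le ((nbh 5 v).biUnion (kids d)) (fun q => u d a k (n + d) q)
    (fun q => ws d a 5 k (n + d) q) (nbh 5) ?_ r).trans ?_
  · intro q _
    exact Finset.sum_le_sum_of_subset Finset.inter_subset_right
  · have := MomA_card d v
    gcongr

namespace Casc

variable {Ξ : Type} [MeasurableSpace Ξ] [MeasurableSpace C(ℂ, ℝ)] (K : Casc Ξ)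

theorem MomA_zero (d r : ℕ) : ∃ C : ℝ≥0, ∀ n v g,
    ∫⁻ x, ((ws d (K.pat x) 5 0 n v ^ (r + 1) - ws d (K.pat x) 5 0 n v : ℕ) : ℝ≥0∞) ∂K.P n g ≤
      C * K.w K.σ K.θ n v g := by
  obtain ⟨C, hC⟩ := K.two
  refine ⟨121 ^ (r + 1) * C, fun n v g => ?_⟩
  set E : Set Ξ := {x | 2 ≤ ((K.pat x).pts ∩ osq (ctr n v) (6 * sc n)).ncard} with hE
  calc ∫⁻ x, ((ws d (K.pat x) 5 0 n v ^ (r + 1) - ws d (K.pat x) 5 0 n v : ℕ) : ℝ≥0∞) ∂K.P n g
      ≤ ∫⁻ x, E.indicator (fun _ => (121 : ℝ≥0∞) ^ (r + 1)) x ∂K.P n g := by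
        refine lintegral_mono fun x => ?_
        by_cases h2 : 2 ≤ ws d (K.pat x) 5 0 n v
        · have hx : x ∈ E := two_le_ncard_of_ws (K.pts_fin x) h2
          rw [Set.indicator_of_mem hx]
          have h3 : ws d (K.pat x) 5 0 n v ≤ 121 := ws_zero_le 5 n v
          have h4 : ws d (K.pat x) 5 0 n v ^ (r + 1) - ws d (K.pat x) 5 0 n v ≤ 121 ^ (r + 1) :=
            (Nat.sub_le _ _).trans (Nat.pow_le_pow_left h3 _)
          have h5 := (Nat.cast_le (α := ℝ≥0∞)).2 h4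
          rwa [Nat.cast_pow (121 : ℕ), Nat.cast_ofNat] at h5
        · have h3 : ws d (K.pat x) 5 0 n v ^ (r + 1) - ws d (K.pat x) 5 0 n v = 0 := by
            have : ws d (K.pat x) 5 0 n v = 0 ∨ ws d (K.pat x) 5 0 n v = 1 := by omega
            rcases this with h | h <;> simp [h]
          simp [h3]
    _ ≤ (121 : ℝ≥0∞) ^ (r + 1) * K.P n g E := lintegral_indicator_const_le _ _
    _ ≤ (121 : ℝ≥0∞) ^ (r + 1) * (C * wt K.Q K.σ K.θ n (ctr n v) g) := by
        gcongr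
        refine (hC n (ctr n v) g).trans ?_
        gcongr
        exact wt_mono _ _ K.θ0_le _ _ _
    _ = _ := by
        simp only [w]
        push_cast
        ring

theorem MomA_mid {d r : ℕ} (h : K.MomB d r) : ∃ C : ℝ≥0, ∀ k n v g, K.Win n (ctr n v) →
    ∫⁻ x, ((u d (K.pat x) k n v ^ r : ℕ) : ℝ≥0∞) ∂K.P n g ≤ C * K.w (K.σ / 2) K.θ n v g := by
  obtain ⟨C, hC⟩ := h
  refine ⟨C, fun k n v g hW => ?_⟩
  obtain ⟨h1, h2, -⟩ := hC k n v g hW
  have hσ := K.σ_pos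
  have hγ := K.σ_le
  rcases le_total 0 (cc K.Q n (ctr n v) g) with hc | hc
  · refine h2.trans ?_
    gcongr
    exact wt_le_of_le _ (by nlinarith)
  · refine h1.trans ?_
    gcongr
    exact wt_le_of_le _ (by nlinarith)

theorem MomA_down {d : ℕ} (hd : 7 ≤ d) : ∃ C : ℝ≥0, ∀ n y y' g, Sub n y (n + d) y' →
    ∫⁻ η, wt K.Q (K.σ / 2) K.θ (n + d) y' (g + η) * wt K.Q (K.σ / 2) K.θ (n + d) y' (g + η)
      ∂K.lay n d ≤ C * wt K.Q K.σ K.θ n y g := by
  have hθ := K.θ_pos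
  obtain ⟨C, hC⟩ := K.down K.σ (t := K.θ + K.θ) (by linarith)
  refine ⟨C * Real.toNNReal ((2 : ℝ) ^ (-(d * K.z K.σ))), fun n y y' g hs => ?_⟩
  have h1 : ∀ η, wt K.Q (K.σ / 2) K.θ (n + d) y' (g + η) * wt K.Q (K.σ / 2) K.θ (n + d) y' (g + η) =
      wt K.Q K.σ (K.θ + K.θ) (n + d) y' (g + η) := fun η => by
    rw [wt_mul _ _ _ hθ.le hθ.le, add_halves]
  simp only [h1]
  refine (hC n d y y' g hs).trans ?_
  have h2 : (K.θ + K.θ) * (2 : ℝ)⁻¹ ^ d + 48 * |K.σ| ≤ K.θ := by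
    have h3 : (2 : ℝ)⁻¹ ^ d ≤ (2 : ℝ)⁻¹ ^ 2 :=
      pow_le_pow_of_le_one (by norm_num) (by norm_num) (by omega)
    have h4 := K.θ_ge
    have h5 := K.σ_pos
    rw [abs_of_pos h5]
    nlinarith
  have h6 := wt_mono K.Q K.σ h2 n y g
  push_cast
  exact mul_le_mul' le_rfl h6

theorem MomA_far {d r : ℕ} (hd : 7 ≤ d) (h : K.MomB d r) (h1 : K.MomB d 1) :
    ∃ D : ℝ≥0, ∀ k n v g, K.Win n (ctr n v) → ∀ q ∈ (nbh 5 v).biUnion (kids d),
      ∀ q' ∈ (nbh 5 v).biUnion (kids d) \ nbh 5 q,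
      ∫⁻ x, ((u d (K.pat x) k (n + d) q ^ r * u d (K.pat x) k (n + d) q' : ℕ) : ℝ≥0∞) ∂K.P n g ≤
        D * K.w K.σ K.θ n v g := by
  obtain ⟨A, hA⟩ := K.MomA_mid h
  obtain ⟨B, hB⟩ := K.MomA_mid h1
  obtain ⟨C, hC⟩ := K.MomA_down hd
  refine ⟨A * B * (C + C), fun k n v g hW q hq q' hq' => ?_⟩
  rw [Finset.mem_sdiff] at hq'
  have hs := sub_nbh_kids (n := n) (by omega : 4 ≤ d) (by norm_num : 5 ≤ 25) hq
  have hs' := sub_nbh_kids (n := n) (by omega : 4 ≤ d) (by norm_num : 5 ≤ 25) hq'.1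
  have hm : Measurable fun x =>
      ((u d (K.pat x) k (n + d) q ^ r * u d (K.pat x) k (n + d) q' : ℕ) : ℝ≥0∞) :=
    measurable_from_top.comp (((K.u_meas hd k (n + d) q).pow_const r).mul (K.u_meas hd k (n + d) q'))
  rw [K.tower_lay n d g hm]
  have hmw : ∀ y : ℂ, Measurable fun η : C(ℂ, ℝ) =>
      wt K.Q (K.σ / 2) K.θ (n + d) y (g + η) * wt K.Q (K.σ / 2) K.θ (n + d) y (g + η) :=
    fun y => ((K.measurable_wt _ _ _ y).comp (K.measurable_add_left g)).mul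
      ((K.measurable_wt _ _ _ y).comp (K.measurable_add_left g))
  calc ∫⁻ η, ∫⁻ x, ((u d (K.pat x) k (n + d) q ^ r * u d (K.pat x) k (n + d) q' : ℕ) : ℝ≥0∞)
        ∂K.P (n + d) (g + η) ∂K.lay n d
      ≤ ∫⁻ η, (A * B : ℝ≥0∞) *
          (wt K.Q (K.σ / 2) K.θ (n + d) (ctr (n + d) q) (g + η) *
              wt K.Q (K.σ / 2) K.θ (n + d) (ctr (n + d) q) (g + η) +
            wt K.Q (K.σ / 2) K.θ (n + d) (ctr (n + d) q') (g + η) *
              wt K.Q (K.σ / 2) K.θ (n + d) (ctr (n + d) q') (g + η)) ∂K.lay n d := by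
        refine lintegral_mono fun η => ?_
        have hF : Measurable[K.G (reg (n + d) q 1)] fun x =>
            ((u d (K.pat x) k (n + d) q ^ r : ℕ) : ℝ≥0∞) :=
          (measurable_from_top (f := fun m : ℕ => ((m ^ r : ℕ) : ℝ≥0∞))).comp
            (K.u_loc hd k (n + d) q)
        have hF' : Measurable[K.G (reg (n + d) q' 1)] fun x =>
            ((u d (K.pat x) k (n + d) q' ^ 1 : ℕ) : ℝ≥0∞) :=
          (measurable_from_top (f := fun m : ℕ => ((m ^ 1 : ℕ) : ℝ≥0∞))).comp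
            (K.u_loc hd k (n + d) q')
        have hp := K.lintegral_mul_far (n := n + d) (g + η)
          (fun x hx y hy => reg_far hq'.2 (r := 1) (by norm_num) hx hy) hF hF'
        have he : ∀ x, ((u d (K.pat x) k (n + d) q ^ r * u d (K.pat x) k (n + d) q' : ℕ) : ℝ≥0∞) =
            ((u d (K.pat x) k (n + d) q ^ r : ℕ) : ℝ≥0∞) *
              ((u d (K.pat x) k (n + d) q' ^ 1 : ℕ) : ℝ≥0∞) := fun x => by
          rw [pow_one, Nat.cast_mul]
        simp only [he]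
        rw [hp]
        refine (mul_le_mul' (hA k (n + d) q (g + η) (hW.sub hs))
          (hB k (n + d) q' (g + η) (hW.sub hs'))).trans ?_
        rw [mul_mul_mul_comm]
        exact mul_le_mul' le_rfl (MomA_mul_le _ _)
    _ ≤ (A * B : ℝ≥0∞) * (C * wt K.Q K.σ K.θ n (ctr n v) g + C * wt K.Q K.σ K.θ n (ctr n v) g) := by
        rw [lintegral_const_mul' _ _ (ENNReal.mul_ne_top ENNReal.coe_ne_top ENNReal.coe_ne_top),
          lintegral_add_left (hmw _)]
        exact mul_le_mul' le_rfl (add_le_add (hC n _ _ g hs) (hC n _ _ g hs'))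
    _ = _ := by
        simp only [w]
        push_cast
        ring

theorem momA_succ {d r : ℕ} (hd : K.Good d) (hr : 1 ≤ r) (h : K.MomB d r) (h1 : K.MomB d 1) :
    K.MomA d (r + 1) := by
  obtain ⟨C0, hC0⟩ := K.MomA_zero d r
  obtain ⟨D, hD⟩ := K.MomA_far hd.1 h h1
  set N : ℕ := 121 * 4 ^ d with hN
  set c : ℕ := (r + 1) * N ^ r with hc
  set E : ℝ≥0 := c * (N * (N * D)) with hE
  refine ⟨2 * (C0 + E), fun k => ?_⟩
  induction k with
  | zero =>
    intro n v g _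
    refine (hC0 n v g).trans ?_
    gcongr
    calc C0 ≤ C0 + (C0 + 2 * E) := le_self_add
      _ = 2 * (C0 + E) := by ring
  | succ k ih =>
    intro n v g hW
    set I := (nbh 5 v).biUnion (kids d) with hI
    have hcard : (I.card : ℝ≥0∞) ≤ N := by exact_mod_cast MomA_card d v
    have hmF : ∀ q, Measurable fun x =>
        ((ws d (K.pat x) 5 k (n + d) q ^ (r + 1) - ws d (K.pat x) 5 k (n + d) q : ℕ) : ℝ≥0∞) :=
      fun q => (measurable_from_top (f := fun m : ℕ => ((m ^ (r + 1) - m : ℕ) : ℝ≥0∞))).comp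
        (K.ws_meas hd.1 5 k (n + d) q)
    have hmG : ∀ q q', Measurable fun x =>
        ((u d (K.pat x) k (n + d) q ^ r * u d (K.pat x) k (n + d) q' : ℕ) : ℝ≥0∞) :=
      fun q q' => measurable_from_top.comp
        (((K.u_meas hd.1 k (n + d) q).pow_const r).mul (K.u_meas hd.1 k (n + d) q'))
    have hnear : ∑ q ∈ I, ∫⁻ x,
        ((ws d (K.pat x) 5 k (n + d) q ^ (r + 1) - ws d (K.pat x) 5 k (n + d) q : ℕ) : ℝ≥0∞)
          ∂K.P n g ≤ (C0 + E : ℝ≥0∞) * K.w K.σ K.θ n v g := by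
      have hh : 2 * ∑ q ∈ I, ∫⁻ η, wt K.Q K.σ K.θ (n + d) (ctr (n + d) q) (g + η) ∂K.lay n d ≤
          K.w K.σ K.θ n v g := by
        refine MomA_half (N := 4 ^ d) (by simp) (by simp) ?_ fun q hq => ?_
        · refine hcard.trans (le_of_eq ?_)
          rw [hN]
          push_cast
          rfl
        · exact hd.2 n _ _ g (sub_nbh_kids (by have := hd.1; omega) (by norm_num : 5 ≤ 25) hq)
      calc _ ≤ ∑ q ∈ I, ((2 * (C0 + E) : ℝ≥0) : ℝ≥0∞) *
            ∫⁻ η, wt K.Q K.σ K.θ (n + d) (ctr (n + d) q) (g + η) ∂K.lay n d := by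
            refine Finset.sum_le_sum fun q hq => ?_
            have hs := sub_nbh_kids (n := n) (by have := hd.1; omega : 4 ≤ d)
              (by norm_num : 5 ≤ 25) hq
            rw [K.tower_lay n d g (hmF q), ← lintegral_const_mul' _ _ ENNReal.coe_ne_top]
            exact lintegral_mono fun η => ih (n + d) q (g + η) (hW.sub hs)
        _ = (C0 + E : ℝ≥0∞) * (2 * ∑ q ∈ I,
            ∫⁻ η, wt K.Q K.σ K.θ (n + d) (ctr (n + d) q) (g + η) ∂K.lay n d) := by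
            rw [← Finset.mul_sum]
            push_cast
            ring
        _ ≤ _ := mul_le_mul' le_rfl hh
    have hfar : ∑ q ∈ I, ∑ q' ∈ I \ nbh 5 q, ∫⁻ x,
        ((u d (K.pat x) k (n + d) q ^ r * u d (K.pat x) k (n + d) q' : ℕ) : ℝ≥0∞) ∂K.P n g ≤
          N * (N * (D * K.w K.σ K.θ n v g)) := by
      calc _ ≤ ∑ _q ∈ I, (N : ℝ≥0∞) * (D * K.w K.σ K.θ n v g) := by
            refine Finset.sum_le_sum fun q hq => ?_
            calc _ ≤ ∑ _q' ∈ I \ nbh 5 q, (D : ℝ≥0∞) * K.w K.σ K.θ n v g :=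
                  Finset.sum_le_sum fun q' hq' => hD k n v g hW q hq q' hq'
              _ = ((I \ nbh 5 q).card : ℝ≥0∞) * (D * K.w K.σ K.θ n v g) := by
                  rw [Finset.sum_const, nsmul_eq_mul]
              _ ≤ _ := by
                  refine mul_le_mul' (le_trans ?_ hcard) le_rfl
                  exact_mod_cast Finset.card_le_card Finset.sdiff_subset
        _ = (I.card : ℝ≥0∞) * (N * (D * K.w K.σ K.θ n v g)) := by
            rw [Finset.sum_const, nsmul_eq_mul]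
        _ ≤ _ := by gcongr
    calc ∫⁻ x, ((ws d (K.pat x) 5 (k + 1) n v ^ (r + 1) - ws d (K.pat x) 5 (k + 1) n v : ℕ) : ℝ≥0∞)
          ∂K.P n g
        ≤ ∫⁻ x, (∑ q ∈ I,
            ((ws d (K.pat x) 5 k (n + d) q ^ (r + 1) - ws d (K.pat x) 5 k (n + d) q : ℕ) : ℝ≥0∞) +
          (c : ℝ≥0∞) * ∑ q ∈ I, ∑ q' ∈ I \ nbh 5 q,
            ((u d (K.pat x) k (n + d) q ^ r * u d (K.pat x) k (n + d) q' : ℕ) : ℝ≥0∞))
          ∂K.P n g := by
          refine lintegral_mono fun x => ?_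
          have hp := MomA_point d r k n (K.pat x) v
          rw [← hI, ← hN, ← hc] at hp
          simp only [← Nat.cast_sum, ← Nat.cast_mul, ← Nat.cast_add]
          exact Nat.cast_le.2 hp
      _ = ∑ q ∈ I, ∫⁻ x,
            ((ws d (K.pat x) 5 k (n + d) q ^ (r + 1) - ws d (K.pat x) 5 k (n + d) q : ℕ) : ℝ≥0∞)
              ∂K.P n g +
          (c : ℝ≥0∞) * ∑ q ∈ I, ∑ q' ∈ I \ nbh 5 q, ∫⁻ x,
            ((u d (K.pat x) k (n + d) q ^ r * u d (K.pat x) k (n + d) q' : ℕ) : ℝ≥0∞) ∂K.P n g := by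
          rw [lintegral_add_left (Finset.measurable_fun_sum _ fun q _ => hmF q),
            lintegral_finsetSum _ fun q _ => hmF q,
            lintegral_const_mul' _ _ (ENNReal.natCast_ne_top c),
            lintegral_finsetSum _ fun q _ => Finset.measurable_fun_sum _ fun q' _ => hmG q q']
          congr 2
          exact Finset.sum_congr rfl fun q _ => lintegral_finsetSum _ fun q' _ => hmG q q'
      _ ≤ (C0 + E : ℝ≥0∞) * K.w K.σ K.θ n v g +
          (c : ℝ≥0∞) * (N * (N * (D * K.w K.σ K.θ n v g))) := by gcongr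
      _ = ((C0 + E : ℝ≥0∞) + E) * K.w K.σ K.θ n v g := by
          rw [hE]
          push_cast
          ring
      _ ≤ _ := by
          gcongr
          push_cast
          rw [two_mul]
          gcongr
          exact le_add_self

end Casc

end Pool.Agent.Lib.MP_0d9445_pr.CR
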