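import Pool.Agent.Lib.MP_0d9445_pr.CR.TZ
import Pool.Agent.Lib.MP_0d9445_pr.CR.G1
import Pool.Agent.Lib.MP_0d9445_pr.CR.Conc

/-! First and `p`-th moment of the edge count. -/

open MeasureTheory ProbabilityTheory Set Filter Topology
open scoped ENNReal NNReal

namespace Pool.Agent.Lib.MP_0d9445_pr.CR

theorem Pi_ofReal_two_rpow (m : ℕ) :
    ENNReal.ofReal ((2 : ℝ) ^ ((m : ℝ) * 2)) = (4 : ℝ≥0∞) ^ m := by
  have h : (2 : ℝ) ^ ((m : ℝ) * 2) = (4 : ℝ) ^ m := by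
    rw [mul_comm, Real.rpow_mul (by norm_num), Real.rpow_natCast]
    norm_num
  rw [h, ENNReal.ofReal_pow (by norm_num)]
  norm_num

theorem Pi_ofReal_two_rpow_neg (m : ℕ) :
    ENNReal.ofReal ((2 : ℝ) ^ (-((m : ℝ) * 2))) = (4 : ℝ≥0∞)⁻¹ ^ m := by
  rw [Real.rpow_neg (by norm_num), ENNReal.ofReal_inv_of_pos (by positivity), Pi_ofReal_two_rpow,
    ENNReal.inv_pow]

theorem Pi_add_rpow_le (a b : ℝ≥0∞) {p : ℝ} (h1 : 1 ≤ p) (h2 : p ≤ 2) :
    (a + b) ^ p ≤ 2 * a ^ p + 2 * b ^ p := by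
  refine (ENNReal.rpow_add_le_mul_rpow_add_rpow a b h1).trans ?_
  rw [← mul_add]
  refine mul_le_mul_left ?_ _
  calc (2 : ℝ≥0∞) ^ (p - 1) ≤ 2 ^ (1 : ℝ) :=
        ENNReal.rpow_le_rpow_of_exponent_le (by norm_num) (by linarith)
    _ = 2 := by simp

namespace Casc

variable {Ξ : Type} [MeasurableSpace Ξ] [MeasurableSpace C(ℂ, ℝ)] (K : Casc Ξ)

variable {d : ℕ}

theorem Pi_γ_le : 96 * |K.γ| ≤ K.θ := by
  have h1 := K.θ_ge
  have h2 := K.γ_lt
  have h3 := K.γ_pos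
  rw [abs_of_pos h3]
  linarith

theorem Pi_σ_le : 96 * |K.σ| ≤ K.θ := by
  have h1 := K.θ_ge
  have h3 := K.σ_pos
  rw [abs_of_pos h3]
  linarith

theorem Pi_one_le_p : 1 ≤ K.σ / K.γ := by
  rw [le_div_iff₀ K.γ_pos]
  have := K.γ_lt
  linarith

theorem Pi_p_le_two : K.σ / K.γ ≤ 2 := by
  rw [div_le_iff₀ K.γ_pos]
  exact K.σ_le

theorem PiD_one (hd : K.Good d) : ∃ C : ℝ≥0, ∀ n v g, K.Win n (ctr n v) →
    ∫⁻ x, PiD d (K.pat x) n v ∂K.P n g ≤ C * K.w K.γ K.θ n v g := by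
  obtain ⟨C1, h1⟩ := K.TT_one_abs hd
  have hα : 0 < min (K.σ - K.γ) 1 := lt_min (sub_pos.2 K.γ_lt) one_pos
  have ht : 96 * (|K.γ| + min (K.σ - K.γ) 1) ≤ K.θ := by
    have h1 := K.θ_ge
    have h2 := K.γ_lt
    have h3 := K.γ_pos
    have h4 : min (K.σ - K.γ) 1 ≤ 1 := min_le_right _ _
    rw [abs_of_pos h3]
    linarith
  obtain ⟨C2, a, ha, h2⟩ := K.green K.γ_lt_Q hα ht
  refine ⟨C1 * C2, fun n v g hW => ?_⟩
  have hd1 : 0 < d := by have := hd.1; omega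
  have key : ∀ m : ℕ, ∫⁻ x, ∑ w ∈ kids m v, TT d (K.pat x) (n + m) w ∂K.P n g ≤
      C1 * (a m (cc K.Q n (ctr n v) g) * K.w K.γ K.θ n v g) := by
    intro m
    rw [lintegral_finsetSum _ fun w _ => K.TT_meas hd.1 _ _]
    have h4 : (4 : ℝ≥0∞) ^ m ≠ 0 := pow_ne_zero _ (by norm_num)
    have h4' : (4 : ℝ≥0∞) ^ m ≠ ∞ := ENNReal.pow_ne_top (by norm_num)
    rw [← ENNReal.mul_le_mul_iff_right h4 h4', Finset.mul_sum]
    refine (Finset.sum_le_card_nsmul _ _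
      (C1 * (a m (cc K.Q n (ctr n v) g) * K.w K.γ K.θ n v g)) fun w hw => ?_).trans ?_
    · have hs := sub_kids (n := n) hw
      have hW' := hW.sub hs
      have h3 := h2 n m _ _ g hs
      rw [K.z_γ, Pi_ofReal_two_rpow] at h3
      rw [K.tower_lay n m g (K.TT_meas hd.1 _ _)]
      calc (4 : ℝ≥0∞) ^ m * ∫⁻ η, ∫⁻ x, TT d (K.pat x) (n + m) w ∂K.P (n + m) (g + η) ∂K.lay n m
          ≤ 4 ^ m * ∫⁻ η, C1 * (wt K.Q K.γ K.θ (n + m) (ctr (n + m) w) (g + η) *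
              ENNReal.ofReal (Real.exp (-(min (K.σ - K.γ) 1 *
                |cc K.Q (n + m) (ctr (n + m) w) (g + η)|)))) ∂K.lay n m :=
            mul_le_mul_right (lintegral_mono fun η => h1 _ _ _ hW') _
        _ = C1 * (4 ^ m * ∫⁻ η, wt K.Q K.γ K.θ (n + m) (ctr (n + m) w) (g + η) *
              ENNReal.ofReal (Real.exp (-(min (K.σ - K.γ) 1 *
                |cc K.Q (n + m) (ctr (n + m) w) (g + η)|))) ∂K.lay n m) := by
            rw [lintegral_const_mul' _ _ ENNReal.coe_ne_top, mul_left_comm]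
        _ ≤ _ := mul_le_mul_right h3 _
    · rw [card_kids, nsmul_eq_mul]
      push_cast
      exact le_rfl
  unfold PiD
  rw [lintegral_tsum fun i =>
    (Finset.measurable_sum _ fun w _ => K.TT_meas hd.1 _ _).aemeasurable]
  calc ∑' i : ℕ, ∫⁻ x, ∑ w ∈ kids (i * d) v, TT d (K.pat x) (n + i * d) w ∂K.P n g
      ≤ ∑' i : ℕ, C1 * (a (i * d) (cc K.Q n (ctr n v) g) * K.w K.γ K.θ n v g) :=
        ENNReal.tsum_le_tsum fun i => key _
    _ = C1 * ((∑' i : ℕ, a (i * d) (cc K.Q n (ctr n v) g)) * K.w K.γ K.θ n v g) := by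
        rw [ENNReal.tsum_mul_left, ENNReal.tsum_mul_right]
    _ ≤ C1 * (C2 * K.w K.γ K.θ n v g) := by
        refine mul_le_mul_right (mul_le_mul_left ?_ _) _
        refine le_trans ?_ (ha (cc K.Q n (ctr n v) g))
        exact ENNReal.tsum_comp_le_tsum_of_injective (f := fun i : ℕ => i * d)
          (fun i j h => Nat.eq_of_mul_eq_mul_right hd1 h) fun m => a m (cc K.Q n (ctr n v) g)
    _ = _ := by rw [ENNReal.coe_mul, mul_assoc]

theorem Pi_partial_meas (hd : 7 ≤ d) (n N : ℕ) (v : ℤ × ℤ) :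
    Measurable fun x =>
      ∑ i ∈ Finset.range N, ∑ w ∈ kids (i * d) v, TT d (K.pat x) (n + i * d) w :=
  Finset.measurable_sum _ fun _ _ => Finset.measurable_sum _ fun _ _ => K.TT_meas hd _ _

/-- the contraction, summed over the children -/
theorem Pi_good_sum (hd : K.Good d) (n : ℕ) (v : ℤ × ℤ) (g : C(ℂ, ℝ)) :
    2500 * ∑ q ∈ kids d v, ∫⁻ η, K.w K.σ K.θ (n + d) q (g + η) ∂K.lay n d ≤
      K.w K.σ K.θ n v g := by
  have h4 : (4 : ℝ≥0∞) ^ d ≠ 0 := pow_ne_zero _ (by norm_num)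
  have h4' : (4 : ℝ≥0∞) ^ d ≠ ∞ := ENNReal.pow_ne_top (by norm_num)
  rw [← ENNReal.mul_le_mul_iff_right h4 h4', ← mul_assoc, Finset.mul_sum]
  refine (Finset.sum_le_card_nsmul _ _ (K.w K.σ K.θ n v g) fun q hq => ?_).trans ?_
  · refine le_trans ?_ (hd.2 n _ _ g (sub_kids hq))
    refine mul_le_mul_left ?_ _
    rw [mul_comm]
    exact mul_le_mul_left (by norm_num) _
  · rw [card_kids, nsmul_eq_mul]
    push_cast
    exact le_rfl

/-- the `p`-th power of the first moments of the children -/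
theorem Pi_far_term (hd : K.Good d) : ∃ C : ℝ≥0, ∀ n v g,
    ∑ q ∈ kids d v, ∫⁻ η, K.w K.γ K.θ (n + d) q (g + η) ^ (K.σ / K.γ) ∂K.lay n d ≤
      C * K.w K.σ K.θ n v g := by
  have hp1 := K.Pi_one_le_p
  have hp2 := K.Pi_p_le_two
  have hθ := K.θ_pos
  have ht : 0 ≤ K.σ / K.γ * K.θ := mul_nonneg (by linarith) hθ.le
  obtain ⟨C, hC⟩ := K.down K.σ ht
  refine ⟨4 ^ d * (C * Real.toNNReal ((2 : ℝ) ^ (-(d * K.z K.σ)))), fun n v g => ?_⟩
  refine (Finset.sum_le_card_nsmul _ _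
    (C * ENNReal.ofReal ((2 : ℝ) ^ (-(d * K.z K.σ))) * K.w K.σ K.θ n v g) fun q hq => ?_).trans ?_
  · have h1 := hC n d _ _ g (sub_kids hq)
    have h2 : ∀ η : C(ℂ, ℝ), K.w K.γ K.θ (n + d) q (g + η) ^ (K.σ / K.γ) =
        wt K.Q K.σ (K.σ / K.γ * K.θ) (n + d) (ctr (n + d) q) (g + η) := by
      intro η
      rw [Casc.w, wt_rpow _ _ hθ.le (by linarith), div_mul_cancel₀ _ K.γ_pos.ne']
    simp only [h2]
    refine h1.trans (mul_le_mul_right (wt_mono _ _ ?_ _ _ _) _)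
    have h3 : (2 : ℝ)⁻¹ ^ d ≤ 2⁻¹ ^ 2 :=
      pow_le_pow_of_le_one (by norm_num) (by norm_num) (by have := hd.1; omega)
    have h4 : K.σ / K.γ * K.θ * (2 : ℝ)⁻¹ ^ d ≤ 2 * K.θ * 2⁻¹ ^ 2 :=
      mul_le_mul (mul_le_mul_of_nonneg_right hp2 hθ.le) h3 (by positivity) (by positivity)
    have h5 := K.Pi_σ_le
    linarith
  · rw [card_kids, nsmul_eq_mul]
    push_cast
    rw [mul_assoc ((4 : ℝ≥0∞) ^ d)]
    exact le_rfl

theorem Pi_partial_rpow (hd : K.Good d) : ∃ C : ℝ≥0, ∀ N n v g, K.Win n (ctr n v) →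
    ∫⁻ x, (∑ i ∈ Finset.range N, ∑ w ∈ kids (i * d) v, TT d (K.pat x) (n + i * d) w) ^
      (K.σ / K.γ) ∂K.P n g ≤ C * K.w K.σ K.θ n v g := by
  have hp1 := K.Pi_one_le_p
  have hp2 := K.Pi_p_le_two
  obtain ⟨C1, h1⟩ := K.TT_rpow hd
  obtain ⟨C2, h2⟩ := K.PiD_one hd
  obtain ⟨C3, h3⟩ := K.Pi_far_term hd
  set p := K.σ / K.γ with hp
  set D : ℝ≥0 := 2 * C1 + 2 * (4 ^ d * (C2 ^ p * C3)) with hD
  refine ⟨2 * D, fun N => ?_⟩
  induction N with
  | zero =>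
    intro n v g _
    simp only [Finset.range_zero, Finset.sum_empty]
    rw [ENNReal.zero_rpow_of_pos (by linarith), lintegral_zero]
    exact zero_le
  | succ N ih =>
    intro n v g hW
    simp only [PiD_partial_succ]
    set S : ℤ × ℤ → Ξ → ℝ≥0∞ := fun q x =>
      ∑ i ∈ Finset.range N, ∑ w ∈ kids (i * d) q, TT d (K.pat x) (n + d + i * d) w with hS
    have hSm : ∀ q, Measurable (S q) := fun q => K.Pi_partial_meas hd.1 (n + d) N q
    have hsum : Measurable fun x => (∑ q ∈ kids d v, S q x) ^ p :=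
      (Finset.measurable_sum _ fun q _ => hSm q).pow_const _
    have hwm : ∀ (s : ℝ) q, Measurable fun η : C(ℂ, ℝ) => K.w s K.θ (n + d) q (g + η) :=
      fun s q => (K.measurable_wt s K.θ _ _).comp (K.measurable_add_left g)
    -- the children at level `n + d`
    have hlev : ∀ g' : C(ℂ, ℝ), ∫⁻ x, (∑ q ∈ kids d v, S q x) ^ p ∂K.P (n + d) g' ≤
        625 * (2 * D) * ∑ q ∈ kids d v, K.w K.σ K.θ (n + d) q g' +
          4 ^ d * (C2 : ℝ≥0∞) ^ p * ∑ q ∈ kids d v, K.w K.γ K.θ (n + d) q g' ^ p := by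
      intro g'
      have h := lintegral_sum_rpow_le (K.P (n + d) g') (kids d v) (nbh 12) (N := 625)
        (fun i _ => by rw [card_nbh]; norm_num) (fun i _ j _ h => mem_nbh_comm.1 h) (fun i _ => hSm i)
        (fun i _ j _ h => (K.lintegral_mul_far g'
          (fun x hx y hy => reg_far (n := n + d) h (r := 6) (by norm_num) hx hy)
          (K.PiD_partial_loc hd.1 (n + d) N i) (K.PiD_partial_loc hd.1 (n + d) N j)).le) hp1 hp2
      refine h.trans (add_le_add ?_ ?_)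
      · rw [mul_assoc]
        push_cast
        refine mul_le_mul_right ?_ _
        rw [Finset.mul_sum]
        refine Finset.sum_le_sum fun q hq => ?_
        have := ih (n + d) q g' (hW.sub (sub_kids hq))
        push_cast at this
        exact this
      · rw [card_kids, mul_assoc]
        push_cast
        refine mul_le_mul_right ?_ _
        rw [Finset.mul_sum]
        refine Finset.sum_le_sum fun q hq => ?_
        rw [← ENNReal.mul_rpow_of_nonneg _ _ (by linarith)]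
        refine ENNReal.rpow_le_rpow ?_ (by linarith)
        refine le_trans (lintegral_mono fun x => ?_) (h2 (n + d) q g' (hW.sub (sub_kids hq)))
        exact ENNReal.sum_le_tsum _
    have hup : ∫⁻ x, (∑ q ∈ kids d v, S q x) ^ p ∂K.P n g ≤
        625 * (2 * D) * ∑ q ∈ kids d v, ∫⁻ η, K.w K.σ K.θ (n + d) q (g + η) ∂K.lay n d +
          4 ^ d * (C2 : ℝ≥0∞) ^ p * (C3 * K.w K.σ K.θ n v g) := by
      rw [K.tower_lay n d g hsum]
      refine (lintegral_mono fun η => hlev (g + η)).trans ?_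
      rw [lintegral_add_left ((Finset.measurable_sum _ fun q _ => hwm _ q).const_mul _),
        lintegral_const_mul _ (Finset.measurable_sum _ fun q _ => hwm _ q),
        lintegral_const_mul _ (Finset.measurable_sum _ fun q _ => (hwm _ q).pow_const _),
        lintegral_finsetSum _ fun q _ => hwm _ q,
        lintegral_finsetSum _ fun q _ => (hwm _ q).pow_const _]
      exact add_le_add le_rfl (mul_le_mul_right (h3 n v g) _)
    have hg := K.Pi_good_sum hd n v g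
    calc ∫⁻ x, (TT d (K.pat x) n v + ∑ q ∈ kids d v, S q x) ^ p ∂K.P n g
        ≤ ∫⁻ x, 2 * TT d (K.pat x) n v ^ p + 2 * (∑ q ∈ kids d v, S q x) ^ p ∂K.P n g :=
          lintegral_mono fun x => Pi_add_rpow_le _ _ hp1 hp2
      _ = 2 * ∫⁻ x, TT d (K.pat x) n v ^ p ∂K.P n g +
            2 * ∫⁻ x, (∑ q ∈ kids d v, S q x) ^ p ∂K.P n g := by
          rw [lintegral_add_right _ (hsum.const_mul _), lintegral_const_mul _ hsum,
            lintegral_const_mul _ ((K.TT_meas hd.1 n v).pow_const _)]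
      _ ≤ 2 * (C1 * K.w K.σ K.θ n v g) +
            2 * (625 * (2 * D) *
              ∑ q ∈ kids d v, ∫⁻ η, K.w K.σ K.θ (n + d) q (g + η) ∂K.lay n d +
              4 ^ d * (C2 : ℝ≥0∞) ^ p * (C3 * K.w K.σ K.θ n v g)) :=
          add_le_add (mul_le_mul_right (h1 n v g hW) _) (mul_le_mul_right hup _)
      _ = D * K.w K.σ K.θ n v g + D * (2500 *
              ∑ q ∈ kids d v, ∫⁻ η, K.w K.σ K.θ (n + d) q (g + η) ∂K.lay n d) := by
          have hD' : (D : ℝ≥0∞) = 2 * C1 + 2 * (4 ^ d * ((C2 : ℝ≥0∞) ^ p * C3)) := by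
            rw [hD]
            push_cast
            rw [ENNReal.coe_rpow_of_nonneg _ (by linarith)]
          have e : (D : ℝ≥0∞) * K.w K.σ K.θ n v g = 2 * (C1 * K.w K.σ K.θ n v g) +
              2 * (4 ^ d * (C2 : ℝ≥0∞) ^ p * (C3 * K.w K.σ K.θ n v g)) := by
            rw [hD']
            ring
          rw [e]
          ring
      _ ≤ D * K.w K.σ K.θ n v g + D * K.w K.σ K.θ n v g :=
          add_le_add le_rfl (mul_le_mul_right hg _)
      _ = _ := by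
          push_cast
          ring

theorem PiD_rpow (hd : K.Good d) : ∃ C : ℝ≥0, ∀ n v g, K.Win n (ctr n v) →
    ∫⁻ x, PiD d (K.pat x) n v ^ (K.σ / K.γ) ∂K.P n g ≤ C * K.w K.σ K.θ n v g := by
  obtain ⟨C, hC⟩ := K.Pi_partial_rpow hd
  refine ⟨C, fun n v g hW => ?_⟩
  have hp : 0 < K.σ / K.γ := by have := K.Pi_one_le_p; linarith
  have h1 : ∀ x, PiD d (K.pat x) n v ^ (K.σ / K.γ) = ⨆ N : ℕ,
      (∑ i ∈ Finset.range N, ∑ w ∈ kids (i * d) v, TT d (K.pat x) (n + i * d) w) ^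
        (K.σ / K.γ) := by
    intro x
    unfold PiD
    rw [ENNReal.tsum_eq_iSup_nat]
    exact (ENNReal.orderIsoRpow _ hp).map_iSup _
  simp only [h1]
  rw [lintegral_iSup (fun N => (K.Pi_partial_meas hd.1 n N v).pow_const _)]
  · exact iSup_le fun N => hC N n v g hW
  · intro N M h x
    exact ENNReal.rpow_le_rpow (Finset.sum_le_sum_of_subset (Finset.range_mono h)) hp.le

/-- K3 of the homogenisation module -/
theorem Pd_rpow (hd : K.Good d) : ∃ C : ℝ≥0, ∀ n v g, reg n v (3 / 2) ⊆ K.W →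
    ∫⁻ x, Pd d (K.pat x) n v ^ (K.σ / K.γ) ∂K.P n g ≤ C * K.w K.σ K.θ n v g := by
  have hp1 := K.Pi_one_le_p
  have hp2 := K.Pi_p_le_two
  obtain ⟨C1, h1⟩ := K.PiD_rpow hd
  obtain ⟨C2, h2⟩ := K.lift K.σ K.Pi_σ_le
  refine ⟨(16 * 4 ^ d) * ((16 * 4 ^ d) * (C1 * (C2 * Real.toNNReal ((2 : ℝ) ^ (-(d * K.z K.σ)))))),
    fun n v g hW => ?_⟩
  have hd7 := hd.1
  have hcard : ((cov d v).card : ℝ≥0∞) ≤ 16 * 4 ^ d := by
    exact_mod_cast card_cov_le (by omega) v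
  have hone : (1 : ℝ≥0∞) ≤ 16 * 4 ^ d :=
    one_le_mul (by norm_num) (one_le_pow₀ (by norm_num))
  have hm : ∀ w, Measurable fun x => PiD d (K.pat x) (n + d) w ^ (K.σ / K.γ) :=
    fun w => (K.PiD_meas hd7 _ _).pow_const _
  calc ∫⁻ x, Pd d (K.pat x) n v ^ (K.σ / K.γ) ∂K.P n g
      ≤ ∫⁻ x, (16 * 4 ^ d) * ∑ w ∈ cov d v, PiD d (K.pat x) (n + d) w ^ (K.σ / K.γ) ∂K.P n g := by
        refine lintegral_mono fun x => (sum_rpow_le _ _ hp1).trans (mul_le_mul_left ?_ _)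
        calc ((cov d v).card : ℝ≥0∞) ^ (K.σ / K.γ - 1) ≤ (16 * 4 ^ d) ^ (K.σ / K.γ - 1) :=
              ENNReal.rpow_le_rpow hcard (by linarith)
          _ ≤ (16 * 4 ^ d) ^ (1 : ℝ) := ENNReal.rpow_le_rpow_of_exponent_le hone (by linarith)
          _ = _ := ENNReal.rpow_one _
    _ = (16 * 4 ^ d) * ∑ w ∈ cov d v,
          ∫⁻ x, PiD d (K.pat x) (n + d) w ^ (K.σ / K.γ) ∂K.P n g := by
        rw [lintegral_const_mul _ (Finset.measurable_sum _ fun w _ => hm w),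
          lintegral_finsetSum _ fun w _ => hm w]
    _ ≤ (16 * 4 ^ d) * ((16 * 4 ^ d) * (C1 * (C2 * ENNReal.ofReal ((2 : ℝ) ^ (-(d * K.z K.σ))) *
          K.w K.σ K.θ n v g))) := by
        refine mul_le_mul_right ?_ _
        refine (Finset.sum_le_card_nsmul _ _ (C1 * (C2 *
          ENNReal.ofReal ((2 : ℝ) ^ (-(d * K.z K.σ))) * K.w K.σ K.θ n v g)) fun w hw => ?_).trans ?_
        · exact h2 n d _ _ g C1 _ (hm w) (sub_cov (by omega) hw)
            fun g' => h1 _ _ g' ((reg_cov_subset hd7 hw).trans hW)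
        · rw [nsmul_eq_mul]
          exact mul_le_mul_left hcard _
    _ = _ := by
        push_cast
        rw [ENNReal.ofReal]
        ring

/-- seen from `m` levels above (C8 f) -/
theorem PiD_lift (hd : K.Good d) : ∃ C : ℝ≥0, ∀ n m y g w,
    K.Win (n + m) (ctr (n + m) w) → Sub n y (n + m) (ctr (n + m) w) →
    ∫⁻ x, PiD d (K.pat x) (n + m) w ∂K.P n g ≤ C * 4⁻¹ ^ m * wt K.Q K.γ K.θ n y g := by
  obtain ⟨C1, h1⟩ := K.PiD_one hd
  obtain ⟨C2, h2⟩ := K.lift K.γ K.Pi_γ_le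
  refine ⟨C1 * C2, fun n m y g w hW hs => ?_⟩
  have h := h2 n m y _ g C1 _ (K.PiD_meas hd.1 (n + m) w) hs fun g' => h1 _ _ g' hW
  rw [K.z_γ, Pi_ofReal_two_rpow_neg] at h
  refine h.trans (le_of_eq ?_)
  push_cast
  ring

end Casc

end Pool.Agent.Lib.MP_0d9445_pr.CR
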