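import Pool.Agent.Lib.MP_0d9445_pr.CR.EnvDefs

/-! From smallness in probability to good windows along one subsequence. -/

open MeasureTheory Set Filter Topology
open scoped ENNReal NNReal

namespace Pool.Agent.Lib.MP_0d9445_pr.CR

open Walk Cell

variable {Ω : Type} [MeasurableSpace Ω]

/-- the (outer) probabilities tend to zero -/
def Van (P : Measure Ω) (E : ℕ → Set Ω) : Prop := Tendsto (fun n => P (E n)) atTop (𝓝 0)

/-- the degree law fails on `A` at precision `η` -/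
def degBad (C : Cells) (μ : Measure ℂ) (M η : ℝ) (A : Set ℂ) : Prop :=
  ¬ (piS C A ≤ ENNReal.ofReal M * (μ A + ENNReal.ofReal η) ∧
    ENNReal.ofReal M * μ A ≤ piS C A + ENNReal.ofReal M * ENNReal.ofReal η)

/-- the degree sum of the box exceeds the mass of `4S` -/
def degUp (C : Cells) (μ : Measure ℂ) (M η : ℝ) (m : ℕ) (v : ℤ × ℤ) : Prop :=
  ENNReal.ofReal M * (μ (reg m v 2) + ENNReal.ofReal η) < piS C (box m v)

/-- a window, an event on which it is used, and random patterns -/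
structure PW (Ω : Type) where
  W : Set ℂ
  G : Set Ω
  d : ℕ
  a : ℕ → Ω → Pat
  A : ℝ≥0
  α : ℝ

/-- the box lies well inside the window -/
def PW.In (w : PW Ω) (m : ℕ) (v : ℤ × ℤ) : Prop := Metric.ball (ctr m v) (48 * sc m) ⊆ w.W

/-- the deterministic window data along `φ` at `ω` -/
def PW.at (w : PW Ω) (φ : ℕ → ℕ) (ω : Ω) : WD := ⟨w.W, w.d, fun n => w.a (φ n) ω, w.A, w.α⟩

/-- the crude estimates in probability -/
structure PW.OK (w : PW Ω) (P : Measure Ω) (C : ℕ → Ω → Cells) (M : ℕ → ℝ) (J : ℕ → ℕ) :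
    Prop where
  d7 : 7 ≤ w.d
  α_pos : 0 < w.α
  dom : ∀ n, ∀ᵐ ω ∂P, ω ∈ w.G → Dom (C n ω) (w.a n ω) w.W ∧ ((C n ω).V ∩ w.W).Finite ∧
    ∀ m v, (w.a n ω).B m v → ((C n ω).V ∩ ann m v).Nonempty
  hB : ∀ m v, w.In m v → Van P fun n => w.G ∩ {ω | w.a n ω ∈ badB m v}
  hK : ∀ m v, w.In m v → Van P fun n => w.G ∩ {ω | w.a n ω ∈ badK w.d w.A m v}
  hS : ∀ k : ℕ, ∀ m v, w.In m v →
    Van P fun n => w.G ∩ {ω | w.a n ω ∈ badS w.d w.A (1 / (k + 1)) m v}
  hE : ∀ m v, w.In m v → Van P fun n => w.G ∩ {ω | w.a n ω ∈ badE (J n) m v}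
  hP : ∀ m v, w.In m v → ∀ ε : ℝ≥0∞, 0 < ε → ∃ j, ∀ᶠ n in atTop,
    P (w.G ∩ {ω | w.a n ω ∈ badP w.d w.α (2 * M n) j m v}) ≤ ε
  hF : ∀ m v, w.In m v → ∀ η : ℝ, 0 < η → ∀ (l : ℕ → ℕ) (I : ℕ → Finset (ℤ × ℤ)),
    (∀ j, I j ⊆ kids (l j) v) → Tendsto (fun j => ((I j).card : ℝ) / 4 ^ l j) atTop (𝓝 0) →
    ∀ ε : ℝ≥0∞, 0 < ε → ∀ᶠ j in atTop, ∀ᶠ n in atTop,
      P (w.G ∩ {ω | w.a n ω ∈ badF w.d (η * M n) (m + l j) (I j)}) ≤ ε

theorem Van.mono {P : Measure Ω} {E E' : ℕ → Set Ω} (h : Van P E')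
    (hE : ∀ᶠ n in atTop, E n ≤ᵐ[P] E' n) : Van P E :=
  tendsto_of_tendsto_of_tendsto_of_le_of_le' tendsto_const_nhds h
    (Eventually.of_forall fun _ => zero_le) (hE.mono fun _ k => measure_mono_ae k)

theorem Van.union {P : Measure Ω} {E E' : ℕ → Set Ω} (h : Van P E) (h' : Van P E') :
    Van P fun n => E n ∪ E' n :=
  tendsto_of_tendsto_of_tendsto_of_le_of_le tendsto_const_nhds (by simpa using h.add h')
    (fun _ => zero_le) fun _ => measure_union_le _ _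

theorem Van.biUnion {P : Measure Ω} {ι : Type*} (I : Finset ι) {E : ι → ℕ → Set Ω}
    (h : ∀ i ∈ I, Van P (E i)) : Van P fun n => ⋃ i ∈ I, E i n :=
  tendsto_of_tendsto_of_tendsto_of_le_of_le tendsto_const_nhds
    (by simpa using tendsto_finsetSum I h) (fun _ => zero_le)
    fun n => measure_biUnion_finset_le I fun i => E i n

theorem van_of_le {P : Measure Ω} {E : ℕ → Set Ω}
    (h : ∀ ε : ℝ≥0∞, 0 < ε → ∀ᶠ n in atTop, P (E n) ≤ ε) : Van P E :=
  ENNReal.tendsto_nhds_zero.2 h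

theorem badP_anti {d j m : ℕ} {α t t' : ℝ} {v : ℤ × ℤ} (h : t ≤ t') :
    badP d α t' j m v ⊆ badP d α t j m v := fun _ ⟨i, hi, w, hw, k⟩ =>
  ⟨i, hi, w, hw, (ENNReal.ofReal_le_ofReal
    (mul_le_mul_of_nonneg_right h (by positivity))).trans_lt k⟩

theorem badF_anti {d n : ℕ} {t t' : ℝ} {I : Finset (ℤ × ℤ)} (h : t ≤ t') :
    badF d t' n I ⊆ badF d t n I := fun _ k => (ENNReal.ofReal_le_ofReal h).trans_lt k

theorem Prob_deg_mono {C : Cells} {K K' : Set ℂ} (h : (C.toFC K).V ⊆ (C.toFC K').V) (A : Set ℂ) :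
    ∑ x ∈ (C.toFC K).pts A, (C.toFC K).G.deg x ≤
      ∑ x ∈ (C.toFC K').pts A, (C.toFC K').G.deg x := by
  refine (Finset.sum_le_sum fun x _ => Nat.cast_le.2 (Finset.card_le_card fun y hy => ?_)).trans
    (Finset.sum_le_sum_of_subset_of_nonneg
      (fun x hx => (FC.mem_pts _).2 ⟨h ((FC.mem_pts _).1 hx).1, ((FC.mem_pts _).1 hx).2⟩)
      fun _ _ _ => Nat.cast_nonneg _)
  rw [FC.mem_N] at hy ⊢
  exact ⟨h hy.1, h hy.2.1, hy.2.2⟩

theorem Prob_directed (C : Cells) (K K' : Set ℂ) :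
    ∃ L, (C.toFC K).V ⊆ (C.toFC L).V ∧ (C.toFC K').V ⊆ (C.toFC L).V := by
  by_cases h : {x | x ∈ C.V ∧ (C.H x ∩ K).Nonempty}.Finite
  · by_cases h' : {x | x ∈ C.V ∧ (C.H x ∩ K').Nonempty}.Finite
    · have h2 : {x | x ∈ C.V ∧ (C.H x ∩ (K ∪ K')).Nonempty}.Finite :=
        (h.union h').subset fun x hx => by
          rw [mem_ofPred_eq, inter_union_distrib_left, union_nonempty] at hx
          exact hx.2.imp (And.intro hx.1) (And.intro hx.1)
      refine ⟨K ∪ K', fun x => ?_, fun x => ?_⟩ <;>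
        simp only [Cells.toFC, dif_pos h, dif_pos h', dif_pos h2, Finite.mem_toFinset]
      · exact And.imp_right (Nonempty.mono (inter_subset_inter_right _ subset_union_left))
      · exact And.imp_right (Nonempty.mono (inter_subset_inter_right _ subset_union_right))
    · exact ⟨K, Finset.Subset.refl _, by simp only [Cells.toFC, dif_neg h', Finset.empty_subset]⟩
  · exact ⟨K', by simp only [Cells.toFC, dif_neg h, Finset.empty_subset], Finset.Subset.refl _⟩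

theorem sum_piS_le (C : Cells) {n : ℕ} {A : Set ℂ} (I : Finset (ℤ × ℤ))
    (hI : ∀ v ∈ I, box n v ⊆ A) : ∑ v ∈ I, piS C (box n v) ≤ piS C A := by
  classical
  simp only [piS]
  refine (ENNReal.finsetSum_iSup (s := I) (f := fun (v : ℤ × ℤ) (K : Set ℂ) =>
    ENNReal.ofReal (∑ x ∈ (C.toFC K).pts (box n v), (C.toFC K).G.deg x))
    fun K K' => (Prob_directed C K K').imp fun L h v =>
    ⟨ENNReal.ofReal_le_ofReal (Prob_deg_mono h.1 _),
      ENNReal.ofReal_le_ofReal (Prob_deg_mono h.2 _)⟩).trans_le (iSup_mono fun K => ?_)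
  have h0 : ∀ x, 0 ≤ (C.toFC K).G.deg x := fun _ => Nat.cast_nonneg _
  rw [← ENNReal.ofReal_sum_of_nonneg fun _ _ => Finset.sum_nonneg fun x _ => h0 x,
    ← Finset.sum_biUnion fun v _ v' _ h => Finset.disjoint_left.2 fun x hx hx' =>
      h ((mem_box_iff.1 ((FC.mem_pts _).1 hx).2).symm.trans
        (mem_box_iff.1 ((FC.mem_pts _).1 hx').2))]
  refine ENNReal.ofReal_le_ofReal (Finset.sum_le_sum_of_subset_of_nonneg (fun x hx => ?_)
    fun x _ _ => h0 x)
  obtain ⟨v, hv, hx⟩ := Finset.mem_biUnion.1 hx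
  exact (FC.mem_pts _).2 ⟨((FC.mem_pts _).1 hx).1, hI v hv ((FC.mem_pts _).1 hx).2⟩

theorem probB_sum_le (ν : Measure ℂ) {n : ℕ} {A : Set ℂ} (I : Finset (ℤ × ℤ))
    (hI : ∀ q ∈ I, box n q ⊆ A) : ∑ q ∈ I, ν (box n q) ≤ ν A := by
  rw [← measure_biUnion_finset (f := fun q => box n q)
    (fun q _ q' _ h => Set.disjoint_left.2 fun z hz hz' =>
      h ((mem_box_iff.1 hz).symm.trans (mem_box_iff.1 hz')))
    (fun q _ => measurableSet_box n q)]
  exact measure_mono (iUnion₂_subset hI)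

theorem probB_le_sum (ν : Measure ℂ) {n : ℕ} {A : Set ℂ} (I : Finset (ℤ × ℤ))
    (hI : ∀ z ∈ A, idx n z ∈ I) : ν A ≤ ∑ q ∈ I, ν (box n q) :=
  (measure_mono fun z hz => mem_iUnion₂.2 ⟨idx n z, hI z hz, mem_box_idx n z⟩).trans
    (measure_biUnion_finset_le I fun q => box n q)

theorem probB_vol_box (n : ℕ) (q : ℤ × ℤ) : volume (box n q) = ENNReal.ofReal (sc n ^ 2) := by
  have e : box n q = Complex.measurableEquivRealProd ⁻¹'
      (Ico (sc n * q.1) (sc n * (q.1 + 1)) ×ˢ Ico (sc n * q.2) (sc n * (q.2 + 1))) := by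
    ext z
    simp only [box, mem_ofPred_eq, mem_preimage, mem_prod, mem_Ico, and_assoc,
      Complex.measurableEquivRealProd_apply]
  rw [e, Complex.volume_preserving_equiv_real_prod.measure_preimage_equiv, Measure.volume_eq_prod,
    Measure.prod_prod, Real.volume_Ico, Real.volume_Ico, ← ENNReal.ofReal_mul]
  · congr 1
    ring
  · have := sc_pos n
    nlinarith

theorem probB_tend (ν : Measure ℂ) {K N : Set ℂ} (hN : IsClosed N) (hK : ν K ≠ ∞)
    (h0 : ν N = 0) :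
    Tendsto (fun k : ℕ => ν (Metric.thickening (2 * (1 / ((k : ℝ) + 1))) N ∩ K)) atTop (𝓝 0) := by
  have h1 := tendsto_measure_thickening_of_isClosed (μ := ν.restrict K) (s := N)
    ⟨1, one_pos, ne_top_of_le_ne_top hK ((measure_mono (subset_univ _)).trans
      (Measure.restrict_apply_univ K).le)⟩ hN
  have h2 : ν.restrict K N = 0 := le_antisymm ((Measure.restrict_apply_le K N).trans h0.le) zero_le
  rw [h2] at h1
  have h3 : Tendsto (fun k : ℕ => 2 * (1 / ((k : ℝ) + 1))) atTop (𝓝[>] 0) := by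
    refine tendsto_nhdsWithin_iff.2 ⟨?_, Eventually.of_forall fun k => ?_⟩
    · simpa using (tendsto_one_div_add_atTop_nhds_zero_nat (𝕜 := ℝ)).const_mul 2
    · exact mem_Ioi.2 (by positivity)
  refine (h1.comp h3).congr fun k => ?_
  exact Measure.restrict_apply Metric.isOpen_thickening.measurableSet

theorem probB_geo {W N : Set ℂ} {p : ℕ → ℤ × ℤ → Prop} {m : ℕ} {v : ℤ × ℤ}
    (hW : Metric.closedBall (ctr m v) (sc m) ⊆ W)
    (hoff : ∀ z ∈ W \ N, ∃ U ∈ 𝓝 z, ∀ m v, Metric.ball (ctr m v) (48 * sc m) ⊆ U → p m v)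
    {δ : ℝ} (hδ : 0 < δ) :
    ∃ l, sc (m + l) ≤ δ ∧ ∀ q ∈ kids l v,
      ctr (m + l) q ∉ Metric.thickening δ (N ∩ Metric.closedBall (ctr m v) (sc m)) →
        p (m + l) q := by
  set K := Metric.closedBall (ctr m v) (sc m) with hK
  have hR : IsCompact (K \ Metric.thickening δ (N ∩ K)) :=
    (isCompact_closedBall _ _).diff Metric.isOpen_thickening
  have hsub : ∀ z ∈ K \ Metric.thickening δ (N ∩ K), z ∈ W \ N := fun z hz =>
    ⟨hW hz.1, fun h => hz.2 (Metric.self_subset_thickening hδ _ ⟨h, hz.1⟩)⟩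
  choose U hU hp using fun z : ↥(K \ Metric.thickening δ (N ∩ K)) => hoff z (hsub z z.2)
  obtain ⟨r, hr, hb⟩ := lebesgue_number_lemma_of_metric (c := fun z => interior (U z)) hR
    (fun _ => isOpen_interior)
    (fun z hz => mem_iUnion.2 ⟨⟨z, hz⟩, mem_interior_iff_mem_nhds.2 (hU ⟨z, hz⟩)⟩)
  have hs := sc_pos m
  obtain ⟨l, hl⟩ := exists_pow_lt_of_lt_one (x := min (r / 48) δ / sc m) (y := (2 : ℝ)⁻¹)
    (by positivity) (by norm_num)
  have hl' : sc (m + l) ≤ min (r / 48) δ := by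
    rw [sc_add, mul_comm]
    exact ((lt_div_iff₀ hs).1 hl).le
  refine ⟨l, hl'.trans (min_le_right _ _), fun q hq hn => ?_⟩
  have hc : ctr (m + l) q ∈ K :=
    mem_closedBall_iff_norm.2 (norm_sub_ctr_le (box_subset_of_kids hq (ctr_mem_box _ _)))
  obtain ⟨i, hi⟩ := hb _ ⟨hc, hn⟩
  refine hp i _ _ ((Metric.ball_subset_ball ?_).trans (hi.trans interior_subset))
  have := hl'.trans (min_le_left _ _)
  linarith

theorem probB_det {C : Cells} {a : Pat} {W : Set ℂ} {d m l : ℕ} {v : ℤ × ℤ} {μ : Measure ℂ}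
    {M η : ℝ} (hη : 0 < η) (hd : 1 ≤ d) (hdom : Dom C a W)
    (hW : Metric.ball (ctr m v) (48 * sc m) ⊆ W) {I : Finset (ℤ × ℤ)} (hI : I ⊆ kids l v)
    (h1 : ∀ q ∈ kids l v \ I, ¬ degBad C μ M (η / 2 / 4 ^ l) (box (m + l) q))
    (h2 : ∀ q ∈ I, a ∉ badB (m + l) q) (h3 : a ∉ badF d (η / 2 * M) (m + l) I)
    (h4 : ∑ q ∈ I, μ (box (m + l) q) ≤ ENNReal.ofReal (η / 2)) :
    ¬ degBad C μ M η (box m v) := by
  have hη2 : 0 ≤ η / 2 := by positivity
  have hsub : ∀ q ∈ kids l v \ I, box (m + l) q ⊆ box m v := fun q hq =>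
    box_subset_of_kids (Finset.mem_sdiff.1 hq).1
  have hidx : ∀ z ∈ box m v, idx (m + l) z ∈ kids l v := fun z hz =>
    idx_mem_kids.2 (mem_box_iff.1 hz)
  have e1 : ∑ _q ∈ kids l v \ I, ENNReal.ofReal (η / 2 / 4 ^ l) ≤ ENNReal.ofReal (η / 2) := by
    refine (Finset.sum_le_sum_of_subset (t := kids l v) Finset.sdiff_subset).trans ?_
    rw [Finset.sum_const, card_kids, nsmul_eq_mul, ← ENNReal.ofReal_natCast,
      ← ENNReal.ofReal_mul (by positivity)]
    refine ENNReal.ofReal_le_ofReal (le_of_eq ?_)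
    push_cast
    field_simp
  have e2 : ENNReal.ofReal (η / 2) + ENNReal.ofReal (η / 2) = ENNReal.ofReal η := by
    rw [← ENNReal.ofReal_add hη2 hη2, add_halves]
  have e3 : ∑ q ∈ I, piS C (box (m + l) q) ≤ ENNReal.ofReal M * ENNReal.ofReal (η / 2) := by
    rw [mul_comm, ← ENNReal.ofReal_mul hη2]
    refine (Finset.sum_le_sum fun q hq => ?_).trans (not_lt.1 h3)
    exact hdom.piS_le_PiD hd (shut_of_B (not_not.1 (h2 q hq)))
      ((reg_subset_ball _ _ (by norm_num)).trans ((sub_kids (hI hq)).ball_subset.trans hW))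
  refine not_not.2 ⟨?_, ?_⟩
  · calc piS C (box m v) ≤ ∑ q ∈ kids l v, piS C (box (m + l) q) := piS_le_sum C _ hidx
      _ = ∑ q ∈ kids l v \ I, piS C (box (m + l) q) + ∑ q ∈ I, piS C (box (m + l) q) :=
        (Finset.sum_sdiff hI).symm
      _ ≤ ∑ q ∈ kids l v \ I, ENNReal.ofReal M *
            (μ (box (m + l) q) + ENNReal.ofReal (η / 2 / 4 ^ l)) +
          ENNReal.ofReal M * ENNReal.ofReal (η / 2) :=
        add_le_add (Finset.sum_le_sum fun q hq => (not_not.1 (h1 q hq)).1) e3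
      _ ≤ ENNReal.ofReal M * (μ (box m v) + ENNReal.ofReal (η / 2)) +
          ENNReal.ofReal M * ENNReal.ofReal (η / 2) := by
        rw [← Finset.mul_sum, Finset.sum_add_distrib]
        gcongr
        exact probB_sum_le μ _ hsub
      _ = ENNReal.ofReal M * (μ (box m v) + ENNReal.ofReal η) := by
        rw [← mul_add, add_assoc, e2]
  · calc ENNReal.ofReal M * μ (box m v)
        ≤ ENNReal.ofReal M * ∑ q ∈ kids l v, μ (box (m + l) q) := by
          gcongr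
          exact probB_le_sum μ _ hidx
      _ = ∑ q ∈ kids l v \ I, ENNReal.ofReal M * μ (box (m + l) q) +
          ENNReal.ofReal M * ∑ q ∈ I, μ (box (m + l) q) := by
        rw [← Finset.sum_sdiff hI, mul_add, Finset.mul_sum]
      _ ≤ ∑ q ∈ kids l v \ I, (piS C (box (m + l) q) +
            ENNReal.ofReal M * ENNReal.ofReal (η / 2 / 4 ^ l)) +
          ENNReal.ofReal M * ENNReal.ofReal (η / 2) :=
        add_le_add (Finset.sum_le_sum fun q hq => (not_not.1 (h1 q hq)).2) (by gcongr)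
      _ ≤ (piS C (box m v) + ENNReal.ofReal M * ENNReal.ofReal (η / 2)) +
          ENNReal.ofReal M * ENNReal.ofReal (η / 2) := by
        rw [Finset.sum_add_distrib, ← Finset.mul_sum]
        gcongr
        exact sum_piS_le C _ hsub
      _ = piS C (box m v) + ENNReal.ofReal M * ENNReal.ofReal η := by
        rw [add_assoc, ← mul_add, e2]

/-- the degree law for every box of the window, from the degree law off a closed null set -/
theorem PW.OK.deg_law {w : PW Ω} {P : Measure Ω} [IsProbabilityMeasure P] {C : ℕ → Ω → Cells}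
    {M : ℕ → ℝ} {J : ℕ → ℕ} (hw : w.OK P C M J) {μ : Ω → Measure ℂ} (hμ : Measurable μ)
    {N : Set ℂ} (hN : IsClosed N) (hN0 : volume N = 0) (hM : Tendsto M atTop atTop)
    (hμN : ∀ᵐ ω ∂P, ω ∈ w.G → μ ω (N ∩ w.W) = 0 ∧ ∀ K, IsCompact K → K ⊆ w.W → μ ω K < ∞)
    (hoff : ∀ z ∈ w.W \ N, ∃ U ∈ 𝓝 z, ∀ m v, Metric.ball (ctr m v) (48 * sc m) ⊆ U →
      ∀ η : ℝ, 0 < η → Van P fun n => w.G ∩ {ω | degBad (C n ω) (μ ω) (M n) η (box m v)}) :
    ∀ m v, w.In m v → ∀ η : ℝ, 0 < η →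
      Van P fun n => w.G ∩ {ω | degBad (C n ω) (μ ω) (M n) η (box m v)} := by
  classical
  intro m v hin η hη
  have hs := sc_pos m
  set K := Metric.closedBall (ctr m v) (sc m) with hK
  have hKc : IsCompact K := isCompact_closedBall _ _
  have hKW : K ⊆ w.W := (Metric.closedBall_subset_ball (by linarith)).trans hin
  have hNK : IsClosed (N ∩ K) := hN.inter Metric.isClosed_closedBall
  choose l hl hp using fun k : ℕ => probB_geo (δ := 1 / ((k : ℝ) + 1)) hKW hoff (by positivity)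
  set I : ℕ → Finset (ℤ × ℤ) := fun k => (kids (l k) v).filter fun q =>
    ctr (m + l k) q ∈ Metric.thickening (1 / ((k : ℝ) + 1)) (N ∩ K) with hI
  set T : ℕ → Set ℂ := fun k => Metric.thickening (2 * (1 / ((k : ℝ) + 1))) (N ∩ K) ∩ K with hT
  have hTm : ∀ k, MeasurableSet (T k) := fun k =>
    Metric.isOpen_thickening.measurableSet.inter Metric.isClosed_closedBall.measurableSet
  have hIk : ∀ k, I k ⊆ kids (l k) v := fun k => Finset.filter_subset _ _
  have hIT : ∀ k, ∀ q ∈ I k, box (m + l k) q ⊆ T k := by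
    intro k q hq z hz
    obtain ⟨hq1, hq2⟩ := Finset.mem_filter.1 hq
    refine ⟨?_, mem_closedBall_iff_norm.2 (norm_sub_ctr_le (box_subset_of_kids hq1 hz))⟩
    obtain ⟨y, hy, hd⟩ := Metric.mem_thickening_iff.1 hq2
    refine Metric.mem_thickening_iff.2 ⟨y, hy, ?_⟩
    have h1 := norm_sub_ctr_le hz
    have h2 := dist_triangle z (ctr (m + l k) q) y
    have h3 := hl k
    rw [← dist_eq_norm] at h1
    linarith
  have hcard : Tendsto (fun k => ((I k).card : ℝ) / 4 ^ l k) atTop (𝓝 0) := by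
    have h1 := probB_tend volume hNK hKc.measure_lt_top.ne
      (measure_mono_null inter_subset_left hN0)
    have h2 := ((ENNReal.tendsto_toReal ENNReal.zero_ne_top).comp h1).div_const (sc m ^ 2)
    rw [ENNReal.toReal_zero, zero_div] at h2
    refine squeeze_zero (fun k => by positivity) (fun k => ?_) h2
    have h3 := probB_sum_le volume (I k) (hIT k)
    simp only [probB_vol_box, Finset.sum_const, nsmul_eq_mul] at h3
    have h4 := ENNReal.toReal_mono
      (ne_top_of_le_ne_top hKc.measure_lt_top.ne (measure_mono inter_subset_right)) h3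
    rw [ENNReal.toReal_mul, ENNReal.toReal_natCast, ENNReal.toReal_ofReal (by positivity),
      sc_add] at h4
    rw [le_div_iff₀ (by positivity)]
    refine le_trans (le_of_eq ?_) h4
    rw [mul_pow, ← pow_mul, mul_comm (l k) 2, pow_mul, inv_pow, inv_pow]
    norm_num
    ring
  set A : ℕ → Set Ω := fun k =>
    ({ω | μ ω K < ∞} ∩ {ω | μ ω (N ∩ K) = 0}) ∩ {ω | ENNReal.ofReal (η / 2) < μ ω (T k)} with hA
  have hAm : ∀ k, MeasurableSet (A k) := fun k =>
    ((measurableSet_lt ((Measure.measurable_coe hKc.measurableSet).comp hμ) measurable_const).inter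
      (((Measure.measurable_coe hNK.measurableSet).comp hμ) (measurableSet_singleton 0))).inter
      (measurableSet_lt measurable_const ((Measure.measurable_coe (hTm k)).comp hμ))
  have hAa : Antitone A := by
    intro k k' hk ω hω
    refine ⟨hω.1, lt_of_lt_of_le hω.2 (measure_mono (inter_subset_inter_left _
      (Metric.thickening_mono ?_ _)))⟩
    have : (k : ℝ) ≤ k' := by exact_mod_cast hk
    gcongr
  have hA0 : ⋂ k, A k = ∅ := by
    refine eq_empty_of_forall_notMem fun ω hω => ?_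
    have h1 := mem_iInter.1 hω
    have h2 := probB_tend (μ ω) hNK (h1 0).1.1.ne (h1 0).1.2
    have h3 := ge_of_tendsto' h2 fun k => (h1 k).2.le
    exact absurd h3 (not_le.2 (ENNReal.ofReal_pos.2 (by positivity)))
  have hAt := tendsto_measure_iInter_atTop (μ := P) (fun k => (hAm k).nullMeasurableSet) hAa
    ⟨0, measure_ne_top _ _⟩
  rw [hA0, measure_empty] at hAt
  refine van_of_le fun ε hε => ?_
  have hε2 : 0 < ε / 2 := ENNReal.half_pos hε.ne'
  have hε4 : 0 < ε / 2 / 2 := ENNReal.half_pos hε2.ne'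
  obtain ⟨k, hk1, hk2⟩ := ((hw.hF m v hin (η / 2) (by positivity) l I hIk hcard _ hε4).and
    (ENNReal.tendsto_nhds_zero.1 hAt _ hε4)).exists
  have hV1 : Van P fun n => ⋃ q ∈ kids (l k) v \ I k,
      w.G ∩ {ω | degBad (C n ω) (μ ω) (M n) (η / 2 / 4 ^ l k) (box (m + l k) q)} :=
    Van.biUnion _ fun q hq => hp k q (Finset.mem_sdiff.1 hq).1
      (fun h => (Finset.mem_sdiff.1 hq).2 (Finset.mem_filter.2 ⟨(Finset.mem_sdiff.1 hq).1, h⟩))
      _ (by positivity)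
  have hV2 : Van P fun n => ⋃ q ∈ I k, w.G ∩ {ω | w.a n ω ∈ badB (m + l k) q} :=
    Van.biUnion _ fun q hq => hw.hB _ q ((sub_kids (hIk k hq)).ball_subset.trans hin)
  filter_upwards [hk1, ENNReal.tendsto_nhds_zero.1 (hV1.union hV2) _ hε2] with n hn1 hn2
  refine le_trans (measure_mono_ae (t := (_ ∪ A k) ∪ _) ?_) ((measure_union_le _ _).trans
    ((add_le_add ((measure_union_le _ _).trans (add_le_add hn1 hk2)) hn2).trans ?_))
  · filter_upwards [hw.dom n, hμN] with ω h1 h2 hω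
    by_contra hc
    obtain ⟨c12, c34⟩ := not_or.1 hc
    obtain ⟨c1, c2⟩ := not_or.1 c12
    obtain ⟨c3, c4⟩ := not_or.1 c34
    have hG : ω ∈ w.G := hω.1
    refine probB_det hη (le_trans (by norm_num) hw.d7) (h1 hG).1 hin (hIk k)
      (fun q hq h => c3 (mem_iUnion₂.2 ⟨q, hq, hG, h⟩))
      (fun q hq h => c4 (mem_iUnion₂.2 ⟨q, hq, hG, h⟩)) (fun h => c1 ⟨hG, h⟩)
      ((probB_sum_le _ _ (hIT k)).trans (not_lt.1 fun h => c2 ⟨⟨(h2 hG).2 K hKc hKW,
        measure_mono_null (inter_subset_inter_right _ hKW) (h2 hG).1⟩, h⟩)) hω.2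
  · rw [ENNReal.add_halves, ENNReal.add_halves]

theorem degBad_of_degUp {C : Cells} {μ : Measure ℂ} {M η : ℝ} {m : ℕ} {v : ℤ × ℤ}
    (h : degUp C μ M η m v) : degBad C μ M η (box m v) := fun k => by
  have hs := sc_pos m
  refine h.not_ge (k.1.trans (mul_le_mul_right (add_le_add_left (measure_mono fun z hz => ?_) _) _))
  have := box_subset_csq m v hz
  exact ⟨this.1.trans_lt (by linarith), this.2.trans_lt (by linarith)⟩

theorem tendsto_of_not_degBad {C : ℕ → Cells} {μ : Measure ℂ} {M : ℕ → ℝ} {A : Set ℂ}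
    (hM : Tendsto M atTop atTop)
    (h : ∀ k : ℕ, ∀ᶠ n in atTop, ¬ degBad (C n) μ (M n) (1 / (k + 1)) A) :
    Tendsto (fun n => piS (C n) A / ENNReal.ofReal (M n)) atTop (𝓝 (μ A)) := by
  have key : ∀ ε : ℝ≥0∞, 0 < ε → ∀ᶠ n in atTop, piS (C n) A / ENNReal.ofReal (M n) ≤ μ A + ε ∧
      μ A ≤ piS (C n) A / ENNReal.ofReal (M n) + ε := fun ε hε => by
    have t := ENNReal.tendsto_ofReal (tendsto_one_div_add_atTop_nhds_zero_nat (𝕜 := ℝ))
    rw [ENNReal.ofReal_zero] at t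
    obtain ⟨k, hk⟩ := (ENNReal.tendsto_nhds_zero.1 t ε hε).exists
    filter_upwards [h k, hM.eventually_gt_atTop 0] with n h1 h2
    have h0 := (ENNReal.ofReal_pos.2 h2).ne'
    obtain ⟨a, b⟩ := not_not.1 h1
    refine ⟨ENNReal.div_le_of_le_mul' (a.trans (by gcongr)), ?_⟩
    rw [← ENNReal.mul_le_mul_iff_right h0 ENNReal.ofReal_ne_top, mul_add,
      ENNReal.mul_div_cancel h0 ENNReal.ofReal_ne_top]
    exact b.trans (by gcongr)
  rcases eq_or_ne (μ A) ∞ with e | e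
  · refine tendsto_const_nhds.congr' ((key 1 one_pos).mono fun n hn => ?_)
    rw [e] at hn ⊢
    exact ((ENNReal.add_eq_top.1 (top_le_iff.1 hn.2)).resolve_right ENNReal.one_ne_top).symm
  · exact (ENNReal.tendsto_nhds e).2 fun ε hε =>
      (key ε hε).mono fun n hn => ⟨tsub_le_iff_right.2 hn.2, hn.1⟩

omit [MeasurableSpace Ω] in
theorem PW.In.kid {w : PW Ω} {m l : ℕ} {v q : ℤ × ℤ} (h : w.In m v) (hq : q ∈ kids l v) :
    w.In (m + l) q := (sub_kids hq).ball_subset.trans h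

/-- one subsequence for countably many windows and countably many further events -/
theorem exists_subseq {P : Measure Ω} {ι κ : Type} [Countable ι] [Countable κ] (w : ι → PW Ω)
    {C : ι → ℕ → Ω → Cells} {μ : ι → Ω → Measure ℂ} {M : ℕ → ℝ} {J : ℕ → ℕ}
    (hw : ∀ i, (w i).OK P (C i) M J)
    (hup : ∀ i m v, (w i).In m v → ∀ η : ℝ, 0 < η →
      Van P fun n => (w i).G ∩ {ω | degUp (C i n ω) (μ i ω) (M n) η m v})
    (E : κ → ℕ → Set Ω) (hE : ∀ k, Van P (E k)) :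
    ∃ φ : ℕ → ℕ, StrictMono φ ∧ ∀ᵐ ω ∂P, (∀ k, ∀ᶠ n in atTop, ω ∉ E k (φ n)) ∧
      ∀ i, ω ∈ (w i).G →
        ((w i).at φ ω).OK (fun n => C i (φ n) ω) (μ i ω) (fun n => M (φ n)) (fun n => J (φ n)) := by
  classical
  let U : ι → ℕ → ℤ × ℤ → ℕ → ℕ → Set Ω := fun i m v j n =>
    ⋃ l ∈ Finset.range j, ⋃ q ∈ kids (l * (w i).d) v, (w i).G ∩
      {ω | degUp (C i n ω) (μ i ω) (M n) (2⁻¹ ^ (l * (w i).d)) (m + l * (w i).d) q}
  let R : ι → ℕ → ℤ × ℤ → ℕ → ℕ → Set Ω := fun i m v k n =>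
    (w i).G ∩ {ω | (w i).a n ω ∈ badB m v} ∪
      (w i).G ∩ {ω | (w i).a n ω ∈ badK (w i).d (w i).A m v} ∪
      (w i).G ∩ {ω | (w i).a n ω ∈ badS (w i).d (w i).A (1 / (k + 1)) m v} ∪
      (w i).G ∩ {ω | (w i).a n ω ∈ badE (J n) m v}
  obtain ⟨φ, hφ, H⟩ := exists_diag' P (ι := κ ⊕ ι × ℕ × (ℤ × ℤ) × ℕ)
    (Sum.elim (fun k _ n => E k n) fun x j n => if (w x.1).In x.2.1 x.2.2.1 then
      (w x.1).G ∩ {ω | (w x.1).a n ω ∈ badP (w x.1).d (w x.1).α (2 * M n) j x.2.1 x.2.2.1} ∪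
        (R x.1 x.2.1 x.2.2.1 x.2.2.2 n ∪ U x.1 x.2.1 x.2.2.1 j n) else ∅) (by
      rintro (k | ⟨i, m, v, k⟩) ε hε
      · exact ⟨0, ENNReal.tendsto_nhds_zero.1 (hE k) ε hε⟩
      simp only [Sum.elim_inr]
      split_ifs with h
      · have h2 := ENNReal.half_pos hε.ne'
        obtain ⟨j, hj⟩ := (hw i).hP m v h _ h2
        have h3 : Van P fun n => R i m v k n ∪ U i m v j n :=
          (((((hw i).hB m v h).union ((hw i).hK m v h)).union ((hw i).hS k m v h)).union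
            ((hw i).hE m v h)).union (Van.biUnion _ fun l _ => Van.biUnion _ fun q hq =>
              hup i _ q (h.kid hq) _ (by positivity))
        refine ⟨j, ?_⟩
        filter_upwards [hj, ENNReal.tendsto_nhds_zero.1 h3 _ h2] with n k1 k2
        exact (measure_union_le _ _).trans ((add_le_add k1 k2).trans_eq (ENNReal.add_halves ε))
      · exact ⟨0, Eventually.of_forall fun _ => by simp⟩)
  refine ⟨φ, hφ, ?_⟩
  filter_upwards [H, ae_all_iff.2 fun i => ae_all_iff.2 (hw i).dom] with ω h hd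
  refine ⟨fun k => (h (.inl k)).mono fun n ⟨_, hn⟩ => hn, fun i hi => ?_⟩
  have key : ∀ m v k, (w i).In m v → ∀ᶠ n in atTop, ∃ j,
      (w i).a (φ n) ω ∉ badP (w i).d (w i).α (2 * M (φ n)) j m v ∧
        ω ∉ R i m v k (φ n) ∧ ω ∉ U i m v j (φ n) := fun m v k hv =>
    (h (.inr (i, m, v, k))).mono fun n ⟨j, hn⟩ => by
      simp only [Sum.elim_inr, if_pos hv, mem_union, not_or] at hn
      exact ⟨j, fun k => hn.1 ⟨hi, k⟩, hn.2⟩
  refine ⟨(hw i).d7, (hw i).α_pos, .of_forall fun n => (hd i _ hi).1,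
    .of_forall fun n => (hd i _ hi).2.1, .of_forall fun n => (hd i _ hi).2.2,
    fun m v hv => (key m v 0 hv).mono fun n ⟨_, hn⟩ k => hn.2.1 (.inl (.inl (.inl ⟨hi, k⟩))),
    fun m v hv => (key m v 0 hv).mono fun n ⟨_, hn⟩ k => hn.2.1 (.inl (.inl (.inr ⟨hi, k⟩))),
    fun k m v hv => (key m v k hv).mono fun n ⟨_, hn⟩ k => hn.2.1 (.inl (.inr ⟨hi, k⟩)),
    fun m v hv => (key m v 0 hv).mono fun n ⟨_, hn⟩ k => hn.2.1 (.inr ⟨hi, k⟩),
    fun m v hv => (key m v 0 hv).mono fun n ⟨j, hn⟩ => ⟨j, hn.1, fun l hl q hq => ?_⟩⟩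
  have : ¬ degUp (C i (φ n) ω) (μ i ω) (M (φ n)) (2⁻¹ ^ (l * (w i).d)) (m + l * (w i).d) q :=
    fun k => hn.2.2 (mem_iUnion₂.2 ⟨l, Finset.mem_range.2 hl, mem_iUnion₂.2 ⟨q, hq, hi, k⟩⟩)
  rwa [degUp, not_lt, ENNReal.ofReal_pow (by norm_num), ENNReal.ofReal_inv_of_pos two_pos,
    ENNReal.ofReal_ofNat] at this

end Pool.Agent.Lib.MP_0d9445_pr.CR
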