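import Pool.Agent.Lib.MP_0d9445_pr.CR.LLN
import Pool.Agent.Lib.MP_0d9445_pr.CR.Pi

/-! Bounds for all boxes of all levels at once. -/

open MeasureTheory ProbabilityTheory Set Filter Topology
open scoped ENNReal NNReal

namespace Pool.Agent.Lib.MP_0d9445_pr.CR

theorem unif_geom_tail {C ρ ε : ℝ≥0∞} (hC : C ≠ ∞) (hρ : ρ < 1) (hε : 0 < ε) :
    ∃ j : ℕ, ∀ {Ω : Type} [MeasurableSpace Ω] (μ : Measure Ω) (p : ℕ → Ω → Prop),
      (∀ i, μ {x | p i x} ≤ C * ρ ^ i) → μ {x | ∃ i, j ≤ i ∧ p i x} ≤ ε := by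
  have hsum : ∑' i : ℕ, C * ρ ^ i ≠ ∞ := by
    rw [ENNReal.tsum_mul_left, ENNReal.tsum_geometric]
    exact ENNReal.mul_ne_top hC (ENNReal.inv_ne_top.2 (tsub_pos_of_lt hρ).ne')
  have ht := ENNReal.tendsto_sum_nat_add (fun i => C * ρ ^ i) hsum
  obtain ⟨j, hj⟩ := (ht.eventually (ge_mem_nhds hε)).exists
  refine ⟨j, fun μ p hp => ?_⟩
  calc μ {x | ∃ i, j ≤ i ∧ p i x} ≤ μ (⋃ k, {x | p (k + j) x}) := by
        apply measure_mono
        rintro x ⟨i, hi, hx⟩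
        refine mem_iUnion.2 ⟨i - j, ?_⟩
        rw [Nat.sub_add_cancel hi]
        exact hx
    _ ≤ ∑' k, μ {x | p (k + j) x} := measure_iUnion_le _
    _ ≤ ∑' k, C * ρ ^ (k + j) := ENNReal.tsum_le_tsum fun k => hp _
    _ ≤ ε := hj

theorem unif_kids_le {Ω : Type} [MeasurableSpace Ω] (μ : Measure Ω) (m : ℕ) (v : ℤ × ℤ)
    (p : ℤ × ℤ → Ω → Prop) {B : ℝ≥0∞} (h : ∀ w ∈ kids m v, μ {x | p w x} ≤ B) :
    μ {x | ∃ w ∈ kids m v, p w x} ≤ 4 ^ m * B := by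
  calc μ {x | ∃ w ∈ kids m v, p w x} ≤ μ (⋃ w ∈ kids m v, {x | p w x}) := by
        apply measure_mono
        rintro x ⟨w, hw, hx⟩
        exact mem_iUnion₂.2 ⟨w, hw, hx⟩
    _ ≤ ∑ w ∈ kids m v, μ {x | p w x} := measure_biUnion_finset_le _ _
    _ ≤ ∑ w ∈ kids m v, B := Finset.sum_le_sum h
    _ = 4 ^ m * B := by
        rw [Finset.sum_const, card_kids, nsmul_eq_mul]
        push_cast
        rfl

theorem unif_four_pow (m : ℕ) :
    (4 : ℝ≥0∞) ^ m = ENNReal.ofReal ((2 : ℝ) ^ (2 * (m : ℝ))) := by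
  have h : (2 : ℝ) ^ (2 * (m : ℝ)) = 4 ^ m := by
    rw [Real.rpow_mul (by norm_num), Real.rpow_natCast, Real.rpow_two]
    norm_num
  rw [h, ENNReal.ofReal_pow (by norm_num)]
  norm_num

theorem unif_four_mul (m : ℕ) (a : ℝ) :
    (4 : ℝ≥0∞) ^ m * ENNReal.ofReal ((2 : ℝ) ^ a) =
      ENNReal.ofReal ((2 : ℝ) ^ (2 * (m : ℝ) + a)) := by
  rw [unif_four_pow, ← ENNReal.ofReal_mul (by positivity), ← Real.rpow_add (by norm_num)]

theorem unif_pow_le {m i : ℕ} {a κ : ℝ} (h : 2 * (m : ℝ) + a ≤ -κ * i) :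
    (4 : ℝ≥0∞) ^ m * ENNReal.ofReal ((2 : ℝ) ^ a) ≤ ENNReal.ofReal ((2 : ℝ) ^ (-κ)) ^ i := by
  rw [unif_four_mul, ← ENNReal.ofReal_pow (by positivity), ← Real.rpow_natCast,
    ← Real.rpow_mul (by norm_num)]
  exact ENNReal.ofReal_le_ofReal (Real.rpow_le_rpow_of_exponent_le (by norm_num) h)

theorem unif_ratio_lt {κ : ℝ} (h : 0 < κ) : ENNReal.ofReal ((2 : ℝ) ^ (-κ)) < 1 := by
  rw [ENNReal.ofReal_lt_one]
  exact Real.rpow_lt_one_of_one_lt_of_neg (by norm_num) (by linarith)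

theorem unif_markov {Ω : Type} [MeasurableSpace Ω] (μ : Measure Ω) {F : Ω → ℝ≥0∞}
    (hF : Measurable F) {a p : ℝ} (ha : 0 < a) (hp : 0 < p) :
    μ {x | ENNReal.ofReal a < F x} ≤ ENNReal.ofReal (a ^ (-p)) * ∫⁻ x, F x ^ p ∂μ := by
  have hap : 0 < a ^ p := Real.rpow_pos_of_pos ha p
  calc μ {x | ENNReal.ofReal a < F x} ≤ μ {x | ENNReal.ofReal (a ^ p) ≤ F x ^ p} := by
        apply measure_mono
        intro x hx
        have hx' : ENNReal.ofReal a < F x := hx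
        show ENNReal.ofReal (a ^ p) ≤ F x ^ p
        rw [← ENNReal.ofReal_rpow_of_pos ha]
        exact ENNReal.rpow_le_rpow hx'.le hp.le
    _ ≤ (∫⁻ x, F x ^ p ∂μ) / ENNReal.ofReal (a ^ p) :=
        meas_ge_le_lintegral_div (hF.pow_const p).aemeasurable
          (ENNReal.ofReal_pos.2 hap).ne' ENNReal.ofReal_ne_top
    _ = ENNReal.ofReal (a ^ (-p)) * ∫⁻ x, F x ^ p ∂μ := by
        rw [div_eq_mul_inv, mul_comm, ← ENNReal.ofReal_inv_of_pos hap, Real.rpow_neg ha.le]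

namespace Casc

variable {Ξ : Type} [MeasurableSpace Ξ] [MeasurableSpace C(ℂ, ℝ)] (K : Casc Ξ)

variable {d : ℕ}

/-- C8 a -/
theorem blk_all (m : ℕ) :
    K.Soft fun n v => {x | ∃ w ∈ kids m v, ¬ (K.pat x).B (n + m) w} := by
  refine Soft.mono (Soft.kids K.soft_blk (fun n v => (K.blk_meas' n v).compl) m) ?_
  rintro n v x ⟨w, hw, hx⟩
  exact mem_iUnion₂.2 ⟨w, hw, hx⟩

/-- C8 c, tail form -/
theorem sig_tail (hd : K.Good d) {β : ℝ} (hβ : 0 < β) (ε : ℝ≥0∞) (L : ℝ≥0) (hε : 0 < ε) :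
    ∃ j : ℕ, ∀ n v g, K.Win n (ctr n v) → oo n (ctr n v) g ≤ L →
      K.P n g {x | ∃ i, j ≤ i ∧ ∃ w ∈ kids (i * d) v,
        ENNReal.ofReal ((2 : ℝ) ^ (β * (i * d : ℕ))) <
          sig d (K.pat x) n (i + 1) (ctr (n + i * d) w) + KK d (K.pat x) (n + i * d) w} ≤ ε := by
  have hd7 : 7 ≤ d := hd.1
  obtain ⟨r, hr3⟩ := exists_nat_ge (3 / β)
  have hβr : 3 ≤ β * r := by
    rw [div_le_iff₀ hβ] at hr3
    linarith
  have hr1 : 1 ≤ r := by
    rcases Nat.eq_zero_or_pos r with h | h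
    · rw [h] at hβr
      norm_num at hβr
    · exact h
  have hr1' : (1 : ℝ) ≤ r := by exact_mod_cast hr1
  obtain ⟨C₁, h₁⟩ := K.sig_mom hd hr1
  obtain ⟨C₂, h₂⟩ := K.KK_lift hd hr1
  have hθ : 0 ≤ 2 * K.θ := by linarith [K.θ_pos]
  set B : ℝ≥0∞ := (2 : ℝ≥0∞) ^ ((r : ℝ) - 1) *
    ((C₁ + C₂) * ENNReal.ofReal (Real.exp (2 * K.θ * L))) with hB
  have hBt : B ≠ ∞ := by
    refine ENNReal.mul_ne_top (ENNReal.rpow_ne_top_of_nonneg (by linarith) (by norm_num))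
      (ENNReal.mul_ne_top ?_ ENNReal.ofReal_ne_top)
    exact ENNReal.add_ne_top.2 ⟨ENNReal.coe_ne_top, ENNReal.coe_ne_top⟩
  obtain ⟨j, hj⟩ := unif_geom_tail hBt (unif_ratio_lt one_pos) hε
  refine ⟨j, fun n v g hW ho => hj (K.P n g) _ fun i => ?_⟩
  have hw0 : wt K.Q 0 (2 * K.θ) n (ctr n v) g ≤ ENNReal.ofReal (Real.exp (2 * K.θ * L)) := by
    have := wt_le_of_oo_le K.Q 0 hθ ho
    rwa [zero_mul, zero_add] at this
  have hk : ∀ w ∈ kids (i * d) v, K.P n g {x | ENNReal.ofReal ((2 : ℝ) ^ (β * (i * d : ℕ))) <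
      sig d (K.pat x) n (i + 1) (ctr (n + i * d) w) + KK d (K.pat x) (n + i * d) w} ≤
      ENNReal.ofReal ((2 : ℝ) ^ (β * (i * d : ℕ) * (-(r : ℝ)))) * B := by
    intro w hw
    have ms := K.sig_meas hd7 n (i + 1) (ctr (n + i * d) w)
    have mk := K.KK_meas hd7 (n + i * d) w
    have hM := unif_markov (K.P n g) (ms.fun_add mk)
      (a := (2 : ℝ) ^ (β * (i * d : ℕ))) (p := r) (by positivity) (by linarith)
    rw [← Real.rpow_mul (by norm_num)] at hM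
    refine hM.trans (mul_le_mul_right ?_ _)
    have hs := h₁ (i + 1) n v g (ctr (n + i * d) w) hW
      (box_subset_of_kids hw (ctr_mem_box _ _))
    have hK := h₂ n (i * d) (ctr n v) g w (hW.sub (sub_kids hw)) (sub_kids hw)
    calc ∫⁻ x, (sig d (K.pat x) n (i + 1) (ctr (n + i * d) w) +
            KK d (K.pat x) (n + i * d) w) ^ (r : ℝ) ∂K.P n g
        ≤ ∫⁻ x, (2 : ℝ≥0∞) ^ ((r : ℝ) - 1) *
            (sig d (K.pat x) n (i + 1) (ctr (n + i * d) w) ^ r +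
              KK d (K.pat x) (n + i * d) w ^ r) ∂K.P n g := by
          apply lintegral_mono
          intro x
          have := ENNReal.rpow_add_le_mul_rpow_add_rpow
            (sig d (K.pat x) n (i + 1) (ctr (n + i * d) w)) (KK d (K.pat x) (n + i * d) w) hr1'
          simpa only [ENNReal.rpow_natCast] using this
      _ = (2 : ℝ≥0∞) ^ ((r : ℝ) - 1) *
            (∫⁻ x, sig d (K.pat x) n (i + 1) (ctr (n + i * d) w) ^ r ∂K.P n g +
              ∫⁻ x, KK d (K.pat x) (n + i * d) w ^ r ∂K.P n g) := by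
          rw [lintegral_const_mul _ ((ms.pow_const r).fun_add (mk.pow_const r)),
            lintegral_add_left (ms.pow_const r)]
      _ ≤ B := by
          rw [hB, add_mul]
          refine mul_le_mul_right (add_le_add (hs.trans ?_) (hK.trans ?_)) _
          · exact mul_le_mul_right hw0 _
          · exact mul_le_mul_right hw0 _
  refine (unif_kids_le (K.P n g) (i * d) v _ hk).trans ?_
  rw [← mul_assoc, mul_comm _ B]
  refine mul_le_mul_right (unif_pow_le ?_) _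
  have hi : (i : ℝ) ≤ ((i * d : ℕ) : ℝ) := by
    exact_mod_cast Nat.le_mul_of_pos_right i (by omega)
  have hi0 : (0 : ℝ) ≤ ((i * d : ℕ) : ℝ) := Nat.cast_nonneg _
  nlinarith [mul_le_mul_of_nonneg_left hβr hi0]

theorem unif_ZZ_soft (hd : K.Good d) (j : ℕ) :
    K.Soft fun n v => {x | 1 ≤ (j : ℝ≥0∞) * ZZ d (K.pat x) n v} := by
  obtain ⟨C, hC⟩ := K.ZZ_mom hd le_rfl
  refine soft_of_le (C := j * C) K.θ_pos.le fun n v g hW => ?_
  have mz := K.ZZ_meas hd.1 n v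
  have h := mul_meas_ge_le_lintegral (μ := K.P n g) (mz.const_mul (j : ℝ≥0∞)) 1
  rw [one_mul, lintegral_const_mul _ mz] at h
  refine h.trans ?_
  have h2 := (hC n v g hW).2
  simp only [pow_one] at h2
  push_cast
  rw [mul_assoc]
  exact mul_le_mul_right h2 _

/-- C8 b + c: one deterministic constant for all levels -/
theorem sig_unif (hd : K.Good d) : ∃ C : ℝ≥0, ∀ β : ℝ, 0 < β →
    K.Soft fun n v => {x | ∃ i, ∃ w ∈ kids (i * d) v,
      C * ENNReal.ofReal ((2 : ℝ) ^ (β * (i * d : ℕ))) <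
        sig d (K.pat x) n (i + 1) (ctr (n + i * d) w) + KK d (K.pat x) (n + i * d) w} := by
  have hd7 : 7 ≤ d := hd.1
  obtain ⟨C, hC⟩ := K.KK_lln hd
  refine ⟨1 + C, fun β hβ => soft_of_approx fun ε L hε => ?_⟩
  obtain ⟨j, hj⟩ := K.sig_tail hd hβ ε L hε
  have hE : K.Soft fun n v => {x | 1 ≤ (j : ℝ≥0∞) * ZZ d (K.pat x) n v} ∪
      {x | (C : ℝ≥0∞) < KK d (K.pat x) n v} := (K.unif_ZZ_soft hd j).union hC
  have hm : ∀ n v, MeasurableSet ({x | 1 ≤ (j : ℝ≥0∞) * ZZ d (K.pat x) n v} ∪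
      {x | (C : ℝ≥0∞) < KK d (K.pat x) n v}) := fun n v =>
    (measurableSet_le measurable_const ((K.ZZ_meas hd7 n v).const_mul _)).union
      (measurableSet_lt measurable_const (K.KK_meas hd7 n v))
  refine ⟨_, _, Soft.biUnion (Finset.range j) (fun i _ => hE.kids hm (i * d)), ?_, hj⟩
  rintro n v x ⟨i, w, hw, hx⟩
  have h2 : 1 ≤ ENNReal.ofReal ((2 : ℝ) ^ (β * (i * d : ℕ))) := by
    rw [ENNReal.one_le_ofReal]
    exact Real.one_le_rpow (by norm_num) (by positivity)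
  by_cases hij : j ≤ i
  · refine Or.inr ⟨i, hij, w, hw, lt_of_le_of_lt ?_ hx⟩
    refine le_mul_of_one_le_left' ?_
    push_cast
    exact le_self_add
  · left
    by_contra hn
    have hn' : ∀ i' < j, ∀ w' ∈ kids (i' * d) v,
        (j : ℝ≥0∞) * ZZ d (K.pat x) (n + i' * d) w' ≤ 1 ∧ KK d (K.pat x) (n + i' * d) w' ≤ C := by
      intro i' hi' w' hw'
      constructor
      · by_contra h
        exact hn (mem_iUnion₂.2 ⟨i', Finset.mem_range.2 hi',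
          mem_iUnion₂.2 ⟨w', hw', Or.inl (not_le.1 h).le⟩⟩)
      · by_contra h
        exact hn (mem_iUnion₂.2 ⟨i', Finset.mem_range.2 hi',
          mem_iUnion₂.2 ⟨w', hw', Or.inr (not_le.1 h)⟩⟩)
    have hij' : i < j := not_le.1 hij
    have hz : idx n (ctr (n + i * d) w) = v := idx_ctr_of_kids hw
    have hs : sig d (K.pat x) n (i + 1) (ctr (n + i * d) w) ≤ 1 := by
      have hj0 : (j : ℝ≥0∞) ≠ 0 := by exact_mod_cast (by omega : j ≠ 0)
      rw [← ENNReal.mul_le_mul_iff_right hj0 (ENNReal.natCast_ne_top j), mul_one, sig,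
        Finset.mul_sum]
      calc ∑ i' ∈ Finset.range (i + 1), (j : ℝ≥0∞) *
            ZZ d (K.pat x) (n + i' * d) (idx (n + i' * d) (ctr (n + i * d) w))
          ≤ ∑ i' ∈ Finset.range (i + 1), (1 : ℝ≥0∞) := by
            refine Finset.sum_le_sum fun i' hi' => ?_
            have := Finset.mem_range.1 hi'
            exact (hn' i' (by omega) _ (idx_mem_kids.2 hz)).1
        _ = ((i + 1 : ℕ) : ℝ≥0∞) := by simp
        _ ≤ j := by exact_mod_cast hij'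
    have hle : sig d (K.pat x) n (i + 1) (ctr (n + i * d) w) + KK d (K.pat x) (n + i * d) w ≤
        ((1 + C : ℝ≥0) : ℝ≥0∞) * ENNReal.ofReal ((2 : ℝ) ^ (β * (i * d : ℕ))) := by
      refine le_trans ?_ (le_mul_of_one_le_right' h2)
      push_cast
      exact add_le_add hs (hn' i hij' w hw).2
    exact absurd hx (not_lt.2 hle)

/-- C8 d -/
theorem PiD_tail (hd : K.Good d) : ∃ α : ℝ, 0 < α ∧ ∀ (ε : ℝ≥0∞) (L : ℝ≥0), 0 < ε →
    ∃ j : ℕ, ∀ n v g, K.Win n (ctr n v) → oo n (ctr n v) g ≤ L →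
      K.P n g {x | ∃ i, j ≤ i ∧ ∃ w ∈ kids (i * d) v,
        ENNReal.ofReal (Real.exp (K.γ * cc K.Q n (ctr n v) g) * (2 : ℝ) ^ (-(α * (i * d : ℕ)))) <
          PiD d (K.pat x) (n + i * d) w} ≤ ε := by
  have hd7 : 7 ≤ d := hd.1
  have hγ := K.γ_pos
  have hσ := K.σ_pos
  have hz := K.z_σ
  have hθ : 96 * |K.σ| ≤ K.θ := by
    rw [abs_of_pos hσ]
    linarith [K.θ_ge]
  obtain ⟨A, hA⟩ := K.PiD_rpow hd
  obtain ⟨C, hC⟩ := K.lift K.σ hθ
  have hκ : 0 < (K.z K.σ - 2) / 2 := by linarith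
  refine ⟨(K.z K.σ - 2) / 2 * (K.γ / K.σ), by positivity, fun ε L hε => ?_⟩
  set B : ℝ≥0∞ := A * C * ENNReal.ofReal (Real.exp (K.θ * L)) with hB
  have hBt : B ≠ ∞ :=
    ENNReal.mul_ne_top (ENNReal.mul_ne_top ENNReal.coe_ne_top ENNReal.coe_ne_top)
      ENNReal.ofReal_ne_top
  obtain ⟨j, hj⟩ := unif_geom_tail hBt (unif_ratio_lt hκ) hε
  refine ⟨j, fun n v g hW ho => hj (K.P n g) _ fun i => ?_⟩
  set m : ℕ := i * d with hm
  set c : ℝ := cc K.Q n (ctr n v) g with hc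
  have hk : ∀ w ∈ kids m v, K.P n g {x |
      ENNReal.ofReal (Real.exp (K.γ * c) *
        (2 : ℝ) ^ (-((K.z K.σ - 2) / 2 * (K.γ / K.σ) * (m : ℝ)))) < PiD d (K.pat x) (n + m) w} ≤
      ENNReal.ofReal ((2 : ℝ) ^ ((K.z K.σ - 2) / 2 * m - m * K.z K.σ)) * B := by
    intro w hw
    have mp := K.PiD_meas hd7 (n + m) w
    have hM := unif_markov (K.P n g) mp
      (a := Real.exp (K.γ * c) * (2 : ℝ) ^ (-((K.z K.σ - 2) / 2 * (K.γ / K.σ) * (m : ℝ))))
      (p := K.σ / K.γ) (by positivity) (by positivity)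
    have hl := hC n m (ctr n v) (ctr (n + m) w) g A _ (mp.pow_const (K.σ / K.γ)) (sub_kids hw)
      (fun g' => hA (n + m) w g' (hW.sub (sub_kids hw)))
    have hw' := wt_le_of_oo_le K.Q K.σ K.θ_pos.le ho
    rw [← hc] at hw'
    have e1 : (Real.exp (K.γ * c) *
        (2 : ℝ) ^ (-((K.z K.σ - 2) / 2 * (K.γ / K.σ) * (m : ℝ)))) ^ (-(K.σ / K.γ)) =
        Real.exp (-(K.σ * c)) * (2 : ℝ) ^ ((K.z K.σ - 2) / 2 * m) := by
      rw [Real.mul_rpow (by positivity) (by positivity), ← Real.exp_mul,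
        ← Real.rpow_mul (by norm_num)]
      congr 2 <;> field_simp
    have e2 : Real.exp (-(K.σ * c)) * (2 : ℝ) ^ ((K.z K.σ - 2) / 2 * m) *
        ((2 : ℝ) ^ (-(m * K.z K.σ)) * Real.exp (K.σ * c + K.θ * L)) =
        (2 : ℝ) ^ ((K.z K.σ - 2) / 2 * m - m * K.z K.σ) * Real.exp (K.θ * L) := by
      rw [sub_eq_add_neg ((K.z K.σ - 2) / 2 * m), Real.rpow_add (by norm_num), Real.exp_add,
        Real.exp_neg]
      field_simp
    rw [e1] at hM
    calc _ ≤ _ := hM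
      _ ≤ ENNReal.ofReal (Real.exp (-(K.σ * c)) * (2 : ℝ) ^ ((K.z K.σ - 2) / 2 * m)) *
            (A * (C * ENNReal.ofReal ((2 : ℝ) ^ (-(m * K.z K.σ))) *
              ENNReal.ofReal (Real.exp (K.σ * c + K.θ * L)))) :=
          mul_le_mul_right (hl.trans (mul_le_mul_right (mul_le_mul_right hw' _) _)) _
      _ = A * C * ENNReal.ofReal (Real.exp (-(K.σ * c)) * (2 : ℝ) ^ ((K.z K.σ - 2) / 2 * m) *
            ((2 : ℝ) ^ (-(m * K.z K.σ)) * Real.exp (K.σ * c + K.θ * L))) := by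
          rw [ENNReal.ofReal_mul (p := Real.exp (-(K.σ * c)) * (2 : ℝ) ^ ((K.z K.σ - 2) / 2 * m))
            (by positivity), ENNReal.ofReal_mul (p := (2 : ℝ) ^ (-(m * K.z K.σ))) (by positivity)]
          ring
      _ = ENNReal.ofReal ((2 : ℝ) ^ ((K.z K.σ - 2) / 2 * m - m * K.z K.σ)) * B := by
          rw [e2, ENNReal.ofReal_mul (by positivity), hB]
          ring
  refine (unif_kids_le (K.P n g) m v _ hk).trans ?_
  rw [← mul_assoc, mul_comm _ B]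
  refine mul_le_mul_right (unif_pow_le ?_) _
  have hi : (i : ℝ) ≤ (m : ℝ) := by
    exact_mod_cast Nat.le_mul_of_pos_right i (by omega)
  nlinarith [mul_le_mul_of_nonneg_left hi hκ.le]

/-- C8 e -/
theorem sep_prob : ∃ C : ℝ≥0, ∀ J n v g,
    K.P n g {x | ∃ w ∈ kids J v,
      2 ≤ ((K.pat x).pts ∩ osq (ctr (n + J) w) (6 * sc (n + J))).ncard} ≤
      C * ENNReal.ofReal ((2 : ℝ) ^ (-(J * (K.z K.σ - 2)))) * K.w K.σ K.θ n v g := by
  have hθ : 96 * |K.σ| ≤ K.θ := by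
    rw [abs_of_pos K.σ_pos]
    linarith [K.θ_ge, K.σ_pos]
  obtain ⟨A, hA⟩ := K.two
  obtain ⟨C, hC⟩ := K.lift K.σ hθ
  refine ⟨A * C, fun J n v g => ?_⟩
  have hk : ∀ w ∈ kids J v,
      K.P n g {x | 2 ≤ ((K.pat x).pts ∩ osq (ctr (n + J) w) (6 * sc (n + J))).ncard} ≤
      A * (C * ENNReal.ofReal ((2 : ℝ) ^ (-(J * K.z K.σ))) * wt K.Q K.σ K.θ n (ctr n v) g) := by
    intro w hw
    have hE : MeasurableSet
        {x | 2 ≤ ((K.pat x).pts ∩ osq (ctr (n + J) w) (6 * sc (n + J))).ncard} :=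
      measurableSet_le measurable_const (K.cnt_meas _ _)
    rw [← lintegral_indicator_one hE]
    refine hC n J (ctr n v) (ctr (n + J) w) g A _ (measurable_one.indicator hE) (sub_kids hw)
      fun g' => ?_
    rw [lintegral_indicator_one hE]
    exact (hA (n + J) _ g').trans (mul_le_mul_right (wt_mono _ _ K.θ0_le _ _ _) _)
  refine (unif_kids_le (K.P n g) J v _ hk).trans (le_of_eq ?_)
  have e : -((J : ℝ) * (K.z K.σ - 2)) = 2 * (J : ℝ) + -(J * K.z K.σ) := by ring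
  rw [e, ← unif_four_mul, w]
  push_cast
  ring

end Casc

end Pool.Agent.Lib.MP_0d9445_pr.CR
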